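import Mathlib
import Pool.Agent.P.MP_9ed2cf_gt.H14Defs

-- part Pool.Agent.P.MP_9ed2cf_gt.H14Mono
section

set_option autoImplicit false

namespace Pool.Agent.P.MP_9ed2cf_gt.H14

/-- signed Laurent monomials in five variables -/
structure Mono where
  neg : Bool
  e0 : ℤ
  e1 : ℤ
  er : ℤ
  ex : ℤ
  ey : ℤ
deriving DecidableEq

structure Env (A : Type) [CommRing A] where
  s0 : Aˣ
  s1 : Aˣ
  r : Aˣ
  lx : Aˣ
  ly : Aˣ

namespace Mono

def one : Mono := ⟨false, 0, 0, 0, 0, 0⟩
def mul (a b : Mono) : Mono :=
  ⟨xor a.neg b.neg, a.e0 + b.e0, a.e1 + b.e1, a.er + b.er, a.ex + b.ex, a.ey + b.ey⟩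
def zp (a : Mono) (k : ℤ) : Mono :=
  ⟨a.neg && decide (k % 2 = 1), k * a.e0, k * a.e1, k * a.er, k * a.ex, k * a.ey⟩
def sub (g : Mono × Mono) (m : Mono) : Mono :=
  ((⟨m.neg, m.e0, m.e1, m.er, 0, 0⟩ : Mono).mul (g.1.zp m.ex)).mul (g.2.zp m.ey)
def flip (a : Mono) : Mono := ⟨!a.neg, a.e0, a.e1, a.er, a.ex, a.ey⟩
def abs (a : Mono) : Mono := ⟨false, a.e0, a.e1, a.er, a.ex, a.ey⟩

end Mono

variable {A : Type} [CommRing A]

def evU (E : Env A) (m : Mono) : Aˣ :=
  (if m.neg then -1 else 1) * (E.s0 ^ m.e0 * E.s1 ^ m.e1 * E.r ^ m.er * E.lx ^ m.ex * E.ly ^ m.ey)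

def Env.upd (E : Env A) (g : Mono × Mono) : Env A := ⟨E.s0, E.s1, E.r, evU E g.1, evU E g.2⟩

theorem evU_one (E : Env A) : evU E Mono.one = 1 := by simp [evU, Mono.one]

theorem evU_mul (E : Env A) (a b : Mono) : evU E (a.mul b) = evU E a * evU E b := by
  rcases a with ⟨n, a0, a1, ar, ax, ay⟩
  rcases b with ⟨n', b0, b1, br, bx, by'⟩
  cases n <;> cases n' <;> simp [evU, Mono.mul, zpow_add] <;> ac_rfl

theorem evU_zp (E : Env A) (a : Mono) (k : ℤ) : evU E (a.zp k) = evU E a ^ k := by
  rcases a with ⟨n, a0, a1, ar, ax, ay⟩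
  have h : ((if (n && decide (k % 2 = 1)) = true then -1 else 1 : Aˣ)) =
      (if n = true then -1 else 1 : Aˣ) ^ k := by
    cases n
    · simp
    · simp only [Bool.true_and, decide_eq_true_eq, if_true, neg_one_zpow_eq_ite]
      rcases Int.emod_two_eq_zero_or_one k with h | h
      · rw [if_neg (by omega), if_pos (Int.even_iff.2 h)]
      · rw [if_pos h, if_neg (by rw [Int.even_iff]; omega)]
  simp only [evU, Mono.zp, h, mul_zpow, ← zpow_mul, mul_comm k]

theorem evU_sub (E : Env A) (g : Mono × Mono) (m : Mono) :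
    evU (E.upd g) m = evU E (Mono.sub g m) := by
  rw [Mono.sub, evU_mul, evU_mul, evU_zp, evU_zp]
  simp [evU, Env.upd, mul_assoc]

theorem evU_flip (E : Env A) (a : Mono) : evU E a.flip = - evU E a := by
  rcases a with ⟨n, a0, a1, ar, ax, ay⟩
  cases n <;> simp [evU, Mono.flip]

theorem evU_abs (E : Env A) (a : Mono) :
    (evU E a : A) = (((if a.neg then -1 else 1 : ℤ)) : A) * (evU E a.abs : A) := by
  rcases a with ⟨n, a0, a1, ar, ax, ay⟩
  cases n <;> simp [evU, Mono.abs]

def gsub (g h : Mono × Mono) : Mono × Mono := (Mono.sub g h.1, Mono.sub g h.2)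

theorem upd_upd (E : Env A) (g h : Mono × Mono) : (E.upd g).upd h = E.upd (gsub g h) := by
  have h1 := evU_sub E g h.1
  have h2 := evU_sub E g h.2
  simp only [Env.upd, gsub] at *
  rw [h1, h2]

def gid : Mono × Mono := (⟨false, 0, 0, 0, 1, 0⟩, ⟨false, 0, 0, 0, 0, 1⟩)

theorem upd_gid (E : Env A) : E.upd gid = E := by
  cases E; simp [Env.upd, gid, evU]

/-- value of a polynomial given as a list of monomials -/
def evP (E : Env A) (p : List Mono) : A := (p.map fun m => (evU E m : A)).sum

@[simp] theorem evP_nil (E : Env A) : evP E [] = 0 := rfl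
theorem evP_cons (E : Env A) (m : Mono) (p : List Mono) :
    evP E (m :: p) = (evU E m : A) + evP E p := by simp [evP]

def psub (g : Mono × Mono) (p : List Mono) : List Mono := p.map (Mono.sub g)

theorem evP_sub (E : Env A) (g : Mono × Mono) (p : List Mono) :
    evP (E.upd g) p = evP E (psub g p) := by
  simp [evP, psub, evU_sub, Function.comp_def]

abbrev Face := Bool × Bool

section LC

variable {κ : Type}

/-- value of a formal linear combination -/
def val (E : Env A) (Z : κ → A) (L : List (κ × Mono)) : A :=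
  (L.map fun x => (evU E x.2 : A) * Z x.1).sum

@[simp] theorem val_nil (E : Env A) (Z : κ → A) : val E Z [] = 0 := rfl

theorem val_cons (E : Env A) (Z : κ → A) (x : κ × Mono) (L : List (κ × Mono)) :
    val E Z (x :: L) = (evU E x.2 : A) * Z x.1 + val E Z L := by simp [val]

theorem val_append (E : Env A) (Z : κ → A) (L L' : List (κ × Mono)) :
    val E Z (L ++ L') = val E Z L + val E Z L' := by simp [val]

def scale (m : Mono) (L : List (κ × Mono)) : List (κ × Mono) := L.map fun x => (x.1, m.mul x.2)

theorem val_scale (E : Env A) (Z : κ → A) (m : Mono) (L : List (κ × Mono)) :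
    val E Z (scale m L) = (evU E m : A) * val E Z L := by
  induction L with
  | nil => simp [scale]
  | cons x L ih =>
    have : scale m (x :: L) = (x.1, m.mul x.2) :: scale m L := rfl
    rw [this, val_cons, val_cons, ih, evU_mul]; push_cast; ring

def pscale : List Mono → List (κ × Mono) → List (κ × Mono)
  | [], _ => []
  | m :: p, L => scale m L ++ pscale p L

theorem val_pscale (E : Env A) (Z : κ → A) (p : List Mono) (L : List (κ × Mono)) :
    val E Z (pscale p L) = evP E p * val E Z L := by
  induction p with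
  | nil => simp [pscale]
  | cons m p ih => rw [pscale, val_append, val_scale, ih, evP_cons]; ring

def single (k : κ) : List (κ × Mono) := [(k, Mono.one)]

theorem val_single (E : Env A) (Z : κ → A) (k : κ) : val E Z (single k) = Z k := by
  simp [single, val, evU_one]

def sumF (f : Face → List (κ × Mono)) : List (κ × Mono) :=
  f (false, false) ++ (f (false, true) ++ (f (true, false) ++ f (true, true)))

theorem val_sumF (E : Env A) (Z : κ → A) (f : Face → List (κ × Mono)) :
    val E Z (sumF f) = ∑ e : Face, val E Z (f e) := by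
  simp only [sumF, val_append, Fintype.sum_prod_type, Fintype.sum_bool]; ring

def sum4 (f : Fin 4 → List (κ × Mono)) : List (κ × Mono) := f 0 ++ (f 1 ++ (f 2 ++ f 3))

theorem val_sum4 (E : Env A) (Z : κ → A) (f : Fin 4 → List (κ × Mono)) :
    val E Z (sum4 f) = ∑ a : Fin 4, val E Z (f a) := by
  simp only [sum4, val_append, Fin.sum_univ_four]; ring

def negL (L : List (κ × Mono)) : List (κ × Mono) := L.map fun x => (x.1, x.2.flip)

theorem val_negL (E : Env A) (Z : κ → A) (L : List (κ × Mono)) :
    val E Z (negL L) = - val E Z L := by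
  induction L with
  | nil => simp [negL]
  | cons x L ih =>
    have : negL (x :: L) = (x.1, x.2.flip) :: negL L := rfl
    rw [this, val_cons, val_cons, ih, evU_flip]; push_cast; ring

variable [DecidableEq κ]

def ins (k : κ × Mono) (c : ℤ) : List ((κ × Mono) × ℤ) → List ((κ × Mono) × ℤ)
  | [] => [(k, c)]
  | y :: N => if k = y.1 then (if c + y.2 = 0 then N else (k, c + y.2) :: N) else y :: ins k c N

def valN (E : Env A) (Z : κ → A) (N : List ((κ × Mono) × ℤ)) : A :=
  (N.map fun y => (y.2 : A) * ((evU E y.1.2 : A) * Z y.1.1)).sum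

theorem valN_ins (E : Env A) (Z : κ → A) (k : κ × Mono) (c : ℤ) (N : List ((κ × Mono) × ℤ)) :
    valN E Z (ins k c N) = (c : A) * ((evU E k.2 : A) * Z k.1) + valN E Z N := by
  induction N with
  | nil => simp [ins, valN]
  | cons y N ih =>
    unfold ins
    split_ifs with h h2
    · subst h
      have : ((c : A) + (y.2 : A)) = 0 := by exact_mod_cast congrArg (Int.cast : ℤ → A) h2
      simp only [valN, List.map_cons, List.sum_cons]
      linear_combination (-((evU E y.1.2 : A) * Z y.1.1)) * this
    · subst h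
      simp only [valN, List.map_cons, List.sum_cons]; push_cast; ring
    · simp only [valN, List.map_cons, List.sum_cons] at ih ⊢
      rw [ih]; ring

def nf : List (κ × Mono) → List ((κ × Mono) × ℤ)
  | [] => []
  | x :: L => ins (x.1, x.2.abs) (if x.2.neg then -1 else 1) (nf L)

theorem valN_nf (E : Env A) (Z : κ → A) (L : List (κ × Mono)) : valN E Z (nf L) = val E Z L := by
  induction L with
  | nil => simp [nf, valN]
  | cons x L ih => rw [nf, valN_ins, ih, val_cons, evU_abs E x.2]; ring

def chk (L : List (κ × Mono)) : Bool := (nf L).isEmpty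

theorem val_of_chk (E : Env A) (Z : κ → A) (L : List (κ × Mono)) (h : chk L = true) :
    val E Z L = 0 := by
  rw [← valN_nf]
  have : nf L = [] := by simpa [chk] using h
  simp [this, valN]

end LC

end Pool.Agent.P.MP_9ed2cf_gt.H14
end

-- part Pool.Agent.P.MP_9ed2cf_gt.H14Face
section

set_option autoImplicit false

namespace Pool.Agent.P.MP_9ed2cf_gt.H14

/-! The face model: two independent systems of markers (Kauffman states). -/

def okM (m : Fin 4) (L B R : Bool) : Bool :=
  match m.val with
  | 0 => !B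
  | 1 => B && !R
  | 2 => B
  | _ => B && !L
def outL (m : Fin 4) (L : Bool) : Bool := L || decide (m.val = 3)
def outT (m : Fin 4) : Bool := decide (m.val = 2)
def outR (m : Fin 4) (R : Bool) : Bool := R || decide (m.val = 1)
/-- the marker is adjacent to the incoming left arm (corners bottom, left) -/
def adjL (m : Fin 4) : Bool := decide (m.val = 0) || decide (m.val = 3)
/-- the marker is adjacent to the incoming right arm (corners bottom, right) -/
def adjR (m : Fin 4) : Bool := decide (m.val = 0) || decide (m.val = 1)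
def io (pos : Bool) (m : Fin 4) : Bool := if pos then adjL m else adjR m
def iu (pos : Bool) (m : Fin 4) : Bool := if pos then adjR m else adjL m

def ff : Face := (false, false)
def tt : Face := (true, true)
def orF (a b : Face) : Face := (a.1 || b.1, a.2 || b.2)
def clash (a b : Face) : Bool := (a.1 && b.1) || (a.2 && b.2)

section Face

variable {S : Type} [CommSemiring S]

def fcross (K : Bool → Bool → Bool → S) (pos : Bool) (L B R : Face) (X : Face → Face → Face → S) :
    S :=
  ∑ mx : Fin 4, ∑ my : Fin 4,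
    (if okM mx L.1 B.1 R.1 && okM my L.2 B.2 R.2 then K pos (io pos mx) (iu pos my) else 0) *
      X (outL mx L.1, outL my L.2) (outT mx, outT my) (outR mx R.1, outR my R.2)

def fcup (s : Face) (X : Face → Face → Face → S) : S :=
  ∑ z : Face, (if clash s z then 0 else 1) * X (orF s (!z.1, !z.2)) ff (orF s z)

def fcap (L B R : Face) (X : Face → S) : S :=
  (if decide (B = tt) && !clash L R then 1 else 0) * X (orF L R)

def fstep (K : Bool → Bool → Bool → S) : Slice → (List Face → S) → List Face → S
  | .cross i pos, G, t => fcross K pos (t.getD i ff) (t.getD (i + 1) ff) (t.getD (i + 2) ff)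
      fun a b c => G (t.take i ++ a :: b :: c :: t.drop (i + 3))
  | .cup i _, G, t => fcup (t.getD i ff) fun a b c => G (t.take i ++ a :: b :: c :: t.drop (i + 1))
  | .cap i _, G, t => fcap (t.getD i ff) (t.getD (i + 1) ff) (t.getD (i + 2) ff)
      fun a => G (t.take i ++ a :: t.drop (i + 3))

def frun (K : Bool → Bool → Bool → S) (G : List Face → S) : List Slice → List Face → S
  | [], t => G t
  | s :: D, t => fstep K s (frun K G D) t

def Slice.shift : Slice → Slice
  | .cross i pos => .cross (i + 1) pos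
  | .cup i d => .cup (i + 1) d
  | .cap i d => .cap (i + 1) d

theorem fstep_shift (K : Bool → Bool → Bool → S) (s : Slice) (G : List Face → S) (a : Face)
    (t : List Face) : fstep K s.shift G (a :: t) = fstep K s (fun t => G (a :: t)) t := by
  cases s <;> simp [fstep, Slice.shift]

theorem map_fstep {S' : Type} [CommSemiring S'] (φ : S →+* S') (c : S')
    (K : Bool → Bool → Bool → S) (s : Slice) (G : List Face → S) (t : List Face) :
    fstep (fun a b e => φ (K a b e)) s (fun t => c * φ (G t)) t = c * φ (fstep K s G t) := by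
  cases s with
  | cross i pos =>
    simp only [fstep, fcross, map_sum, map_mul, Finset.mul_sum, apply_ite φ, map_zero]
    refine Finset.sum_congr rfl fun _ _ => Finset.sum_congr rfl fun _ _ => ?_
    ring
  | cup i d =>
    simp only [fstep, fcup, map_sum, map_mul, Finset.mul_sum, apply_ite φ, map_zero, map_one]
    refine Finset.sum_congr rfl fun _ _ => ?_
    ring
  | cap i d =>
    simp only [fstep, fcap, map_mul, apply_ite φ, map_zero, map_one]
    ring

theorem map_frun {S' : Type} [CommSemiring S'] (φ : S →+* S') (c : S')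
    (K : Bool → Bool → Bool → S) (G : List Face → S) (D : List Slice) (t : List Face) :
    frun (fun a b e => φ (K a b e)) (fun t => c * φ (G t)) D t = c * φ (frun K G D t) := by
  induction D generalizing t with
  | nil => rfl
  | cons s D ih =>
    have : frun (fun a b e => φ (K a b e)) (fun t => c * φ (G t)) D =
        fun t => c * φ (frun K G D t) := funext ih
    rw [frun, frun, this, map_fstep]

end Face

/-! The vertex-face intertwiner. -/

def nUp (a : Fin 4) : Face :=
  (decide (a.val = 2) || decide (a.val = 3), decide (a.val = 1) || decide (a.val = 3))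

def rem (d : Bool) (a : Fin 4) (l : Face) : Face :=
  ((if d then (nUp a).1 else !(nUp a).1) && !l.1, (if d then (nUp a).2 else !(nUp a).2) && !l.2)

def Wp (d : Bool) (a : Fin 4) (l : Face) : List Mono :=
  match d, a.val, l.1, l.2 with
  | true, 0, false, false => [⟨false, 0, 0, 0, 0, 0⟩]
  | true, 1, false, false => [⟨false, 0, 0, 0, 0, 0⟩]
  | true, 1, false, true => [⟨true, 1, 0, 0, 0, 0⟩]
  | true, 2, false, false => [⟨false, 0, 0, 0, 0, 0⟩]
  | true, 2, true, false => [⟨true, 1, 0, 0, 0, 0⟩]
  | true, 3, false, false => [⟨true, 0, 1, 1, 0, 0⟩]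
  | true, 3, true, false => [⟨true, 0, 0, 1, 0, 0⟩]
  | true, 3, false, true => [⟨false, 1, 1, 1, 0, 0⟩]
  | true, 3, true, true => [⟨false, 1, 0, 1, 0, 0⟩]
  | false, 0, false, false => [⟨true, 0, 0, 0, -1, -1⟩]
  | false, 0, false, true => [⟨true, -1, 0, 0, -1, -1⟩]
  | false, 0, true, false => [⟨true, -1, 0, 0, -1, -1⟩]
  | false, 0, true, true => [⟨true, -2, 0, 0, -1, -1⟩]
  | false, 1, false, false => [⟨true, 0, 1, 0, -1, -1⟩]
  | false, 1, true, false => [⟨false, 0, 2, 0, -1, -1⟩]
  | false, 2, false, false => [⟨false, -1, 0, 0, -1, -1⟩]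
  | false, 2, false, true => [⟨false, -2, 0, 0, -1, -1⟩]
  | false, 3, false, false => [⟨false, 0, 1, -1, -1, -1⟩]
  | _, _, _, _ => []

def Fg (d β : Bool) (a : Fin 4) : Mono × Mono :=
  (if (nUp a).2 then ⟨β, 0, if d then 1 else -1, 0, 1, 0⟩
    else ⟨!β, if d then -1 else 1, 0, 0, 1, 0⟩,
   ⟨β, if d then 1 else -1, 0, 0, 0, 1⟩)

def cmp (b l : Face) : List Mono :=
  if clash b l then []
  else [⟨false, 0, 0, 0, if (orF b l).1 then 1 else 0, if (orF b l).2 then 1 else 0⟩]

variable {A : Type} [CommRing A]

def Psi : List (Bool × Bool) → Env A → Face → List (Fin 4) → (List Face → A) → A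
  | [], _, l, _, G => if l = ff then G [] else 0
  | x :: q, E, l, u, G => evP E (Wp x.1 (u.headD 0) l) *
      ∑ l' : Face, evP (E.upd (Fg x.1 x.2 (u.headD 0))) (cmp (rem x.1 (u.headD 0) l) l') *
        Psi q (E.upd (Fg x.1 x.2 (u.headD 0))) l' u.tail
          fun t => G (orF (rem x.1 (u.headD 0) l) l' :: t)

def Phi (q : List (Bool × Bool)) (E : Env A) (b : Face) (u : List (Fin 4)) (G : List Face → A) :
    A :=
  ∑ l : Face, evP E (cmp b l) * Psi q E l u fun t => G (orF b l :: t)

theorem Phi_cons (x : Bool × Bool) (q : List (Bool × Bool)) (E : Env A) (b : Face) (a : Fin 4)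
    (u : List (Fin 4)) (G : List Face → A) :
    Phi (x :: q) E b (a :: u) G = ∑ l : Face, evP E (cmp b l) * (evP E (Wp x.1 a l) *
      Phi q (E.upd (Fg x.1 x.2 a)) (rem x.1 a l) u fun t => G (orF b l :: t)) := rfl

theorem Psi_sum {ι : Type} [Fintype ι] (c : ι → A) (q : List (Bool × Bool)) :
    ∀ (E : Env A) (l : Face) (u : List (Fin 4)) (H : ι → List Face → A),
      Psi q E l u (fun t => ∑ i, c i * H i t) = ∑ i, c i * Psi q E l u (H i) := by
  induction q with
  | nil =>
    intro E l u H
    simp only [Psi]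
    split_ifs <;> simp
  | cons x q ih =>
    intro E l u H
    simp only [Psi, ih, Finset.mul_sum]
    rw [Finset.sum_comm]
    refine Finset.sum_congr rfl fun _ _ => Finset.sum_congr rfl fun _ _ => ?_
    ring

theorem Psi_mul (c : A) (q : List (Bool × Bool)) (E : Env A) (l : Face) (u : List (Fin 4))
    (H : List Face → A) : Psi q E l u (fun t => c * H t) = c * Psi q E l u H := by
  have := Psi_sum (ι := Unit) (fun _ => c) q E l u (fun _ => H)
  simpa using this

theorem Psi_sum2 (c : Fin 4 → Fin 4 → A) (q : List (Bool × Bool)) (E : Env A) (l : Face)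
    (u : List (Fin 4)) (H : Fin 4 → Fin 4 → List Face → A) :
    Psi q E l u (fun t => ∑ i, ∑ j, c i j * H i j t) = ∑ i, ∑ j, c i j * Psi q E l u (H i j) := by
  have := Psi_sum (ι := Fin 4 × Fin 4) (fun x => c x.1 x.2) q E l u (fun x => H x.1 x.2)
  simpa only [Fintype.sum_prod_type] using this

/-! Reflection of two sites of the intertwiner. -/

def phi2 {κ : Type} (x0 x1 : Bool × Bool) (b : Face) (c e : Fin 4)
    (cont : Mono × Mono → Face → Face → Face → Face → List (κ × Mono)) : List (κ × Mono) :=
  sumF fun e0 => pscale (cmp b e0) (pscale (Wp x0.1 c e0)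
    (sumF fun e1 => pscale (psub (Fg x0.1 x0.2 c) (cmp (rem x0.1 c e0) e1))
      (pscale (psub (Fg x0.1 x0.2 c) (Wp x1.1 e e1))
        (sumF fun l => pscale
          (psub (gsub (Fg x0.1 x0.2 c) (Fg x1.1 x1.2 e)) (cmp (rem x1.1 e e1) l))
          (cont (gsub (Fg x0.1 x0.2 c) (Fg x1.1 x1.2 e)) l (orF b e0) (orF (rem x0.1 c e0) e1)
            (orF (rem x1.1 e e1) l))))))

theorem phi2_val {κ : Type} (x0 x1 : Bool × Bool) (q : List (Bool × Bool)) (E : Env A) (b : Face)
    (c e : Fin 4) (u : List (Fin 4)) (G : List Face → A) (Z : κ → A)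
    (cont : Mono × Mono → Face → Face → Face → Face → List (κ × Mono))
    (h : ∀ g l s1 s2 s3, val E Z (cont g l s1 s2 s3) =
      Psi q (E.upd g) l u fun t => G (s1 :: s2 :: s3 :: t)) :
    Phi (x0 :: x1 :: q) E b (c :: e :: u) G = val E Z (phi2 x0 x1 b c e cont) := by
  simp only [Phi_cons, phi2, val_sumF, val_pscale, h, ← evP_sub, upd_upd]
  rfl

def phi0 {κ : Type} (b : Face) (cont : Face → Face → List (κ × Mono)) : List (κ × Mono) :=
  sumF fun l => pscale (cmp b l) (cont l (orF b l))

theorem phi0_val {κ : Type} (q : List (Bool × Bool)) (E : Env A) (b : Face)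
    (u : List (Fin 4)) (G : List Face → A) (Z : κ → A) (cont : Face → Face → List (κ × Mono))
    (h : ∀ l s, val E Z (cont l s) = Psi q (E.upd gid) l u fun t => G (s :: t)) :
    Phi q E b u G = val E Z (phi0 b cont) := by
  simp only [phi0, val_sumF, val_pscale, h, upd_gid]
  rfl

end Pool.Agent.P.MP_9ed2cf_gt.H14
end
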