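import Mathlib
import Pool.Agent.K.MP_9ed2cf_gt.C0

set_option autoImplicit false

namespace Pool.Agent.P.MP_9ed2cf_gt.H14

def Rp (o i : Fin 4 × Fin 4) : List Mono :=
  match o.1.val, o.2.val, i.1.val, i.2.val with
  | 0, 0, 0, 0 => [⟨false, 2, 0, 0, 0, 0⟩]
  | 0, 1, 1, 0 => [⟨false, 1, 0, 0, 0, 0⟩]
  | 0, 2, 2, 0 => [⟨false, 1, 0, 0, 0, 0⟩]
  | 0, 3, 3, 0 => [⟨false, 0, 0, 0, 0, 0⟩]
  | 1, 0, 0, 1 => [⟨false, 1, 0, 0, 0, 0⟩]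
  | 1, 0, 1, 0 => [⟨true, 0, 0, 0, 0, 0⟩, ⟨false, 2, 0, 0, 0, 0⟩]
  | 1, 1, 1, 1 => [⟨true, 0, 0, 0, 0, 0⟩]
  | 1, 2, 1, 2 => [⟨true, 0, 0, 0, 0, 0⟩, ⟨false, 2, 2, 0, 0, 0⟩]
  | 1, 2, 2, 1 => [⟨true, 1, 1, 0, 0, 0⟩]
  | 1, 2, 3, 0 => [⟨true, 1, 1, 1, 0, 0⟩, ⟨false, 1, 3, 1, 0, 0⟩]
  | 1, 3, 3, 1 => [⟨false, 0, 1, 0, 0, 0⟩]
  | 2, 0, 0, 2 => [⟨false, 1, 0, 0, 0, 0⟩]
  | 2, 0, 2, 0 => [⟨true, 0, 0, 0, 0, 0⟩, ⟨false, 2, 0, 0, 0, 0⟩]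
  | 2, 1, 1, 2 => [⟨true, 1, 1, 0, 0, 0⟩]
  | 2, 1, 3, 0 => [⟨false, 0, 0, 1, 0, 0⟩, ⟨true, 0, 2, 1, 0, 0⟩]
  | 2, 2, 2, 2 => [⟨true, 0, 0, 0, 0, 0⟩]
  | 2, 3, 3, 2 => [⟨false, 0, 1, 0, 0, 0⟩]
  | 3, 0, 0, 3 => [⟨false, 0, 0, 0, 0, 0⟩]
  | 3, 0, 1, 2 => [⟨false, 1, 1, -1, 0, 0⟩, ⟨true, 3, 1, -1, 0, 0⟩]
  | 3, 0, 2, 1 => [⟨true, 0, 0, -1, 0, 0⟩, ⟨false, 2, 0, -1, 0, 0⟩]
  | 3, 0, 3, 0 => [⟨true, 0, 0, 0, 0, 0⟩, ⟨false, 0, 2, 0, 0, 0⟩, ⟨false, 2, 0, 0, 0, 0⟩, ⟨true, 2, 2, 0, 0, 0⟩]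
  | 3, 1, 1, 3 => [⟨false, 0, 1, 0, 0, 0⟩]
  | 3, 1, 3, 1 => [⟨true, 0, 0, 0, 0, 0⟩, ⟨false, 0, 2, 0, 0, 0⟩]
  | 3, 2, 2, 3 => [⟨false, 0, 1, 0, 0, 0⟩]
  | 3, 2, 3, 2 => [⟨true, 0, 0, 0, 0, 0⟩, ⟨false, 0, 2, 0, 0, 0⟩]
  | 3, 3, 3, 3 => [⟨false, 0, 2, 0, 0, 0⟩]
  | _, _, _, _ => []

def Rq (o i : Fin 4 × Fin 4) : List Mono :=
  match o.1.val, o.2.val, i.1.val, i.2.val with
  | 0, 0, 0, 0 => [⟨false, -2, 0, 0, 0, 0⟩]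
  | 0, 1, 0, 1 => [⟨false, -2, 0, 0, 0, 0⟩, ⟨true, 0, 0, 0, 0, 0⟩]
  | 0, 1, 1, 0 => [⟨false, -1, 0, 0, 0, 0⟩]
  | 0, 2, 0, 2 => [⟨false, -2, 0, 0, 0, 0⟩, ⟨true, 0, 0, 0, 0, 0⟩]
  | 0, 2, 2, 0 => [⟨false, -1, 0, 0, 0, 0⟩]
  | 0, 3, 0, 3 => [⟨true, -2, -2, 0, 0, 0⟩, ⟨false, -2, 0, 0, 0, 0⟩, ⟨false, 0, -2, 0, 0, 0⟩, ⟨true, 0, 0, 0, 0, 0⟩]
  | 0, 3, 1, 2 => [⟨true, -1, -1, -1, 0, 0⟩, ⟨false, 1, -1, -1, 0, 0⟩]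
  | 0, 3, 2, 1 => [⟨false, -2, -2, -1, 0, 0⟩, ⟨true, 0, -2, -1, 0, 0⟩]
  | 0, 3, 3, 0 => [⟨false, 0, 0, 0, 0, 0⟩]
  | 1, 0, 0, 1 => [⟨false, -1, 0, 0, 0, 0⟩]
  | 1, 1, 1, 1 => [⟨true, 0, 0, 0, 0, 0⟩]
  | 1, 2, 0, 3 => [⟨false, -1, -1, 1, 0, 0⟩, ⟨true, -1, 1, 1, 0, 0⟩]
  | 1, 2, 2, 1 => [⟨true, -1, -1, 0, 0, 0⟩]
  | 1, 3, 1, 3 => [⟨false, 0, -2, 0, 0, 0⟩, ⟨true, 0, 0, 0, 0, 0⟩]
  | 1, 3, 3, 1 => [⟨false, 0, -1, 0, 0, 0⟩]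
  | 2, 0, 0, 2 => [⟨false, -1, 0, 0, 0, 0⟩]
  | 2, 1, 0, 3 => [⟨true, -2, -2, 1, 0, 0⟩, ⟨false, -2, 0, 1, 0, 0⟩]
  | 2, 1, 1, 2 => [⟨true, -1, -1, 0, 0, 0⟩]
  | 2, 1, 2, 1 => [⟨false, -2, -2, 0, 0, 0⟩, ⟨true, 0, 0, 0, 0, 0⟩]
  | 2, 2, 2, 2 => [⟨true, 0, 0, 0, 0, 0⟩]
  | 2, 3, 2, 3 => [⟨false, 0, -2, 0, 0, 0⟩, ⟨true, 0, 0, 0, 0, 0⟩]
  | 2, 3, 3, 2 => [⟨false, 0, -1, 0, 0, 0⟩]
  | 3, 0, 0, 3 => [⟨false, 0, 0, 0, 0, 0⟩]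
  | 3, 1, 1, 3 => [⟨false, 0, -1, 0, 0, 0⟩]
  | 3, 2, 2, 3 => [⟨false, 0, -1, 0, 0, 0⟩]
  | 3, 3, 3, 3 => [⟨false, 0, -2, 0, 0, 0⟩]
  | _, _, _, _ => []

def Rpq (pos : Bool) (o i : Fin 4 × Fin 4) : List Mono := if pos then Rp o i else Rq o i

def Km (pos a b : Bool) : Mono :=
  if a && b then ⟨true, if pos then 2 else -2, 0, 0, 0, 0⟩
  else if !a && !b then ⟨true, 0, if pos then 2 else -2, 0, 0, 0⟩ else Mono.one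

def muM (a : Fin 4) : Mono :=
  match a.val with
  | 0 => ⟨false, -2, 0, 0, 0, 0⟩
  | 1 => ⟨true, 0, 2, 0, 0, 0⟩
  | 2 => ⟨true, -2, 0, 0, 0, 0⟩
  | _ => ⟨false, 0, 2, 0, 0, 0⟩

def muI (a : Fin 4) : Mono := (muM a).zp (-1)

structure Key where
  s1 : Face
  s2 : Face
  s3 : Face
  l : Face
  g : Mono × Mono
deriving DecidableEq

def contId (g : Mono × Mono) (l s1 s2 s3 : Face) : List (Key × Mono) := single ⟨s1, s2, s3, l, g⟩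

def contCross (pos : Bool) (g : Mono × Mono) (l L B R : Face) : List (Key × Mono) :=
  sum4 fun mx => sum4 fun my =>
    pscale (if okM mx L.1 B.1 R.1 && okM my L.2 B.2 R.2 then [Km pos (io pos mx) (iu pos my)]
      else [])
      (single ⟨(outL mx L.1, outL my L.2), (outT mx, outT my), (outR mx R.1, outR my R.2), l, g⟩)

def crossL (pos : Bool) (b : Face) (a0 a1 : Fin 4) : List (Key × Mono) :=
  sum4 fun c => sum4 fun e => pscale (Rpq pos (c, e) (a0, a1))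
    (phi2 (true, pos) (true, !pos) b c e contId)

def crossR (pos : Bool) (b : Face) (a0 a1 : Fin 4) : List (Key × Mono) :=
  phi2 (true, pos) (true, !pos) b a0 a1 (contCross pos)

theorem cross_chk_true : ∀ (b : Face) (a0 a1 : Fin 4),
    chk (crossL true b a0 a1 ++ crossR true b a0 a1) = true := by decide +kernel

theorem cross_chk_false : ∀ (b : Face) (a0 a1 : Fin 4),
    chk (crossL false b a0 a1 ++ crossR false b a0 a1) = true := by decide +kernel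

def cupL (d β : Bool) (b : Face) : List (Key × Mono) :=
  sum4 fun a => pscale [if d then Mono.one else muI a] (phi2 (d, β) (!d, β) b a a contId)

def contCup (l s : Face) : List (Key × Mono) :=
  sumF fun z => pscale (if clash s z then [] else [Mono.one])
    (single ⟨orF s (!z.1, !z.2), ff, orF s z, l, gid⟩)

def cupR (b : Face) : List (Key × Mono) := phi0 b contCup

theorem cup_chk : ∀ (d β : Bool) (b : Face),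
    chk (cupL d β b ++ if d then negL (cupR b) else cupR b) = true := by decide +kernel

def capL (d : Bool) (b : Face) (a0 a1 : Fin 4) : List (Key × Mono) :=
  pscale (if a0 = a1 then [if d then muM a0 else Mono.one] else [])
    (phi0 b fun l s => single ⟨s, ff, ff, l, gid⟩)

def contCap (g : Mono × Mono) (l L B R : Face) : List (Key × Mono) :=
  pscale (if decide (B = tt) && !clash L R then [Mono.one] else [])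
    (single ⟨orF L R, ff, ff, l, g⟩)

def capR (d β : Bool) (b : Face) (a0 a1 : Fin 4) : List (Key × Mono) :=
  phi2 (d, β) (!d, β) b a0 a1 contCap

theorem cap_chk : ∀ (d β : Bool) (b : Face) (a0 a1 : Fin 4),
    chk (capL d b a0 a1 ++ if d then capR d β b a0 a1 else negL (capR d β b a0 a1)) = true := by
  decide +kernel

def invL (o i : Fin 4 × Fin 4) : List (Unit × Mono) :=
  (sum4 fun c => sum4 fun e => pscale (Rp o (c, e)) (pscale (Rq (c, e) i) (single ()))) ++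
    (if o = i then negL (single ()) else [])

theorem inv_chk : ∀ o i : Fin 4 × Fin 4, chk (invL o i) = true := by decide +kernel

end Pool.Agent.P.MP_9ed2cf_gt.H14
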