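import Mathlib
import Pool.Agent.K.MP_9ed2cf_gt.C0
import Pool.Agent.K.MP_9ed2cf_gt.C3

-- part Pool.Agent.P.MP_9ed2cf_gt.NzDefs
section

set_option autoImplicit false

namespace Pool.Agent.P.MP_9ed2cf_gt.Nz

open Equiv Finset
open scoped Classical

/-- Nodes `A` (pieces of strands, directed from over to under), crossings `V`.  `σ` is the next node
on the Seifert circle, `ty` the type of the circle, `inn t x` the arm of type `t` that enters the
crossing `x`, and `s x` the sign. -/
structure Pl (A V : Type) where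
  σ : Perm A
  inn : Bool → V → A
  ty : A → Bool
  s : V → Bool
  inj : ∀ t x t' x', inn t x = inn t' x' → x = x'
  ty_σ : ∀ a, ty (σ a) = ty a
  ty_inn : ∀ t x, ty (inn t x) = t

/-- number of `x ∈ Q` with `X x = true`, `Y x = false` -/
noncomputable def cn {V : Type} (Q : Finset V) (X Y : V → Bool) : ℕ :=
  (Q.filter fun x => X x = true ∧ Y x = false).card

/-- number of `x ∈ Q` with `χ x ≠ t` -/
noncomputable def nf {V : Type} (Q : Finset V) (χ : V → Bool) (t : Bool) : ℕ :=
  (Q.filter fun x => χ x ≠ t).card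

namespace Pl

variable {A V : Type} (P : Pl A V)

def out (t : Bool) (x : V) : A := P.σ (P.inn t x)

def Pass (a : A) : Prop := ∀ t x, a ≠ P.inn t x

def SC (a a' : A) : Prop := P.σ.SameCycle a a'

def Cons (g : A → ℤ) : Prop :=
  (∀ a, P.Pass a → g (P.σ a) = g a) ∧
    ∀ x, g (P.out false x) + g (P.out true x) = g (P.inn false x) + g (P.inn true x)

/-- functions on the faces whose boundary changes type at the crossings of sign `e` -/
def FaceFn (e : Bool) (W : A → ℤ) : Prop :=
  (∀ a, P.Pass a → W (P.σ a) = W a) ∧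
    ∀ t x, W (P.out (if P.s x = e then !t else t) x) = W (P.inn t x)

def Planar : Prop :=
  ∀ g : A → ℤ, P.Cons g → ∃ L R : A → ℤ, P.FaceFn true L ∧ P.FaceFn false R ∧ ∀ a, L a - R a = g a

noncomputable def nxt (χ : V → Bool) (a : A) : A :=
  if h : ∃ x, a = P.inn (P.ty a) x then P.out (χ h.choose) h.choose else P.σ a

def Reach (χ : V → Bool) (a a' : A) : Prop := ∃ n : ℕ, (P.nxt χ)^[n] a = a'

def Tree (χ : V → Bool) (b : A) : Prop := ∀ a, P.Reach χ a b

def rev : Pl A V where
  σ := P.σ⁻¹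
  inn := fun t x => P.σ (P.inn t x)
  ty := P.ty
  s := P.s
  inj := fun t x t' x' h => P.inj t x t' x' (P.σ.injective h)
  ty_σ := fun a => by rw [← P.ty_σ (P.σ⁻¹ a)]; simp
  ty_inn := fun t x => by rw [P.ty_σ, P.ty_inn]

def neg : Pl A V where
  σ := P.σ
  inn := P.inn
  ty := P.ty
  s := fun x => !P.s x
  inj := P.inj
  ty_σ := P.ty_σ
  ty_inn := P.ty_inn

/-- `d` is the distance of the circles from the circle of `b` -/
structure Dist (b : A) (d : A → ℕ) : Prop where
  d_σ : ∀ a, d (P.σ a) = d a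
  d_zero : ∀ a, d a = 0 ↔ P.SC a b
  d_adj : ∀ x, d (P.inn false x) + 1 = d (P.inn true x) ∨ d (P.inn true x) + 1 = d (P.inn false x)
  d_par : ∀ a, 0 < d a → ∃ t x, P.SC a (P.inn t x) ∧ d (P.inn (!t) x) + 1 = d a

/-- `sd c a` is the side of the circle of `c` on which the node `a` (not on that circle) lies -/
structure Side (sd : A → A → Bool) : Prop where
  sd_c : ∀ c c', P.SC c c' → sd c = sd c'
  sd_σ : ∀ c a, ¬ P.SC c a → sd c (P.σ a) = sd c a
  sd_x : ∀ c x, ¬ P.SC c (P.inn false x) → ¬ P.SC c (P.inn true x) →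
    sd c (P.inn false x) = sd c (P.inn true x)
  sd_s : ∀ c t x, P.SC c (P.inn t x) → sd c (P.inn (!t) x) = P.s x

/-- follow the nearer circle -/
def Z (d : A → ℕ) (x : V) : Bool := decide (d (P.inn true x) < d (P.inn false x))

/-- the circle of `c` is a root for the crossings of sign `e` -/
def Root (sd : A → A → Bool) (b : A) (e : Bool) (c : A) : Prop := P.SC c b ∨ sd c b ≠ e

/-- the crossing `x` is on the positive side of the circle of `c` -/
def PS (sd : A → A → Bool) (c : A) (x : V) : Prop :=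
  ∀ t, ¬ P.SC c (P.inn t x) → sd c (P.inn t x) = true

/-- `Q` is a union of components of positive crossings -/
def Act (Q : Finset V) : Prop :=
  (∀ x ∈ Q, P.s x = true) ∧
    ∀ x ∈ Q, ∀ y t, P.s y = true → P.SC (P.inn t x) (P.inn t y) → y ∈ Q

def Fam (d : A → ℕ) (Q : Finset V) (χ : V → Bool) : Prop := ∀ x, x ∉ Q → χ x = P.Z d x

structure Key (d : A → ℕ) (Q : Finset V) (key : A → ℕ) : Prop where
  k_σ : ∀ a, key (P.σ a) = key a
  k_in : ∀ x ∈ Q, key (P.inn false x) = key (P.inn true x)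
  k_out : ∀ x, x ∉ Q → key (P.inn (P.Z d x) x) < key (P.inn (!P.Z d x) x)

def cl (a : A) : Set A := {a' | P.SC a a'}

/-- number of circles of type `t` that are the farther circle of a crossing in `Q` -/
noncomputable def beta (d : A → ℕ) (Q : Finset V) (t : Bool) : ℕ :=
  ((Q.filter fun x => P.Z d x ≠ t).image fun x => P.cl (P.inn t x)).card

/-- no directed cut: `D1` points to the `true` end, `D2` to the `false` end -/
def NDC (Q D1 D2 : Finset V) : Prop :=
  ∀ T : A → Prop, (∀ a, T (P.σ a) ↔ T a) →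
    (∀ x ∈ Q, T (P.inn true x) → ¬ T (P.inn false x) → x ∈ D1) →
    (∀ x ∈ Q, T (P.inn false x) → ¬ T (P.inn true x) → x ∈ D2) →
    ∀ x ∈ Q, (T (P.inn true x) ↔ T (P.inn false x))

/-- the face permutation that changes type exactly at the crossings in `Q` -/
def IsPhi (Q : Finset V) (φ : Perm A) : Prop :=
  (∀ a, (∀ t, ∀ x ∈ Q, a ≠ P.inn t x) → φ a = P.σ a) ∧
    ∀ t, ∀ x ∈ Q, φ (P.inn t x) = P.out (!t) x

/-- the crossings of `Q` that are not loops -/
noncomputable def nl (Q : Finset V) (φ : Perm A) : Finset V :=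
  Q.filter fun x => ¬ φ.SameCycle (P.inn false x) (P.inn true x)

/-- a rank function on the faces -/
def Rank (Q : Finset V) (φ : Perm A) (r : A → ℕ) : Prop :=
  (∀ a, r (φ a) = r a) ∧ ∀ x ∈ P.nl Q φ, r (P.inn false x) ≠ r (P.inn true x)

noncomputable def asc (Q : Finset V) (r : A → ℕ) : Finset V :=
  Q.filter fun x => r (P.inn false x) < r (P.inn true x)

/-- exit node of a face -/
def Ex (d : A → ℕ) (b : A) (Q : Finset V) (r : A → ℕ) (n : A) : Prop :=
  n = b ∨ ∃ t x, n = P.inn t x ∧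
    ((x ∉ Q ∧ P.Z d x ≠ t) ∨ (x ∈ Q ∧ r (P.inn (!t) x) < r (P.inn t x)))

def AllEx (d : A → ℕ) (b : A) (Q : Finset V) (φ : Perm A) (r : A → ℕ) : Prop :=
  ∀ a, ∃ n, φ.SameCycle a n ∧ P.Ex d b Q r n

/-- a pair of trees equal to `Z` off `Q` with the counts i, j on `Q` -/
def Pair (d : A → ℕ) (b : A) (Q : Finset V) (i j : ℕ) : Prop :=
  ∃ X Y : V → Bool, P.Tree X b ∧ P.rev.Tree Y b ∧ P.Fam d Q X ∧ P.Fam d Q Y ∧
    cn Q X Y = i ∧ cn Q Y X = j

noncomputable def sg [Fintype V] (e : Bool) : Finset V := univ.filter fun x => P.s x = e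

noncomputable def sc [Fintype V] (X Y : V → Bool) : ℤ :=
  (cn (P.sg true) X Y : ℤ) - cn (P.sg false) X Y

def InS [Fintype V] (b : A) (i j : ℤ) : Prop :=
  ∃ X Y : V → Bool, P.Tree X b ∧ P.rev.Tree Y b ∧ i = P.sc X Y ∧ j = P.sc Y X

end Pl

/-- totally cyclic orientation of the edges `E` (`O x = true`: from `f x` to `g x`) -/
def TC {V U : Type} (E : Finset V) (f g : V → U) (O : V → Bool) : Prop :=
  ∀ T : U → Prop, (∃ x ∈ E, ¬ (T (f x) ↔ T (g x))) →
    ∃ x ∈ E, T (if O x then f x else g x) ∧ ¬ T (if O x then g x else f x)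

/-- two families of choice functions with the exchange properties -/
structure FamD {V : Type} (Q : Finset V) (I O : (V → Bool) → Prop) (β : Bool → ℕ)
    (z : V → Bool) : Prop where
  zI : I z
  zO : O z
  offI : ∀ χ, I χ → ∀ x, x ∉ Q → χ x = z x
  offO : ∀ χ, O χ → ∀ x, x ∉ Q → χ x = z x
  lbI : ∀ χ, I χ → ∀ t, β t ≤ nf Q χ t
  lbO : ∀ χ, O χ → ∀ t, β t ≤ nf Q χ t
  flipI : ∀ χ, I χ → ∀ t, β t < nf Q χ t → ∃ x ∈ Q, χ x ≠ t ∧ I (Function.update χ x t)
  flipO : ∀ χ, O χ → ∀ t, β t < nf Q χ t → ∃ x ∈ Q, χ x ≠ t ∧ O (Function.update χ x t)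
  arbI : ∀ χ χ', I χ → I χ' → nf Q χ true = β true → nf Q χ' true = β true → χ ≠ χ' →
    ∃ x ∈ Q, ∃ x' ∈ Q, χ x = false ∧ χ' x = true ∧ χ x' = true ∧ χ' x' = false ∧
      I (Function.update (Function.update χ x true) x' false)
  arbO : ∀ χ χ', O χ → O χ' → nf Q χ false = β false → nf Q χ' false = β false → χ ≠ χ' →
    ∃ x ∈ Q, ∃ x' ∈ Q, χ x = true ∧ χ' x = false ∧ χ x' = false ∧ χ' x' = true ∧
      O (Function.update (Function.update χ x false) x' true)

end Pool.Agent.P.MP_9ed2cf_gt.Nz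
end

-- part Pool.Agent.P.MP_9ed2cf_gt.NzBasic
section

set_option autoImplicit false

namespace Pool.Agent.P.MP_9ed2cf_gt.Nz

open Equiv Finset
open scoped Classical

namespace Pl

variable {A V : Type} {P : Pl A V}

theorem inn_ty {t t' : Bool} {x x' : V} (h : P.inn t x = P.inn t' x') : t = t' := by
  rw [← P.ty_inn t x, h, P.ty_inn]

theorem pass_or (a : A) : P.Pass a ∨ ∃ t x, a = P.inn t x := by
  by_cases h : ∃ t x, a = P.inn t x
  · exact Or.inr h
  · exact Or.inl fun t x e => h ⟨t, x, e⟩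

theorem nxt_inn (χ : V → Bool) (t : Bool) (x : V) : P.nxt χ (P.inn t x) = P.out (χ x) x := by
  have h : ∃ y, P.inn t x = P.inn (P.ty (P.inn t x)) y := ⟨x, by rw [P.ty_inn]⟩
  have e : h.choose = x := (P.inj _ _ _ _ h.choose_spec).symm
  rw [nxt, dif_pos h, e]

theorem nxt_pass (χ : V → Bool) {a : A} (h : P.Pass a) : P.nxt χ a = P.σ a := by
  rw [nxt, dif_neg]
  rintro ⟨x, hx⟩
  exact h _ _ hx

theorem SC.refl (a : A) : P.SC a a := Perm.SameCycle.refl _ _
theorem SC.symm {a a' : A} (h : P.SC a a') : P.SC a' a := Perm.SameCycle.symm h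
theorem SC.trans {a a' a'' : A} (h : P.SC a a') (h' : P.SC a' a'') : P.SC a a'' :=
  Perm.SameCycle.trans h h'
theorem sc_σ_right {a a' : A} : P.SC a (P.σ a') ↔ P.SC a a' := Perm.sameCycle_apply_right
theorem sc_σ_left {a a' : A} : P.SC (P.σ a) a' ↔ P.SC a a' := Perm.sameCycle_apply_left

theorem SC.exists_pow [Fintype A] {a a' : A} (h : P.SC a a') : ∃ n : ℕ, (P.σ ^ n) a = a' := by
  obtain ⟨n, -, hn⟩ := Perm.SameCycle.exists_pow_eq' h
  exact ⟨n, hn⟩

/-- induction along a circle -/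
theorem SC.ind [Fintype A] {p : A → Prop} (hp : ∀ a, p a → p (P.σ a)) {a a' : A}
    (h : P.SC a a') (ha : p a) : p a' := by
  obtain ⟨n, rfl⟩ := h.exists_pow
  clear h
  induction n with
  | zero => simpa using ha
  | succ n ih => rw [pow_succ', Perm.mul_apply]; exact hp _ ih

/-- a function that is invariant under `σ` is constant on circles -/
theorem SC.inv [Fintype A] {β : Type} {F : A → β} (hF : ∀ a, F (P.σ a) = F a) {a a' : A}
    (h : P.SC a a') : F a = F a' :=
  SC.ind (p := fun c => F a = F c) (fun c hc => by rw [hF]; exact hc) h rfl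

theorem SC.ty_eq [Fintype A] {a a' : A} (h : P.SC a a') : P.ty a = P.ty a' := SC.inv P.ty_σ h

theorem not_sc_inn [Fintype A] {c : A} {t : Bool} {x : V} (h : P.SC c (P.inn t x)) :
    ¬ P.SC c (P.inn (!t) x) := fun h' => by
  have := (h.symm.trans h').ty_eq
  rw [P.ty_inn, P.ty_inn] at this
  cases t <;> simp at this

theorem Reach.refl (χ : V → Bool) (a : A) : P.Reach χ a a := ⟨0, rfl⟩
theorem Reach.trans {χ : V → Bool} {a a' a'' : A} (h : P.Reach χ a a') (h' : P.Reach χ a' a'') :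
    P.Reach χ a a'' := by
  obtain ⟨n, rfl⟩ := h
  obtain ⟨m, rfl⟩ := h'
  exact ⟨m + n, by rw [Function.iterate_add_apply]⟩
theorem Reach.head {χ : V → Bool} {a a' : A} (h : P.Reach χ (P.nxt χ a) a') : P.Reach χ a a' :=
  Reach.trans ⟨1, rfl⟩ h

/-- a closed set that is not empty contains the base node -/
theorem Tree.closed {χ : V → Bool} {b : A} (h : P.Tree χ b) {U : A → Prop}
    (hU : ∀ a, U a → a ≠ b → U (P.nxt χ a)) {a : A} (ha : U a) : U b := by
  obtain ⟨n, hn⟩ := h a
  induction n generalizing a with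
  | zero => exact hn ▸ ha
  | succ n ih =>
    by_cases e : a = b
    · exact e ▸ ha
    · exact ih (hU a ha e) hn

theorem Tree.exists_dp {χ : V → Bool} {b : A} (h : P.Tree χ b) :
    ∃ dp : A → ℕ, dp b = 0 ∧ ∀ a, a ≠ b → dp (P.nxt χ a) + 1 = dp a := by
  refine ⟨fun a => Nat.find (h a), (Nat.find_eq_zero _).2 rfl, fun a ha => ?_⟩
  apply le_antisymm
  · have h0 : Nat.find (h a) ≠ 0 := fun e => ha ((Nat.find_eq_zero _).1 e)
    obtain ⟨k, hk⟩ := Nat.exists_eq_succ_of_ne_zero h0
    have h1 := Nat.find_spec (h a)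
    rw [hk] at h1
    have := Nat.find_min' (h (P.nxt χ a)) (m := k) h1
    beta_reduce
    omega
  · exact Nat.find_min' (h a) (Nat.find_spec (h (P.nxt χ a)))

theorem tree_of_pot {χ : V → Bool} {b : A} {β : Type} {lt : β → β → Prop} (wf : WellFounded lt)
    (Φ : A → β) (h : ∀ a, a ≠ b → lt (Φ (P.nxt χ a)) (Φ a)) : P.Tree χ b := by
  intro a
  induction a using (InvImage.wf Φ wf).induction with
  | _ a ih =>
    by_cases e : a = b
    · exact e ▸ Reach.refl χ a
    · exact (ih _ (h a e)).head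

/-- walk along a circle until the target or the first crossing that does not follow the circle -/
theorem walk [Fintype A] (χ : V → Bool) {a a' : A} (h : P.SC a a') :
    ∃ n : ℕ, (∀ k ≤ n, (P.nxt χ)^[k] a = (P.σ ^ k) a) ∧
      ((P.nxt χ)^[n] a = a' ∨ ∃ t x, (P.nxt χ)^[n] a = P.inn t x ∧ χ x ≠ t) := by
  obtain ⟨m, rfl⟩ := h.exists_pow
  clear h
  induction m generalizing a with
  | zero => exact ⟨0, fun k hk => by obtain rfl : k = 0 := by omega
                                     simp, Or.inl (by simp)⟩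
  | succ m ih =>
    by_cases hx : ∃ t x, a = P.inn t x ∧ χ x ≠ t
    · exact ⟨0, fun k hk => by obtain rfl : k = 0 := by omega
                               simp, Or.inr hx⟩
    · have e : P.nxt χ a = P.σ a := by
        rcases pass_or (P := P) a with h | ⟨t, x, rfl⟩
        · exact nxt_pass χ h
        · have : χ x = t := by
            by_contra hne
            exact hx ⟨t, x, rfl, hne⟩
          rw [nxt_inn, this, out]
      obtain ⟨n, h1, h2⟩ := ih (a := P.σ a)
      refine ⟨n + 1, fun k hk => ?_, ?_⟩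
      · cases k with
        | zero => simp
        | succ k => rw [Function.iterate_succ_apply, e, h1 k (by omega), pow_succ, Perm.mul_apply]
      · rw [Function.iterate_succ_apply, e, pow_succ, Perm.mul_apply]
        exact h2

/-- change of a tree -/
theorem Tree.change {χ χ' : V → Bool} {b : A} (h : P.Tree χ b)
    (h' : ∀ x, χ' x ≠ χ x → P.Reach χ' (P.out (χ' x) x) b) : P.Tree χ' b := by
  intro a
  obtain ⟨n, hn⟩ := h a
  induction n generalizing a with
  | zero => exact ⟨0, hn⟩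
  | succ n ih =>
    apply Reach.head
    rcases pass_or (P := P) a with hp | ⟨t, x, rfl⟩
    · rw [nxt_pass χ' hp, ← nxt_pass χ hp]
      exact ih _ hn
    · rw [nxt_inn]
      by_cases e : χ' x = χ x
      · rw [e, ← nxt_inn χ t x]
        exact ih _ hn
      · exact h' x e

/-- a tree that follows the circle of its base is a tree for every base on that circle -/
theorem Tree.rebase [Fintype A] {χ : V → Bool} {b b' : A} (h : P.Tree χ b) (hb : P.SC b b')
    (hf : ∀ t x, P.SC b (P.inn t x) → χ x = t) : P.Tree χ b' := by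
  intro a
  refine (h a).trans ?_
  obtain ⟨n, h1, h2 | ⟨t, x, h2, h3⟩⟩ := walk χ hb
  · exact ⟨n, h2⟩
  · refine absurd (hf t x ?_) h3
    rw [← h2, h1 n le_rfl]
    exact Perm.sameCycle_pow_right.2 (SC.refl b)

theorem nxt_eq_σ {χ : V → Bool} {a c : A} (h : P.nxt χ a = P.σ c) :
    (P.Pass a ∧ a = c) ∨ ∃ t x, a = P.inn t x ∧ c = P.inn (χ x) x := by
  rcases pass_or (P := P) a with hp | ⟨t, x, rfl⟩
  · rw [nxt_pass χ hp] at h
    exact Or.inl ⟨hp, P.σ.injective h⟩
  · rw [nxt_inn] at h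
    exact Or.inr ⟨t, x, rfl, (P.σ.injective h).symm⟩

theorem Tree.cut {χ : V → Bool} {c : A} (h : P.Tree χ (P.σ c)) (hc : P.Pass c) : P.Tree χ c := by
  intro a
  obtain ⟨n, hn⟩ := h (P.nxt χ a)
  rw [← Function.iterate_succ_apply, Function.iterate_succ_apply'] at hn
  rcases nxt_eq_σ hn with ⟨-, e⟩ | ⟨t, x, -, e⟩
  · exact ⟨n, e⟩
  · exact absurd e (hc _ _)

theorem Tree.pot {χ : V → Bool} {c : A} (h : P.Tree χ c) {β : Type} {u : A → β}
    (hu : ∀ a, a ≠ c → u (P.nxt χ a) = u a) (a : A) : u a = u c :=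
  h.closed (U := fun e => u a = u e) (fun e he hne => by rw [hu e hne]; exact he) rfl

theorem sum_split [Fintype A] [Fintype V] (g : A → ℤ) (hg : ∀ a, P.Pass a → g a = 0) :
    ∑ a, g a = ∑ x, (g (P.inn false x) + g (P.inn true x)) := by
  have hi : Function.Injective fun p : V × Bool => P.inn p.2 p.1 := by
    rintro ⟨x, t⟩ ⟨x', t'⟩ h
    exact Prod.ext (P.inj _ _ _ _ h) (inn_ty h)
  have h1 : ∑ a ∈ univ.image (fun p : V × Bool => P.inn p.2 p.1), g a = ∑ a, g a := by
    refine sum_subset (subset_univ _) fun a _ ha => hg a fun t x e => ha ?_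
    exact mem_image.2 ⟨(x, t), mem_univ _, e.symm⟩
  rw [← h1, sum_image fun p _ q _ h => hi h, Fintype.sum_prod_type]
  refine sum_congr rfl fun x _ => ?_
  simp [add_comm]

theorem weak_single [Fintype A] (g : A → ℤ) (c : A) :
    ∑ a, g a * ((if a = c then 1 else 0) - (if P.σ⁻¹ a = c then 1 else 0)) = g c - g (P.σ c) := by
  have : ∀ a, (P.σ⁻¹ a = c) = (a = P.σ c) := fun a => by
    rw [Perm.inv_eq_iff_eq]
  simp only [this]
  simp [mul_sub, sum_sub_distrib]

/-- weak form of the conservation law -/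
theorem cons_of_weak [Fintype A] (g : A → ℤ)
    (h : ∀ W : A → ℤ, (∀ x, W (P.inn false x) = W (P.inn true x)) →
      ∑ a, g a * (W a - W (P.σ⁻¹ a)) = 0) : P.Cons g := by
  constructor
  · intro c hc
    have := h (fun a => if a = c then 1 else 0) fun x => by
      rw [if_neg (hc _ _).symm, if_neg (hc _ _).symm]
    rw [weak_single] at this
    omega
  · intro x
    have := h (fun a => (if a = P.inn false x then 1 else 0) + if a = P.inn true x then 1 else 0)
      fun y => by
        by_cases e : y = x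
        · subst e
          have h1 : P.inn false y ≠ P.inn true y := fun h => by simpa using inn_ty h
          simp [h1, h1.symm]
        · have h1 : ∀ t t', P.inn t y ≠ P.inn t' x := fun t t' h => e (P.inj _ _ _ _ h)
          simp [h1]
    have e1 := weak_single (P := P) g (P.inn false x)
    have e2 := weak_single (P := P) g (P.inn true x)
    have e3 : ∑ a, g a * (((if a = P.inn false x then 1 else 0) +
        if a = P.inn true x then 1 else 0) - ((if P.σ⁻¹ a = P.inn false x then 1 else 0) +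
        if P.σ⁻¹ a = P.inn true x then 1 else 0)) = g (P.inn false x) - g (P.σ (P.inn false x)) +
        (g (P.inn true x) - g (P.σ (P.inn true x))) := by
      rw [← e1, ← e2, ← sum_add_distrib]
      exact sum_congr rfl fun a _ => by ring
    rw [e3] at this
    simp only [out]
    omega

theorem exists_flow [Fintype A] (χ : V → Bool) {U : A → Prop} (hU : ∀ a, U a → U (P.nxt χ a))
    (hne : ∃ a, U a) : ∃ g : A → ℤ, P.Cons g ∧ (∃ a, g a ≠ 0) ∧ (∀ a, g a ≠ 0 → U a) ∧
      ∀ x, g (P.out (!χ x) x) = 0 := by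
  have hit : ∀ n a, U a → U ((P.nxt χ)^[n] a) := by
    intro n
    induction n with
    | zero => exact fun a h => h
    | succ n ih => exact fun a h => ih _ (hU a h)
  let C : Finset A := univ.filter fun a => U a ∧ a ∈ Function.periodicPts (P.nxt χ)
  have hC : ∀ a, a ∈ C ↔ U a ∧ a ∈ Function.periodicPts (P.nxt χ) := fun a => by simp [C]
  have hb := Function.bijOn_periodicPts (f := P.nxt χ)
  have hmap : ∀ a ∈ C, P.nxt χ a ∈ C := fun a ha =>
    (hC _).2 ⟨hU a ((hC a).1 ha).1, hb.mapsTo ((hC a).1 ha).2⟩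
  have hinj : ∀ a ∈ C, ∀ a' ∈ C, P.nxt χ a = P.nxt χ a' → a = a' := fun a ha a' ha' e =>
    hb.injOn ((hC a).1 ha).2 ((hC a').1 ha').2 e
  have himg : C.image (P.nxt χ) = C := by
    apply eq_of_subset_of_card_le
    · intro a ha
      obtain ⟨c, hc, rfl⟩ := mem_image.1 ha
      exact hmap c hc
    · rw [card_image_of_injOn fun a ha a' ha' e => hinj a ha a' ha' e]
  refine ⟨fun a => if a ∈ C then 1 else 0, cons_of_weak _ fun W hW => ?_, ?_, ?_, ?_⟩
  · have e1 : ∑ a, (if a ∈ C then (1 : ℤ) else 0) * (W a - W (P.σ⁻¹ a)) =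
        ∑ a ∈ C, W a - ∑ a ∈ C, W (P.σ⁻¹ a) := by
      rw [← sum_sub_distrib]
      simp
    rw [e1, sub_eq_zero]
    conv_rhs => rw [← himg, sum_image fun a ha a' ha' e => hinj a ha a' ha' e]
    refine sum_congr rfl fun a _ => ?_
    rcases pass_or (P := P) a with hp | ⟨t, x, rfl⟩
    · rw [nxt_pass χ hp]; simp
    · rw [nxt_inn, out]
      cases t <;> cases χ x <;> simp [hW x]
  · obtain ⟨a, ha⟩ := hne
    obtain ⟨i, j, hij, e⟩ := Finite.exists_ne_map_eq_of_infinite fun n : ℕ => (P.nxt χ)^[n] a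
    wlog hlt : i < j generalizing i j
    · exact this j i hij.symm e.symm (by omega)
    refine ⟨(P.nxt χ)^[i] a, ?_⟩
    beta_reduce
    rw [if_pos]
    · simp
    · refine (hC _).2 ⟨hit i a ha, Function.mk_mem_periodicPts (n := j - i) (by omega) ?_⟩
      rw [Function.IsPeriodicPt, Function.IsFixedPt, ← Function.iterate_add_apply,
        Nat.sub_add_cancel hlt.le]
      exact e.symm
  · intro a ha
    by_contra h
    exact ha (if_neg fun hc => h ((hC a).1 hc).1)
  · intro x
    refine if_neg fun hc => ?_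
    rw [← himg] at hc
    obtain ⟨c, -, e⟩ := mem_image.1 hc
    rcases nxt_eq_σ e with ⟨hp, e'⟩ | ⟨t, y, -, e'⟩
    · exact hp _ _ e'
    · have := P.inj _ _ _ _ e'
      subst this
      have := inn_ty e'
      simp at this

theorem Tree.flow_zero [Fintype A] {χ : V → Bool} {b : A} (h : P.Tree χ b) {g : A → ℤ}
    (hg : P.Cons g) (hb : g b = 0) (h0 : ∀ x, g (P.out (!χ x) x) = 0) (a : A) : g a = 0 := by
  obtain ⟨dp, -, hd⟩ := h.exists_dp
  obtain ⟨M, hM⟩ : ∃ M, ∀ a, dp a < M :=
    ⟨univ.sup dp + 1, fun a => Nat.lt_succ_of_le (le_sup (f := dp) (mem_univ a))⟩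
  have key : ∀ n a, M ≤ dp a + n → g a = 0 := by
    intro n
    induction n with
    | zero => intro a ha; have := hM a; omega
    | succ n ih =>
      intro a ha
      have pre : ∀ c, P.nxt χ c = a → g c = 0 := by
        intro c hc
        by_cases e : c = b
        · rw [e, hb]
        · have := hd c e
          rw [hc] at this
          exact ih c (by omega)
      obtain ⟨c, rfl⟩ := P.σ.surjective a
      rcases pass_or (P := P) c with hp | ⟨t, x, rfl⟩
      · rw [hg.1 c hp]
        exact pre c (nxt_pass χ hp)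
      · by_cases e : χ x = t
        · have h1 := pre (P.inn false x) (by rw [nxt_inn, e, out])
          have h2 := pre (P.inn true x) (by rw [nxt_inn, e, out])
          have h3 := hg.2 x
          have h4 := h0 x
          rw [e] at h4
          cases t <;> simp only [out, Bool.not_false, Bool.not_true] at h3 h4 ⊢ <;> omega
        · have h4 := h0 x
          have : (!χ x) = t := by cases t <;> simpa using e
          rw [this] at h4
          exact h4
  exact key M a (by omega)

theorem exists_phi (P : Pl A V) (Q : Finset V) : ∃ φ : Perm A, P.IsPhi Q φ := by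
  let τ : A → A := fun a =>
    if h : ∃ x ∈ Q, a = P.inn (P.ty a) x then P.inn (!P.ty a) h.choose else a
  have h1 : ∀ t, ∀ x ∈ Q, τ (P.inn t x) = P.inn (!t) x := by
    intro t x hx
    have h : ∃ y ∈ Q, P.inn t x = P.inn (P.ty (P.inn t x)) y := ⟨x, hx, by rw [P.ty_inn]⟩
    have e : h.choose = x := (P.inj _ _ _ _ h.choose_spec.2).symm
    simp only [τ]
    rw [dif_pos h, e, P.ty_inn]
  have h2 : ∀ a, (∀ t, ∀ x ∈ Q, a ≠ P.inn t x) → τ a = a := by
    intro a ha
    simp only [τ]
    rw [dif_neg]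
    rintro ⟨x, hx, e⟩
    exact ha _ x hx e
  have hinv : Function.Involutive τ := by
    intro a
    by_cases h : ∃ t, ∃ x ∈ Q, a = P.inn t x
    · obtain ⟨t, x, hx, rfl⟩ := h
      rw [h1 t x hx, h1 _ x hx, Bool.not_not]
    · have : τ a = a := h2 a fun t x hx e => h ⟨t, x, hx, e⟩
      rw [this, this]
  refine ⟨P.σ * hinv.toPerm τ, fun a ha => ?_, fun t x hx => ?_⟩
  · rw [Perm.mul_apply, Function.Involutive.coe_toPerm, h2 a ha]
  · rw [Perm.mul_apply, Function.Involutive.coe_toPerm, h1 t x hx, out]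

/-! reversal and change of signs -/

theorem rev_rev (P : Pl A V) : P.rev.rev = P := by
  cases P
  simp [rev]
theorem rev_σ : P.rev.σ = P.σ⁻¹ := rfl
theorem rev_inn (t : Bool) (x : V) : P.rev.inn t x = P.out t x := rfl
theorem rev_out (t : Bool) (x : V) : P.rev.out t x = P.inn t x := by simp [out, rev]
theorem rev_sc {a a' : A} : P.rev.SC a a' ↔ P.SC a a' := Perm.sameCycle_inv
theorem rev_pass {a : A} : P.rev.Pass a ↔ P.Pass (P.σ⁻¹ a) := by
  refine forall_congr' fun t => forall_congr' fun x => not_congr ?_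
  rw [Perm.inv_eq_iff_eq]
  rfl
theorem σ_inv_inv {β : Type} {F : A → β} (h : ∀ a, F (P.σ a) = F a) (a : A) :
    F (P.σ⁻¹ a) = F a := by
  rw [← h (P.σ⁻¹ a)]; simp
theorem FaceFn.rev {e : Bool} {W : A → ℤ} (h : P.FaceFn e W) : P.rev.FaceFn e W := by
  constructor
  · intro a ha
    have := h.1 _ (rev_pass.1 ha)
    rw [rev_σ, ← this]; simp
  · intro t x
    rw [rev_out, rev_inn]
    have := h.2 (if P.s x = e then !t else t) x
    change _ = W (P.out t x)
    change W (P.inn (if P.s x = e then !t else t) x) = _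
    rw [← this]
    by_cases hs : P.s x = e <;> simp [hs]
theorem Planar.rev (h : P.Planar) : P.rev.Planar := by
  intro g hg
  have : P.Cons g := by
    constructor
    · intro a ha
      have := hg.1 (P.σ a) (rev_pass.2 (by simpa using ha))
      rw [← this, rev_σ]; simp
    · intro x
      have := hg.2 x
      simp only [rev_out, rev_inn] at this
      exact this.symm
  obtain ⟨L, R, hL, hR, e⟩ := h g this
  exact ⟨L, R, hL.rev, hR.rev, e⟩
theorem Planar.neg (h : P.Planar) : P.neg.Planar := by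
  intro g hg
  obtain ⟨L, R, hL, hR, e⟩ := h g hg
  refine ⟨fun a => -R a, fun a => -L a, ⟨fun a ha => ?_, fun t x => ?_⟩,
    ⟨fun a ha => ?_, fun t x => ?_⟩, fun a => ?_⟩
  · exact congrArg Neg.neg (hR.1 a ha)
  · have := hR.2 t x
    refine congrArg Neg.neg (Eq.trans ?_ this)
    change R (P.out (if (!P.s x) = true then !t else t) x) = _
    cases P.s x <;> simp
  · exact congrArg Neg.neg (hL.1 a ha)
  · have := hL.2 t x
    refine congrArg Neg.neg (Eq.trans ?_ this)
    change L (P.out (if (!P.s x) = false then !t else t) x) = _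
    cases P.s x <;> simp
  · have := e a
    beta_reduce
    omega
theorem Dist.rev {b : A} {d : A → ℕ} (h : P.Dist b d) : P.rev.Dist b d where
  d_σ := σ_inv_inv h.d_σ
  d_zero := fun a => (h.d_zero a).trans rev_sc.symm
  d_adj := fun x => by simpa only [rev_inn, out, h.d_σ] using h.d_adj x
  d_par := fun a ha => by
    obtain ⟨t, x, h1, h2⟩ := h.d_par a ha
    exact ⟨t, x, rev_sc.2 (sc_σ_right.2 h1), by rw [rev_inn, out, h.d_σ]; exact h2⟩
theorem Dist.neg {b : A} {d : A → ℕ} (h : P.Dist b d) : P.neg.Dist b d :=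
  ⟨h.d_σ, h.d_zero, h.d_adj, h.d_par⟩
theorem Side.rev [Fintype A] {sd : A → A → Bool} (h : P.Side sd) : P.rev.Side sd where
  sd_c := fun c c' e => h.sd_c c c' (rev_sc.1 e)
  sd_σ := fun c a ha => by
    have := h.sd_σ c (P.σ⁻¹ a) fun e => ha (rev_sc.2 (by simpa using sc_σ_right.2 e))
    rw [rev_σ, ← this]; simp
  sd_x := fun c x h1 h2 => by
    have h1' : ¬ P.SC c (P.inn false x) := fun e => h1 (rev_sc.2 (sc_σ_right.2 e))
    have h2' : ¬ P.SC c (P.inn true x) := fun e => h2 (rev_sc.2 (sc_σ_right.2 e))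
    rw [rev_inn, rev_inn, out, out, h.sd_σ c _ h1', h.sd_σ c _ h2', h.sd_x c x h1' h2']
  sd_s := fun c t x h1 => by
    have h1' : P.SC c (P.inn t x) := sc_σ_right.1 (rev_sc.1 h1)
    rw [rev_inn, out, h.sd_σ c _ (not_sc_inn h1')]
    exact h.sd_s c t x h1'
theorem Side.neg {sd : A → A → Bool} (h : P.Side sd) : P.neg.Side fun c a => !sd c a where
  sd_c := fun c c' e => by rw [h.sd_c c c' e]
  sd_σ := fun c a ha => congrArg not (h.sd_σ c a ha)
  sd_x := fun c x h1 h2 => congrArg not (h.sd_x c x h1 h2)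
  sd_s := fun c t x h1 => congrArg not (h.sd_s c t x h1)
theorem rev_Z {d : A → ℕ} (h : ∀ a, d (P.σ a) = d a) : P.rev.Z d = P.Z d := by
  funext x
  simp only [Z, rev_inn, out, h]
theorem rev_fam {d : A → ℕ} (h : ∀ a, d (P.σ a) = d a) {Q : Finset V} {χ : V → Bool} :
    P.rev.Fam d Q χ ↔ P.Fam d Q χ := by
  rw [Fam, Fam, rev_Z h]
theorem rev_cl (t : Bool) (x : V) : P.rev.cl (P.rev.inn t x) = P.cl (P.inn t x) := by
  ext a
  exact rev_sc.trans sc_σ_left
theorem rev_beta {d : A → ℕ} (h : ∀ a, d (P.σ a) = d a) (Q : Finset V) (t : Bool) :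
    P.rev.beta d Q t = P.beta d Q t := by
  simp only [beta, rev_Z h, rev_cl]
theorem rev_root {sd : A → A → Bool} {b c : A} {e : Bool} :
    P.rev.Root sd b e c ↔ P.Root sd b e c := or_congr rev_sc Iff.rfl
theorem rev_ps [Fintype A] {sd : A → A → Bool} (h : P.Side sd) {c : A} {x : V} :
    P.rev.PS sd c x ↔ P.PS sd c x := by
  refine forall_congr' fun t => ?_
  rw [rev_sc, rev_inn, out, sc_σ_right]
  refine forall_congr' fun ht => ?_
  rw [h.sd_σ c _ ht]
theorem Act.rev {Q : Finset V} (h : P.Act Q) : P.rev.Act Q :=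
  ⟨h.1, fun x hx y t hy e => h.2 x hx y t hy (sc_σ_left.1 (sc_σ_right.1 (rev_sc.1 e)))⟩
theorem Key.rev {d key : A → ℕ} (hd : ∀ a, d (P.σ a) = d a) {Q : Finset V} (h : P.Key d Q key) :
    P.rev.Key d Q key where
  k_σ := σ_inv_inv h.k_σ
  k_in := fun x hx => by simpa only [rev_inn, out, h.k_σ] using h.k_in x hx
  k_out := fun x hx => by simpa only [rev_inn, out, h.k_σ, rev_Z hd] using h.k_out x hx
theorem NDC.rev {Q D1 D2 : Finset V} (h : P.NDC Q D1 D2) : P.rev.NDC Q D1 D2 := by
  intro T hT h1 h2 x hx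
  have hT' : ∀ a, T (P.σ a) ↔ T a := fun a => by
    have := hT (P.σ a)
    rw [rev_σ] at this
    simpa using this.symm
  simp only [rev_inn, out, hT'] at h1 h2 ⊢
  exact h T hT' h1 h2 x hx
theorem rev_ndc {Q D1 D2 : Finset V} : P.rev.NDC Q D1 D2 ↔ P.NDC Q D1 D2 :=
  ⟨fun h => by simpa only [rev_rev] using h.rev, NDC.rev⟩
theorem NDC.swap {Q D1 D2 : Finset V} (h : P.NDC Q D1 D2) : P.NDC Q D2 D1 := by
  intro T hT h1 h2 x hx
  have := h (fun a => ¬ T a) (fun a => not_congr (hT a))
    (fun y hy e1 e2 => h2 y hy (not_not.1 e2) e1) (fun y hy e1 e2 => h1 y hy (not_not.1 e2) e1) x hx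
  exact not_iff_not.1 this
theorem NDC.mono {Q D1 D2 D1' D2' : Finset V} (h : P.NDC Q D1 D2) (h1 : D1' ⊆ D1)
    (h2 : D2' ⊆ D2) : P.NDC Q D1' D2' := fun T hT e1 e2 =>
  h T hT (fun y hy a b => h1 (e1 y hy a b)) fun y hy a b => h2 (e2 y hy a b)
theorem IsPhi.rev {Q : Finset V} {φ : Perm A} (h : P.IsPhi Q φ) : P.rev.IsPhi Q φ⁻¹ := by
  constructor
  · intro a ha
    rw [Perm.inv_eq_iff_eq, rev_σ, h.1]
    · simp
    · intro t x hx e
      exact ha t x hx (Perm.inv_eq_iff_eq.1 e)
  · intro t x hx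
    rw [Perm.inv_eq_iff_eq, rev_out, h.2 _ x hx, Bool.not_not, rev_inn]
theorem IsPhi.rev_nl {Q : Finset V} {φ : Perm A} (h : P.IsPhi Q φ) :
    P.rev.nl Q φ⁻¹ = P.nl Q φ := by
  ext x
  simp only [nl, mem_filter]
  refine and_congr_right fun hx => not_congr ?_
  have e1 := h.2 true x hx
  have e2 := h.2 false x hx
  simp only [Bool.not_true, Bool.not_false] at e1 e2
  rw [Perm.sameCycle_inv, rev_inn, rev_inn, ← e1, ← e2, Perm.sameCycle_apply_left,
    Perm.sameCycle_apply_right, Perm.sameCycle_comm]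
theorem neg_tree {χ : V → Bool} {b : A} : P.neg.Tree χ b ↔ P.Tree χ b := Iff.rfl
theorem neg_rev (P : Pl A V) : P.neg.rev = P.rev.neg := rfl
theorem act_sg [Fintype V] (P : Pl A V) : P.Act (P.sg true) :=
  ⟨fun x hx => by simpa [sg] using hx, fun x _ y t hy _ => by simpa [sg] using hy⟩

end Pl

end Pool.Agent.P.MP_9ed2cf_gt.Nz
end

-- part Pool.Agent.P.MP_9ed2cf_gt.NzPk
section

set_option autoImplicit false

namespace Pool.Agent.P.MP_9ed2cf_gt.Nz

open Equiv Finset
open scoped Classical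

namespace Pl

variable {A V : Type} {P : Pl A V}

/-- the circle of `a` is joined to the circle of `b` through `n` crossings -/
def pkLev (P : Pl A V) (b : A) : ℕ → A → Prop
  | 0, a => P.SC a b
  | n + 1, a => ∃ t x, P.SC a (P.inn t x) ∧ pkLev P b n (P.inn (!t) x)

theorem pk_lev_sc {b a a' : A} {n : ℕ} (h : P.SC a a') (h' : pkLev P b n a') : pkLev P b n a := by
  cases n with
  | zero => exact SC.trans h h'
  | succ n =>
    obtain ⟨t, x, h1, h2⟩ := h'
    exact ⟨t, x, SC.trans h h1, h2⟩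

theorem pk_sc_σ (a : A) : P.SC a (P.σ a) := sc_σ_right.mpr (SC.refl a)

theorem pk_not {t t' : Bool} (h : t' ≠ t) : t' = !t := by
  cases t <;> cases t' <;> simp_all

theorem pk_lev_inn {b : A} {t t' : Bool} {x : V} (h : ∃ n, pkLev P b n (P.inn t x)) :
    ∃ n, pkLev P b n (P.inn t' x) := by
  by_cases e : t = t'
  · rw [← e]; exact h
  · obtain ⟨n, hn⟩ := h
    refine ⟨n + 1, t', x, SC.refl _, ?_⟩
    rw [← pk_not e]
    exact hn

theorem pk_lev_nxt (χ : V → Bool) (b a : A) :
    (∃ n, pkLev P b n (P.nxt χ a)) ↔ ∃ n, pkLev P b n a := by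
  have hσ : ∀ a, (∃ n, pkLev P b n (P.σ a)) ↔ ∃ n, pkLev P b n a := fun a =>
    ⟨fun ⟨n, h⟩ => ⟨n, pk_lev_sc (pk_sc_σ a) h⟩,
      fun ⟨n, h⟩ => ⟨n, pk_lev_sc (SC.symm (pk_sc_σ a)) h⟩⟩
  rcases pass_or (P := P) a with h | ⟨t, x, rfl⟩
  · rw [nxt_pass χ h, hσ]
  · rw [nxt_inn]
    exact (hσ _).trans ⟨pk_lev_inn, pk_lev_inn⟩

theorem pk_z_iff {b : A} {d : A → ℕ} (hd : P.Dist b d) {t : Bool} {x : V} :
    P.Z d x ≠ t ↔ d (P.inn (!t) x) < d (P.inn t x) := by
  have h := hd.d_adj x
  unfold Z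
  cases t
  · simp
  · simp only [ne_eq, decide_eq_true_eq, Bool.not_true]
    omega

theorem pk_adj {b : A} {d : A → ℕ} (hd : P.Dist b d) (t : Bool) (x : V) :
    d (P.inn t x) ≤ d (P.inn (!t) x) + 1 := by
  have h := hd.d_adj x
  cases t
  · simp only [Bool.not_false]
    omega
  · simp only [Bool.not_true]
    omega

theorem pk_sd_x {sd : A → A → Bool} (hs : P.Side sd) {c : A} {t : Bool} {x : V}
    (h1 : ¬ P.SC c (P.inn t x)) (h2 : ¬ P.SC c (P.inn (!t) x)) :
    sd c (P.inn (!t) x) = sd c (P.inn t x) := by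
  cases t
  · exact (hs.sd_x c x h1 h2).symm
  · exact hs.sd_x c x h2 h1

variable [Fintype A] [Fintype V]

omit [Fintype V] in
theorem pk_lev_par {b : A} (n : ℕ) : ∀ a, pkLev P b n a → (P.ty a = P.ty b ↔ n % 2 = 0) := by
  induction n with
  | zero => intro a h; exact ⟨fun _ => rfl, fun _ => SC.ty_eq h⟩
  | succ n ih =>
    rintro a ⟨t, x, h1, h2⟩
    have e1 := SC.ty_eq h1
    have e2 := ih _ h2
    rw [P.ty_inn] at e1 e2
    rw [e1]
    have e3 : (t = P.ty b) ↔ ¬ ((!t) = P.ty b) := by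
      cases t <;> cases P.ty b <;> simp
    rw [e3, e2]
    omega

omit [Fintype V] in
theorem pk_sd_sc {sd : A → A → Bool} (hs : P.Side sd) {c a a' : A} (h : ¬ P.SC c a)
    (h' : P.SC a a') : ¬ P.SC c a' ∧ sd c a' = sd c a :=
  SC.ind (p := fun a' => ¬ P.SC c a' ∧ sd c a' = sd c a)
    (fun y hy => ⟨fun e => hy.1 (sc_σ_right.mp e), (hs.sd_σ c y hy.1).trans hy.2⟩) h' ⟨h, rfl⟩

theorem exists_dist {χ : V → Bool} {b : A} (h : P.Tree χ b) (b' : A) : ∃ d, P.Dist b' d := by
  have h1 : ∀ n a, (∃ k, pkLev P b' k ((P.nxt χ)^[n] a)) ↔ ∃ k, pkLev P b' k a := by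
    intro n
    induction n with
    | zero => intro a; rfl
    | succ n ih =>
      intro a
      rw [Function.iterate_succ_apply, ih, pk_lev_nxt]
  have h2 : ∀ a, (∃ k, pkLev P b' k b) ↔ ∃ k, pkLev P b' k a := by
    intro a
    obtain ⟨n, hn⟩ := h a
    rw [← h1 n a, hn]
  have h3 : ∀ a, ∃ k, pkLev P b' k a := fun a => (h2 a).mp ((h2 b').mpr ⟨0, SC.refl b'⟩)
  obtain ⟨d, hs, hm⟩ : ∃ d : A → ℕ, (∀ a, pkLev P b' (d a) a) ∧
      ∀ a n, pkLev P b' n a → d a ≤ n :=
    ⟨fun a => Nat.find (h3 a), fun a => Nat.find_spec (h3 a), fun a n hn => Nat.find_min' (h3 a) hn⟩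
  refine ⟨d, fun a => le_antisymm (hm _ _ (pk_lev_sc (SC.symm (pk_sc_σ a)) (hs a)))
    (hm _ _ (pk_lev_sc (pk_sc_σ a) (hs _))), fun a => ⟨fun e => ?_, fun e => ?_⟩, fun x => ?_,
    fun a ha => ?_⟩
  · have := hs a
    rw [e] at this
    exact this
  · exact Nat.le_zero.mp (hm a 0 e)
  · have e1 : d (P.inn false x) ≤ d (P.inn true x) + 1 :=
      hm _ _ ⟨false, x, SC.refl _, hs _⟩
    have e2 : d (P.inn true x) ≤ d (P.inn false x) + 1 :=
      hm _ _ ⟨true, x, SC.refl _, hs _⟩
    have e3 := pk_lev_par _ _ (hs (P.inn false x))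
    have e4 := pk_lev_par _ _ (hs (P.inn true x))
    rw [P.ty_inn] at e3 e4
    have e5 : d (P.inn false x) ≠ d (P.inn true x) := by
      intro e
      rw [e, ← e4] at e3
      cases hb : P.ty b' <;> rw [hb] at e3 <;> simp at e3
    omega
  · obtain ⟨n, hn⟩ : ∃ n, d a = n + 1 := ⟨d a - 1, by omega⟩
    have e := hs a
    rw [hn] at e
    obtain ⟨t, x, e1, e2⟩ := e
    refine ⟨t, x, e1, ?_⟩
    have e3 := hm _ _ e2
    have e4 : d a ≤ d (P.inn (!t) x) + 1 := hm _ _ ⟨t, x, e1, hs _⟩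
    omega

omit [Fintype V] in
theorem pk_side (h : P.Planar) (c : A) : ∃ f : A → Bool, (∀ a, f (P.σ a) = f a) ∧
    (∀ x, ¬ P.SC c (P.inn false x) → ¬ P.SC c (P.inn true x) →
      f (P.inn false x) = f (P.inn true x)) ∧
    ∀ t x, P.SC c (P.inn t x) → f (P.inn (!t) x) = P.s x := by
  obtain ⟨g, hg⟩ : ∃ g : A → ℤ, ∀ a, g a = if P.SC c a then 1 else 0 := ⟨_, fun _ => rfl⟩
  have gσ : ∀ a, g (P.σ a) = g a := by
    intro a
    rw [hg, hg, sc_σ_right]
  obtain ⟨L, R, hL, hR, hLR⟩ := h g ⟨fun a _ => gσ a, fun x => by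
    unfold out
    rw [gσ, gσ]⟩
  have Rσ : ∀ a, R (P.σ a) = R a := by
    intro a
    rcases pass_or (P := P) a with ha | ⟨t, x, rfl⟩
    · exact hR.1 a ha
    · cases hx : P.s x
      · have e1 := hL.2 t x
        rw [hx, if_neg (by simp)] at e1
        have e2 := hLR (P.σ (P.inn t x))
        have e3 := hLR (P.inn t x)
        have e4 := gσ (P.inn t x)
        unfold out at e1
        omega
      · have e1 := hR.2 t x
        rw [hx, if_neg (by simp)] at e1
        exact e1
  have Lσ : ∀ a, L (P.σ a) = L a := by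
    intro a
    have e1 := Rσ a
    have e2 := hLR (P.σ a)
    have e3 := hLR a
    have e4 := gσ a
    omega
  have hLx : ∀ t x, P.s x = true → L (P.inn (!t) x) = L (P.inn t x) := by
    intro t x hx
    have e1 := hL.2 t x
    rw [if_pos hx] at e1
    rw [← e1]
    exact (Lσ _).symm
  have hRx : ∀ t x, P.s x = false → R (P.inn (!t) x) = R (P.inn t x) := by
    intro t x hx
    have e1 := hR.2 t x
    rw [if_pos hx] at e1
    rw [← e1]
    exact (Rσ _).symm
  refine ⟨fun a => decide (R c < L a), fun a => by simp only [Lσ], fun x h1 h2 => ?_,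
    fun t x h1 => ?_⟩
  · have e : L (P.inn false x) = L (P.inn true x) := by
      cases hx : P.s x
      · have e1 : R (P.inn false x) = R (P.inn true x) := hRx true x hx
        have e2 := hLR (P.inn false x)
        have e3 := hLR (P.inn true x)
        rw [hg, if_neg h1] at e2
        rw [hg, if_neg h2] at e3
        omega
      · exact hLx true x hx
    simp only [e]
  · have e0 : R c = R (P.inn t x) := SC.inv Rσ h1
    have e2 := hLR (P.inn t x)
    have e3 := hLR (P.inn (!t) x)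
    rw [hg, if_pos h1] at e2
    rw [hg, if_neg (not_sc_inn h1)] at e3
    cases hx : P.s x
    · have e1 := hRx t x hx
      exact decide_eq_false (by omega)
    · have e1 := hLx t x hx
      exact decide_eq_true (by omega)

theorem exists_side (h : P.Planar) : ∃ sd, P.Side sd := by
  have h1 : ∀ S : Set A, ∃ f : A → Bool, (∃ c, S = P.cl c) → (∀ a, f (P.σ a) = f a) ∧
      (∀ x, P.inn false x ∉ S → P.inn true x ∉ S → f (P.inn false x) = f (P.inn true x)) ∧
      ∀ t x, P.inn t x ∈ S → f (P.inn (!t) x) = P.s x := by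
    intro S
    by_cases hS : ∃ c, S = P.cl c
    · obtain ⟨c, rfl⟩ := hS
      obtain ⟨f, hf⟩ := pk_side h c
      exact ⟨f, fun _ => hf⟩
    · exact ⟨fun _ => true, fun e => absurd e hS⟩
  choose F hF using h1
  refine ⟨fun c => F (P.cl c), fun c c' hc => ?_, fun c a _ => (hF _ ⟨c, rfl⟩).1 a,
    fun c x => (hF _ ⟨c, rfl⟩).2.1 x, fun c t x => (hF _ ⟨c, rfl⟩).2.2 t x⟩
  have e : P.cl c = P.cl c' := Set.ext fun a =>
    ⟨fun ha => SC.trans (SC.symm hc) ha, fun ha => SC.trans hc ha⟩
  simp only [e]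

variable {b : A} {d : A → ℕ} {sd : A → A → Bool}

theorem sep (hd : P.Dist b d) (hs : P.Side sd) {c a : A} (h : ¬ P.SC c a)
    (h' : P.SC c b ∨ sd c a ≠ sd c b) : d c < d a := by
  induction hn : d a using Nat.strong_induction_on generalizing a with
  | _ n ih =>
    by_cases h0 : d a = 0
    · have e := pk_sd_sc hs h ((hd.d_zero a).mp h0)
      rcases h' with h' | h'
      · exact absurd h' e.1
      · exact absurd e.2.symm h'
    · obtain ⟨t, x, e1, e2⟩ := hd.d_par a (by omega)
      by_cases hc : P.SC c (P.inn (!t) x)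
      · have := SC.inv hd.d_σ hc
        omega
      · have e3 := pk_sd_sc hs h e1
        have e4 := pk_sd_x hs e3.1 hc
        have := ih (d (P.inn (!t) x)) (by omega) hc (by rw [e4, e3.2]; exact h') rfl
        omega

/-- the crossings that lead to a nearer circle have the sign of the side of the base -/
theorem sign_near (hd : P.Dist b d) (hs : P.Side sd) {c : A} {t : Bool} {x : V}
    (h : P.SC c (P.inn t x)) (hz : P.Z d x ≠ t) : ¬ P.SC c b ∧ P.s x = sd c b := by
  have e1 := (pk_z_iff hd).mp hz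
  have e2 := SC.inv hd.d_σ h
  have e3 : ¬ (P.SC c b ∨ sd c (P.inn (!t) x) ≠ sd c b) := fun e => by
    have := sep hd hs (not_sc_inn h) e
    omega
  rw [hs.sd_s c t x h] at e3
  exact ⟨fun e => e3 (Or.inl e), by_contra fun e => e3 (Or.inr e)⟩

theorem z_root (hd : P.Dist b d) (hs : P.Side sd) {c : A} {t : Bool} {x : V}
    (h : P.SC c (P.inn t x)) (hr : P.Root sd b (P.s x) c) : P.Z d x = t := by
  by_contra hz
  have e := sign_near hd hs h hz
  rcases hr with hr | hr
  · exact e.1 hr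
  · exact hr e.2.symm

theorem z_tree (hd : P.Dist b d) : P.Tree (P.Z d) b := by
  intro a
  induction hn : d a using Nat.strong_induction_on generalizing a with
  | _ n ih =>
    have key : ∀ k t x, (P.nxt (P.Z d))^[k] a = (P.σ ^ k) a → (P.nxt (P.Z d))^[k] a = P.inn t x →
        P.Z d x ≠ t → P.Reach (P.Z d) a b := by
      intro k t x h1 h2 h3
      have e1 : P.SC a (P.inn t x) := ⟨k, by rw [← h2, h1, zpow_natCast]⟩
      have e2 := SC.inv hd.d_σ e1
      have e3 := (pk_z_iff hd).mp h3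
      refine Reach.trans ⟨k, h2⟩ (Reach.head ?_)
      rw [nxt_inn, pk_not h3]
      refine ih (d (P.out (!t) x)) ?_ _ rfl
      unfold out
      rw [hd.d_σ]
      omega
    by_cases h0 : d a = 0
    · obtain ⟨k, h1, h2 | ⟨t, x, h2, h3⟩⟩ := walk (P.Z d) ((hd.d_zero a).mp h0)
      · exact ⟨k, h2⟩
      · exact key k t x (h1 k le_rfl) h2 h3
    · obtain ⟨t, x, e1, e2⟩ := hd.d_par a (by omega)
      obtain ⟨k, h1, h2 | ⟨t', x', h2, h3⟩⟩ := walk (P.Z d) e1
      · refine key k t x (h1 k le_rfl) h2 ((pk_z_iff hd).mpr ?_)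
        have := SC.inv hd.d_σ e1
        omega
      · exact key k t' x' (h1 k le_rfl) h2 h3

theorem acc (hs : P.Side sd) {χ : V → Bool} (h : P.Tree χ b) {e : Bool} {T : A → Prop}
    (hT : ∀ a, T (P.σ a) ↔ T a) (hne : ∃ a, T a) (hr : ∀ a, T a → ¬ P.Root sd b e a) :
    ∃ t x, T (P.inn t x) ∧ ¬ T (P.inn (!t) x) ∧ P.s x = e ∧ χ x ≠ t := by
  by_contra hn
  have hσ : ∀ a, (T a ∨ ∃ c, T c ∧ ¬ P.SC c a ∧ sd c a ≠ e) →
      T (P.σ a) ∨ ∃ c, T c ∧ ¬ P.SC c (P.σ a) ∧ sd c (P.σ a) ≠ e := by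
    rintro a (ha | ⟨c, h1, h2, h3⟩)
    · exact Or.inl ((hT a).mpr ha)
    · exact Or.inr ⟨c, h1, fun e => h2 (sc_σ_right.mp e), by rw [hs.sd_σ c a h2]; exact h3⟩
  obtain ⟨a0, ha0⟩ := hne
  have hb := Tree.closed h (U := fun a => T a ∨ ∃ c, T c ∧ ¬ P.SC c a ∧ sd c a ≠ e)
    (by
      intro a ha _
      rcases pass_or (P := P) a with hp | ⟨t, x, rfl⟩
      · rw [nxt_pass χ hp]
        exact hσ a ha
      · rw [nxt_inn]
        refine hσ _ ?_
        by_cases hx : χ x = t
        · rw [hx]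
          exact ha
        · rw [pk_not hx]
          rcases ha with ha | ⟨c, h1, h2, h3⟩
          · by_cases h' : T (P.inn (!t) x)
            · exact Or.inl h'
            · refine Or.inr ⟨P.inn t x, ha, not_sc_inn (SC.refl _), ?_⟩
              rw [hs.sd_s _ t x (SC.refl _)]
              exact fun e => hn ⟨t, x, ha, h', e, hx⟩
          · by_cases hc : P.SC c (P.inn (!t) x)
            · exact Or.inl (SC.ind (fun y hy => (hT y).mpr hy) hc h1)
            · exact Or.inr ⟨c, h1, hc, by rw [pk_sd_x hs h2 hc]; exact h3⟩)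
    (Or.inl ha0)
  rcases hb with hb | ⟨c, h1, _, h3⟩
  · exact hr b hb (Or.inl (SC.refl b))
  · exact hr c h1 (Or.inr h3)

/-- new base on a root circle: `Z` does not change on the positive side -/
theorem z_shift (hd : P.Dist b d) (hs : P.Side sd) {c b' : A} {d' : A → ℕ} (hd' : P.Dist b' d')
    (hc : P.SC c b') (hr : P.Root sd b true c) {x : V} (hx : P.PS sd c x) :
    P.Z d' x = P.Z d x := by
  have h1 : ∀ n a, d' a = n → d a ≤ d c + d' a := by
    intro n
    induction n with
    | zero =>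
      intro a ha
      have := SC.inv hd.d_σ (SC.trans ((hd'.d_zero a).mp ha) (SC.symm hc))
      omega
    | succ n ih =>
      intro a ha
      obtain ⟨t, y, e1, e2⟩ := hd'.d_par a (by omega)
      have e3 := ih (P.inn (!t) y) (by omega)
      have e4 := SC.inv hd.d_σ e1
      have e5 := pk_adj hd t y
      omega
  have h2 : ∀ n a, d a = n → (¬ P.SC c a → sd c a = true) → d' a + d c ≤ d a := by
    intro n
    induction n using Nat.strong_induction_on with
    | _ n ih =>
      intro a ha hs'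
      by_cases hca : P.SC c a
      · have e1 := SC.inv hd.d_σ hca
        have e2 := (hd'.d_zero a).mpr (SC.trans (SC.symm hca) hc)
        omega
      · have e0 : d c < d a := by
          refine sep hd hs hca ?_
          rcases hr with hr | hr
          · exact Or.inl hr
          · exact Or.inr (by rw [hs' hca]; exact fun e => hr e.symm)
        obtain ⟨t, y, e1, e2⟩ := hd.d_par a (by omega)
        have e3 := pk_sd_sc hs hca e1
        have e4 := ih (d (P.inn (!t) y)) (by omega) _ rfl fun e => by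
          rw [pk_sd_x hs e3.1 e, e3.2]
          exact hs' hca
        have e5 := SC.inv hd'.d_σ e1
        have e6 := pk_adj hd' t y
        omega
  have a1 := h1 _ (P.inn true x) rfl
  have a2 := h1 _ (P.inn false x) rfl
  have a3 := h2 _ (P.inn true x) rfl (hx true)
  have a4 := h2 _ (P.inn false x) rfl (hx false)
  unfold Z
  exact decide_eq_decide.mpr (by omega)

end Pl

end Pool.Agent.P.MP_9ed2cf_gt.Nz
end

-- part Pool.Agent.P.MP_9ed2cf_gt.NzPk2
section

set_option autoImplicit false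

namespace Pool.Agent.P.MP_9ed2cf_gt.Nz

open Equiv Finset
open scoped Classical

namespace Pl

variable {A V : Type} {P : Pl A V}

variable [Fintype A] [Fintype V] {b : A} {d : A → ℕ} {sd : A → A → Bool}

/-- The components of a set of active crossings: `K c` is the set of nodes joined to `c`. -/
theorem exists_comp (P : Pl A V) (Q : Finset V) : ∃ K : A → A → Prop, Equivalence K ∧
    (∀ a, K a (P.σ a)) ∧ (∀ x ∈ Q, K (P.inn false x) (P.inn true x)) ∧
    ∀ (c : A) (p : A → Prop), p c → (∀ a, K c a → p a → p (P.σ a)) →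
      (∀ t, ∀ x ∈ Q, K c (P.inn t x) → p (P.inn t x) → p (P.inn (!t) x)) → ∀ a, K c a → p a := by
  let St : A → A → Prop := fun a a' =>
    a' = P.σ a ∨ ∃ t, ∃ x ∈ Q, a = P.inn t x ∧ a' = P.inn (!t) x
  have h1 : ∀ a a', St a a' → Relation.ReflTransGen St a' a := by
    rintro a a' (rfl | ⟨t, x, hx, rfl, rfl⟩)
    · exact SC.ind (p := Relation.ReflTransGen St (P.σ a)) (fun u hu => hu.tail (Or.inl rfl))
        (sc_σ_left.2 (SC.refl a)) Relation.ReflTransGen.refl
    · exact Relation.ReflTransGen.single (Or.inr ⟨!t, x, hx, rfl, by rw [Bool.not_not]⟩)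
  refine ⟨Relation.ReflTransGen St, ⟨fun _ => Relation.ReflTransGen.refl, fun h => ?_,
    Relation.ReflTransGen.trans⟩, fun a => Relation.ReflTransGen.single (Or.inl rfl),
    fun x hx => Relation.ReflTransGen.single (Or.inr ⟨false, x, hx, rfl, rfl⟩),
    fun c p h0 h2 h3 a h => ?_⟩
  · induction h with
    | refl => exact Relation.ReflTransGen.refl
    | tail _ h ih => exact (h1 _ _ h).trans ih
  · induction h with
    | refl => exact h0
    | tail h h' ih =>
      rcases h' with rfl | ⟨t, x, hx, rfl, rfl⟩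
      · exact h2 _ h ih
      · exact h3 t x hx h ih

theorem nzpk2_ty {t t' : Bool} {x y : V} (h : P.SC (P.inn t x) (P.inn t' y)) : t = t' := by
  have h1 := h.ty_eq
  rwa [P.ty_inn, P.ty_inn] at h1

theorem nzpk2_mem {Q : Finset V} (hQ : P.Act Q) {t t' : Bool} {x y : V} (hy : y ∈ Q)
    (hx : P.s x = true) (h : P.SC (P.inn t x) (P.inn t' y)) : x ∈ Q := by
  obtain rfl := nzpk2_ty h
  exact hQ.2 y hy x t hx h.symm

theorem nzpk2_cl {a a' : A} : P.cl a = P.cl a' ↔ P.SC a a' :=
  ⟨fun h => (Set.ext_iff.1 h a').2 (SC.refl a'),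
    fun h => Set.ext fun _ => ⟨fun h' => h.symm.trans h', fun h' => h.trans h'⟩⟩

theorem nzpk2_z (hd : P.Dist b d) {t : Bool} {x : V} :
    P.Z d x ≠ t ↔ d (P.inn (!t) x) < d (P.inn t x) := by
  have h := hd.d_adj x
  cases t <;> simp [Z]
  omega

theorem nzpk2_root (hd : P.Dist b d) (hs : P.Side sd) {Q : Finset V} (hQ : P.Act Q)
    {K : A → A → Prop}
    (hK : ∀ (c : A) (p : A → Prop), p c → (∀ a, K c a → p a → p (P.σ a)) →
      (∀ t, ∀ x ∈ Q, K c (P.inn t x) → p (P.inn t x) → p (P.inn (!t) x)) → ∀ a, K c a → p a)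
    {c a : A} (hr : P.Root sd b true c) (h : K c a) (h' : ¬ P.SC c a) : d c < d a := by
  have h1 : sd c a = true := by
    refine hK c (fun u => ¬ P.SC c u → sd c u = true) (fun h0 => absurd (SC.refl c) h0)
      (fun u _ hu h2 => ?_) (fun t x hx _ hu h2 => ?_) a h h'
    · have h3 := mt sc_σ_right.2 h2
      rw [hs.sd_σ c u h3, hu h3]
    · by_cases h3 : P.SC c (P.inn t x)
      · rw [hs.sd_s c t x h3, hQ.1 x hx]
      · rw [← hu h3]
        cases t
        · exact (hs.sd_x c x h3 h2).symm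
        · exact hs.sd_x c x h2 h3
  exact sep hd hs h' (hr.imp_right fun h2 => h1 ▸ h2.symm)

theorem exists_key (hd : P.Dist b d) (hs : P.Side sd) {Q : Finset V} (hQ : P.Act Q) :
    ∃ key, P.Key d Q key := by
  obtain ⟨K, h1, h2, h3, h4⟩ := exists_comp P Q
  have h5 : ∀ a a', K a a' → sInf (d '' {u | K a u}) = sInf (d '' {u | K a' u}) := fun a a' h =>
    congrArg (fun S => sInf (d '' S))
      (Set.ext fun _ => ⟨fun h' => h1.trans (h1.symm h) h', fun h' => h1.trans h h'⟩)
  refine ⟨fun a => sInf (d '' {u | K a u}), fun a => (h5 _ _ (h2 a)).symm,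
    fun x hx => h5 _ _ (h3 x hx), fun x hx => ?_⟩
  have hz : P.Z d x ≠ !P.Z d x := by cases P.Z d x <;> simp
  have h6 := (nzpk2_z hd).1 hz
  rw [Bool.not_not] at h6
  have h7 : ∀ a, K (P.inn (!P.Z d x) x) a → d (P.inn (!P.Z d x) x) ≤ d a := fun a ha => by
    by_cases h8 : P.SC (P.inn (!P.Z d x) x) a
    · exact (SC.inv hd.d_σ h8).le
    · cases h9 : P.s x
      · refine (nzpk2_root hd hs hQ h4 (Or.inr ?_) ha h8).le
        rw [← (sign_near hd hs (SC.refl _) hz).2, h9]
        exact Bool.false_ne_true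
      · exact absurd (h4 _ (P.SC (P.inn (!P.Z d x) x)) (SC.refl _) (fun _ _ h => sc_σ_right.2 h)
          (fun t y hy _ h => absurd (nzpk2_mem hQ hy h9 h) hx) a ha) h8
  obtain ⟨a, ha, he⟩ := Nat.sInf_mem (s := d '' {u | K (P.inn (!P.Z d x) x) u})
    ⟨_, _, h1.refl _, rfl⟩
  refine lt_of_le_of_lt (Nat.sInf_le ⟨_, h1.refl _, rfl⟩) (h6.trans_le ((h7 a ha).trans he.le))

theorem ndc_of_pair (hd : P.Dist b d) (hs : P.Side sd) {Q : Finset V} (hQ : P.Act Q)
    {X Y : V → Bool} (hX : P.Tree X b) (hY : P.rev.Tree Y b) :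
    P.NDC Q (Q.filter fun x => X x = true ∧ Y x = false)
      (Q.filter fun x => Y x = true ∧ X x = false) := by
  intro T hT g1 g2 x₀ hx₀
  by_contra hc
  obtain ⟨K, h1, h2, h3, h4⟩ := exists_comp P Q
  have k1 : ∀ a, K (P.inn false x₀) (P.σ a) ↔ K (P.inn false x₀) a := fun a =>
    ⟨fun h => h1.trans h (h1.symm (h2 a)), fun h => h1.trans h (h2 a)⟩
  have k2 : ∀ t, ∀ x ∈ Q, K (P.inn false x₀) (P.inn t x) → K (P.inn false x₀) (P.inn (!t) x) :=
    fun t x hx h => by
      cases t
      · exact h1.trans h (h3 x hx)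
      · exact h1.trans h (h1.symm (h3 x hx))
  have k3 : ∀ t x, K (P.inn false x₀) (P.inn t x) → P.s x = true → x ∈ Q := fun t x h hx => by
    obtain ⟨t', y, hy, h5⟩ := h4 _ (fun a => ∃ t', ∃ y ∈ Q, P.SC a (P.inn t' y))
      ⟨false, x₀, hx₀, SC.refl _⟩ (fun a _ ⟨t', y, hy, h5⟩ => ⟨t', y, hy, sc_σ_left.2 h5⟩)
      (fun t' y hy _ _ => ⟨!t', y, hy, SC.refl _⟩) _ h
    exact nzpk2_mem hQ hy hx h5
  have k4 := h1.refl (P.inn false x₀)
  have k5 := h3 x₀ hx₀
  by_cases hr : ∀ a, T a ∧ K (P.inn false x₀) a → ¬ P.Root sd b true a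
  · obtain ⟨t, x, ⟨a1, a2⟩, a3, a4, a5⟩ := acc hs hX (T := fun a => T a ∧ K (P.inn false x₀) a)
      (fun a => and_congr (hT a) (k1 a)) (by
        by_cases h5 : T (P.inn false x₀)
        · exact ⟨_, h5, k4⟩
        · exact ⟨_, by_contra fun h6 => hc (iff_of_false h6 h5), k5⟩) hr
    have a6 := k3 t x a2 a4
    have a7 : ¬ T (P.inn (!t) x) := fun h => a3 ⟨h, k2 t x a6 a2⟩
    cases t
    · exact a5 (mem_filter.1 (g2 x a6 a1 a7)).2.2
    · exact a5 (mem_filter.1 (g1 x a6 a1 a7)).2.1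
  · push Not at hr
    obtain ⟨c, ⟨c1, c2⟩, c3⟩ := hr
    have k6 : ∀ a, (¬ T (P.σ a) ∧ K (P.inn false x₀) (P.σ a)) ↔
        (¬ T a ∧ K (P.inn false x₀) a) := fun a => and_congr (not_congr (hT a)) (k1 a)
    obtain ⟨t, x, a1, a3, a4, a5⟩ := acc hs.rev hY (e := true)
      (T := fun a => ¬ T a ∧ K (P.inn false x₀) a)
      (fun a => by
        have h5 := k6 (P.σ⁻¹ a)
        rw [show P.σ (P.σ⁻¹ a) = a from P.σ.apply_symm_apply a] at h5
        exact h5.symm) (by
        by_cases h5 : T (P.inn false x₀)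
        · exact ⟨_, fun h6 => hc (iff_of_true h6 h5), k5⟩
        · exact ⟨_, h5, k4⟩) fun a ha h5 => by
        have h6 := rev_root.1 h5
        have h7 : ¬ P.SC c a := fun h => ha.1 (SC.ind (fun u hu => (hT u).2 hu) h c1)
        have h8 := h1.trans (h1.symm c2) ha.2
        exact lt_asymm (nzpk2_root hd hs hQ h4 c3 h8 h7)
          (nzpk2_root hd hs hQ h4 h6 (h1.symm h8) fun h => h7 h.symm)
    obtain ⟨a1, a2⟩ := (k6 (P.inn t x)).1 a1
    have a6 := k3 t x a2 a4
    have a7 : T (P.inn (!t) x) :=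
      by_contra fun h => a3 ((k6 (P.inn (!t) x)).2 ⟨h, k2 t x a6 a2⟩)
    cases t
    · exact a5 (mem_filter.1 (g1 x a6 a7 a1)).2.2
    · exact a5 (mem_filter.1 (g2 x a6 a7 a1)).2.1

theorem beta_le (hd : P.Dist b d) (hs : P.Side sd) {Q : Finset V} (hQ : P.Act Q)
    {χ : V → Bool} (h : P.Tree χ b) (t : Bool) : P.beta d Q t ≤ nf Q χ t := by
  refine le_trans (card_le_card fun S hS => ?_)
    (card_image_le (s := Q.filter fun x => χ x ≠ t) (f := fun x => P.cl (P.inn t x)))
  obtain ⟨x, hx, rfl⟩ := mem_image.1 hS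
  obtain ⟨h1, h2⟩ := mem_filter.1 hx
  obtain ⟨h3, h4⟩ := sign_near hd hs (SC.refl _) h2
  obtain ⟨t', y, a1, -, a3, a4⟩ := acc hs h (e := true) (T := P.SC (P.inn t x))
    (fun _ => sc_σ_right) ⟨_, SC.refl _⟩ fun a ha hr => by
      rcases hr with hr | hr
      · exact h3 (ha.trans hr)
      · rw [← hs.sd_c _ _ ha, ← h4] at hr
        exact hr (hQ.1 x h1)
  obtain rfl := nzpk2_ty a1
  exact mem_image.2 ⟨y, mem_filter.2 ⟨nzpk2_mem hQ h1 a3 a1.symm, a4⟩, nzpk2_cl.2 a1.symm⟩

/-- if every crossing of `Q` that does not follow type `t` is the only one on its circle of type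
`t` and that circle is not a root, the count is at most `beta` -/
theorem le_beta (hd : P.Dist b d) (hs : P.Side sd) {Q : Finset V} (hQ : P.Act Q)
    {χ : V → Bool} {t : Bool} (h1 : ∀ x ∈ Q, χ x ≠ t → ¬ P.Root sd b true (P.inn t x))
    (h2 : ∀ x ∈ Q, ∀ y ∈ Q, χ x ≠ t → χ y ≠ t → P.SC (P.inn t x) (P.inn t y) → x = y) :
    nf Q χ t ≤ P.beta d Q t := by
  refine le_trans (card_image_of_injOn (s := Q.filter fun x => χ x ≠ t)
    (f := fun x => P.cl (P.inn t x)) fun x hx y hy h => ?_).ge (card_le_card fun S hS => ?_)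
  · obtain ⟨a1, a2⟩ := mem_filter.1 (mem_coe.1 hx)
    obtain ⟨a3, a4⟩ := mem_filter.1 (mem_coe.1 hy)
    exact h2 x a1 y a3 a2 a4 (nzpk2_cl.1 h)
  · obtain ⟨x, hx, rfl⟩ := mem_image.1 hS
    obtain ⟨a1, a2⟩ := mem_filter.1 hx
    obtain ⟨a3, a4⟩ := not_or.1 (h1 x a1 a2)
    obtain ⟨t', y, b1, b2⟩ := hd.d_par _ (Nat.pos_of_ne_zero (mt (hd.d_zero _).1 a3))
    obtain rfl := nzpk2_ty b1
    have b3 : P.Z d y ≠ t := (nzpk2_z hd).2 (by
      have b4 := SC.inv hd.d_σ b1
      omega)
    have b5 : P.s y = true := (sign_near hd hs b1 b3).2.trans (not_not.1 a4)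
    exact mem_image.2 ⟨y, mem_filter.2 ⟨nzpk2_mem hQ a1 b5 b1.symm, b3⟩, nzpk2_cl.2 b1.symm⟩

/-- restriction of a cut condition to a union of components -/
theorem NDC.restrict {Q Q' D : Finset V} (hQ : P.Act Q) (hQ' : P.Act Q') (hsub : Q' ⊆ Q)
    (h : P.NDC Q D ∅) : P.NDC Q' (D ∩ Q') ∅ := by
  intro T hT g1 g2 x hx
  have k1 : ∀ t, ∀ y ∈ Q', ∃ t', ∃ z ∈ Q', P.SC (P.inn t y) (P.inn t' z) :=
    fun t y hy => ⟨t, y, hy, SC.refl _⟩
  have k2 := h (fun a => T a ∧ ∃ t', ∃ z ∈ Q', P.SC a (P.inn t' z))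
    (fun a => and_congr (hT a) (by simp only [sc_σ_left]))
    (fun y hy ⟨a1, t, z, hz, a2⟩ a3 => by
      have a4 := nzpk2_mem hQ' hz (hQ.1 y hy) a2
      exact (mem_inter.1 (g1 y a4 a1 fun a5 => a3 ⟨a5, k1 _ y a4⟩)).1)
    (fun y hy ⟨a1, t, z, hz, a2⟩ a3 => by
      have a4 := nzpk2_mem hQ' hz (hQ.1 y hy) a2
      exact g2 y a4 a1 fun a5 => a3 ⟨a5, k1 _ y a4⟩) x (hsub hx)
  exact ⟨fun a => (k2.1 ⟨a, k1 _ x hx⟩).1, fun a => (k2.2 ⟨a, k1 _ x hx⟩).1⟩

end Pl

end Pool.Agent.P.MP_9ed2cf_gt.Nz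
end

-- part Pool.Agent.P.MP_9ed2cf_gt.NzFlip
section

set_option autoImplicit false

namespace Pool.Agent.P.MP_9ed2cf_gt.Nz

open Equiv Finset
open scoped Classical

namespace Pl

variable {A V : Type} {P : Pl A V}

variable [Fintype A] [Fintype V] {b : A} {d : A → ℕ} {sd : A → A → Bool}

omit [Fintype A] [Fintype V] in
theorem flip_nxt (χ : V → Bool) {x : V} (t : Bool) {a : A} (h : ∀ t', a ≠ P.inn t' x) :
    P.nxt (Function.update χ x t) a = P.nxt χ a := by
  rcases P.pass_or a with hp | ⟨t', y, rfl⟩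
  · rw [nxt_pass _ hp, nxt_pass _ hp]
  · rw [nxt_inn, nxt_inn, Function.update_of_ne fun e => h t' (by rw [e])]

omit [Fintype V] in
theorem flip_ty {c : A} {t t' : Bool} {x y : V} (h : P.SC c (P.inn t x))
    (h' : P.SC c (P.inn t' y)) : t' = t := by
  have := (h'.symm.trans h).ty_eq
  rwa [P.ty_inn, P.ty_inn] at this

theorem flip_core {χ : V → Bool} (h : P.Tree χ b) {c : A} {t : Bool} {G : Finset V}
    (hG : ∀ x ∈ G, P.SC c (P.inn t x) ∧ χ x ≠ t) (hne : G.Nonempty)
    (hstop : ∀ x ∈ G, P.SC c b ∨ ∃ y, y ≠ x ∧ P.SC c (P.inn t y) ∧ χ y ≠ t)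
    (hoff : ∀ y, y ∉ G → P.SC c (P.inn t y) → χ y ≠ t → ∀ x ∈ G, ∀ t',
      ¬ P.Reach χ (P.out (χ y) y) (P.inn t' x)) :
    ∃ x ∈ G, P.Tree (Function.update χ x t) b := by
  obtain ⟨dp, h0, hdp⟩ := h.exists_dp
  obtain ⟨x, hx, hmax⟩ := G.exists_max_image (fun x => dp (P.out (χ x) x)) hne
  have h1 : ∀ n a, dp a = n → (dp a ≤ dp (P.out (χ x) x) ∨ ∀ t', ¬ P.Reach χ a (P.inn t' x)) →
      P.Reach (Function.update χ x t) a b := by
    intro n
    induction n using Nat.strong_induction_on with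
    | _ n ih =>
      intro a hn ha
      by_cases hb : a = b
      · rw [hb]
        exact Reach.refl _ _
      have h2 := hdp a hb
      have h3 : ∀ t', a ≠ P.inn t' x := by
        rintro t' rfl
        rcases ha with ha | ha
        · rw [nxt_inn] at h2
          omega
        · exact ha t' (Reach.refl _ _)
      refine Reach.head ?_
      rw [flip_nxt χ t h3]
      exact ih _ (by omega) _ rfl (ha.imp (fun _ => by omega) fun ha t' hr => ha t' hr.head)
  have h4 : ∀ z, P.SC c (P.inn t z) → Function.update χ x t z ≠ t →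
      P.Reach (Function.update χ x t) (P.inn t z) b := by
    intro z hz hzt
    have hzx : z ≠ x := fun e => hzt (by rw [e, Function.update_self])
    rw [Function.update_of_ne hzx] at hzt
    refine Reach.head ?_
    rw [nxt_inn, Function.update_of_ne hzx]
    by_cases hzG : z ∈ G
    · exact h1 _ _ rfl (Or.inl (hmax z hzG))
    · exact h1 _ _ rfl (Or.inr (hoff z hzG hz hzt x hx))
  have h5 : ∀ a', P.SC c a' → P.Reach (Function.update χ x t) a' b →
      P.Reach (Function.update χ x t) (P.out t x) b := by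
    intro a' ha' hr
    have h6 : P.SC c (P.out t x) := sc_σ_right.2 (hG x hx).1
    obtain ⟨n, hk, hn⟩ := walk (Function.update χ x t) (h6.symm.trans ha')
    rcases hn with hn | ⟨t', z, hn, hz⟩
    · exact Reach.trans ⟨n, hn⟩ hr
    · have h7 : P.SC c (P.inn t' z) := by
        rw [← hn, hk n le_rfl]
        exact h6.trans ⟨n, by simp⟩
      obtain rfl := flip_ty (hG x hx).1 h7
      exact Reach.trans ⟨n, hn⟩ (h4 z h7 hz)
  refine ⟨x, hx, h.change fun y hy => ?_⟩
  obtain rfl : y = x := by_contra fun e => hy (Function.update_of_ne e _ _)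
  rw [Function.update_self]
  rcases hstop y hx with hb | ⟨z, hz, hz1, hz2⟩
  · exact h5 b hb (Reach.refl _ _)
  · exact h5 _ hz1 (h4 z hz1 (by rwa [Function.update_of_ne hz]))

theorem negstep {χ : V → Bool} (h : P.Tree χ b) {c : A} {t : Bool} {G : Finset V}
    (hG : ∀ x, x ∈ G ↔ P.SC c (P.inn t x) ∧ χ x ≠ t) {m : ℕ} (hm : m + 1 ≤ G.card) :
    ∃ χ', P.Tree χ' b ∧ (∀ x, x ∉ G → χ' x = χ x) ∧ (G.filter fun x => χ' x = t).card = m := by
  induction m with
  | zero => exact ⟨χ, h, fun _ _ => rfl, by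
      rw [card_eq_zero, filter_eq_empty_iff]
      exact fun x hx => ((hG x).1 hx).2⟩
  | succ m ih =>
    obtain ⟨χ', h1, h2, h3⟩ := ih (by omega)
    have h4 := card_filter_add_card_filter_not (s := G) fun x => χ' x = t
    obtain ⟨x, hx, h5⟩ := flip_core h1 (c := c) (t := t) (G := G.filter fun x => ¬ χ' x = t)
      (fun x hx => ⟨((hG x).1 (mem_filter.1 hx).1).1, (mem_filter.1 hx).2⟩)
      (card_pos.1 (by omega))
      (fun x hx => by
        obtain ⟨y, hy, hne⟩ := exists_mem_ne (s := G.filter fun x => ¬ χ' x = t) (by omega) x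
        exact Or.inr ⟨y, hne, ((hG y).1 (mem_filter.1 hy).1).1, (mem_filter.1 hy).2⟩)
      (fun y hy h6 h7 => by
        have h8 : y ∉ G := fun h8 => hy (mem_filter.2 ⟨h8, h7⟩)
        exact (h8 ((hG y).2 ⟨h6, h2 y h8 ▸ h7⟩)).elim)
    obtain ⟨hxG, hxt⟩ := mem_filter.1 hx
    refine ⟨_, h5, fun y hy => ?_, ?_⟩
    · rw [Function.update_of_ne fun e => hy (by rw [e]; exact hxG), h2 y hy]
    · rw [← h3, ← card_insert_of_notMem (a := x) fun h6 => hxt (mem_filter.1 h6).2]
      congr 1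
      ext y
      by_cases e : y = x
      · simp [e, hxG]
      · simp [e]

theorem flip_zero (hd : P.Dist b d) (hs : P.Side sd) {Q : Finset V} (hQ : P.Act Q)
    {χ : V → Bool} (h : P.Tree χ b) (hf : P.Fam d Q χ) {t : Bool} {x0 : V} (h0 : x0 ∈ Q)
    (ht : χ x0 ≠ t) (hr : P.Root sd b true (P.inn t x0) ∨
      ∃ y ∈ Q, y ≠ x0 ∧ χ y ≠ t ∧ P.SC (P.inn t x0) (P.inn t y)) :
    ∃ x ∈ Q, χ x ≠ t ∧ P.Tree (Function.update χ x t) b := by
  obtain ⟨key, hk⟩ := exists_key hd hs hQ
  have k1 : ∀ x ∈ Q, ∀ t1 t2, key (P.inn t1 x) = key (P.inn t2 x) := by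
    intro x hx t1 t2
    cases t1 <;> cases t2 <;> simp [hk.k_in x hx]
  have k2 : ∀ a, key (P.nxt χ a) ≤ key a := by
    intro a
    rcases P.pass_or a with hp | ⟨t', y, rfl⟩
    · rw [nxt_pass _ hp, hk.k_σ]
    · rw [nxt_inn, out, hk.k_σ]
      by_cases hy : y ∈ Q
      · exact (k1 y hy _ _).le
      · have := hk.k_out y hy
        rw [hf y hy]
        by_cases e : t' = P.Z d y
        · rw [e]
        · rw [Bool.eq_not_iff.2 e]
          exact this.le
  have k3 : ∀ a a', P.Reach χ a a' → key a' ≤ key a := by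
    rintro a _ ⟨n, rfl⟩
    induction n with
    | zero => exact le_rfl
    | succ n ih =>
      rw [Function.iterate_succ_apply']
      exact (k2 _).trans ih
  obtain ⟨x, hx, h1⟩ := flip_core h (c := P.inn t x0) (t := t)
    (G := Q.filter fun x => P.SC (P.inn t x0) (P.inn t x) ∧ χ x ≠ t)
    (fun x hx => (mem_filter.1 hx).2) ⟨x0, mem_filter.2 ⟨h0, SC.refl _, ht⟩⟩
    (fun x hx => by
      by_cases hb : P.SC (P.inn t x0) b
      · exact Or.inl hb
      refine Or.inr ?_
      rcases hr with hr | ⟨y, -, hy1, hy2, hy3⟩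
      · obtain ⟨t', y, h2, h3⟩ := hd.d_par _ (Nat.pos_of_ne_zero fun e => hb ((hd.d_zero _).1 e))
        obtain rfl := flip_ty (SC.refl (P.inn t x0)) h2
        have h4 := SC.inv hd.d_σ h2
        have h5 : P.Z d y ≠ t' := by
          cases t' <;> simp only [Z, Bool.not_false, Bool.not_true] at h3 ⊢ <;> simp <;> omega
        have h6 : y ∉ Q := fun hy =>
          hr.resolve_left hb ((sign_near hd hs h2 h5).2.symm.trans (hQ.1 y hy))
        exact ⟨y, fun e => h6 (e ▸ (mem_filter.1 hx).1), h2, hf y h6 ▸ h5⟩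
      · by_cases e : x = x0
        · exact ⟨y, e ▸ hy1, hy3, hy2⟩
        · exact ⟨x0, Ne.symm e, SC.refl _, ht⟩)
    (fun y hy h2 h3 x hx t' h4 => by
      have h5 : y ∉ Q := fun h5 => hy (mem_filter.2 ⟨h5, h2, h3⟩)
      have h6 := k3 _ _ h4
      have h7 := hk.k_out y h5
      have h8 := SC.inv hk.k_σ (h2.symm.trans (mem_filter.1 hx).2.1)
      rw [out, hk.k_σ, k1 x (mem_filter.1 hx).1 t' t] at h6
      rw [← hf y h5, ← Bool.eq_not_iff.2 (Ne.symm h3)] at h7
      omega)
  exact ⟨x, (mem_filter.1 hx).1, (mem_filter.1 hx).2.2, h1⟩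

theorem flip (hd : P.Dist b d) (hs : P.Side sd) {Q : Finset V} (hQ : P.Act Q) {χ : V → Bool}
    (h : P.Tree χ b) (hf : P.Fam d Q χ) {t : Bool} (hlt : P.beta d Q t < nf Q χ t) :
    ∃ x ∈ Q, χ x ≠ t ∧ P.Tree (Function.update χ x t) b := by
  by_contra hc
  refine absurd (le_beta hd hs hQ (fun x hx ht hr => ?_) fun x hx y hy h1 h2 h3 => ?_) hlt.not_ge
  · exact hc (flip_zero hd hs hQ h hf hx ht (Or.inl hr))
  · exact by_contra fun e => hc (flip_zero hd hs hQ h hf hx h1 (Or.inr ⟨y, hy, Ne.symm e, h2, h3⟩))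

theorem mt_root (hd : P.Dist b d) (hs : P.Side sd) {Q : Finset V} (hQ : P.Act Q) {χ : V → Bool}
    (h : P.Tree χ b) (hf : P.Fam d Q χ) {t : Bool} (he : nf Q χ t = P.beta d Q t) :
    (∀ x ∈ Q, P.Root sd b true (P.inn t x) → χ x = t) ∧
      ∀ x ∈ Q, ∀ y ∈ Q, χ x ≠ t → χ y ≠ t → P.SC (P.inn t x) (P.inn t y) → x = y := by
  have hc : ¬ ∃ x ∈ Q, χ x ≠ t ∧ P.Tree (Function.update χ x t) b := by
    rintro ⟨x, hx, h1, h2⟩
    have h3 := beta_le hd hs hQ h2 t
    have h4 : nf Q (Function.update χ x t) t < nf Q χ t := by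
      refine card_lt_card ⟨fun y hy => ?_, fun hsub => ?_⟩
      · obtain ⟨h5, h6⟩ := mem_filter.1 hy
        have e : y ≠ x := fun e => h6 (by rw [e, Function.update_self])
        exact mem_filter.2 ⟨h5, by rwa [Function.update_of_ne e] at h6⟩
      · exact (mem_filter.1 (hsub (mem_filter.2 ⟨hx, h1⟩))).2 (Function.update_self _ _ _)
    omega
  exact ⟨fun x hx hr => by_contra fun ht => hc (flip_zero hd hs hQ h hf hx ht (Or.inl hr)),
    fun x hx y hy h1 h2 h3 => by_contra fun e =>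
      hc (flip_zero hd hs hQ h hf hx h1 (Or.inr ⟨y, hy, Ne.symm e, h2, h3⟩))⟩

end Pl

end Pool.Agent.P.MP_9ed2cf_gt.Nz
end

-- part Pool.Agent.P.MP_9ed2cf_gt.NzArb
section

set_option autoImplicit false

namespace Pool.Agent.P.MP_9ed2cf_gt.Nz

open Equiv Finset
open scoped Classical

namespace Pl

variable {A V : Type} {P : Pl A V}

variable [Fintype A] [Fintype V] {b : A} {d : A → ℕ} {sd : A → A → Bool}

omit [Fintype A] [Fintype V] in
theorem NzArb_fam {Q : Finset V} {χ : V → Bool} (hf : P.Fam d Q χ) {x : V} (hx : x ∈ Q)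
    (t : Bool) : P.Fam d Q (Function.update χ x t) := fun y hy => by
  rw [Function.update_of_ne (fun e => hy (by rwa [e])), hf y hy]

omit [Fintype A] [Fintype V] in
theorem NzArb_sc_pow {c a : A} (h : P.SC c a) (k : ℕ) : P.SC c ((P.σ ^ k) a) := by
  induction k with
  | zero => exact h
  | succ k ih => rw [pow_succ', Perm.mul_apply]; exact sc_σ_right.2 ih

omit [Fintype A] [Fintype V] in
theorem NzArb_dp {χ : V → Bool} {dp : A → ℕ} (h : ∀ a, a ≠ b → dp (P.nxt χ a) + 1 = dp a)
    {a : A} {n : ℕ} (hn : ∀ k ≤ n, (P.nxt χ)^[k] a ≠ b) : dp ((P.nxt χ)^[n] a) ≤ dp a := by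
  induction n with
  | zero => exact le_rfl
  | succ n ih =>
    have h1 := ih fun k hk => hn k (by omega)
    have h2 := h _ (hn n (by omega))
    rw [Function.iterate_succ_apply']
    omega

/-- on a circle that is not a root the walk leaves through a crossing of `Q` -/
theorem NzArb_exit (hd : P.Dist b d) (hs : P.Side sd) {Q : Finset V} (hQ : P.Act Q)
    {χ : V → Bool} (hf : P.Fam d Q χ) {t : Bool} {x₀ y₀ : V} (hx : x₀ ∈ Q)
    (hr : ¬ P.Root sd b true (P.inn t x₀)) (hy : P.SC (P.inn t x₀) (P.inn t y₀)) (hy' : χ y₀ ≠ t)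
    {a : A} (ha : P.SC (P.inn t x₀) a) : ∃ n, ∃ y ∈ Q, P.SC (P.inn t x₀) (P.inn t y) ∧ χ y ≠ t ∧
      (P.nxt χ)^[n] a = P.inn t y ∧ ∀ k ≤ n, (P.nxt χ)^[k] a ≠ b := by
  obtain ⟨n, h1, h2⟩ := walk χ (ha.symm.trans hy)
  have h3 : ∀ k ≤ n, P.SC (P.inn t x₀) ((P.nxt χ)^[k] a) := fun k hk => by
    rw [h1 k hk]; exact NzArb_sc_pow ha k
  obtain ⟨y, h4, h5⟩ : ∃ y, (P.nxt χ)^[n] a = P.inn t y ∧ χ y ≠ t := by
    rcases h2 with h2 | ⟨t', y, h2, h6⟩
    · exact ⟨y₀, h2, hy'⟩
    · have h7 := (h3 n le_rfl).ty_eq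
      rw [h2, P.ty_inn, P.ty_inn] at h7
      subst h7
      exact ⟨y, h2, h6⟩
  have h6 : P.SC (P.inn t x₀) (P.inn t y) := h4 ▸ h3 n le_rfl
  refine ⟨n, y, ?_, h6, h5, h4, fun k hk e => hr (Or.inl (e ▸ h3 k hk))⟩
  by_contra hn
  have h7 : P.s y = false := Bool.eq_false_iff.2 fun h => hn (hQ.2 x₀ hx y t h h6)
  refine h5 ((hf y hn).trans (z_root hd hs h6 (Or.inr fun h => hr (Or.inr ?_))))
  rw [h, h7]
  exact Bool.false_ne_true

theorem NzArb_acc (hs : P.Side sd) {Q : Finset V} (hQ : P.Act Q) {χ : V → Bool} (h : P.Tree χ b)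
    {t : Bool} {x₀ : V} (hx : x₀ ∈ Q) (hr : ¬ P.Root sd b true (P.inn t x₀)) :
    ∃ y ∈ Q, P.SC (P.inn t x₀) (P.inn t y) ∧ χ y ≠ t := by
  obtain ⟨t', y, h1, -, h2, h3⟩ := acc hs h (e := true) (T := P.SC (P.inn t x₀))
    (fun _ => sc_σ_right) ⟨_, SC.refl _⟩ fun a ha hr' => hr (by
      rcases hr' with h' | h'
      · exact Or.inl (ha.trans h')
      · exact Or.inr (by rwa [hs.sd_c _ _ ha]))
  have h4 := h1.ty_eq
  rw [P.ty_inn, P.ty_inn] at h4
  subst h4
  exact ⟨y, hQ.2 x₀ hx y t h2 h1, h1, h3⟩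

theorem arb (hd : P.Dist b d) (hs : P.Side sd) {Q : Finset V} (hQ : P.Act Q) {χ χ' : V → Bool}
    (h : P.Tree χ b) (hf : P.Fam d Q χ) (h' : P.Tree χ' b) (hf' : P.Fam d Q χ') {t : Bool}
    (he : nf Q χ t = P.beta d Q t) (he' : nf Q χ' t = P.beta d Q t) (hne : χ ≠ χ') :
    ∃ x ∈ Q, ∃ x' ∈ Q, χ x = (!t) ∧ χ' x = t ∧ χ x' = t ∧ χ' x' = (!t) ∧
      P.Tree (Function.update (Function.update χ x t) x' (!t)) b := by
  obtain ⟨r1, u1⟩ := mt_root hd hs hQ h hf he
  obtain ⟨r2, u2⟩ := mt_root hd hs hQ h' hf' he'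
  have hb : ∀ {u : Bool}, u ≠ t → u = !t := fun {u} hu => by cases u <;> cases t <;> simp_all
  have hnt : (!t) ≠ t := by cases t <;> simp
  obtain ⟨dp, -, hdp⟩ := h'.exists_dp
  have hS : (Q.filter fun x => χ' x ≠ t ∧ χ x = t).Nonempty := by
    by_contra hn
    have h1 : (Q.filter fun x => χ' x ≠ t) ⊆ Q.filter fun x => χ x ≠ t := fun x hx =>
      mem_filter.2 ⟨(mem_filter.1 hx).1, fun e =>
        hn ⟨x, mem_filter.2 ⟨(mem_filter.1 hx).1, (mem_filter.1 hx).2, e⟩⟩⟩
    have h2 := eq_of_subset_of_card_le h1 (he.trans he'.symm).le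
    refine hne (funext fun x => ?_)
    by_cases hx : x ∈ Q
    · have h3 : x ∈ (Q.filter fun x => χ' x ≠ t) ↔ x ∈ Q.filter fun x => χ x ≠ t := by rw [h2]
      simp only [mem_filter, hx, true_and] at h3
      by_cases h4 : χ x = t
      · rw [h4]
        by_contra h5
        exact h3.1 (fun e => h5 e.symm) h4
      · rw [hb h4, hb (h3.2 h4)]
    · rw [hf x hx, hf' x hx]
  obtain ⟨x', hx', hmin⟩ := exists_min_image _ (fun x => dp (P.out (!t) x)) hS
  simp only [mem_filter] at hx' hmin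
  obtain ⟨q', a', b'⟩ := hx'
  have hr : ¬ P.Root sd b true (P.inn t x') := fun e => a' (r2 x' q' e)
  obtain ⟨x, q, hc, a⟩ := NzArb_acc hs hQ h q' hr
  have hxx : x ≠ x' := fun e => a (by rw [e, b'])
  have b0 : χ' x = t := by
    by_contra hn
    exact hxx (u2 x' q' x q a' hn hc).symm
  refine ⟨x, q, x', q', hb a, b0, b', hb a', ?_⟩
  have hF := NzArb_fam (NzArb_fam hf q t) q' (!t)
  have e1 : Function.update (Function.update χ x t) x' (!t) x' = !t := Function.update_self ..
  have e2 : Function.update (Function.update χ x t) x' (!t) x = t := by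
    rw [Function.update_of_ne hxx, Function.update_self]
  have e3 : ∀ z, z ≠ x → z ≠ x' → Function.update (Function.update χ x t) x' (!t) z = χ z :=
    fun z h1 h2 => by rw [Function.update_of_ne h2, Function.update_of_ne h1]
  generalize Function.update (Function.update χ x t) x' (!t) = ψ at hF e1 e2 e3
  have same : ∀ t₁ z, P.inn t₁ z ≠ b → dp (P.inn t₁ z) ≤ dp (P.out (!t) x') → ψ z = χ' z := by
    intro t₁ z h1 h2
    have h3 := hdp _ h1
    rw [nxt_inn] at h3
    by_cases k1 : z = x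
    · rw [k1, e2, b0]
    by_cases k2 : z = x'
    · rw [k2, e1, hb a']
    rw [e3 z k1 k2]
    by_cases hz : z ∈ Q
    · by_cases h4 : χ' z = t
      · rw [h4] at h3 ⊢
        by_contra h5
        have hr' : ¬ P.Root sd b true (P.inn t z) := fun e => h5 (r1 z hz e)
        obtain ⟨y₀, -, g1, g2⟩ := NzArb_acc hs hQ h' hz hr'
        obtain ⟨n, y, g3, g4, g5, g6, g7⟩ := NzArb_exit hd hs hQ hf' hz hr' g1 g2
          (a := P.out t z) (sc_σ_right.2 (SC.refl _))
        have g8 := NzArb_dp hdp g7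
        have g9 := hdp _ (g7 n le_rfl)
        rw [g6] at g8 g9
        rw [nxt_inn, hb g5] at g9
        have g10 : χ y ≠ t := fun e => by
          have := hmin y ⟨g3, g5, e⟩
          omega
        exact g5 (u1 z hz y g3 h5 g10 g4 ▸ h4)
      · rw [hb h4] at h3 ⊢
        refine hb fun e => ?_
        have := hmin z ⟨hz, h4, e⟩
        omega
    · rw [hf z hz, hf' z hz]
  have key : ∀ n a, dp a = n → dp a ≤ dp (P.out (!t) x') → P.Reach ψ a b := by
    intro n
    induction n using Nat.strong_induction_on with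
    | _ n ih =>
      intro a h1 h2
      by_cases h3 : a = b
      · rw [h3]; exact Reach.refl _ _
      have h4 := hdp a h3
      have h5 : P.nxt ψ a = P.nxt χ' a := by
        rcases pass_or (P := P) a with h6 | ⟨t₁, z, rfl⟩
        · rw [nxt_pass _ h6, nxt_pass _ h6]
        · rw [nxt_inn, nxt_inn, same t₁ z h3 h2]
      refine Reach.head ?_
      rw [h5]
      exact ih _ (by omega) _ rfl (by omega)
  have k0 := key _ _ rfl le_rfl
  refine h.change fun z hz => ?_
  by_cases k2 : z = x'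
  · rw [k2, e1]; exact k0
  by_cases k1 : z = x
  · rw [k1, e2]
    obtain ⟨n, y, g3, g4, g5, g6, -⟩ := NzArb_exit hd hs hQ hF q' hr (SC.refl _) (e1 ▸ hnt)
      (a := P.out t x) (sc_σ_right.2 hc)
    have g7 : y = x' := by
      by_contra hn
      have g8 : y ≠ x := fun e => g5 (by rw [e, e2])
      rw [e3 y g8 hn] at g5
      exact g8 (u1 y g3 x q g5 a (g4.symm.trans hc))
    refine Reach.trans ⟨n, g6⟩ (Reach.head ?_)
    rw [nxt_inn, g7, e1]
    exact k0
  · exact absurd (e3 z k1 k2) hz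

theorem famD (hd : P.Dist b d) (hs : P.Side sd) {Q : Finset V} (hQ : P.Act Q) :
    FamD Q (fun χ => P.Tree χ b ∧ P.Fam d Q χ) (fun χ => P.rev.Tree χ b ∧ P.Fam d Q χ)
      (P.beta d Q) (P.Z d) where
  zI := ⟨z_tree hd, fun _ _ => rfl⟩
  zO := ⟨rev_Z hd.d_σ ▸ z_tree hd.rev, fun _ _ => rfl⟩
  offI := fun _ h => h.2
  offO := fun _ h => h.2
  lbI := fun _ h t => beta_le hd hs hQ h.1 t
  lbO := fun _ h t => rev_beta hd.d_σ Q t ▸ beta_le hd.rev hs.rev hQ.rev h.1 t
  flipI := fun _ h t hlt => by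
    obtain ⟨x, hx, h1, h2⟩ := flip hd hs hQ h.1 h.2 hlt
    exact ⟨x, hx, h1, h2, NzArb_fam h.2 hx t⟩
  flipO := fun _ h t hlt => by
    obtain ⟨x, hx, h1, h2⟩ := flip hd.rev hs.rev hQ.rev h.1 ((rev_fam hd.d_σ).2 h.2)
      ((rev_beta hd.d_σ Q t).trans_lt hlt)
    exact ⟨x, hx, h1, h2, NzArb_fam h.2 hx t⟩
  arbI := fun _ _ h h' he he' hne => by
    obtain ⟨x, hx, x', hx', h1, h2, h3, h4, h5⟩ := arb hd hs hQ h.1 h.2 h'.1 h'.2 he he' hne
    exact ⟨x, hx, x', hx', h1, h2, h3, h4, h5, NzArb_fam (NzArb_fam h.2 hx _) hx' _⟩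
  arbO := fun _ _ h h' he he' hne => by
    obtain ⟨x, hx, x', hx', h1, h2, h3, h4, h5⟩ := arb hd.rev hs.rev hQ.rev h.1
      ((rev_fam hd.d_σ).2 h.2) h'.1 ((rev_fam hd.d_σ).2 h'.2)
      (he.trans (rev_beta hd.d_σ Q false).symm) (he'.trans (rev_beta hd.d_σ Q false).symm) hne
    exact ⟨x, hx, x', hx', h1, h2, h3, h4, h5, NzArb_fam (NzArb_fam h.2 hx _) hx' _⟩

end Pl

end Pool.Agent.P.MP_9ed2cf_gt.Nz
end

-- part Pool.Agent.P.MP_9ed2cf_gt.NzFam
section

set_option autoImplicit false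

namespace Pool.Agent.P.MP_9ed2cf_gt.Nz

open Equiv Finset
open scoped Classical

variable {V : Type} {Q : Finset V} {I O : (V → Bool) → Prop} {β : Bool → ℕ} {z : V → Bool}

theorem fam_upd (Q : Finset V) (p q : V → Prop) [DecidablePred p] [DecidablePred q] {x : V}
    (hx : x ∈ Q) (h : ∀ y, y ≠ x → (p y ↔ q y)) :
    (Q.filter p).card + (if q x then 1 else 0) = (Q.filter q).card + (if p x then 1 else 0) := by
  rw [card_filter, card_filter, ← Finset.add_sum_erase Q _ hx, ← Finset.add_sum_erase Q _ hx]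
  have : ∑ y ∈ Q.erase x, (if p y then 1 else 0 : ℕ) = ∑ y ∈ Q.erase x, (if q y then 1 else 0) := by
    refine Finset.sum_congr rfl fun y hy => ?_
    have := h y (Finset.ne_of_mem_erase hy)
    by_cases hp : p y
    · rw [if_pos hp, if_pos (this.1 hp)]
    · rw [if_neg hp, if_neg (fun hq => hp (this.2 hq))]
  rw [this]; omega

theorem fam_sum (Q : Finset V) (χ : V → Bool) : nf Q χ true + nf Q χ false = Q.card := by
  unfold nf
  rw [card_filter, card_filter, ← Finset.sum_add_distrib, Finset.card_eq_sum_ones]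
  refine Finset.sum_congr rfl fun x _ => ?_
  cases χ x <;> simp

theorem fam_bal (Q : Finset V) (X Y : V → Bool) :
    cn Q X Y + nf Q X true = cn Q Y X + nf Q Y true := by
  unfold nf cn
  rw [card_filter, card_filter, card_filter, card_filter, ← Finset.sum_add_distrib,
    ← Finset.sum_add_distrib]
  refine Finset.sum_congr rfl fun x _ => ?_
  cases X x <;> cases Y x <;> simp

theorem fam_nf_upd {χ : V → Bool} {x : V} {t : Bool} (hx : x ∈ Q) (h : χ x ≠ t) :
    nf Q (Function.update χ x t) t + 1 = nf Q χ t := by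
  have := fam_upd Q (fun y => Function.update χ x t y ≠ t) (fun y => χ y ≠ t) hx
    (fun y hy => by simp [Function.update_of_ne hy])
  unfold nf
  simpa [h] using this

theorem fam_nf_upd' {χ : V → Bool} {x : V} {t : Bool} (hx : x ∈ Q) (h : χ x ≠ t) :
    nf Q (Function.update χ x t) (!t) = nf Q χ (!t) + 1 := by
  have h1 := fam_nf_upd hx h
  have h2 := fam_sum Q χ
  have h3 := fam_sum Q (Function.update χ x t)
  cases t <;> simp only [Bool.not_true, Bool.not_false] <;> omega

theorem fam_cn1 (X Y : V → Bool) {x : V} (t : Bool) (hx : x ∈ Q) :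
    cn Q (Function.update X x t) Y + (if X x = true ∧ Y x = false then 1 else 0) =
      cn Q X Y + (if t = true ∧ Y x = false then 1 else 0) := by
  have := fam_upd Q (fun y => Function.update X x t y = true ∧ Y y = false)
    (fun y => X y = true ∧ Y y = false) hx (fun y hy => by simp [Function.update_of_ne hy])
  unfold cn
  simpa using this

theorem fam_cn2 (X Y : V → Bool) {x : V} (t : Bool) (hx : x ∈ Q) :
    cn Q X (Function.update Y x t) + (if X x = true ∧ Y x = false then 1 else 0) =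
      cn Q X Y + (if X x = true ∧ t = false then 1 else 0) := by
  have := fam_upd Q (fun y => X y = true ∧ Function.update Y x t y = false)
    (fun y => X y = true ∧ Y y = false) hx (fun y hy => by simp [Function.update_of_ne hy])
  unfold cn
  simpa using this

theorem fam_up1 (X Y : V → Bool) {x : V} (hx : x ∈ Q) :
    cn Q X Y ≤ cn Q (Function.update X x true) Y ∧
      cn Q (Function.update X x true) Y ≤ cn Q X Y + 1 := by
  have := fam_cn1 X Y true hx
  cases hX : X x <;> cases hY : Y x <;> simp [hX, hY] at this <;> omega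

theorem fam_dn1 (X Y : V → Bool) {x : V} (hx : x ∈ Q) :
    cn Q (Function.update X x false) Y ≤ cn Q X Y ∧
      cn Q X Y ≤ cn Q (Function.update X x false) Y + 1 := by
  have := fam_cn1 X Y false hx
  cases hX : X x <;> cases hY : Y x <;> simp [hX, hY] at this <;> omega

theorem fam_up2 (X Y : V → Bool) {x : V} (hx : x ∈ Q) :
    cn Q X (Function.update Y x true) ≤ cn Q X Y ∧
      cn Q X Y ≤ cn Q X (Function.update Y x true) + 1 := by
  have := fam_cn2 X Y true hx
  cases hX : X x <;> cases hY : Y x <;> simp [hX, hY] at this <;> omega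

theorem fam_dn2 (X Y : V → Bool) {x : V} (hx : x ∈ Q) :
    cn Q X Y ≤ cn Q X (Function.update Y x false) ∧
      cn Q X (Function.update Y x false) ≤ cn Q X Y + 1 := by
  have := fam_cn2 X Y false hx
  cases hX : X x <;> cases hY : Y x <;> simp [hX, hY] at this <;> omega

/-- number of points of `Q` where two choices differ -/
noncomputable def famDiff (Q : Finset V) (X Y : V → Bool) : ℕ := (Q.filter fun x => X x ≠ Y x).card

theorem fam_diff_upd {X Y : V → Bool} {x : V} {t : Bool} (hx : x ∈ Q) (h1 : X x ≠ t)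
    (h2 : Y x = t) : famDiff Q (Function.update X x t) Y + 1 = famDiff Q X Y := by
  have := fam_upd Q (fun y => Function.update X x t y ≠ Y y) (fun y => X y ≠ Y y) hx
    (fun y hy => by simp [Function.update_of_ne hy])
  unfold famDiff
  simpa [h1, h2] using this

/-- pairs on the line -/
def FamOn (Q : Finset V) (I O : (V → Bool) → Prop) (v : ℕ) (p : (V → Bool) × (V → Bool)) : Prop :=
  I p.1 ∧ O p.2 ∧ nf Q p.1 false = nf Q p.2 false + v

def FamStep (Q : Finset V) (I O : (V → Bool) → Prop) (v : ℕ)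
    (p q : (V → Bool) × (V → Bool)) : Prop :=
  FamOn Q I O v p ∧ FamOn Q I O v q ∧ cn Q p.2 p.1 ≤ cn Q q.2 q.1 + 1 ∧
    cn Q q.2 q.1 ≤ cn Q p.2 p.1 + 1

theorem fam_step_symm {v : ℕ} {p q : (V → Bool) × (V → Bool)} (h : FamStep Q I O v p q) :
    FamStep Q I O v q p := ⟨h.2.1, h.1, h.2.2.2, h.2.2.1⟩

theorem fam_conn_symm {v : ℕ} {p q : (V → Bool) × (V → Bool)}
    (h : Relation.ReflTransGen (FamStep Q I O v) p q) :
    Relation.ReflTransGen (FamStep Q I O v) q p := by
  induction h with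
  | refl => exact Relation.ReflTransGen.refl
  | tail _ hs ih => exact Relation.ReflTransGen.head (fam_step_symm hs) ih

theorem fam_ivt {v j : ℕ} {p q : (V → Bool) × (V → Bool)}
    (h : Relation.ReflTransGen (FamStep Q I O v) p q) (hp : FamOn Q I O v p)
    (h1 : cn Q p.2 p.1 ≤ j) (h2 : j ≤ cn Q q.2 q.1) :
    ∃ r, FamOn Q I O v r ∧ cn Q r.2 r.1 = j := by
  induction h with
  | refl => exact ⟨p, hp, le_antisymm h1 h2⟩
  | @tail b c _ hs ih =>
    by_cases hb : j ≤ cn Q b.2 b.1
    · exact ih hb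
    · exact ⟨c, hs.2.1, by have := hs.2.2.2; omega⟩

theorem fam_a (h : FamD Q I O β z) {v : ℕ} {Y X' : V → Bool} (hX' : I X')
    (hb' : nf Q X' true = β true) :
    ∀ (n : ℕ) (X : V → Bool), famDiff Q X X' = n → FamOn Q I O v (X, Y) → nf Q X true = β true →
      Relation.ReflTransGen (FamStep Q I O v) (X, Y) (X', Y) := by
  intro n
  induction n using Nat.strong_induction_on with
  | _ n ih =>
    intro X hn hon hb
    by_cases he : X = X'
    · rw [he]
    obtain ⟨x, hx, x', hx', e1, e2, e3, e4, hI⟩ := h.arbI X X' hon.1 hX' hb hb' he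
    have hne : x' ≠ x := by rintro rfl; rw [e1] at e3; exact Bool.false_ne_true e3
    have f1 : X x ≠ true := by simp [e1]
    have f2 : Function.update X x true x' ≠ false := by simp [Function.update_of_ne hne, e3]
    have d1 := fam_diff_upd hx f1 e2
    have d2 := fam_diff_upd hx' f2 e4
    have n1 := fam_nf_upd hx f1
    have n1' := fam_nf_upd' hx f1
    have n2 := fam_nf_upd hx' f2
    have n2' := fam_nf_upd' hx' f2
    simp only [Bool.not_true, Bool.not_false] at n1' n2'
    have c1 := fam_up2 Y X hx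
    have c2 := fam_dn2 Y (Function.update X x true) hx'
    have hv : nf Q X false = nf Q Y false + v := hon.2.2
    have hon' : FamOn Q I O v (Function.update (Function.update X x true) x' false, Y) :=
      ⟨hI, hon.2.1, by simp only; omega⟩
    refine Relation.ReflTransGen.head ⟨hon, hon', ?_, ?_⟩ (ih _ (by omega) _ rfl hon' (by omega))
    · simp only; omega
    · simp only; omega

theorem fam_b0 (h : FamD Q I O β z) {v : ℕ} {X Y' : V → Bool} (hY' : O Y')
    (hb' : nf Q Y' false = β false) :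
    ∀ (n : ℕ) (Y : V → Bool), famDiff Q Y Y' = n → FamOn Q I O v (X, Y) → nf Q Y false = β false →
      Relation.ReflTransGen (FamStep Q I O v) (X, Y) (X, Y') := by
  intro n
  induction n using Nat.strong_induction_on with
  | _ n ih =>
    intro Y hn hon hb
    by_cases he : Y = Y'
    · rw [he]
    obtain ⟨x, hx, x', hx', e1, e2, e3, e4, hO⟩ := h.arbO Y Y' hon.2.1 hY' hb hb' he
    have hne : x' ≠ x := by rintro rfl; rw [e3] at e1; exact Bool.false_ne_true e1
    have f1 : Y x ≠ false := by simp [e1]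
    have f2 : Function.update Y x false x' ≠ true := by simp [Function.update_of_ne hne, e3]
    have d1 := fam_diff_upd hx f1 e2
    have d2 := fam_diff_upd hx' f2 e4
    have n1 := fam_nf_upd hx f1
    have n2' := fam_nf_upd' hx' f2
    simp only [Bool.not_true] at n2'
    have c1 := fam_dn1 Y X hx
    have c2 := fam_up1 (Function.update Y x false) X hx'
    have hv : nf Q X false = nf Q Y false + v := hon.2.2
    have hon' : FamOn Q I O v (X, Function.update (Function.update Y x false) x' true) :=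
      ⟨hon.1, hO, by simp only; omega⟩
    refine Relation.ReflTransGen.head ⟨hon, hon', ?_, ?_⟩ (ih _ (by omega) _ rfl hon' (by omega))
    · simp only; omega
    · simp only; omega

theorem fam_down {v : ℕ} {X Y : V → Bool} {x y : V} (hon : FamOn Q I O v (X, Y)) (hx : x ∈ Q)
    (hy : y ∈ Q) (fx : X x ≠ false) (fy : Y y ≠ false) (hI : I (Function.update X x false))
    (hO : O (Function.update Y y false)) :
    FamStep Q I O v (X, Y) (Function.update X x false, Function.update Y y false) := by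
  have n1 := fam_nf_upd hx fx
  have n2 := fam_nf_upd hy fy
  have c1 := fam_dn2 Y X hx
  have c2 := fam_dn1 Y (Function.update X x false) hy
  have hv : nf Q X false = nf Q Y false + v := hon.2.2
  refine ⟨hon, ⟨hI, hO, ?_⟩, ?_, ?_⟩ <;> simp only <;> omega

theorem fam_b (h : FamD Q I O β z) {v : ℕ} :
    ∀ (k : ℕ) (X Y Y' : V → Bool), nf Q Y false = k → FamOn Q I O v (X, Y) →
      FamOn Q I O v (X, Y') → Relation.ReflTransGen (FamStep Q I O v) (X, Y) (X, Y') := by
  intro k
  induction k using Nat.strong_induction_on with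
  | _ k ih =>
    intro X Y Y' hk hon hon'
    have hv : nf Q X false = nf Q Y false + v := hon.2.2
    have hv' : nf Q X false = nf Q Y' false + v := hon'.2.2
    have lb := h.lbO Y hon.2.1 false
    by_cases hb : β false < k
    · obtain ⟨x, hx, fx, hI⟩ := h.flipI X hon.1 false (by omega)
      obtain ⟨y, hy, fy, hO⟩ := h.flipO Y hon.2.1 false (by omega)
      have hlt : β false < nf Q Y' false := by omega
      obtain ⟨y', hy', fy', hO'⟩ := h.flipO Y' hon'.2.1 false hlt
      have s1 := fam_down hon hx hy fx fy hI hO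
      have s2 := fam_down hon' hx hy' fx fy' hI hO'
      have n2 := fam_nf_upd hy fy
      exact (Relation.ReflTransGen.head s1
        (ih _ (by omega) _ _ _ rfl s1.2.1 s2.2.1)).tail (fam_step_symm s2)
    · have e1 : nf Q Y' false = β false := by omega
      exact fam_b0 h hon'.2.1 e1 _ Y rfl hon (by omega)

theorem fam_c (h : FamD Q I O β z) {v : ℕ} :
    ∀ (k : ℕ) (X Y : V → Bool), nf Q X true = k → FamOn Q I O v (X, Y) →
      ∃ X' Y', FamOn Q I O v (X', Y') ∧ nf Q X' true = β true ∧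
        Relation.ReflTransGen (FamStep Q I O v) (X, Y) (X', Y') := by
  intro k
  induction k using Nat.strong_induction_on with
  | _ k ih =>
    intro X Y hk hon
    have hv : nf Q X false = nf Q Y false + v := hon.2.2
    have lb := h.lbI X hon.1 true
    have s1 := fam_sum Q X
    have s2 := fam_sum Q Y
    by_cases hb : β true < k
    · obtain ⟨x, hx, fx, hI⟩ := h.flipI X hon.1 true (by omega)
      obtain ⟨y, hy, fy, hO⟩ := h.flipO Y hon.2.1 true (by omega)
      have n1 := fam_nf_upd hx fx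
      have n1' := fam_nf_upd' hx fx
      have n2' := fam_nf_upd' hy fy
      simp only [Bool.not_true] at n1' n2'
      have c1 := fam_up2 Y X hx
      have c2 := fam_up1 Y (Function.update X x true) hy
      have hon' : FamOn Q I O v (Function.update X x true, Function.update Y y true) :=
        ⟨hI, hO, by simp only; omega⟩
      obtain ⟨X', Y', g1, g2, g3⟩ := ih _ (by omega) _ _ rfl hon'
      refine ⟨X', Y', g1, g2, Relation.ReflTransGen.head ⟨hon, hon', ?_, ?_⟩ g3⟩
      · simp only; omega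
      · simp only; omega
    · exact ⟨X, Y, hon, by omega, Relation.ReflTransGen.refl⟩

/-- the values of `j` on a line `i - j = v ≥ 0` form an interval -/
theorem FamD.line (h : FamD Q I O β z) {X Y X' Y' : V → Bool} (hX : I X) (hY : O Y) (hX' : I X')
    (hY' : O Y') {v j : ℕ} (hv : cn Q X Y = cn Q Y X + v) (hv' : cn Q X' Y' = cn Q Y' X' + v)
    (h1 : cn Q Y X ≤ j) (h2 : j ≤ cn Q Y' X') :
    ∃ X'' Y'', I X'' ∧ O Y'' ∧ cn Q X'' Y'' = j + v ∧ cn Q Y'' X'' = j := by
  have hon : FamOn Q I O v (X, Y) := ⟨hX, hY, by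
    have := fam_bal Q X Y; have := fam_sum Q X; have := fam_sum Q Y; simp only; omega⟩
  have hon' : FamOn Q I O v (X', Y') := ⟨hX', hY', by
    have := fam_bal Q X' Y'; have := fam_sum Q X'; have := fam_sum Q Y'; simp only; omega⟩
  obtain ⟨X1, Y1, o1, b1, r1⟩ := fam_c h _ X Y rfl hon
  obtain ⟨X2, Y2, o2, b2, r2⟩ := fam_c h _ X' Y' rfl hon'
  have r3 := fam_a h o2.1 b2 _ X1 rfl o1 b1
  have o3 : FamOn Q I O v (X2, Y1) := ⟨o2.1, o1.2.1, by
    have e1 : nf Q X1 false = nf Q Y1 false + v := o1.2.2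
    have := fam_sum Q X1; have := fam_sum Q X2; simp only; omega⟩
  have r4 := fam_b h _ X2 Y1 Y2 rfl o3 o2
  obtain ⟨r, hr, hj⟩ := fam_ivt (((r1.trans r3).trans r4).trans (fam_conn_symm r2)) hon h1 h2
  refine ⟨r.1, r.2, hr.1, hr.2.1, ?_, hj⟩
  have := fam_bal Q r.1 r.2
  have := fam_sum Q r.1
  have := fam_sum Q r.2
  have := hr.2.2
  omega

theorem FamD.low (h : FamD Q I O β z) {i : ℕ} (hi : i + β true + β false ≤ Q.card) :
    ∃ X Y, I X ∧ O Y ∧ cn Q X Y = i ∧ cn Q Y X = 0 ∧
      ∀ x, (z x = true → X x = true) ∧ (z x = false → Y x = false) := by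
  have key : ∀ X Y : V → Bool, (∀ x, (z x = true → X x = true) ∧ (z x = false → Y x = false)) →
      cn Q Y X = 0 := by
    intro X Y hz
    unfold cn
    rw [Finset.card_eq_zero, Finset.filter_eq_empty_iff]
    rintro x _ ⟨e1, e2⟩
    cases hzx : z x
    · rw [(hz x).2 hzx] at e1; exact Bool.false_ne_true e1
    · rw [(hz x).1 hzx] at e2; exact Bool.false_ne_true e2.symm
  induction i with
  | zero =>
    have hz : ∀ x, (z x = true → z x = true) ∧ (z x = false → z x = false) :=
      fun x => ⟨id, id⟩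
    exact ⟨z, z, h.zI, h.zO, key z z hz, key z z hz, hz⟩
  | succ i ih =>
    obtain ⟨X, Y, hX, hY, e1, e2, hz⟩ := ih (by omega)
    have b1 := fam_bal Q X Y
    have s2 := fam_sum Q Y
    by_cases hb : β true < nf Q X true
    · obtain ⟨x, hx, fx, hI⟩ := h.flipI X hX true hb
      have hz' : ∀ y, (z y = true → Function.update X x true y = true) ∧
          (z y = false → Y y = false) := by
        intro y
        refine ⟨fun hy => ?_, (hz y).2⟩
        by_cases hyx : y = x
        · rw [hyx, Function.update_self]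
        · rw [Function.update_of_ne hyx]; exact (hz y).1 hy
      have k := key _ _ hz'
      have b2 := fam_bal Q (Function.update X x true) Y
      have n1 := fam_nf_upd hx fx
      exact ⟨_, _, hI, hY, by omega, k, hz'⟩
    · obtain ⟨y, hy, fy, hO⟩ := h.flipO Y hY false (by omega)
      have hz' : ∀ x, (z x = true → X x = true) ∧
          (z x = false → Function.update Y y false x = false) := by
        intro x
        refine ⟨(hz x).1, fun hx => ?_⟩
        by_cases hyx : x = y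
        · rw [hyx, Function.update_self]
        · rw [Function.update_of_ne hyx]; exact (hz x).2 hx
      have k := key _ _ hz'
      have b2 := fam_bal Q X (Function.update Y y false)
      have n1 := fam_nf_upd' hy fy
      simp only [Bool.not_false] at n1
      exact ⟨_, _, hX, hO, by omega, k, hz'⟩

theorem fam_raise (h : FamD Q I O β z) {v : ℕ} (hv : v + β true + β false ≤ Q.card) :
    ∀ (k : ℕ) (X Y : V → Bool), I X → O Y → cn Q X Y + k = cn Q Y X + v →
      ∃ X' Y', I X' ∧ O Y' ∧ cn Q X Y ≤ cn Q X' Y' ∧ cn Q X' Y' = cn Q Y' X' + v := by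
  intro k
  induction k with
  | zero => intro X Y hX hY e; exact ⟨X, Y, hX, hY, le_rfl, by omega⟩
  | succ k ih =>
    intro X Y hX hY e
    have b1 := fam_bal Q X Y
    have s2 := fam_sum Q Y
    by_cases hb : β true < nf Q X true
    · obtain ⟨x, hx, fx, hI⟩ := h.flipI X hX true hb
      have b2 := fam_bal Q (Function.update X x true) Y
      have n1 := fam_nf_upd hx fx
      have c1 := fam_up1 X Y hx
      obtain ⟨X', Y', g1, g2, g3, g4⟩ := ih _ _ hI hY (by omega)
      exact ⟨X', Y', g1, g2, by omega, g4⟩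
    · obtain ⟨y, hy, fy, hO⟩ := h.flipO Y hY false (by omega)
      have b2 := fam_bal Q X (Function.update Y y false)
      have n1 := fam_nf_upd' hy fy
      simp only [Bool.not_false] at n1
      have c1 := fam_dn2 X Y hy
      obtain ⟨X', Y', g1, g2, g3, g4⟩ := ih _ _ hX hO (by omega)
      exact ⟨X', Y', g1, g2, by omega, g4⟩

theorem fam_hit (h : FamD Q I O β z) {v j : ℕ} (hv : v + β true + β false ≤ Q.card)
    {X Y : V → Bool} (hX : I X) (hY : O Y) (h1 : cn Q X Y ≤ cn Q Y X + v)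
    (h2 : j + v ≤ cn Q X Y) : ∃ X' Y', I X' ∧ O Y' ∧ cn Q X' Y' = j + v ∧ cn Q Y' X' = j := by
  obtain ⟨X1, Y1, g1, g2, g3, g4⟩ := fam_raise h hv (cn Q Y X + v - cn Q X Y) X Y hX hY (by omega)
  obtain ⟨X0, Y0, l1, l2, l3, l4, _⟩ := h.low hv
  exact h.line l1 l2 g1 g2 (by omega) g4 (by omega) (by omega)

theorem FamD.edge (h : FamD Q I O β z) {X Y : V → Bool} (hX : I X) (hY : O Y) {i j : ℕ}
    (hi : i ≤ cn Q X Y) (hij : i + β true + β false = Q.card + j) :
    ∃ X' Y', I X' ∧ O Y' ∧ cn Q X' Y' = i ∧ cn Q Y' X' = j ∧ nf Q X' true = β true ∧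
      nf Q Y' false = β false := by
  have z1 := h.lbI z h.zI true
  have z2 := h.lbI z h.zI false
  have z3 := fam_sum Q z
  have b1 := fam_bal Q X Y
  have s2 := fam_sum Q Y
  have l1 := h.lbI X hX true
  have l2 := h.lbO Y hY false
  obtain ⟨X', Y', g1, g2, g3, g4⟩ := fam_hit h (v := i - j) (j := j) (by omega) hX hY (by omega)
    (by omega)
  have b2 := fam_bal Q X' Y'
  have s3 := fam_sum Q Y'
  have l3 := h.lbI X' g1 true
  have l4 := h.lbO Y' g2 false
  exact ⟨X', Y', g1, g2, by omega, g4, by omega, by omega⟩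

theorem FamD.fill (h : FamD Q I O β z) {i0 j0 : ℕ}
    (h0 : ∃ X Y, I X ∧ O Y ∧ cn Q X Y = i0 ∧ cn Q Y X = j0)
    (htop : ∀ i, j0 ≤ i → i ≤ i0 → ∃ X Y, I X ∧ O Y ∧ cn Q X Y = i ∧ cn Q Y X + i = i0 + j0)
    {i j : ℕ} (hji : j ≤ i) (hi : i ≤ i0) (hw : i + β true + β false ≤ Q.card + j)
    (hn : i + j ≤ i0 + j0) : ∃ X Y, I X ∧ O Y ∧ cn Q X Y = i ∧ cn Q Y X = j := by
  by_cases hc : i0 ≤ j0 + (i - j)
  · obtain ⟨X, Y, hX, hY, e1, e2⟩ := h0
    obtain ⟨X', Y', g1, g2, g3, g4⟩ := fam_hit h (v := i - j) (j := j) (by omega) hX hY (by omega)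
      (by omega)
    exact ⟨X', Y', g1, g2, by omega, g4⟩
  · obtain ⟨X, Y, hX, hY, e1, e2⟩ := htop ((i0 + j0 + (i - j)) / 2) (by omega) (by omega)
    obtain ⟨X', Y', g1, g2, g3, g4⟩ := fam_hit h (v := i - j) (j := j) (by omega) hX hY (by omega)
      (by omega)
    exact ⟨X', Y', g1, g2, by omega, g4⟩

end Pool.Agent.P.MP_9ed2cf_gt.Nz
end

-- part Pool.Agent.P.MP_9ed2cf_gt.NzExch
section

set_option autoImplicit false

namespace Pool.Agent.P.MP_9ed2cf_gt.Nz

open Equiv Finset
open scoped Classical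

variable {V U : Type}

theorem TC.compl {E : Finset V} {f g : V → U} {O : V → Bool} (h : TC E f g O) :
    TC E f g fun x => !O x := by
  intro T hT
  obtain ⟨x, hx, h1⟩ := hT
  obtain ⟨y, hy, h2, h3⟩ := h (fun u => ¬ T u) ⟨x, hx, by tauto⟩
  refine ⟨y, hy, ?_⟩
  cases hO : O y <;> simp only [hO] at h2 h3 ⊢ <;> simp at h2 h3 ⊢ <;> exact ⟨h3, h2⟩

/-- head of an edge -/
def exchHd (f g : V → U) (O : V → Bool) (x : V) : U := if O x then g x else f x

/-- in-degree -/
noncomputable def exchDeg (E : Finset V) (f g : V → U) (O : V → Bool) (u : U) : ℤ :=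
  (E.filter fun x => exchHd f g O x = u).card

/-- number of edges inside `S` -/
noncomputable def exchIn (E : Finset V) (f g : V → U) (S : Finset U) : ℤ :=
  (E.filter fun x => f x ∈ S ∧ g x ∈ S).card

/-- some edge has exactly one end in `S` -/
def exchCut (E : Finset V) (f g : V → U) (S : Finset U) : Prop := ∃ x ∈ E, ¬ (f x ∈ S ↔ g x ∈ S)

/-- in-degree vectors of totally cyclic orientations -/
structure ExchGood [Fintype U] (E : Finset V) (f g : V → U) (m : U → ℤ) : Prop where
  tot : ∑ u, m u = E.card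
  le : ∀ S, exchIn E f g S ≤ ∑ u ∈ S, m u
  lt : ∀ S, exchCut E f g S → exchIn E f g S + 1 ≤ ∑ u ∈ S, m u

section

variable {E : Finset V} {f g : V → U} {O : V → Bool}

theorem exch_sum_deg (S : Finset U) :
    ∑ u ∈ S, exchDeg E f g O u = (E.filter fun x => exchHd f g O x ∈ S).card := by
  unfold exchDeg
  simp only [card_filter, Nat.cast_sum]
  rw [sum_comm]
  refine sum_congr rfl fun x _ => ?_
  rw [← Nat.cast_sum, sum_ite_eq]

theorem exch_sub (S : Finset U) :
    (E.filter fun x => f x ∈ S ∧ g x ∈ S) ⊆ E.filter fun x => exchHd f g O x ∈ S := by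
  intro x hx
  obtain ⟨h1, h2, h3⟩ := mem_filter.1 hx
  refine mem_filter.2 ⟨h1, ?_⟩
  unfold exchHd
  split_ifs <;> assumption

theorem exch_good [Fintype U] (h : TC E f g O) : ExchGood E f g (exchDeg E f g O) := by
  refine ⟨by rw [exch_sum_deg]; simp, fun S => ?_, fun S hS => ?_⟩
  · rw [exch_sum_deg, exchIn]
    exact Nat.cast_le.2 (card_le_card (exch_sub S))
  · rw [exch_sum_deg, exchIn]
    obtain ⟨x, hx, h1⟩ := hS
    obtain ⟨y, hy, h2, h3⟩ := h (fun u => u ∉ S) ⟨x, hx, by tauto⟩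
    have h4 := card_lt_card ((ssubset_iff_of_subset (exch_sub (E := E) (f := f) (g := g)
      (O := O) S)).2 ⟨y, mem_filter.2 ⟨hy, not_not.1 h3⟩, fun hm => h2 (by
        obtain ⟨_, h5, h6⟩ := mem_filter.1 hm
        split_ifs <;> assumption)⟩)
    omega

theorem exch_tc [Fintype U] (h : ExchGood E f g (exchDeg E f g O)) : TC E f g O := by
  intro T hT
  obtain ⟨x, hx, h1⟩ := hT
  have h2 := h.lt (univ.filter fun u => ¬ T u)
    ⟨x, hx, by simp only [mem_filter, mem_univ, true_and]; tauto⟩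
  rw [exch_sum_deg, exchIn] at h2
  obtain ⟨y, hy, h3⟩ := exists_mem_notMem_of_card_lt_card (Nat.cast_lt.1 (Int.lt_of_add_one_le h2))
  obtain ⟨h4, h5⟩ := mem_filter.1 hy
  refine ⟨y, h4, ?_⟩
  simp only [mem_filter, mem_univ, true_and, exchHd] at h3 h5
  cases hO : O y <;> simp only [hO] at h5 ⊢ <;> simp at h5 ⊢ <;> tauto

theorem exch_hall [Fintype U] {m : U → ℤ} (h : ExchGood E f g m) :
    ∃ O, exchDeg E f g O = m := by
  have h0 : ∀ u, 0 ≤ m u := fun u => by
    have h1 := h.le {u}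
    rw [sum_singleton] at h1
    exact (Nat.cast_nonneg _).trans h1
  let Cp : Finset U → Finset (Σ _ : U, ℕ) := fun S => S.sigma fun u => range (m u).toNat
  have hC : ∀ S, ((Cp S).card : ℤ) = ∑ u ∈ S, m u := fun S => by
    simp only [Cp, card_sigma, card_range, Nat.cast_sum]
    exact sum_congr rfl fun u _ => Int.toNat_of_nonneg (h0 u)
  obtain ⟨φ, hφ, hm⟩ := (all_card_le_biUnion_card_iff_exists_injective
    (fun x : E => Cp {f x, g x})).1 fun s => by
      have h1 := h.le (s.biUnion fun x => {f x, g x})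
      rw [← hC, exchIn] at h1
      have h2 : s.card ≤ (E.filter fun x => f x ∈ (s.biUnion fun x : E => ({f x, g x} : Finset U)) ∧
          g x ∈ s.biUnion fun x : E => ({f x, g x} : Finset U)).card :=
        card_le_card_of_injOn Subtype.val (fun x hx => mem_coe.2 (mem_filter.2 ⟨x.2,
          mem_biUnion.2 ⟨x, hx, by simp⟩, mem_biUnion.2 ⟨x, hx, by simp⟩⟩))
          Subtype.val_injective.injOn
      refine h2.trans ((Nat.cast_le.1 h1).trans (card_le_card fun p hp => ?_))
      obtain ⟨h3, h4⟩ := mem_sigma.1 hp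
      obtain ⟨x, hx, h5⟩ := mem_biUnion.1 h3
      exact mem_biUnion.2 ⟨x, hx, mem_sigma.2 ⟨h5, h4⟩⟩
  let O : V → Bool := fun x => decide (∃ hx : x ∈ E, (φ ⟨x, hx⟩).1 = g x)
  have hO : ∀ x : E, exchHd f g O x = (φ x).1 := fun x => by
    have h1 := (mem_sigma.1 (hm x)).1
    unfold exchHd
    split_ifs with h2
    · obtain ⟨_, h3⟩ := of_decide_eq_true h2
      exact h3.symm
    · rcases mem_insert.1 h1 with h3 | h3
      · exact h3.symm
      · exact absurd (decide_eq_true ⟨x.2, mem_singleton.1 h3⟩) h2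
  have hle : ∀ u, exchDeg E f g O u ≤ m u := fun u => by
    have h1 := hC {u}
    rw [sum_singleton] at h1
    rw [← h1, exchDeg, ← card_attach]
    refine Nat.cast_le.2 (card_le_card_of_injOn (fun x => φ ⟨x.1, (mem_filter.1 x.2).1⟩)
      (fun x _ => mem_coe.2 (mem_sigma.2 ⟨?_, (mem_sigma.1 (hm _)).2⟩)) fun x _ y _ e => ?_)
    · exact mem_singleton.2 ((hO _).symm.trans (mem_filter.1 x.2).2)
    · exact Subtype.ext (congrArg (fun z : E => z.1) (hφ e))
  refine ⟨O, funext fun u => (sum_eq_sum_iff_of_le fun u _ => hle u).1 ?_ u (mem_univ u)⟩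
  rw [h.tot, exch_sum_deg]
  simp

theorem exch_super (S T : Finset U) :
    exchIn E f g S + exchIn E f g T ≤ exchIn E f g (S ∪ T) + exchIn E f g (S ∩ T) := by
  unfold exchIn
  simp only [card_filter, Nat.cast_sum, ← sum_add_distrib]
  refine sum_le_sum fun x _ => ?_
  simp only [mem_union, mem_inter]
  by_cases h1 : f x ∈ S <;> by_cases h2 : g x ∈ S <;> by_cases h3 : f x ∈ T <;>
    by_cases h4 : g x ∈ T <;> simp [h1, h2, h3, h4]

theorem exch_split {R : Finset U} (hR : ¬ exchCut E f g R) (S : Finset U) :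
    exchIn E f g S = exchIn E f g (S ∩ R) + exchIn E f g (S \ R) := by
  unfold exchIn
  simp only [card_filter, Nat.cast_sum, ← sum_add_distrib]
  refine sum_congr rfl fun x hx => ?_
  have h0 : f x ∈ R ↔ g x ∈ R := not_not.1 fun h => hR ⟨x, hx, h⟩
  simp only [mem_sdiff, mem_inter, h0]
  by_cases h1 : f x ∈ S <;> by_cases h2 : g x ∈ S <;> by_cases h3 : g x ∈ R <;> simp [h1, h2, h3]

theorem exch_closed [Fintype U] {m : U → ℤ} (h : ExchGood E f g m) {R : Finset U}
    (hR : ¬ exchCut E f g R) : ∑ u ∈ R, m u = exchIn E f g R := by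
  have h1 := exch_split hR univ
  have h2 : exchIn E f g univ = E.card := by simp [exchIn]
  have h3 := h.le R
  have h4 := h.le (univ \ R)
  have h5 := sum_sdiff (f := m) (subset_univ R)
  have h6 := h.tot
  rw [univ_inter] at h1
  omega

theorem exch_comp [Fintype U] (u : U) : ∃ R : Finset U, u ∈ R ∧ ¬ exchCut E f g R ∧
    ∀ S ⊆ R.erase u, S.Nonempty → exchCut E f g S := by
  obtain ⟨R, hR, hm⟩ := exists_min_image
    (univ.filter fun R : Finset U => u ∈ R ∧ ¬ exchCut E f g R) card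
    ⟨univ, mem_filter.2 ⟨mem_univ _, mem_univ _, by simp [exchCut]⟩⟩
  obtain ⟨h1, h2⟩ := (mem_filter.1 hR).2
  refine ⟨R, h1, h2, fun S hS hne => not_not.1 fun h3 => ?_⟩
  have h4 := hm (R \ S) (mem_filter.2 ⟨mem_univ _, mem_sdiff.2 ⟨h1, fun h => by
    simpa using hS h⟩, by
      rintro ⟨x, hx, h5⟩
      have a1 : f x ∈ R ↔ g x ∈ R := not_not.1 fun h => h2 ⟨x, hx, h⟩
      have a2 : f x ∈ S ↔ g x ∈ S := not_not.1 fun h => h3 ⟨x, hx, h⟩
      exact h5 (by simp only [mem_sdiff, a1, a2])⟩)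
  have h5 := card_lt_card (sdiff_ssubset (hS.trans (erase_subset u R)) hne)
  omega

theorem exch_cover [Fintype U] {m m' : U → ℤ} (h : ExchGood E f g m) (h' : ExchGood E f g m')
    (X : Finset U) (hX : ∀ S ⊆ X, S.Nonempty → exchCut E f g S)
    (hc : ∀ w ∈ X, m' w < m w → ∃ S ⊆ X, w ∈ S ∧ ∑ u ∈ S, m u ≤ exchIn E f g S + 1) :
    ∑ u ∈ X, m u ≤ ∑ u ∈ X, m' u := by
  induction X using Finset.strongInduction with
  | H X ih =>
    by_cases h0 : ∃ w ∈ X, m' w < m w
    · obtain ⟨w, hw, h1⟩ := h0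
      obtain ⟨S0, a1, a2, a3⟩ := hc w hw h1
      obtain ⟨S, hS, hm⟩ := exists_max_image (X.powerset.filter fun S =>
        S.Nonempty ∧ ∑ u ∈ S, m u ≤ exchIn E f g S + 1) card
        ⟨S0, mem_filter.2 ⟨mem_powerset.2 a1, ⟨w, a2⟩, a3⟩⟩
      obtain ⟨b1, b2, b3⟩ := mem_filter.1 hS
      have b1' := mem_powerset.1 b1
      have h2 := ih (X \ S) (sdiff_ssubset b1' b2)
        (fun T hT => hX T (hT.trans sdiff_subset)) fun v hv h3 => by
          obtain ⟨c1, c2⟩ := mem_sdiff.1 hv
          obtain ⟨T, d1, d2, d3⟩ := hc v c1 h3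
          refine ⟨T, fun y hy => mem_sdiff.2 ⟨d1 hy, fun hyS => ?_⟩, d2, d3⟩
          have e1 := h.lt _ (hX (S ∩ T) (inter_subset_left.trans b1') ⟨y, mem_inter.2 ⟨hyS, hy⟩⟩)
          have e2 := exch_super (E := E) (f := f) (g := g) S T
          have e3 := sum_union_inter (s₁ := S) (s₂ := T) (f := m)
          have e4 := hm (S ∪ T) (mem_filter.2 ⟨mem_powerset.2 (union_subset b1' d1),
            ⟨y, mem_union_left _ hyS⟩, by omega⟩)
          have e5 := card_lt_card ((ssubset_iff_of_subset (subset_union_left (s₁ := S)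
            (s₂ := T))).2 ⟨v, mem_union_right _ d2, c2⟩)
          omega
      have h3 := h'.lt S (hX S b1' b2)
      have h4 := sum_sdiff (f := m) b1'
      have h5 := sum_sdiff (f := m') b1'
      omega
    · exact sum_le_sum fun w hw => not_lt.1 fun h1 => h0 ⟨w, hw, h1⟩

theorem exch_step [Fintype U] {m m' : U → ℤ} (h : ExchGood E f g m) (h' : ExchGood E f g m')
    {u : U} (hu : m u < m' u) : ∃ w, m' w < m w ∧
      ExchGood E f g fun v => m v + (if v = u then 1 else 0) - if v = w then 1 else 0 := by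
  obtain ⟨R, h1, h2, h3⟩ := exch_comp (E := E) (f := f) (g := g) u
  have h4 : ¬ ∀ w ∈ R.erase u, m' w < m w →
      ∃ S ⊆ R.erase u, w ∈ S ∧ ∑ u ∈ S, m u ≤ exchIn E f g S + 1 := fun hc => by
    have a1 := exch_cover h h' _ h3 hc
    have a2 := exch_closed h h2
    have a3 := exch_closed h' h2
    have a4 := add_sum_erase R m h1
    have a5 := add_sum_erase R m' h1
    omega
  push Not at h4
  obtain ⟨w, hw, h5, h6⟩ := h4
  have hs : ∀ S : Finset U, ∑ v ∈ S, (m v + (if v = u then 1 else 0) - if v = w then 1 else 0) =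
      ∑ v ∈ S, m v + (if u ∈ S then 1 else 0) - if w ∈ S then 1 else 0 := fun S => by
    rw [sum_sub_distrib, sum_add_distrib, sum_ite_eq', sum_ite_eq']
  have key : ∀ S : Finset U, u ∉ S → w ∈ S → exchIn E f g S + 2 ≤ ∑ v ∈ S, m v := by
    intro S a1 a2
    have b1 := h6 (S ∩ R) (fun y hy => mem_erase.2 ⟨fun e => a1 (e ▸ (mem_inter.1 hy).1),
      (mem_inter.1 hy).2⟩) (mem_inter.2 ⟨a2, (mem_erase.1 hw).2⟩)
    have b2 := h.le (S \ R)
    have b3 := exch_split h2 S
    have b4 := sum_inter_add_sum_sdiff S R m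
    omega
  refine ⟨w, h5, by rw [hs, h.tot]; simp, fun S => ?_, fun S hS => ?_⟩
  · have a1 := h.le S
    have a2 := key S
    rw [hs]
    split_ifs with b1 b2 b2
    all_goals first | omega | (have := a2 b1 b2; omega)
  · have a1 := h.lt S hS
    have a2 := key S
    rw [hs]
    split_ifs with b1 b2 b2
    all_goals first | omega | (have := a2 b1 b2; omega)

theorem exch_ivt [Fintype U] {m' : U → ℤ} (h' : ExchGood E f g m') (C : Finset U) {k : ℤ}
    (hk : k ≤ ∑ u ∈ C, m' u) (n : ℕ) : ∀ m : U → ℤ, ExchGood E f g m →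
      ∑ u, (m' u - m u).toNat ≤ n → ∑ u ∈ C, m u ≤ k →
      ∃ m, ExchGood E f g m ∧ ∑ u ∈ C, m u = k := by
  induction n using Nat.strong_induction_on with
  | _ n ih =>
    intro m h hn h1
    rcases h1.eq_or_lt with h1 | h1
    · exact ⟨m, h, h1⟩
    obtain ⟨u, _, hu⟩ := exists_lt_of_sum_lt (h1.trans_le hk)
    obtain ⟨w, hw, h2⟩ := exch_step h h' hu
    refine ih _ (lt_of_lt_of_le (sum_lt_sum (fun v _ => ?_) ⟨u, mem_univ u, ?_⟩) hn) _ h2 le_rfl ?_
    · split_ifs with a1 a2 a2
      all_goals first | omega | (subst a2; omega)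
    · have : u ≠ w := fun e => by subst e; omega
      rw [if_pos rfl, if_neg this]
      omega
    · rw [sum_sub_distrib, sum_add_distrib, sum_ite_eq', sum_ite_eq']
      split_ifs <;> omega

end

theorem TC.exch [Fintype U] {E : Finset V} {f g : V → U} (col : U → Bool)
    (hf : ∀ x ∈ E, col (f x) = false) (hg : ∀ x ∈ E, col (g x) = true) {O1 O2 : V → Bool}
    (h1 : TC E f g O1) (h2 : TC E f g O2) {k : ℕ}
    (hk1 : (E.filter fun x => O1 x = true).card ≤ k)
    (hk2 : k ≤ (E.filter fun x => O2 x = true).card) :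
    ∃ O, TC E f g O ∧ (E.filter fun x => O x = true).card = k := by
  have hc : ∀ O : V → Bool, ∑ u ∈ univ.filter (fun u => col u = true), exchDeg E f g O u =
      (E.filter fun x => O x = true).card := fun O => by
    rw [exch_sum_deg]
    refine congrArg _ (congrArg card (filter_congr fun x hx => ?_))
    unfold exchHd
    cases O x <;> simp [hf x hx, hg x hx]
  obtain ⟨m, h3, h4⟩ := exch_ivt (exch_good h2) (univ.filter fun u => col u = true) (k := k)
    (by rw [hc]; exact Nat.cast_le.2 hk2) _ _ (exch_good h1) le_rfl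
    (by rw [hc]; exact Nat.cast_le.2 hk1)
  obtain ⟨O, rfl⟩ := exch_hall h3
  rw [hc] at h4
  exact ⟨O, exch_tc h3, Nat.cast_injective h4⟩

end Pool.Agent.P.MP_9ed2cf_gt.Nz
end

-- part Pool.Agent.P.MP_9ed2cf_gt.NzDual
section

set_option autoImplicit false
set_option linter.unusedSectionVars false

namespace Pool.Agent.P.MP_9ed2cf_gt.Nz

open Equiv Finset
open scoped Classical

namespace Pl

variable {A V : Type} {P : Pl A V}

theorem dual_inn_iff {t t' : Bool} {x x' : V} : P.inn t x = P.inn t' x' ↔ t = t' ∧ x = x' :=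
  ⟨fun h => ⟨inn_ty h, P.inj _ _ _ _ h⟩, fun h => by rw [h.1, h.2]⟩

/-- one step of a walk on the faces -/
def DualStep (P : Pl A V) (φ : Perm A) (D1 D2 : Finset V) (a a' : A) : Prop :=
  a' = φ a ∨ (∃ x ∈ D1, a = P.inn false x ∧ a' = φ (P.inn true x)) ∨
    ∃ x ∈ D2, a = P.inn true x ∧ a' = φ (P.inn false x)

/-- the correction term of a walk -/
structure DualCorr (P : Pl A V) (Q D1 D2 : Finset V) (c : A → ℤ) : Prop where
  off : ∀ n, (∀ t, ∀ y ∈ Q, n ≠ P.inn t y) → c n = 0
  anti : ∀ y ∈ Q, c (P.inn false y) = - c (P.inn true y)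
  le1 : ∀ y ∈ Q, y ∉ D1 → c (P.inn true y) ≤ 0
  le2 : ∀ y ∈ Q, y ∉ D2 → 0 ≤ c (P.inn true y)

theorem DualCorr.add1 {Q D1 D2 : Finset V} {c : A → ℤ} (h : DualCorr P Q D1 D2 c) {x : V}
    (hxQ : x ∈ Q) (hx : x ∈ D1) :
    DualCorr P Q D1 D2 fun n =>
      c n + (if n = P.inn true x then 1 else 0) - (if n = P.inn false x then 1 else 0) where
  off := fun n hn => by
    rw [h.off n hn, if_neg (hn true x hxQ), if_neg (hn false x hxQ)]; rfl
  anti := fun y hy => by
    have := h.anti y hy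
    by_cases e : y = x
    · subst e; simp [dual_inn_iff]; omega
    · simp [dual_inn_iff, e]; omega
  le1 := fun y hy hy1 => by
    have := h.le1 y hy hy1
    have e : y ≠ x := fun e => hy1 (e ▸ hx)
    simp [dual_inn_iff, e]; omega
  le2 := fun y hy hy2 => by
    have := h.le2 y hy hy2
    by_cases e : y = x
    · subst e; simp [dual_inn_iff]; omega
    · simp [dual_inn_iff, e]; omega

theorem DualCorr.add2 {Q D1 D2 : Finset V} {c : A → ℤ} (h : DualCorr P Q D1 D2 c) {x : V}
    (hxQ : x ∈ Q) (hx : x ∈ D2) :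
    DualCorr P Q D1 D2 fun n =>
      c n + (if n = P.inn false x then 1 else 0) - (if n = P.inn true x then 1 else 0) where
  off := fun n hn => by
    rw [h.off n hn, if_neg (hn true x hxQ), if_neg (hn false x hxQ)]; rfl
  anti := fun y hy => by
    have := h.anti y hy
    by_cases e : y = x
    · subst e; simp [dual_inn_iff]; omega
    · simp [dual_inn_iff, e]; omega
  le1 := fun y hy hy1 => by
    have := h.le1 y hy hy1
    by_cases e : y = x
    · subst e; simp [dual_inn_iff]; omega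
    · simp [dual_inn_iff, e]; omega
  le2 := fun y hy hy2 => by
    have := h.le2 y hy hy2
    have e : y ≠ x := fun e => hy2 (e ▸ hx)
    simp [dual_inn_iff, e]; omega

theorem dual_walk {Q D1 D2 : Finset V} {φ : Perm A} (h1 : D1 ⊆ Q) (h2 : D2 ⊆ Q) {a a' : A}
    (h : Relation.ReflTransGen (DualStep P φ D1 D2) a a') :
    ∃ γ c : A → ℤ, DualCorr P Q D1 D2 c ∧ ∀ n, γ (φ n) - γ n =
      (if φ n = a then 1 else 0) - (if n = a' then 1 else 0) + c n := by
  induction h with
  | refl =>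
    exact ⟨fun n => if n = a then 1 else 0, fun _ => 0,
      ⟨fun _ _ => rfl, fun _ _ => by simp, fun _ _ _ => le_rfl, fun _ _ _ => le_rfl⟩,
      fun n => by simp⟩
  | @tail b b' _ hs ih =>
    obtain ⟨γ, c, hc, hγ⟩ := ih
    rcases hs with e | ⟨x, hx, e, e'⟩ | ⟨x, hx, e, e'⟩
    · refine ⟨fun n => γ n + if n = b' then 1 else 0, c, hc, fun n => ?_⟩
      have h3 : (if φ n = b' then (1 : ℤ) else 0) = if n = b then 1 else 0 := by
        simp only [e, EmbeddingLike.apply_eq_iff_eq]
      have := hγ n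
      simp only [h3]
      omega
    · refine ⟨fun n => γ n + if n = b' then 1 else 0, _, hc.add1 (h1 hx) hx, fun n => ?_⟩
      have h3 : (if φ n = b' then (1 : ℤ) else 0) = if n = P.inn true x then 1 else 0 := by
        simp only [e', EmbeddingLike.apply_eq_iff_eq]
      have := hγ n
      rw [e] at this
      simp only [h3]
      omega
    · refine ⟨fun n => γ n + if n = b' then 1 else 0, _, hc.add2 (h2 hx) hx, fun n => ?_⟩
      have h3 : (if φ n = b' then (1 : ℤ) else 0) = if n = P.inn false x then 1 else 0 := by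
        simp only [e', EmbeddingLike.apply_eq_iff_eq]
      have := hγ n
      rw [e] at this
      simp only [h3]
      omega

theorem dual_mem_nl {Q : Finset V} {φ : Perm A} {x : V} :
    x ∈ P.nl Q φ ↔ x ∈ Q ∧ ¬ φ.SameCycle (P.inn false x) (P.inn true x) := mem_filter

theorem dual_phi_off {Q : Finset V} {φ : Perm A} (hφ : P.IsPhi Q φ) {x : V} (hx : x ∉ Q)
    (t : Bool) : φ (P.inn t x) = P.out t x :=
  hφ.1 _ fun _ _ hy e => hx ((dual_inn_iff.1 e).2 ▸ hy)

theorem dual_phi_pass {Q : Finset V} {φ : Perm A} (hφ : P.IsPhi Q φ) {a : A} (ha : P.Pass a) :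
    φ a = P.σ a :=
  hφ.1 _ fun t y _ => ha t y

/-- a closed walk has no correction term -/
theorem dual_closed (hP : P.Planar) {Q D1 D2 : Finset V} (hQ : ∀ x ∈ Q, P.s x = true)
    {φ : Perm A} (hφ : P.IsPhi Q φ) (h : P.NDC Q D1 D2) {γ c : A → ℤ}
    (hc : DualCorr P Q D1 D2 c) (hγ : ∀ n, γ (φ n) - γ n = c n) {x : V} (hx : x ∈ Q) :
    c (P.inn true x) = 0 := by
  have hoff : ∀ y, y ∉ Q → ∀ t, γ (P.out t y) = γ (P.inn t y) := fun y hy t => by
    have h3 := hγ (P.inn t y)
    rw [dual_phi_off hφ hy,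
      hc.off (P.inn t y) fun _ _ hz e => hy ((dual_inn_iff.1 e).2 ▸ hz)] at h3
    omega
  have hin : ∀ y ∈ Q, γ (P.out false y) - γ (P.inn true y) = c (P.inn true y) := fun y hy => by
    have h3 := hγ (P.inn true y)
    rw [hφ.2 true y hy] at h3
    exact h3
  have hin' : ∀ y ∈ Q, γ (P.out true y) - γ (P.inn false y) = - c (P.inn true y) := fun y hy => by
    have h3 := hγ (P.inn false y)
    rw [hφ.2 false y hy, hc.anti y hy] at h3
    exact h3
  have hcons : P.Cons γ := by
    refine ⟨fun a ha => ?_, fun y => ?_⟩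
    · have h3 := hγ a
      rw [dual_phi_pass hφ ha, hc.off _ fun t z _ => ha t z] at h3
      omega
    · by_cases hy : y ∈ Q
      · have := hin y hy
        have := hin' y hy
        omega
      · rw [hoff y hy, hoff y hy]
  obtain ⟨L, R, hL, hR, hLR⟩ := hP γ hcons
  have hRσ : ∀ a, R (P.σ a) = R a := fun a => by
    rcases pass_or (P := P) a with ha | ⟨t, y, rfl⟩
    · exact hR.1 a ha
    · by_cases hs : P.s y = true
      · have h3 := hR.2 t y
        rw [if_neg (by simp [hs])] at h3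
        exact h3
      · have h3 := hL.2 t y
        rw [if_neg hs] at h3
        have h4 := hoff y (fun hy => hs (hQ y hy)) t
        have h5 := hLR (P.out t y)
        have h6 := hLR (P.inn t y)
        show R (P.out t y) = R (P.inn t y)
        omega
  have hRc : ∀ y ∈ Q, R (P.inn true y) - R (P.inn false y) = c (P.inn true y) := fun y hy => by
    have h3 := hL.2 true y
    rw [if_pos (hQ y hy)] at h3
    have h3' : L (P.out false y) = L (P.inn true y) := h3
    have h4 : R (P.out false y) = R (P.inn false y) := hRσ _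
    have h5 := hLR (P.out false y)
    have h6 := hLR (P.inn true y)
    have h7 := hin y hy
    omega
  have key : ∀ θ : ℤ, (θ ≤ R (P.inn true x) ↔ θ ≤ R (P.inn false x)) := fun θ => by
    refine h (fun a => θ ≤ R a) (fun a => by rw [hRσ]) (fun y hy ha hb => ?_)
      (fun y hy ha hb => ?_) x hx
    · by_contra hn
      have := hc.le1 y hy hn
      have := hRc y hy
      omega
    · by_contra hn
      have := hc.le2 y hy hn
      have := hRc y hy
      omega
  have k1 := (key (R (P.inn true x))).1 le_rfl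
  have k2 := (key (R (P.inn false x))).2 le_rfl
  have := hRc x hx
  omega

variable [Fintype A] [Fintype V]

theorem dual_back {D1 D2 : Finset V} {φ : Perm A} {a a' : A} (h : φ.SameCycle a a') :
    Relation.ReflTransGen (DualStep P φ D1 D2) a a' := by
  obtain ⟨n, rfl⟩ := h.exists_nat_pow_eq
  clear h
  induction n with
  | zero => exact Relation.ReflTransGen.refl
  | succ n ih => exact ih.tail (Or.inl (by rw [pow_succ']; rfl))

theorem dual_inv {φ : Perm A} {r : A → ℕ} (hr : ∀ a, r (φ a) = r a) {a a' : A}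
    (h : φ.SameCycle a a') : r a = r a' := by
  obtain ⟨n, rfl⟩ := h.exists_nat_pow_eq
  clear h
  induction n with
  | zero => rfl
  | succ n ih => rw [pow_succ', Perm.mul_apply, hr, ← ih]

theorem dual (hP : P.Planar) {Q D1 D2 : Finset V} (hQ : ∀ x ∈ Q, P.s x = true) {φ : Perm A}
    (hφ : P.IsPhi Q φ) (h1 : D1 ⊆ Q) (h2 : D2 ⊆ Q) (hd : Disjoint D1 D2) (h : P.NDC Q D1 D2) :
    ∃ r : A → ℕ, P.Rank Q φ r ∧ (∀ x ∈ D1, r (P.inn false x) < r (P.inn true x)) ∧
      ∀ x ∈ D2, r (P.inn true x) < r (P.inn false x) := by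
  have n1 : ∀ x ∈ D1, ¬ Relation.ReflTransGen (DualStep P φ D1 D2) (φ (P.inn true x))
      (P.inn false x) := fun x hx hw => by
    obtain ⟨γ, c, hc, hγ⟩ := dual_walk (Q := Q) h1 h2 hw
    have h3 := dual_closed hP hQ hφ h (γ := γ) (hc.add1 (h1 hx) hx) (fun n => by
      have := hγ n
      simp only [EmbeddingLike.apply_eq_iff_eq] at this
      omega) (h1 hx)
    have h4 := hc.le2 x (h1 hx) (Finset.disjoint_left.1 hd hx)
    simp [dual_inn_iff] at h3
    omega
  have n2 : ∀ x ∈ D2, ¬ Relation.ReflTransGen (DualStep P φ D1 D2) (φ (P.inn false x))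
      (P.inn true x) := fun x hx hw => by
    obtain ⟨γ, c, hc, hγ⟩ := dual_walk (Q := Q) h1 h2 hw
    have h3 := dual_closed hP hQ hφ h (γ := γ) (hc.add2 (h2 hx) hx) (fun n => by
      have := hγ n
      simp only [EmbeddingLike.apply_eq_iff_eq] at this
      omega) (h2 hx)
    have h4 := hc.le1 x (h2 hx) (Finset.disjoint_right.1 hd hx)
    simp [dual_inn_iff] at h3
    omega
  obtain ⟨r0, hr0⟩ : ∃ r0 : A → ℕ, ∀ a, r0 a =
      (univ.filter fun a' => Relation.ReflTransGen (DualStep P φ D1 D2) a' a).card :=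
    ⟨_, fun _ => rfl⟩
  have r0φ : ∀ a, r0 (φ a) = r0 a := fun a => by
    rw [hr0, hr0]
    congr 1
    ext a'
    simp only [mem_filter, mem_univ, true_and]
    exact ⟨fun hw => hw.trans (dual_back (by simp [Perm.SameCycle.rfl])),
      fun hw => hw.tail (Or.inl rfl)⟩
  have r0lt : ∀ a a', DualStep P φ D1 D2 a a' →
      ¬ Relation.ReflTransGen (DualStep P φ D1 D2) a' a → r0 a < r0 a' := fun a a' hs hn => by
    rw [hr0, hr0]
    refine card_lt_card ⟨fun z hz => ?_, fun hsub => hn ?_⟩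
    · simp only [mem_filter, mem_univ, true_and] at hz ⊢
      exact hz.tail hs
    · have := hsub (show a' ∈ _ by
        simp only [mem_filter, mem_univ, true_and]; exact Relation.ReflTransGen.refl)
      simpa only [mem_filter, mem_univ, true_and] using this
  obtain ⟨N, ix, hlt, hixφ, hix⟩ : ∃ (N : ℕ) (ix : A → ℕ), (∀ a, ix a < N) ∧
      (∀ a, ix (φ a) = ix a) ∧ ∀ a a', ix a = ix a' → φ.SameCycle a a' := by
    refine ⟨Fintype.card (Set A),
      fun a => (Fintype.equivFin (Set A) {a' | φ.SameCycle a a'}).val, fun a => Fin.is_lt _,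
      fun a => ?_, fun a a' e => ?_⟩
    · simp only [Perm.sameCycle_apply_left]
    · have e' := (Fintype.equivFin (Set A)).injective (Fin.ext e)
      have : a' ∈ {z | φ.SameCycle a' z} := Perm.SameCycle.rfl
      rw [← e'] at this
      exact this
  have mono : ∀ a a', r0 a < r0 a' → r0 a * N + ix a < r0 a' * N + ix a' := fun a a' hl => by
    have h3 : (r0 a + 1) * N ≤ r0 a' * N := Nat.mul_le_mul_right _ hl
    have h4 := hlt a
    rw [add_mul, one_mul] at h3
    omega
  refine ⟨fun a => r0 a * N + ix a, ⟨fun a => by simp only [r0φ, hixφ], fun x hx e => ?_⟩,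
    fun x hx => mono _ _ ?_, fun x hx => mono _ _ ?_⟩
  · apply (dual_mem_nl.1 hx).2
    apply hix
    rcases lt_trichotomy (r0 (P.inn false x)) (r0 (P.inn true x)) with hl | hl | hl
    · exact absurd e (mono _ _ hl).ne
    · have e' : r0 (P.inn false x) * N + ix (P.inn false x) =
        r0 (P.inn true x) * N + ix (P.inn true x) := e
      rw [hl] at e'
      omega
    · exact absurd e (mono _ _ hl).ne'
  · rw [← r0φ (P.inn true x)]
    exact r0lt _ _ (Or.inr (Or.inl ⟨x, hx, rfl, rfl⟩)) (n1 x hx)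
  · rw [← r0φ (P.inn false x)]
    exact r0lt _ _ (Or.inr (Or.inr ⟨x, hx, rfl, rfl⟩)) (n2 x hx)

theorem dual_cl_σ (a : A) : P.cl (P.σ a) = P.cl a := by
  ext z
  exact sc_σ_left

theorem tc_of_rank {Q : Finset V} {φ : Perm A} (hφ : P.IsPhi Q φ) {r : A → ℕ}
    (hr : P.Rank Q φ r) :
    TC (P.nl Q φ) (fun x => P.cl (P.inn false x)) (fun x => P.cl (P.inn true x))
      fun x => decide (r (P.inn false x) < r (P.inn true x)) := by
  intro T hT
  by_contra hn
  obtain ⟨x0, hx0, hcut⟩ := hT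
  obtain ⟨τ, hτ⟩ : ∃ τ : A → ℤ, ∀ a, τ a = if T (P.cl a) then 1 else 0 := ⟨_, fun _ => rfl⟩
  have τσ : ∀ a, τ (P.σ a) = τ a := fun a => by rw [hτ, hτ, dual_cl_σ]
  have hsum : ∑ a, τ a * ((r (P.σ a) : ℤ) - r a) = 0 := by
    have h3 : ∑ a, τ (P.σ a) * (r (P.σ a) : ℤ) = ∑ a, τ a * (r a : ℤ) :=
      Equiv.sum_comp P.σ fun a => τ a * (r a : ℤ)
    simp only [τσ] at h3
    simp only [mul_sub, sum_sub_distrib, h3, sub_self]
  rw [sum_split (P := P) _ fun a ha => by rw [← dual_phi_pass hφ ha, hr.1, sub_self, mul_zero]]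
    at hsum
  have hin : ∀ x ∈ Q, ∀ t, r (P.σ (P.inn t x)) = r (P.inn (!t) x) := fun x hx t => by
    have h3 := hφ.2 (!t) x hx
    rw [Bool.not_not] at h3
    rw [← hr.1 (P.inn (!t) x), h3]
    rfl
  have hnl : ∀ x ∈ P.nl Q φ,
      τ (P.inn false x) * ((r (P.σ (P.inn false x)) : ℤ) - r (P.inn false x)) +
        τ (P.inn true x) * ((r (P.σ (P.inn true x)) : ℤ) - r (P.inn true x)) ≤ 0 ∧
      (¬ (T (P.cl (P.inn false x)) ↔ T (P.cl (P.inn true x))) →
      τ (P.inn false x) * ((r (P.σ (P.inn false x)) : ℤ) - r (P.inn false x)) +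
        τ (P.inn true x) * ((r (P.σ (P.inn true x)) : ℤ) - r (P.inn true x)) < 0) :=
    fun x hx => by
      have hxQ := (dual_mem_nl.1 hx).1
      have hne := hr.2 x hx
      rw [hin x hxQ, hin x hxQ, hτ, hτ]
      simp only [Bool.not_false, Bool.not_true]
      have hno : ¬ (T (if decide (r (P.inn false x) < r (P.inn true x)) = true then
          P.cl (P.inn false x) else P.cl (P.inn true x)) ∧
          ¬ T (if decide (r (P.inn false x) < r (P.inn true x)) = true then
          P.cl (P.inn true x) else P.cl (P.inn false x))) := fun hh => hn ⟨x, hx, hh⟩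
      by_cases hl : r (P.inn false x) < r (P.inn true x) <;>
        by_cases hF : T (P.cl (P.inn false x)) <;> by_cases hB : T (P.cl (P.inn true x)) <;>
        simp [hl, hF, hB] at hno ⊢ <;> omega
  refine absurd hsum (ne_of_lt ?_)
  rw [← sum_const_zero (s := (univ : Finset V))]
  refine sum_lt_sum (fun x _ => ?_) ⟨x0, mem_univ _, (hnl x0 hx0).2 hcut⟩
  by_cases hx : x ∈ P.nl Q φ
  · exact (hnl x hx).1
  · by_cases hxQ : x ∈ Q
    · have hsc : φ.SameCycle (P.inn false x) (P.inn true x) := by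
        by_contra hh
        exact hx (dual_mem_nl.2 ⟨hxQ, hh⟩)
      rw [hin x hxQ, hin x hxQ]
      simp only [Bool.not_false, Bool.not_true]
      rw [dual_inv hr.1 hsc]
      simp
    · have h3 : ∀ t, r (P.σ (P.inn t x)) = r (P.inn t x) := fun t => by
        rw [← hr.1 (P.inn t x), dual_phi_off hφ hxQ]
        rfl
      rw [h3, h3]
      simp

theorem ndc_of_tc {Q : Finset V} {φ : Perm A} {O : V → Bool}
    (h : TC (P.nl Q φ) (fun x => P.cl (P.inn false x)) (fun x => P.cl (P.inn true x)) O) :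
    P.NDC Q ((P.nl Q φ).filter fun x => O x = true) ((P.nl Q φ).filter fun x => O x = false) := by
  intro T hT h1 h2 x0 hx0
  by_contra hcut
  have hcl : ∀ a, (∃ a', P.cl a = P.cl a' ∧ T a') ↔ T a := fun a => by
    refine ⟨fun ⟨a', e, ha⟩ => ?_, fun ha => ⟨a, rfl, ha⟩⟩
    have h3 : a ∈ P.cl a := SC.refl a
    rw [e] at h3
    exact SC.ind (p := T) (fun z hz => (hT z).2 hz) h3 ha
  have hx : x0 ∈ P.nl Q φ := by
    by_cases hB : T (P.inn true x0)
    · exact (mem_filter.1 (h1 x0 hx0 hB fun hF => hcut ⟨fun _ => hF, fun _ => hB⟩)).1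
    · have hF : T (P.inn false x0) := by
        by_contra hF
        exact hcut ⟨fun h' => absurd h' hB, fun h' => absurd h' hF⟩
      exact (mem_filter.1 (h2 x0 hx0 hF hB)).1
  obtain ⟨x, hxn, ha, hb⟩ := h (fun S => ∃ a', S = P.cl a' ∧ T a')
    ⟨x0, hx, by rw [hcl, hcl]; exact fun hh => hcut hh.symm⟩
  have hxQ := (dual_mem_nl.1 hxn).1
  by_cases hO : O x = true
  · rw [if_pos hO, hcl] at ha hb
    have := (mem_filter.1 (h2 x hxQ ha hb)).2
    simp [hO] at this
  · rw [if_neg hO, hcl] at ha hb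
    exact hO (mem_filter.1 (h1 x hxQ ha hb)).2

end Pl

end Pool.Agent.P.MP_9ed2cf_gt.Nz
end

-- part Pool.Agent.P.MP_9ed2cf_gt.NzRank
section

set_option autoImplicit false

namespace Pool.Agent.P.MP_9ed2cf_gt.Nz

open Equiv Finset
open scoped Classical

namespace Pl

variable {A V : Type} {P : Pl A V}

theorem rk_phi_off {Q : Finset V} {φ : Perm A} (hφ : P.IsPhi Q φ) {x : V} (hx : x ∉ Q)
    (t : Bool) : φ (P.inn t x) = P.out t x :=
  hφ.1 _ fun t' y hy h => hx (by rw [P.inj _ _ _ _ h]; exact hy)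

theorem rk_phi_pass {Q : Finset V} {φ : Perm A} (hφ : P.IsPhi Q φ) {a : A} (ha : P.Pass a) :
    φ a = P.σ a :=
  hφ.1 _ fun t x _ => ha t x

theorem rk_out {Q : Finset V} {φ : Perm A} (hφ : P.IsPhi Q φ) {x : V} (hx : x ∈ Q) (t : Bool) :
    P.out t x = φ (P.inn (!t) x) := by
  rw [hφ.2 _ x hx, Bool.not_not]

theorem rk_mem_nl {Q : Finset V} {φ : Perm A} {x : V} :
    x ∈ P.nl Q φ ↔ x ∈ Q ∧ ¬ φ.SameCycle (P.inn false x) (P.inn true x) :=
  Finset.mem_filter

/-- faces with a descending path to a root face -/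
inductive RkGood (P : Pl A V) (d : A → ℕ) (b : A) (Q : Finset V) (φ : Perm A) (r : A → ℕ) :
    A → Prop
  | base (a : A) : φ.SameCycle a b → RkGood P d b Q φ r a
  | off (a : A) (t : Bool) (x : V) : φ.SameCycle a (P.inn t x) → x ∉ Q → P.Z d x ≠ t →
      RkGood P d b Q φ r a
  | step (a : A) (t : Bool) (x : V) : φ.SameCycle a (P.inn t x) → x ∈ Q →
      r (P.inn (!t) x) < r (P.inn t x) → RkGood P d b Q φ r (P.inn (!t) x) →
      RkGood P d b Q φ r a

theorem RkGood.of_sc {d : A → ℕ} {b : A} {Q : Finset V} {φ : Perm A} {r : A → ℕ} {a a' : A}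
    (h : RkGood P d b Q φ r a) (h' : φ.SameCycle a' a) : RkGood P d b Q φ r a' := by
  cases h with
  | base _ h1 => exact .base _ (h'.trans h1)
  | off _ t x h1 h2 h3 => exact .off _ t x (h'.trans h1) h2 h3
  | step _ t x h1 h2 h3 h4 => exact .step _ t x (h'.trans h1) h2 h3 h4

theorem rk_good_phi {d : A → ℕ} {b : A} {Q : Finset V} {φ : Perm A} {r : A → ℕ} (a : A) :
    RkGood P d b Q φ r (φ a) ↔ RkGood P d b Q φ r a :=
  ⟨fun h => h.of_sc (Perm.sameCycle_apply_right.2 (Perm.SameCycle.refl _ _)),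
    fun h => h.of_sc (Perm.sameCycle_apply_left.2 (Perm.SameCycle.refl _ _))⟩

theorem RkGood.mono {d : A → ℕ} {b : A} {Q : Finset V} {φ : Perm A} {r r' : A → ℕ}
    (hrr : ∀ a, RkGood P d b Q φ r a → r' a = r a) {a : A} (h : RkGood P d b Q φ r a) :
    RkGood P d b Q φ r' a := by
  induction h with
  | base a h1 => exact .base _ h1
  | off a t x h1 h2 h3 => exact .off _ t x h1 h2 h3
  | step a t x h1 h2 h3 h4 ih =>
    refine .step _ t x h1 h2 ?_ ih
    rw [hrr _ h4, hrr _ (.step _ t x (Perm.SameCycle.refl _ _) h2 h3 h4)]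
    exact h3

variable [Fintype A] [Fintype V] {b : A} {d : A → ℕ}

omit [Fintype V] in
theorem rk_inv {β : Type} {φ : Perm A} {F : A → β} (hF : ∀ a, F (φ a) = F a) {a a' : A}
    (h : φ.SameCycle a a') : F a = F a' := by
  obtain ⟨i, -, rfl⟩ := h.exists_pow_eq'
  induction i with
  | zero => rfl
  | succ i ih =>
    rw [pow_succ', Perm.mul_apply, hF]
    exact ih (Perm.sameCycle_pow_right.2 (Perm.SameCycle.refl _ _))

omit [Fintype V] in
theorem rk_all (hd : P.Dist b d) {Q : Finset V} {φ : Perm A} (hφ : P.IsPhi Q φ) {r : A → ℕ}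
    (h : ∀ x ∈ Q, ∀ t, RkGood P d b Q φ r (P.inn (!t) x) → RkGood P d b Q φ r (P.inn t x))
    (a : A) : RkGood P d b Q φ r a := by
  have h1 : ∀ a, RkGood P d b Q φ r (P.σ a) = RkGood P d b Q φ r a := by
    intro a
    apply propext
    by_cases ha : ∀ t, ∀ x ∈ Q, a ≠ P.inn t x
    · rw [← hφ.1 a ha, rk_good_phi]
    · push Not at ha
      obtain ⟨t, x, hx, rfl⟩ := ha
      have h2 : P.σ (P.inn t x) = φ (P.inn (!t) x) := rk_out hφ hx t
      rw [h2, rk_good_phi]
      refine ⟨h x hx t, fun h3 => h x hx (!t) ?_⟩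
      rw [Bool.not_not]
      exact h3
  have h2 : ∀ n a, d a = n → RkGood P d b Q φ r a := by
    intro n
    induction n using Nat.strong_induction_on with
    | _ n ih =>
      intro a ha
      rcases Nat.eq_zero_or_pos (d a) with h0 | h0
      · rw [SC.inv h1 ((hd.d_zero a).1 h0)]
        exact .base _ (Perm.SameCycle.refl _ _)
      · obtain ⟨t, x, h3, h4⟩ := hd.d_par a h0
        have h5 : d a = d (P.inn t x) := SC.inv hd.d_σ h3
        rw [SC.inv h1 h3]
        by_cases hx : x ∈ Q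
        · exact h x hx t (ih _ (by omega) _ rfl)
        · refine .off _ t x (Perm.SameCycle.refl _ _) hx ?_
          cases t
          · simp only [Bool.not_false] at h4
            have h6 : d (P.inn true x) < d (P.inn false x) := by omega
            simp [Z, h6]
          · simp only [Bool.not_true] at h4
            have h6 : ¬ d (P.inn true x) < d (P.inn false x) := by omega
            simp [Z, h6]
  exact h2 _ a rfl

theorem rk_euler {Q : Finset V} {φ : Perm A} (hφ : P.IsPhi Q φ) {u : A → ℤ}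
    (hu : ∀ a, u (φ a) = u a) : ∑ x ∈ Q, (u (P.inn false x) - u (P.inn true x)) = 0 := by
  let τ : A → ℤ := fun a => if P.ty a = true then 1 else 0
  have hτ : ∀ a, τ (P.σ a) = τ a := fun a => by simp only [τ, P.ty_σ]
  have hτf : ∀ x, τ (P.inn false x) = 0 := fun x => by simp [τ, P.ty_inn]
  have hτt : ∀ x, τ (P.inn true x) = 1 := fun x => by simp [τ, P.ty_inn]
  have h1 : ∑ a, u a * (τ (φ a) - τ a) = 0 := by
    have h2 : ∑ a, u (φ a) * τ (φ a) = ∑ a, u a * τ a := Equiv.sum_comp φ fun a => u a * τ a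
    simp only [hu] at h2
    simp only [mul_sub, Finset.sum_sub_distrib, h2, sub_self]
  rw [sum_split (P := P) _ (fun a ha => by rw [rk_phi_pass hφ ha, hτ, sub_self, mul_zero])] at h1
  rw [← h1, ← Finset.sum_subset (Finset.subset_univ Q)]
  · refine Finset.sum_congr rfl fun x hx => ?_
    rw [hφ.2 _ x hx, hφ.2 _ x hx]
    simp only [out, hτ, Bool.not_false, Bool.not_true, hτf, hτt]
    ring
  · intro x _ hx
    rw [rk_phi_off hφ hx, rk_phi_off hφ hx]
    simp only [out, hτ, sub_self, mul_zero, add_zero]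

theorem rk_step {Q : Finset V} {φ : Perm A} (hφ : P.IsPhi Q φ) {r : A → ℕ}
    (hr : P.Rank Q φ r) : ∃ r', P.Rank Q φ r' ∧ (P.asc Q r').card = (P.asc Q r).card ∧
      (∀ a, RkGood P d b Q φ r a → RkGood P d b Q φ r' a) ∧
      ∀ x ∈ Q, ∀ t, RkGood P d b Q φ r (P.inn (!t) x) → RkGood P d b Q φ r' (P.inn t x) := by
  obtain ⟨M, hM⟩ : ∃ M, ∀ a, r a < M :=
    ⟨univ.sup r + 1, fun a => Nat.lt_succ_of_le (Finset.le_sup (f := r) (mem_univ a))⟩
  let r' : A → ℕ := fun a => if RkGood P d b Q φ r a then r a else r a + M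
  have hg : ∀ a, RkGood P d b Q φ r a → r' a = r a := fun a h => if_pos h
  have hn : ∀ a, ¬ RkGood P d b Q φ r a → r' a = r a + M := fun a h => if_neg h
  have hcut : ∀ x ∈ Q, ∀ t, RkGood P d b Q φ r (P.inn (!t) x) →
      ¬ RkGood P d b Q φ r (P.inn t x) → r (P.inn t x) < r (P.inn (!t) x) := by
    intro x hx t h1 h2
    have h3 : ¬ r (P.inn (!t) x) < r (P.inn t x) :=
      fun h => h2 (.step _ t x (Perm.SameCycle.refl _ _) hx h h1)
    have h4 : x ∈ P.nl Q φ := by
      refine rk_mem_nl.2 ⟨hx, fun h => h2 ?_⟩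
      cases t
      · exact h1.of_sc h
      · exact h1.of_sc h.symm
    have h5 := hr.2 x h4
    cases t
    · simp only [Bool.not_false] at h3 ⊢
      omega
    · simp only [Bool.not_true] at h3 ⊢
      omega
  refine ⟨r', ⟨fun a => ?_, fun x hx => ?_⟩, ?_, fun a h => h.mono hg, fun x hx t h => ?_⟩
  · by_cases h : RkGood P d b Q φ r a
    · rw [hg _ h, hg _ ((rk_good_phi a).2 h), hr.1]
    · rw [hn _ h, hn _ fun h' => h ((rk_good_phi a).1 h'), hr.1]
  · have h1 := hr.2 x hx
    have h2 := hM (P.inn false x)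
    have h3 := hM (P.inn true x)
    by_cases hf : RkGood P d b Q φ r (P.inn false x) <;>
      by_cases ht : RkGood P d b Q φ r (P.inn true x)
    · rw [hg _ hf, hg _ ht]; exact h1
    · rw [hg _ hf, hn _ ht]; omega
    · rw [hn _ hf, hg _ ht]; omega
    · rw [hn _ hf, hn _ ht]; omega
  · have h1 := rk_euler hφ (u := fun a => if RkGood P d b Q φ r a then 1 else 0)
      (fun a => if_congr (rk_good_phi a) rfl rfl)
    have h2 : ((P.asc Q r').card : ℤ) - (P.asc Q r).card = 0 := by
      rw [← h1]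
      unfold asc
      rw [Finset.card_filter, Finset.card_filter]
      push_cast
      rw [← Finset.sum_sub_distrib]
      refine Finset.sum_congr rfl fun x hx => ?_
      have h2 := hM (P.inn false x)
      have h3 := hM (P.inn true x)
      by_cases hf : RkGood P d b Q φ r (P.inn false x) <;>
        by_cases ht : RkGood P d b Q φ r (P.inn true x)
      · rw [hg _ hf, hg _ ht, if_pos hf, if_pos ht, sub_self, sub_self]
      · have h4 : r (P.inn true x) < r (P.inn false x) := hcut x hx true hf ht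
        rw [hg _ hf, hn _ ht, if_pos hf, if_neg ht, if_pos (by omega), if_neg (by omega)]
      · have h4 : r (P.inn false x) < r (P.inn true x) := hcut x hx false ht hf
        rw [hn _ hf, hg _ ht, if_neg hf, if_pos ht, if_neg (by omega), if_pos h4]
      · rw [hn _ hf, hn _ ht, if_neg hf, if_neg ht, sub_self, sub_eq_zero]
        exact if_congr (by omega) rfl rfl
    omega
  · by_cases h1 : RkGood P d b Q φ r (P.inn t x)
    · exact h1.mono hg
    · refine .step _ t x (Perm.SameCycle.refl _ _) hx ?_ (h.mono hg)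
      have h2 := hM (P.inn (!t) x)
      rw [hg _ h, hn _ h1]
      omega

theorem raise (hd : P.Dist b d) {Q : Finset V} {φ : Perm A} (hφ : P.IsPhi Q φ) {r : A → ℕ}
    (hr : P.Rank Q φ r) : ∃ r', P.Rank Q φ r' ∧ (P.asc Q r').card = (P.asc Q r).card ∧
      P.AllEx d b Q φ r' := by
  have key : ∀ n, ∀ r : A → ℕ, P.Rank Q φ r →
      (univ.filter fun a => ¬ RkGood P d b Q φ r a).card = n →
      ∃ r', P.Rank Q φ r' ∧ (P.asc Q r').card = (P.asc Q r).card ∧ P.AllEx d b Q φ r' := by
    intro n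
    induction n using Nat.strong_induction_on with
    | _ n ih =>
      intro r hr hn
      by_cases h : ∀ x ∈ Q, ∀ t, RkGood P d b Q φ r (P.inn (!t) x) →
          RkGood P d b Q φ r (P.inn t x)
      · refine ⟨r, hr, rfl, fun a => ?_⟩
        cases rk_all hd hφ h a with
        | base _ h1 => exact ⟨b, h1, Or.inl rfl⟩
        | off _ t x h1 h2 h3 => exact ⟨_, h1, Or.inr ⟨t, x, rfl, Or.inl ⟨h2, h3⟩⟩⟩
        | step _ t x h1 h2 h3 _ => exact ⟨_, h1, Or.inr ⟨t, x, rfl, Or.inr ⟨h2, h3⟩⟩⟩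
      · push Not at h
        obtain ⟨x, hx, t, h1, h2⟩ := h
        obtain ⟨r1, h3, h4, h5, h6⟩ := rk_step (d := d) (b := b) hφ hr
        have h7 : (univ.filter fun a => ¬ RkGood P d b Q φ r1 a).card < n := by
          rw [← hn]
          refine Finset.card_lt_card ⟨fun a ha => ?_, fun hs => ?_⟩
          · simp only [mem_filter, mem_univ, true_and] at ha ⊢
            exact fun h => ha (h5 a h)
          · have h8 := hs (Finset.mem_filter.2 ⟨mem_univ (P.inn t x), h2⟩)
            exact (Finset.mem_filter.1 h8).2 (h6 x hx t h1)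
        obtain ⟨r2, h8, h9, h10⟩ := ih _ h7 r1 h3 rfl
        exact ⟨r2, h8, h9.trans h4, h10⟩
  exact key _ r hr rfl

omit [Fintype V] in
theorem rk_steps {φ : Perm A} {E : A → Prop} (h : ∀ a, ∃ n, φ.SameCycle a n ∧ E n) :
    ∃ st : A → ℕ, ∀ a, ¬ E a → st (φ a) < st a := by
  have h1 : ∀ a, ∃ k : ℕ, E ((φ ^ k) a) := by
    intro a
    obtain ⟨n, h2, h3⟩ := h a
    obtain ⟨i, -, rfl⟩ := h2.exists_pow_eq'
    exact ⟨i, h3⟩
  refine ⟨fun a => Nat.find (h1 a), fun a ha => ?_⟩
  have h2 := Nat.find_spec (h1 a)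
  show Nat.find (h1 (φ a)) < Nat.find (h1 a)
  generalize Nat.find (h1 a) = k at h2
  cases k with
  | zero => exact absurd h2 ha
  | succ k =>
    rw [pow_succ, Perm.mul_apply] at h2
    exact Nat.lt_succ_of_le (Nat.find_min' _ h2)

theorem rank_tree {Q : Finset V} {key : A → ℕ} (hk : P.Key d Q key) {φ : Perm A}
    (hφ : P.IsPhi Q φ) {r : A → ℕ} (hr : P.Rank Q φ r) (he : P.AllEx d b Q φ r) :
    ∃ X, P.Tree X b ∧ P.Fam d Q X ∧
      ∀ x ∈ P.nl Q φ, (X x = true ↔ r (P.inn false x) < r (P.inn true x)) := by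
  obtain ⟨st, hst⟩ := rk_steps he
  let X : V → Bool := fun x => if x ∈ Q then decide (r (P.inn false x) < r (P.inn true x) ∨
    (r (P.inn false x) = r (P.inn true x) ∧ st (P.out true x) < st (P.out false x))) else P.Z d x
  have hoff : ∀ x, x ∉ Q → X x = P.Z d x := fun x hx => if_neg hx
  have hon : ∀ x ∈ Q, (X x = true ↔ r (P.inn false x) < r (P.inn true x) ∨
      (r (P.inn false x) = r (P.inn true x) ∧ st (P.out true x) < st (P.out false x))) := by
    intro x hx
    simp only [X, if_pos hx, decide_eq_true_eq]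
  have hex : ∀ t x, P.inn t x ≠ b → P.Ex d b Q r (P.inn t x) →
      (x ∉ Q ∧ P.Z d x ≠ t) ∨ (x ∈ Q ∧ r (P.inn (!t) x) < r (P.inn t x)) := by
    rintro t x hb (h | ⟨t', x', h1, h2⟩)
    · exact absurd h hb
    · obtain rfl := inn_ty h1
      obtain rfl := P.inj _ _ _ _ h1
      exact h2
  refine ⟨X, ?_, hoff, fun x hx => ?_⟩
  · have wf : WellFounded (Prod.Lex (fun a b : ℕ => a < b)
        (Prod.Lex (fun a b : ℕ => a < b) fun a b : ℕ => a < b)) :=
      WellFounded.prod_lex Nat.lt_wfRel.wf (WellFounded.prod_lex Nat.lt_wfRel.wf Nat.lt_wfRel.wf)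
    refine tree_of_pot wf (fun a => (key a, r a, st a)) fun a ha => ?_
    simp only [Prod.lex_def]
    rcases P.pass_or a with h | ⟨t, x, rfl⟩
    · have h1 : ¬ P.Ex d b Q r a := by
        rintro (h2 | ⟨t, x, h2, -⟩)
        · exact ha h2
        · exact h t x h2
      have h2 := hst a h1
      have h3 := hr.1 a
      rw [rk_phi_pass hφ h] at h2 h3
      rw [nxt_pass X h]
      exact Or.inr ⟨hk.k_σ a, Or.inr ⟨h3, h2⟩⟩
    · rw [nxt_inn]
      by_cases hx : x ∈ Q
      · have k1 := hk.k_in x hx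
        have k2 : key (P.out false x) = key (P.inn false x) := hk.k_σ _
        have k3 : key (P.out true x) = key (P.inn true x) := hk.k_σ _
        have r1 : r (P.out true x) = r (P.inn false x) := by rw [rk_out hφ hx, hr.1]; rfl
        have r2 : r (P.out false x) = r (P.inn true x) := by rw [rk_out hφ hx, hr.1]; rfl
        have s1 : ¬ r (P.inn (!t) x) < r (P.inn t x) → st (P.out (!t) x) < st (P.inn t x) := by
          intro h
          rw [← hφ.2 t x hx]
          refine hst _ fun h2 => ?_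
          rcases hex t x ha h2 with h3 | h3
          · exact h3.1 hx
          · exact h h3.2
        have h4 := hon x hx
        generalize X x = e at h4
        cases t <;> cases e <;>
          simp only [Bool.not_false, Bool.not_true, Bool.false_eq_true, false_iff,
            true_iff] at h4 s1 <;> omega
      · rw [hoff x hx]
        by_cases hz : P.Z d x = t
        · have h1 : ¬ P.Ex d b Q r (P.inn t x) := by
            intro h2
            rcases hex t x ha h2 with h3 | h3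
            · exact h3.2 hz
            · exact hx h3.1
          have h2 := hst _ h1
          have h3 := hr.1 (P.inn t x)
          rw [rk_phi_off hφ hx] at h2 h3
          rw [hz]
          exact Or.inr ⟨hk.k_σ _, Or.inr ⟨h3, h2⟩⟩
        · have h1 := hk.k_out x hx
          have h2 : key (P.out (P.Z d x) x) = key (P.inn (P.Z d x) x) := hk.k_σ _
          have h3 : (!P.Z d x) = t := by
            revert hz
            cases P.Z d x <;> cases t <;> simp
          rw [h3] at h1
          exact Or.inl (by omega)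
  · have h1 := hr.2 x hx
    rw [hon x (rk_mem_nl.1 hx).1]
    omega

theorem rank_tree_rev (hd : P.Dist b d) {Q : Finset V} {key : A → ℕ} (hk : P.Key d Q key)
    {φ : Perm A} (hφ : P.IsPhi Q φ) {r : A → ℕ} (hr : P.Rank Q φ r) (he : P.AllEx d b Q φ r) :
    ∃ Y, P.rev.Tree Y b ∧ P.Fam d Q Y ∧
      ∀ x ∈ P.nl Q φ, (Y x = true ↔ r (P.inn true x) < r (P.inn false x)) := by
  have hro : ∀ x ∈ Q, ∀ t, r (P.rev.inn t x) = r (P.inn (!t) x) := by
    intro x hx t
    rw [rev_inn, rk_out hφ hx, hr.1]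
  have h1 : P.rev.Rank Q φ⁻¹ r := by
    refine ⟨fun a => ?_, fun x hx => ?_⟩
    · rw [← hr.1 (φ⁻¹ a)]
      simp
    · rw [hφ.rev_nl] at hx
      have hxQ := (rk_mem_nl.1 hx).1
      rw [hro x hxQ, hro x hxQ]
      exact (hr.2 x hx).symm
  have h2 : P.rev.AllEx d b Q φ⁻¹ r := by
    intro a
    obtain ⟨n, h3, h4⟩ := he a
    rcases h4 with rfl | ⟨t, x, rfl, ⟨h5, h6⟩ | ⟨h5, h6⟩⟩
    · exact ⟨n, Perm.sameCycle_inv.2 h3, Or.inl rfl⟩
    · refine ⟨φ (P.inn t x), Perm.sameCycle_inv.2 (Perm.sameCycle_apply_right.2 h3),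
        Or.inr ⟨t, x, rk_phi_off hφ h5 t, Or.inl ⟨h5, ?_⟩⟩⟩
      rw [rev_Z hd.d_σ]
      exact h6
    · refine ⟨φ (P.inn t x), Perm.sameCycle_inv.2 (Perm.sameCycle_apply_right.2 h3),
        Or.inr ⟨!t, x, hφ.2 t x h5, Or.inr ⟨h5, ?_⟩⟩⟩
      rw [hro x h5, hro x h5]
      simp only [Bool.not_not]
      exact h6
  obtain ⟨Y, h3, h4, h5⟩ := rank_tree (hk.rev hd.d_σ) hφ.rev h1 h2
  refine ⟨Y, h3, (rev_fam hd.d_σ).1 h4, fun x hx => ?_⟩
  have hxQ := (rk_mem_nl.1 hx).1
  rw [← hφ.rev_nl] at hx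
  rw [h5 x hx, hro x hxQ, hro x hxQ]
  rfl

end Pl

end Pool.Agent.P.MP_9ed2cf_gt.Nz
end

-- part Pool.Agent.P.MP_9ed2cf_gt.NzConv
section

set_option autoImplicit false

namespace Pool.Agent.P.MP_9ed2cf_gt.Nz

open Equiv Finset
open scoped Classical

namespace Pl

variable {A V : Type} {P : Pl A V}

variable [Fintype A] [Fintype V] {b : A} {d : A → ℕ} {sd : A → A → Bool}

omit [Fintype A] [Fintype V] in
theorem conv_mem {Q : Finset V} {φ : Perm A} {x : V} :
    x ∈ P.nl Q φ ↔ x ∈ Q ∧ ¬ φ.SameCycle (P.inn false x) (P.inn true x) := by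
  simp only [nl, mem_filter]

omit [Fintype V] in
theorem conv_inv {φ : Perm A} {r : A → ℕ} (h : ∀ a, r (φ a) = r a) {a a' : A}
    (hs : φ.SameCycle a a') : r a = r a' := by
  obtain ⟨n, rfl⟩ := hs.exists_nat_pow_eq
  induction n with
  | zero => simp
  | succ n ih =>
    rw [pow_succ', Perm.mul_apply, h]
    exact ih ⟨n, by simp⟩

omit [Fintype V] in
theorem conv_loop {Q : Finset V} {φ : Perm A} {r : A → ℕ} (hr : P.Rank Q φ r) {x : V}
    (hx : x ∈ Q) (hn : x ∉ P.nl Q φ) : r (P.inn false x) = r (P.inn true x) := by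
  apply conv_inv hr.1
  by_contra h
  exact hn (conv_mem.2 ⟨hx, h⟩)

omit [Fintype V] in
theorem conv_asc {Q : Finset V} {φ : Perm A} {r : A → ℕ} (hr : P.Rank Q φ r) :
    P.asc Q r = (P.nl Q φ).filter fun x => r (P.inn false x) < r (P.inn true x) := by
  ext x
  simp only [asc, mem_filter]
  constructor
  · rintro ⟨hx, h⟩
    refine ⟨?_, h⟩
    by_contra hn
    have := conv_loop hr hx hn
    omega
  · rintro ⟨hx, h⟩
    exact ⟨(conv_mem.1 hx).1, h⟩

theorem pair_le_nl (hP : P.Planar) (hd : P.Dist b d) (hs : P.Side sd) {Q : Finset V}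
    (hQ : P.Act Q) {φ : Perm A} (hφ : P.IsPhi Q φ) {X Y : V → Bool} (hX : P.Tree X b)
    (hY : P.rev.Tree Y b) : (∀ x ∈ Q, x ∉ P.nl Q φ → X x = Y x) ∧
      cn Q X Y + cn Q Y X ≤ (P.nl Q φ).card := by
  have hdis : Disjoint (Q.filter fun x => X x = true ∧ Y x = false)
      (Q.filter fun x => Y x = true ∧ X x = false) := by
    rw [disjoint_left]
    intro x h1 h2
    have h3 := (mem_filter.1 h1).2.1
    have h4 := (mem_filter.1 h2).2.2
    rw [h3] at h4
    exact absurd h4 (by simp)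
  obtain ⟨r, hr, h1, h2⟩ := dual hP hQ.1 hφ (filter_subset _ _) (filter_subset _ _) hdis
    (ndc_of_pair hd hs hQ hX hY)
  have key : ∀ x ∈ Q, x ∉ P.nl Q φ → X x = Y x := by
    intro x hx hn
    have h3 := conv_loop hr hx hn
    cases hx1 : X x <;> cases hy1 : Y x
    · rfl
    · have := h2 x (mem_filter.2 ⟨hx, hy1, hx1⟩)
      omega
    · have := h1 x (mem_filter.2 ⟨hx, hx1, hy1⟩)
      omega
    · rfl
  refine ⟨key, ?_⟩
  unfold cn
  rw [← card_union_of_disjoint hdis]
  apply card_le_card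
  intro x hx
  by_contra hn
  rcases mem_union.1 hx with h | h
  · obtain ⟨h3, h4, h5⟩ := mem_filter.1 h
    have := key x h3 hn
    rw [h4, h5] at this
    exact absurd this (by simp)
  · obtain ⟨h3, h4, h5⟩ := mem_filter.1 h
    have := key x h3 hn
    rw [h4, h5] at this
    exact absurd this (by simp)

theorem pair_of_rank (hP : P.Planar) (hd : P.Dist b d) (hs : P.Side sd) {Q : Finset V}
    (hQ : P.Act Q) {φ : Perm A} (hφ : P.IsPhi Q φ) {r : A → ℕ} (hr : P.Rank Q φ r) :
    ∃ j, P.Pair d b Q (P.asc Q r).card j ∧ (P.asc Q r).card + j = (P.nl Q φ).card := by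
  obtain ⟨r', hr', hc, hex⟩ := raise hd hφ hr
  obtain ⟨key, hk⟩ := exists_key hd hs hQ
  obtain ⟨X, hX, hfX, hX'⟩ := rank_tree hk hφ hr' hex
  obtain ⟨Y, hY, hfY, hY'⟩ := rank_tree_rev hd hk hφ hr' hex
  have hoff := (pair_le_nl hP hd hs hQ hφ hX hY).1
  have e1 : (Q.filter fun x => X x = true ∧ Y x = false) =
      (P.nl Q φ).filter fun x => r' (P.inn false x) < r' (P.inn true x) := by
    ext x
    rw [mem_filter, mem_filter]
    constructor
    · rintro ⟨hx, h1, h2⟩
      have hn : x ∈ P.nl Q φ := by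
        by_contra hn
        have := hoff x hx hn
        rw [h1, h2] at this
        exact absurd this (by simp)
      exact ⟨hn, (hX' x hn).1 h1⟩
    · rintro ⟨hn, h⟩
      refine ⟨(conv_mem.1 hn).1, (hX' x hn).2 h, ?_⟩
      cases hy : Y x
      · rfl
      · have := (hY' x hn).1 hy
        omega
  have e2 : (Q.filter fun x => Y x = true ∧ X x = false) =
      (P.nl Q φ).filter fun x => ¬ r' (P.inn false x) < r' (P.inn true x) := by
    ext x
    rw [mem_filter, mem_filter]
    constructor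
    · rintro ⟨hx, h1, h2⟩
      have hn : x ∈ P.nl Q φ := by
        by_contra hn
        have := hoff x hx hn
        rw [h1, h2] at this
        exact absurd this (by simp)
      have := (hY' x hn).1 h1
      exact ⟨hn, by omega⟩
    · rintro ⟨hn, h⟩
      have h3 := hr'.2 x hn
      refine ⟨(conv_mem.1 hn).1, (hY' x hn).2 (by omega), ?_⟩
      cases hx : X x
      · rfl
      · exact absurd ((hX' x hn).1 hx) h
  refine ⟨cn Q Y X, ⟨X, Y, hX, hY, hfX, hfY, ?_, rfl⟩, ?_⟩
  · rw [← hc, conv_asc hr', cn, e1]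
  · rw [← hc, conv_asc hr', cn, e2]
    exact card_filter_add_card_filter_not _

theorem conv_top (hP : P.Planar) (hd : P.Dist b d) (hs : P.Side sd) {Q : Finset V}
    (hQ : P.Act Q) {φ : Perm A} (hφ : P.IsPhi Q φ) {r : A → ℕ} (hr : P.Rank Q φ r) {j0 : ℕ}
    (h0 : (P.asc Q r).card + j0 = (P.nl Q φ).card) {i : ℕ} (h1 : j0 ≤ i)
    (h2 : i ≤ (P.asc Q r).card) : ∃ j, P.Pair d b Q i j ∧ i + j = (P.nl Q φ).card := by
  have t2 := tc_of_rank hφ hr
  have t1 := t2.compl
  have c2 : ((P.nl Q φ).filter fun x =>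
      decide (r (P.inn false x) < r (P.inn true x)) = true).card = (P.asc Q r).card := by
    rw [conv_asc hr]
    simp only [decide_eq_true_eq]
  have c1 : ((P.nl Q φ).filter fun x =>
      (!decide (r (P.inn false x) < r (P.inn true x))) = true).card = j0 := by
    have h3 := card_filter_add_card_filter_not (s := P.nl Q φ)
      fun x => r (P.inn false x) < r (P.inn true x)
    rw [← conv_asc hr] at h3
    have h4 : ((P.nl Q φ).filter fun x =>
        (!decide (r (P.inn false x) < r (P.inn true x))) = true) =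
        (P.nl Q φ).filter fun x => ¬ r (P.inn false x) < r (P.inn true x) := by
      apply filter_congr
      intro x _
      simp
    rw [h4]
    omega
  obtain ⟨O, hO, hc⟩ := TC.exch (fun S : Set A => decide (∃ a ∈ S, P.ty a = true))
    (fun x _ => by
      rw [decide_eq_false_iff_not]
      rintro ⟨a, ha, h⟩
      have h5 := SC.ty_eq (P := P) ha
      rw [P.ty_inn, h] at h5
      exact absurd h5 (by simp))
    (fun x _ => by
      rw [decide_eq_true_eq]
      exact ⟨P.inn true x, SC.refl _, P.ty_inn _ _⟩)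
    t1 t2 (k := i) (by rw [c1]; exact h1) (by rw [c2]; exact h2)
  have hsub : P.nl Q φ ⊆ Q := fun x hx => (conv_mem.1 hx).1
  obtain ⟨r2, hr2, h3, h4⟩ := dual hP hQ.1 hφ ((filter_subset _ _).trans hsub)
    ((filter_subset _ _).trans hsub)
    (by
      rw [disjoint_left]
      intro x h5 h6
      have h7 := (mem_filter.1 h5).2
      have h8 := (mem_filter.1 h6).2
      rw [h7] at h8
      exact absurd h8 (by simp))
    (ndc_of_tc hO)
  have e : P.asc Q r2 = (P.nl Q φ).filter fun x => O x = true := by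
    rw [conv_asc hr2]
    apply filter_congr
    intro x hx
    constructor
    · intro h
      cases ho : O x
      · have := h4 x (mem_filter.2 ⟨hx, ho⟩)
        omega
      · rfl
    · intro h
      exact h3 x (mem_filter.2 ⟨hx, h⟩)
  have h5 := pair_of_rank hP hd hs hQ hφ hr2
  rw [e, hc] at h5
  exact h5

theorem conv_start (hP : P.Planar) {Q : Finset V} (hQ : P.Act Q)
    {φ : Perm A} (hφ : P.IsPhi Q φ) {D : Finset V} (hD : D ⊆ Q) (hN : P.NDC Q D ∅) :
    ∃ r, P.Rank Q φ r ∧ D.card ≤ (P.asc Q r).card := by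
  obtain ⟨r, hr, h1, -⟩ := dual hP hQ.1 hφ hD (empty_subset _) (disjoint_empty_right _) hN
  exact ⟨r, hr, card_le_card fun x hx => mem_filter.2 ⟨hD hx, h1 x hx⟩⟩

theorem r1 (hP : P.Planar) (hd : P.Dist b d) (hs : P.Side sd) {Q : Finset V} (hQ : P.Act Q)
    {φ : Perm A} (hφ : P.IsPhi Q φ) {D : Finset V} (hD : D ⊆ Q) (hN : P.NDC Q D ∅) {i j : ℕ}
    (hji : j ≤ i) (hi : i ≤ D.card)
    (hw : i + P.beta d Q true + P.beta d Q false ≤ Q.card + j) (hn : i + j ≤ (P.nl Q φ).card) :
    P.Pair d b Q i j := by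
  obtain ⟨r, hr, hc⟩ := conv_start hP hQ hφ hD hN
  obtain ⟨j0, ⟨X, Y, hX, hY, hfX, hfY, e1, e2⟩, h0⟩ := pair_of_rank hP hd hs hQ hφ hr
  obtain ⟨X', Y', hX', hY', e3, e4⟩ := (famD hd hs hQ).fill (i0 := (P.asc Q r).card) (j0 := j0)
    ⟨X, Y, ⟨hX, hfX⟩, ⟨hY, hfY⟩, e1, e2⟩
    (fun i' h1 h2 => by
      obtain ⟨j', ⟨X1, Y1, g1, g2, g3, g4, g5, g6⟩, g7⟩ := conv_top hP hd hs hQ hφ hr h0 h1 h2
      exact ⟨X1, Y1, ⟨g1, g3⟩, ⟨g2, g4⟩, g5, by omega⟩)
    hji (hi.trans hc) hw (by omega)
  exact ⟨X', Y', hX'.1, hY'.1, hX'.2, hY'.2, e3, e4⟩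

theorem lt_path (hP : P.Planar) (hd : P.Dist b d) (hs : P.Side sd) {Q : Finset V} (hQ : P.Act Q)
    {D : Finset V} (hD : D ⊆ Q) (hN : P.NDC Q D ∅) {i j : ℕ}
    (hij : (j = 0 ∧ i + P.beta d Q true + P.beta d Q false ≤ Q.card) ∨
      (i + P.beta d Q true + P.beta d Q false = Q.card + j ∧ i ≤ D.card)) :
    ∃ X Y : V → Bool, P.Tree X b ∧ P.rev.Tree Y b ∧ P.Fam d Q X ∧ P.Fam d Q Y ∧
      cn Q X Y = i ∧ cn Q Y X = j ∧ ∀ x ∈ Q, (P.Root sd b true (P.inn true x) → X x = true) ∧
        (P.Root sd b true (P.inn false x) → Y x = false) := by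
  rcases hij with ⟨rfl, hi⟩ | ⟨hi, hiD⟩
  · obtain ⟨X, Y, hX, hY, e1, e2, h⟩ := (famD hd hs hQ).low hi
    refine ⟨X, Y, hX.1, hY.1, hX.2, hY.2, e1, e2, fun x hx => ⟨fun hr => ?_, fun hr => ?_⟩⟩
    · exact (h x).1 (z_root hd hs (SC.refl _) (by rw [hQ.1 x hx]; exact hr))
    · exact (h x).2 (z_root hd hs (SC.refl _) (by rw [hQ.1 x hx]; exact hr))
  · obtain ⟨φ, hφ⟩ := exists_phi P Q
    obtain ⟨r, hr, hc⟩ := conv_start hP hQ hφ hD hN
    obtain ⟨j0, ⟨X, Y, hX, hY, hfX, hfY, e1, -⟩, -⟩ := pair_of_rank hP hd hs hQ hφ hr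
    obtain ⟨X', Y', hX', hY', e3, e4, n1, n2⟩ := (famD hd hs hQ).edge (X := X) (Y := Y)
      ⟨hX, hfX⟩ ⟨hY, hfY⟩ (i := i) (j := j) (by omega) hi
    have m1 := (mt_root hd hs hQ hX'.1 hX'.2 n1).1
    have m2 := (mt_root hd.rev hs.rev hQ.rev hY'.1 ((rev_fam hd.d_σ).2 hY'.2) (t := false)
      (by rw [rev_beta hd.d_σ]; exact n2)).1
    refine ⟨X', Y', hX'.1, hY'.1, hX'.2, hY'.2, e3, e4, fun x hx => ⟨m1 x hx, fun hr => ?_⟩⟩
    apply m2 x hx
    rw [rev_root, rev_inn, out]
    rcases hr with h | h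
    · exact Or.inl (sc_σ_left.2 h)
    · refine Or.inr ?_
      rw [← hs.sd_c _ _ (sc_σ_right.2 (SC.refl (P.inn false x)))]
      exact h

end Pl

end Pool.Agent.P.MP_9ed2cf_gt.Nz
end

-- part Pool.Agent.P.MP_9ed2cf_gt.NzGlue
section

set_option autoImplicit false

namespace Pool.Agent.P.MP_9ed2cf_gt.Nz

open Equiv Finset
open scoped Classical

namespace Pl

variable {A V : Type} {P : Pl A V}

variable [Fintype A] [Fintype V]

/-- `rem` counts the steps to `a0` along the circle of `c` -/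
theorem exists_rem {c a0 : A} (h0 : P.SC c a0) : ∃ rem : A → ℕ, rem a0 = 0 ∧
    ∀ a, P.SC c a → a ≠ a0 → rem (P.σ a) + 1 = rem a := by
  refine ⟨fun a => if h : ∃ n : ℕ, (P.σ ^ n) a = a0 then Nat.find h else 0, ?_, ?_⟩
  · have h : ∃ n : ℕ, (P.σ ^ n) a0 = a0 := ⟨0, by simp⟩
    simp only [dif_pos h]
    exact (Nat.find_eq_zero h).2 (by simp)
  · intro a ha hne
    have h1 : P.SC a a0 := ha.symm.trans h0
    have h : ∃ n : ℕ, (P.σ ^ n) a = a0 := h1.exists_pow
    have h' : ∃ n : ℕ, (P.σ ^ n) (P.σ a) = a0 := (sc_σ_left.2 h1).exists_pow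
    simp only [dif_pos h, dif_pos h']
    apply le_antisymm
    · have hs := Nat.find_spec h
      rcases hm : Nat.find h with _ | m
      · rw [hm] at hs
        exact absurd (by simpa using hs) hne
      · rw [hm, pow_succ, Perm.mul_apply] at hs
        exact Nat.succ_le_succ (Nat.find_min' h' hs)
    · apply Nat.find_min' h
      rw [pow_succ, Perm.mul_apply]
      exact Nat.find_spec h'

omit [Fintype A] [Fintype V] in
theorem glue_pow_rem {c a0 : A} {rem : A → ℕ} (hr0 : rem a0 = 0)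
    (hr : ∀ a, P.SC c a → a ≠ a0 → rem (P.σ a) + 1 = rem a) :
    ∀ (r : ℕ) (x : A), P.SC c x → rem x = r → (P.σ ^ r) x = a0 := by
  intro r
  induction r with
  | zero =>
    intro x hx h
    by_contra hne
    have := hr x hx (by simpa using hne)
    omega
  | succ r ih =>
    intro x hx h
    have hne : x ≠ a0 := by
      rintro rfl
      omega
    have := hr x hx hne
    rw [pow_succ, Perm.mul_apply]
    exact ih _ (sc_σ_right.2 hx) (by omega)

omit [Fintype A] [Fintype V] in
theorem glue_rem_pow {c a0 : A} {rem : A → ℕ} (hr0 : rem a0 = 0)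
    (hr : ∀ a, P.SC c a → a ≠ a0 → rem (P.σ a) + 1 = rem a) {x : A} (hx : P.SC c x) :
    ∀ m : ℕ, m ≤ rem x → P.SC c ((P.σ ^ m) x) ∧ rem ((P.σ ^ m) x) + m = rem x := by
  intro m
  induction m with
  | zero => intro _; simpa using hx
  | succ m ih =>
    intro hm
    obtain ⟨h1, h2⟩ := ih (by omega)
    have hne : (P.σ ^ m) x ≠ a0 := by
      intro h
      rw [h] at h2
      omega
    have := hr _ h1 hne
    rw [pow_succ', Perm.mul_apply]
    exact ⟨sc_σ_right.2 h1, by omega⟩

omit [Fintype A] [Fintype V] in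
theorem glue_w_nxt (χ : V → Bool) {W : A → ℤ}
    (hW : ∀ x, W (P.inn false x) = W (P.inn true x)) (n : A) :
    W (P.σ⁻¹ (P.nxt χ n)) = W n := by
  rcases pass_or (P := P) n with h | ⟨t, x, rfl⟩
  · rw [nxt_pass χ h]
    simp
  · rw [nxt_inn]
    unfold out
    simp only [Perm.coe_inv, Equiv.symm_apply_apply]
    cases t <;> cases χ x <;> simp [hW x]

omit [Fintype A] [Fintype V] in
theorem glue_keep (χ : V → Bool) {L R : A → ℤ} (hL : P.FaceFn true L) (hR : P.FaceFn false R)
    (n : A) : L (P.nxt χ n) = L n ∨ R (P.nxt χ n) = R n := by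
  rcases pass_or (P := P) n with h | ⟨t, x, rfl⟩
  · left
    rw [nxt_pass χ h]
    exact hL.1 n h
  · rw [nxt_inn]
    have h1 := hL.2 t x
    have h2 := hR.2 t x
    cases t <;> cases hs : P.s x <;> cases hc : χ x <;> simp_all

omit [Fintype V] in
theorem glue_cons (χ : V → Bool) (p : ℕ → A) (N : ℕ) (hN : p N = p 0)
    (hp : ∀ j, p (j + 1) = P.nxt χ (p j) ∨ p (j + 1) = P.σ (p j)) :
    P.Cons fun n => ∑ j ∈ range N, if p (j + 1) = n then (1 : ℤ) else 0 := by
  apply cons_of_weak
  intro W hW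
  have h1 : ∑ a, (∑ j ∈ range N, if p (j + 1) = a then (1 : ℤ) else 0) * (W a - W (P.σ⁻¹ a))
      = ∑ j ∈ range N, (W (p (j + 1)) - W (p j)) := by
    simp_rw [Finset.sum_mul]
    rw [Finset.sum_comm]
    apply Finset.sum_congr rfl
    intro j _
    have h2 : W (P.σ⁻¹ (p (j + 1))) = W (p j) := by
      rcases hp j with h | h
      · rw [h, glue_w_nxt χ hW]
      · rw [h]
        simp
    simp only [ite_mul, one_mul, zero_mul, Finset.sum_ite_eq, Finset.mem_univ, if_true, h2]
  rw [h1, Finset.sum_range_sub (fun j => W (p j)), hN, sub_self]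

omit [Fintype A] [Fintype V] in
theorem glue_side {sd : A → A → Bool} (hs : P.Side sd) (χ : V → Bool) {c n : A}
    (h1 : ¬ P.SC c n) (h2 : ¬ P.SC c (P.nxt χ n)) : sd c (P.nxt χ n) = sd c n := by
  rcases pass_or (P := P) n with h | ⟨t, x, rfl⟩
  · rw [nxt_pass χ h]
    exact hs.sd_σ c n h1
  · rw [nxt_inn] at h2 ⊢
    unfold out at h2 ⊢
    rw [sc_σ_right] at h2
    rw [hs.sd_σ c _ h2]
    cases t <;> cases hc : χ x <;> rw [hc] at h2
    · exact (hs.sd_x c x h1 h2).symm
    · exact hs.sd_x c x h2 h1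

theorem fwd (hP : P.Planar) {sd : A → A → Bool} (hs : P.Side sd) {χ : V → Bool} {b c a0 : A}
    (h : P.Tree χ b) (h0 : P.SC c a0)
    (hneg : ∀ t x, P.SC c (P.inn t x) → P.s x = false → χ x = t)
    (hesc : ∃ n, (P.nxt χ)^[n] a0 = b ∧ ∀ k, 0 < k → k ≤ n → ¬ P.SC c ((P.nxt χ)^[k] a0))
    {rem : A → ℕ} (hr0 : rem a0 = 0) (hr : ∀ a, P.SC c a → a ≠ a0 → rem (P.σ a) + 1 = rem a)
    {a : A} (ha : P.SC c a) (hne : a ≠ a0) {K : ℕ} (hK : 0 < K)
    (hoff : ∀ k, 0 < k → k < K → ¬ P.SC c ((P.nxt χ)^[k] a) ∧ (P.nxt χ)^[k] a ≠ b)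
    (hon : P.SC c ((P.nxt χ)^[K] a)) : rem ((P.nxt χ)^[K] a) < rem a := by
  have easy : P.nxt χ a = P.σ a → rem ((P.nxt χ)^[K] a) < rem a := by
    intro he
    have hK1 : K = 1 := by
      by_contra hne1
      exact (hoff 1 one_pos (by omega)).1 (by simpa [he] using sc_σ_right.2 ha)
    subst hK1
    have := hr a ha hne
    simp only [Function.iterate_one, he]
    omega
  rcases pass_or (P := P) a with hpa | ⟨t, q, haq⟩
  · exact easy (nxt_pass χ hpa)
  by_cases hq : χ q = t
  · exact easy (by rw [haq, nxt_inn, hq]; rfl)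
  have hqt : χ q = !t := by cases t <;> cases hc : χ q <;> simp_all
  have hsq : P.s q = true := by
    by_contra hf
    exact hq (hneg t q (haq ▸ ha) (by simpa using hf))
  by_contra hlt
  have hle : rem a ≤ rem ((P.nxt χ)^[K] a) := not_lt.1 hlt
  obtain ⟨M, hM⟩ := Nat.exists_eq_add_of_le hle
  have hra : 0 < rem a := by
    have := hr a ha hne
    omega
  have hseg := glue_rem_pow hr0 hr hon
  have hMa : (P.σ ^ M) ((P.nxt χ)^[K] a) = a := by
    obtain ⟨h1, h2⟩ := hseg M (by omega)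
    have h3 := glue_pow_rem hr0 hr (rem a) _ h1 (by omega)
    have h4 := glue_pow_rem hr0 hr (rem a) _ ha rfl
    exact (P.σ ^ rem a).injective (h3.trans h4.symm)
  -- the closed walk
  obtain ⟨p, hp1, hp2⟩ : ∃ p : ℕ → A, (∀ j, j ≤ K → p j = (P.nxt χ)^[j] a) ∧
      ∀ m, p (K + m) = (P.σ ^ m) ((P.nxt χ)^[K] a) := by
    refine ⟨fun j => if j ≤ K then (P.nxt χ)^[j] a else (P.σ ^ (j - K)) ((P.nxt χ)^[K] a),
      fun j hj => by simp [hj], fun m => ?_⟩
    rcases Nat.eq_zero_or_pos m with rfl | hm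
    · simp
    · have : ¬ K + m ≤ K := by omega
      simp [this]
  have hpstep : ∀ j, p (j + 1) = P.nxt χ (p j) ∨ p (j + 1) = P.σ (p j) := by
    intro j
    by_cases hj : j < K
    · left
      rw [hp1 _ hj, hp1 _ hj.le, Function.iterate_succ_apply']
    · right
      obtain ⟨m, rfl⟩ := Nat.exists_eq_add_of_le (not_lt.1 hj)
      rw [add_assoc, hp2, hp2, pow_succ', Perm.mul_apply]
  have hclosed : p (K + M) = p 0 := by
    rw [hp2, hMa, hp1 0 (Nat.zero_le _)]
    rfl
  obtain ⟨L, R, hL, hR, hLR⟩ := hP _ (glue_cons χ p (K + M) hclosed hpstep)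
  obtain ⟨γ, hγ⟩ : ∃ γ : A → ℤ,
      γ = fun n => ∑ j ∈ range (K + M), if p (j + 1) = n then (1 : ℤ) else 0 := ⟨_, rfl⟩
  replace hLR : ∀ n, L n - R n = γ n := fun n => by rw [hγ]; exact hLR n
  have G0 : ∀ n, 0 ≤ γ n := by
    intro n
    rw [hγ]
    exact Finset.sum_nonneg fun j _ => by split_ifs <;> norm_num
  have G1 : ∀ n, γ n ≠ 0 → ∃ j, 0 < j ∧ j ≤ K + M ∧ p j = n := by
    intro n hn
    rw [hγ] at hn
    obtain ⟨j, hj, hj'⟩ := Finset.exists_ne_zero_of_sum_ne_zero hn
    refine ⟨j + 1, by omega, Finset.mem_range.1 hj, ?_⟩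
    by_contra hf
    exact hj' (if_neg hf)
  have G2 : ∀ j, 0 < j → j ≤ K + M → 1 ≤ γ (p j) := by
    intro j hj hj'
    obtain ⟨i, rfl⟩ : ∃ i, j = i + 1 := ⟨j - 1, by omega⟩
    rw [hγ]
    have := Finset.single_le_sum (s := range (K + M))
      (f := fun j => if p (j + 1) = p (i + 1) then (1 : ℤ) else 0)
      (fun j _ => by split_ifs <;> norm_num) (Finset.mem_range.2 hj')
    simpa using this
  have onc : ∀ j, K ≤ j → j ≤ K + M → P.SC c (p j) ∧ rem a ≤ rem (p j) := by
    intro j hj hj'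
    obtain ⟨m, rfl⟩ := Nat.exists_eq_add_of_le hj
    obtain ⟨h1, h2⟩ := hseg m (by omega)
    rw [hp2]
    exact ⟨h1, by omega⟩
  have offc : ∀ j, 0 < j → j < K → ¬ P.SC c (p j) := by
    intro j hj hj'
    rw [hp1 j hj'.le]
    exact (hoff j hj hj').1
  have inj : ∀ i j, 0 < i → i < j → j < K → p i ≠ p j := by
    intro i j hi hij hj he
    rw [hp1 i (by omega), hp1 j hj.le] at he
    have h1 : (P.nxt χ)^[K - j + i] a = (P.nxt χ)^[K] a := by
      rw [Function.iterate_add_apply, he, ← Function.iterate_add_apply]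
      congr 1
      omega
    exact (hoff (K - j + i) (by omega) (by omega)).1 (h1 ▸ hon)
  have G3 : ∀ n, ¬ P.SC c n → γ n ≤ 1 := by
    intro n hn
    rw [hγ]
    simp only [Finset.sum_boole, Nat.cast_le_one]
    rw [Finset.card_le_one]
    intro i hi j hj
    simp only [Finset.mem_filter, Finset.mem_range] at hi hj
    have hi' : i + 1 < K := by
      by_contra hf
      exact hn (hi.2 ▸ (onc (i + 1) (by omega) hi.1).1)
    have hj' : j + 1 < K := by
      by_contra hf
      exact hn (hj.2 ▸ (onc (j + 1) (by omega) hj.1).1)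
    rcases lt_trichotomy i j with hij | hij | hij
    · exact absurd (hi.2.trans hj.2.symm) (inj _ _ (by omega) (by omega) hj')
    · exact hij
    · exact absurd (hj.2.trans hi.2.symm) (inj _ _ (by omega) (by omega) hi')
  have side : ∀ j, 0 < j → j < K → sd c (p j) = true := by
    intro j hj
    induction j, hj using Nat.le_induction with
    | base =>
      intro h1
      have h2 : ¬ P.SC c (P.inn (!t) q) := not_sc_inn (haq ▸ ha)
      rw [hp1 _ h1.le]
      simp only [Nat.succ_eq_add_one, zero_add, Function.iterate_one]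
      rw [haq, nxt_inn, hqt]
      unfold out
      rw [hs.sd_σ c _ h2, hs.sd_s c t q (haq ▸ ha), hsq]
    | succ j hj ih =>
      intro h1
      have h2 : p (j + 1) = P.nxt χ (p j) := by
        rw [hp1 _ h1.le, hp1 j (by omega), Function.iterate_succ_apply']
      have h3 := offc (j + 1) (by omega) h1
      rw [h2] at h3 ⊢
      rw [glue_side hs χ (offc j hj (by omega)) h3]
      exact ih (by omega)
  have Gneg : ∀ n, ¬ P.SC c n → sd c n = false → γ n = 0 := by
    intro n hn hsd
    by_contra hf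
    obtain ⟨j, hj, hj', rfl⟩ := G1 n hf
    by_cases hjK : j < K
    · rw [side j hj hjK] at hsd
      exact absurd hsd (by simp)
    · exact hn (onc j (by omega) hj').1
  have Rc : ∀ n, P.SC c n → R n = R c := by
    intro n hn
    have key : ∀ n, (P.SC c n ∧ R n = R c) → (P.SC c (P.σ n) ∧ R (P.σ n) = R c) := by
      rintro n ⟨h1, h2⟩
      refine ⟨sc_σ_right.2 h1, Eq.trans ?_ h2⟩
      rcases pass_or (P := P) n with hpn | ⟨t', x, rfl⟩
      · exact hR.1 n hpn
      · cases hsx : P.s x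
        · have o1 : ¬ P.SC c (P.inn (!t') x) := not_sc_inn h1
          have o2 : ¬ P.SC c (P.σ (P.inn (!t') x)) := fun hh => o1 (sc_σ_right.1 hh)
          have s1 : sd c (P.inn (!t') x) = false := by rw [hs.sd_s c t' x h1, hsx]
          have s2 : sd c (P.σ (P.inn (!t') x)) = false := by rw [hs.sd_σ c _ o1, s1]
          have e1 := hLR (P.inn (!t') x)
          have e2 := hLR (P.σ (P.inn (!t') x))
          rw [Gneg _ o1 s1] at e1
          rw [Gneg _ o2 s2] at e2
          have e3 := hL.2 (!t') x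
          have e4 := hR.2 (!t') x
          have e5 := hR.2 t' x
          simp only [hsx, out, Bool.false_eq_true, if_false, if_true, Bool.not_not] at e3 e4 e5
          omega
        · have e5 := hR.2 t' x
          simpa [hsx, out] using e5
    exact (SC.ind key hn ⟨SC.refl c, rfl⟩).2
  have hU : ∀ n, R c + 1 ≤ L n → n ≠ b → R c + 1 ≤ L (P.nxt χ n) := by
    intro n hn _
    by_cases hc : P.SC c n
    · rcases pass_or (P := P) n with hpn | ⟨t', x, rfl⟩
      · rw [nxt_pass χ hpn, hL.1 n hpn]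
        exact hn
      · rw [nxt_inn]
        have e1 := hL.2 t' x
        cases hsx : P.s x
        · rw [hneg t' x hc hsx]
          simp only [hsx, Bool.false_eq_true, if_false] at e1
          omega
        · by_cases hx : χ x = t'
          · have e2 := hLR (P.inn t' x)
            have e3 := Rc _ hc
            obtain ⟨j, hj, hj', hje⟩ := G1 (P.inn t' x) (by omega)
            have hjK : K ≤ j := by
              by_contra hf
              exact offc j hj (by omega) (hje ▸ hc)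
            have hjM : j ≠ K + M := by
              rintro rfl
              rw [hp2, hMa, haq] at hje
              have h1 := inn_ty hje
              have h2 := P.inj _ _ _ _ hje
              exact hq (by rw [h2, h1, hx])
            obtain ⟨m, rfl⟩ := Nat.exists_eq_add_of_le hjK
            have h3 : p (K + m + 1) = P.out (χ x) x := by
              rw [add_assoc, hp2, pow_succ', Perm.mul_apply, ← hp2, hje, hx]
              rfl
            have h4 := G2 (K + m + 1) (by omega) (by omega)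
            have h5 := Rc _ (onc (K + m + 1) (by omega) (by omega)).1
            have h6 := hLR (p (K + m + 1))
            rw [← h3]
            omega
          · have hx' : χ x = !t' := by cases t' <;> cases hc' : χ x <;> simp_all
            rw [hx']
            simp only [hsx, if_true] at e1
            omega
    · rcases glue_keep χ hL hR n with h1 | h1
      · omega
      · have e1 := hLR n
        have e2 := hLR (P.nxt χ n)
        have e3 := G0 (P.nxt χ n)
        by_cases hg : γ n = 0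
        · omega
        · obtain ⟨j, hj, hj', hje⟩ := G1 n hg
          have hjK : j < K := by
            by_contra hf
            exact hc (hje ▸ (onc j (by omega) hj').1)
          have h2 : p (j + 1) = P.nxt χ n := by
            rw [← hje, hp1 _ hjK, hp1 j hjK.le, Function.iterate_succ_apply']
          have h3 := G2 (j + 1) (by omega) (by omega)
          have h4 := G3 n hc
          rw [h2] at h3
          omega
  have hb : R c + 1 ≤ L b := by
    refine h.closed (U := fun n => R c + 1 ≤ L n) hU (a := p K) ?_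
    have h1 := G2 K hK (by omega)
    have h2 := Rc _ (onc K le_rfl (by omega)).1
    have h3 := hLR (p K)
    show R c + 1 ≤ L (p K)
    omega
  obtain ⟨n, hn, hn'⟩ := hesc
  have Z0 : γ a0 = 0 := by
    by_contra hf
    obtain ⟨j, hj, hj', hje⟩ := G1 a0 hf
    by_cases hjK : j < K
    · exact offc j hj hjK (hje ▸ h0)
    · have := (onc j (by omega) hj').2
      rw [hje] at this
      omega
  have Z1 : ∀ k, 0 < k → k ≤ n → γ ((P.nxt χ)^[k] a0) = 0 := by
    intro k hk hkn
    by_contra hf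
    obtain ⟨j, hj, hj', hje⟩ := G1 _ hf
    have hjK : j < K := by
      by_contra hf'
      exact hn' k hk hkn (hje ▸ (onc j (by omega) hj').1)
    rw [hp1 j hjK.le] at hje
    have sh : ∀ r, (P.nxt χ)^[r + j] a = (P.nxt χ)^[r + k] a0 := by
      intro r
      rw [Function.iterate_add_apply, Function.iterate_add_apply, hje]
    by_cases hc : K - j + k ≤ n
    · apply hn' (K - j + k) (by omega) hc
      rw [← sh, show K - j + j = K by omega]
      exact hon
    · apply (hoff (n - k + j) (by omega) (by omega)).2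
      rw [sh, show n - k + k = n by omega]
      exact hn
  have Lp : ∀ k, k ≤ n → L ((P.nxt χ)^[k] a0) = R c := by
    intro k
    induction k with
    | zero =>
      intro _
      have h1 := hLR a0
      have h2 := Rc a0 h0
      show L a0 = R c
      omega
    | succ k ih =>
      intro hk
      have ih' := ih (by omega)
      rcases Nat.eq_zero_or_pos k with rfl | hk0
      · have o := hn' 1 one_pos hk
        simp only [Function.iterate_one, zero_add, Function.iterate_zero, id_eq] at o ih' ⊢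
        rcases pass_or (P := P) a0 with hpn | ⟨t', x, rfl⟩
        · rw [nxt_pass χ hpn, hL.1 _ hpn]
          exact ih'
        · rw [nxt_inn] at o ⊢
          have hx : χ x ≠ t' := by
            rintro rfl
            exact o (sc_σ_right.2 h0)
          have hx' : χ x = !t' := by cases t' <;> cases hc' : χ x <;> simp_all
          have hsx : P.s x = true := by
            by_contra hf
            exact hx (hneg t' x h0 (by simpa using hf))
          have e1 := hL.2 t' x
          simp only [hsx, if_true] at e1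
          rw [hx']
          omega
      · have z1 := Z1 k hk0 (by omega)
        have z2 := Z1 (k + 1) (by omega) hk
        have e1 := hLR ((P.nxt χ)^[k] a0)
        have e2 := hLR ((P.nxt χ)^[k + 1] a0)
        have e3 := glue_keep χ hL hR ((P.nxt χ)^[k] a0)
        rw [← Function.iterate_succ_apply' (P.nxt χ) k a0] at e3
        simp only [Nat.succ_eq_add_one] at e3
        omega
  have := Lp n le_rfl
  rw [hn] at this
  omega

end Pl

end Pool.Agent.P.MP_9ed2cf_gt.Nz
end

-- part Pool.Agent.P.MP_9ed2cf_gt.NzGlue2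
section

set_option autoImplicit false

namespace Pool.Agent.P.MP_9ed2cf_gt.Nz

open Equiv Finset
open scoped Classical

namespace Pl

variable {A V : Type} {P : Pl A V}

variable [Fintype A] [Fintype V]

omit [Fintype V] in
/-- a crossing with an arm on the circle is on the positive side iff it is positive -/
theorem glue2_ps_on {sd : A → A → Bool} (hs : P.Side sd) {c : A} {t : Bool} {x : V}
    (h : P.SC c (P.inn t x)) : P.PS sd c x ↔ P.s x = true := by
  constructor
  · intro hp
    rw [← hs.sd_s c t x h]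
    exact hp (!t) (not_sc_inn h)
  · intro hx t' ht'
    by_cases e : t' = t
    · subst e; exact absurd h ht'
    · have e' : t' = !t := by cases t <;> cases t' <;> simp_all
      subst e'
      rw [hs.sd_s c t x h, hx]

omit [Fintype A] [Fintype V] in
/-- two arms of a crossing that are off the circle are on the same side -/
theorem glue2_same {sd : A → A → Bool} (hs : P.Side sd) {c : A} {t t' : Bool} {x : V}
    (h : ¬ P.SC c (P.inn t x)) (h' : ¬ P.SC c (P.inn t' x)) :
    sd c (P.inn t' x) = sd c (P.inn t x) := by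
  cases t <;> cases t'
  · rfl
  · exact (hs.sd_x c x h h').symm
  · exact hs.sd_x c x h' h
  · rfl

omit [Fintype A] [Fintype V] in
theorem glue2_ps_off {sd : A → A → Bool} (hs : P.Side sd) {c : A} {t : Bool} {x : V}
    (h : ¬ P.SC c (P.inn t x)) : P.PS sd c x ↔ sd c (P.inn t x) = true := by
  constructor
  · intro hp
    exact hp t h
  · intro hx t' ht'
    rw [glue2_same hs h ht', hx]

omit [Fintype A] [Fintype V] in
/-- a step from a node off the circle stays on its side or lands on the circle -/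
theorem glue2_side {sd : A → A → Bool} (hs : P.Side sd) (χ : V → Bool) {c a : A}
    (h : ¬ P.SC c a) : P.SC c (P.nxt χ a) ∨ sd c (P.nxt χ a) = sd c a := by
  rcases P.pass_or a with hp | ⟨t, x, rfl⟩
  · right
    rw [nxt_pass χ hp, hs.sd_σ c a h]
  · rw [nxt_inn]
    by_cases h' : P.SC c (P.inn (χ x) x)
    · left
      exact sc_σ_right.2 h'
    · right
      show sd c (P.σ (P.inn (χ x) x)) = _
      rw [hs.sd_σ c _ h', glue2_same hs h h']

omit [Fintype A] [Fintype V] in
/-- two choice functions that agree on one side give the same excursions on that side -/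
theorem glue2_follow {sd : A → A → Bool} (hs : P.Side sd) {X χ : V → Bool} {c a : A} {e : Bool}
    (hst : ∀ a, ¬ P.SC c a → sd c a = e → P.nxt X a = P.nxt χ a)
    (h0 : P.nxt X a = P.nxt χ a) (h1 : P.SC c (P.nxt χ a) ∨ sd c (P.nxt χ a) = e) {K : ℕ}
    (hoff : ∀ k, 0 < k → k < K → ¬ P.SC c ((P.nxt χ)^[k] a)) :
    (P.nxt X)^[K] a = (P.nxt χ)^[K] a := by
  have key : ∀ k, k + 1 ≤ K → (P.nxt X)^[k + 1] a = (P.nxt χ)^[k + 1] a ∧
      (P.SC c ((P.nxt χ)^[k + 1] a) ∨ sd c ((P.nxt χ)^[k + 1] a) = e) := by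
    intro k
    induction k with
    | zero => intro _; exact ⟨h0, h1⟩
    | succ k ih =>
      intro hk
      obtain ⟨e1, e2⟩ := ih (by omega)
      have hn := hoff (k + 1) (by omega) (by omega)
      have e3 : sd c ((P.nxt χ)^[k + 1] a) = e := e2.resolve_left hn
      rw [Function.iterate_succ_apply' (P.nxt X) (k + 1),
        Function.iterate_succ_apply' (P.nxt χ) (k + 1), e1]
      refine ⟨hst _ hn e3, ?_⟩
      rw [← e3]
      exact glue2_side hs χ hn
  cases K with
  | zero => rfl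
  | succ K => exact (key K le_rfl).1

omit [Fintype A] [Fintype V] in
theorem glue2_first' {f : A → A} {a : A} {p : A → Prop} (h : ∃ n, 0 < n ∧ p (f^[n] a)) :
    ∃ K, 0 < K ∧ p (f^[K] a) ∧ ∀ k, 0 < k → k < K → ¬ p (f^[k] a) :=
  ⟨Nat.find h, (Nat.find_spec h).1, (Nat.find_spec h).2,
    fun _ h0 hk hp => Nat.find_min h hk ⟨h0, hp⟩⟩

omit [Fintype A] [Fintype V] in
theorem glue2_pos {χ : V → Bool} {b a : A} (h : P.Tree χ b) (hne : a ≠ b) :
    ∃ n, 0 < n ∧ (P.nxt χ)^[n] a = b := by
  obtain ⟨n, hn⟩ := h a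
  refine ⟨n, Nat.pos_of_ne_zero ?_, hn⟩
  rintro rfl
  exact hne hn

omit [Fintype V] in
/-- the node of the circle from which the path of the tree never comes back -/
theorem glue2_esc {χ : V → Bool} {b : A} (h : P.Tree χ b) (c : A) :
    ∃ a0, P.SC c a0 ∧ ∃ n, (P.nxt χ)^[n] a0 = b ∧
      ∀ k, 0 < k → k ≤ n → ¬ P.SC c ((P.nxt χ)^[k] a0) := by
  obtain ⟨dp, hb, hdp⟩ := h.exists_dp
  obtain ⟨a0, ha0, hmin⟩ := Finset.exists_min_image (univ.filter fun a => P.SC c a) dp
    ⟨c, by simp [SC.refl]⟩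
  have ha0' : P.SC c a0 := (mem_filter.1 ha0).2
  have hz : ∀ a, dp a = 0 → a = b := fun a ha => by
    by_contra hne
    have := hdp a hne
    omega
  have hk : ∀ k, k ≤ dp a0 → dp ((P.nxt χ)^[k] a0) + k = dp a0 := by
    intro k
    induction k with
    | zero => intro _; rfl
    | succ k ih =>
      intro hk
      have e := ih (by omega)
      have hne : (P.nxt χ)^[k] a0 ≠ b := fun e' => by
        rw [e', hb] at e
        omega
      have := hdp _ hne
      rw [Function.iterate_succ_apply']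
      omega
  refine ⟨a0, ha0', dp a0, hz _ ?_, fun k h0 hkn hc => ?_⟩
  · have := hk _ le_rfl
    omega
  · have h1 := hk k hkn
    have h2 := hmin _ (mem_filter.2 ⟨mem_univ _, hc⟩)
    omega

theorem glue (hP : P.Planar) {sd : A → A → Bool} (hs : P.Side sd) {X1 : V → Bool} {b c : A}
    (h1 : P.Tree X1 b) (hr : P.Root sd b true c)
    (hpos : ∀ t x, P.SC c (P.inn t x) → P.s x = true → X1 x = t) :
    ∃ a0, P.SC c a0 ∧ ∀ X2 : V → Bool, P.Tree X2 a0 →
      (∀ t x, P.SC c (P.inn t x) → P.s x = false → X2 x = t) →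
      P.Tree (fun x => if P.PS sd c x then X2 x else X1 x) b := by
  have _ := hr
  obtain ⟨a0, h0, hesc⟩ := glue2_esc h1 c
  refine ⟨a0, h0, fun X2 h2 hneg => ?_⟩
  obtain ⟨rem, hr0, hrem⟩ := exists_rem h0
  generalize hX : (fun x => if P.PS sd c x then X2 x else X1 x) = X
  have hXp : ∀ x, P.PS sd c x → X x = X2 x := fun x hx => by rw [← hX]; exact if_pos hx
  have hXn : ∀ x, ¬ P.PS sd c x → X x = X1 x := fun x hx => by rw [← hX]; exact if_neg hx
  have st1 : ∀ a, ¬ P.SC c a → sd c a = false → P.nxt X a = P.nxt X1 a := by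
    intro a ha he
    rcases P.pass_or a with hp | ⟨t, x, rfl⟩
    · rw [nxt_pass X hp, nxt_pass X1 hp]
    · rw [nxt_inn, nxt_inn, hXn x (by rw [glue2_ps_off hs ha, he]; simp)]
  have st2 : ∀ a, ¬ P.SC c a → sd c a = true → P.nxt X a = P.nxt X2 a := by
    intro a ha he
    rcases P.pass_or a with hp | ⟨t, x, rfl⟩
    · rw [nxt_pass X hp, nxt_pass X2 hp]
    · rw [nxt_inn, nxt_inn, hXp x ((glue2_ps_off hs ha).2 he)]
  -- leaving the circle at a crossing
  have leave : ∀ (χ : V → Bool) t x, P.SC c (P.inn t x) →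
      P.SC c (P.nxt χ (P.inn t x)) ∨ sd c (P.nxt χ (P.inn t x)) = P.s x := by
    intro χ t x hc
    rw [nxt_inn]
    by_cases e : χ x = t
    · left
      rw [e]
      exact sc_σ_right.2 hc
    · right
      have e' : χ x = !t := by cases t <;> cases h : χ x <;> simp_all
      rw [e']
      show sd c (P.σ (P.inn (!t) x)) = _
      rw [hs.sd_σ c _ (not_sc_inn hc), hs.sd_s c t x hc]
  have base : P.Reach X a0 b := by
    obtain ⟨n, hn, hoff⟩ := hesc
    rcases Nat.eq_zero_or_pos n with rfl | hn0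
    · exact ⟨0, hn⟩
    have hf : ¬ P.SC c (P.nxt X1 a0) := hoff 1 Nat.one_pos hn0
    rcases P.pass_or a0 with hp | ⟨t, x, rfl⟩
    · rw [nxt_pass X1 hp] at hf
      exact absurd (sc_σ_right.2 h0) hf
    · have hx : P.s x = false := by
        by_contra hx
        have e := hpos t x h0 (by simpa using hx)
        rw [nxt_inn, e] at hf
        exact hf (sc_σ_right.2 h0)
      refine ⟨n, Eq.trans ?_ hn⟩
      refine glue2_follow hs st1 ?_ ?_ fun k hk hk' => hoff k hk hk'.le
      · rw [nxt_inn, nxt_inn, hXn x (by rw [glue2_ps_on hs h0, hx]; simp)]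
      · rw [← hx]
        exact leave X1 t x h0
  have onc : ∀ m a, P.SC c a → rem a = m → P.Reach X a b := by
    intro m
    induction m using Nat.strong_induction_on with
    | _ m ih =>
      intro a ha hm
      by_cases hne : a = a0
      · rw [hne]; exact base
      by_cases hb : a = b
      · rw [hb]; exact Reach.refl X b
      rcases P.pass_or a with hp | ⟨t, x, rfl⟩
      · refine Reach.head ?_
        rw [nxt_pass X hp]
        have := hrem a ha hne
        exact ih _ (by omega) _ (sc_σ_right.2 ha) rfl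
      · cases hx : P.s x
        · obtain ⟨n, hn0, hn⟩ := glue2_pos h1 hb
          obtain ⟨K, hK, hon, hoff⟩ := glue2_first' (f := P.nxt X1) (a := P.inn t x)
            (p := fun a => P.SC c a ∨ a = b) ⟨n, hn0, Or.inr hn⟩
          have e : (P.nxt X)^[K] (P.inn t x) = (P.nxt X1)^[K] (P.inn t x) := by
            refine glue2_follow hs st1 ?_ ?_ fun k hk hk' hc => hoff k hk hk' (Or.inl hc)
            · rw [nxt_inn, nxt_inn, hXn x (by rw [glue2_ps_on hs ha, hx]; simp)]
            · rw [← hx]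
              exact leave X1 t x ha
          rcases hon with hon | hon
          · have hlt : rem ((P.nxt X1)^[K] (P.inn t x)) < rem (P.inn t x) :=
              fwd (P := P.neg) hP.neg hs.neg (neg_tree.2 h1) h0
                (fun t x hc hx => hpos t x hc (by simpa [Pl.neg] using hx)) hesc hr0 hrem ha hne hK
                (fun k hk hk' => not_or.1 (hoff k hk hk')) hon
            exact Reach.trans ⟨K, e⟩ (ih _ (by omega) _ hon rfl)
          · exact ⟨K, e.trans hon⟩
        · obtain ⟨n, hn0, hn⟩ := glue2_pos h2 hne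
          obtain ⟨K, hK, hon, hoff⟩ := glue2_first' (f := P.nxt X2) (a := P.inn t x)
            (p := fun a => P.SC c a) ⟨n, hn0, by rw [hn]; exact h0⟩
          have e : (P.nxt X)^[K] (P.inn t x) = (P.nxt X2)^[K] (P.inn t x) := by
            refine glue2_follow hs st2 ?_ ?_ hoff
            · rw [nxt_inn, nxt_inn, hXp x ((glue2_ps_on hs ha).2 hx)]
            · rw [← hx]
              exact leave X2 t x ha
          have hlt : rem ((P.nxt X2)^[K] (P.inn t x)) < rem (P.inn t x) :=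
            fwd hP hs h2 h0 hneg ⟨0, rfl, fun k hk hk' => by omega⟩ hr0 hrem ha hne hK
              (fun k hk hk' => ⟨hoff k hk hk', fun e' => hoff k hk hk' (by rw [e']; exact h0)⟩) hon
          exact Reach.trans ⟨K, e⟩ (ih _ (by omega) _ hon rfl)
  intro a
  by_cases ha : P.SC c a
  · exact onc _ a ha rfl
  by_cases hb : a = b
  · rw [hb]; exact Reach.refl X b
  cases he : sd c a
  · obtain ⟨n, hn0, hn⟩ := glue2_pos h1 hb
    obtain ⟨K, -, hon, hoff⟩ := glue2_first' (f := P.nxt X1) (a := a)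
      (p := fun a => P.SC c a ∨ a = b) ⟨n, hn0, Or.inr hn⟩
    have e : (P.nxt X)^[K] a = (P.nxt X1)^[K] a := by
      refine glue2_follow hs st1 (st1 a ha he) ?_ fun k hk hk' hc => hoff k hk hk' (Or.inl hc)
      rw [← he]
      exact glue2_side hs X1 ha
    rcases hon with hon | hon
    · exact Reach.trans ⟨K, e⟩ (onc _ _ hon rfl)
    · exact ⟨K, e.trans hon⟩
  · obtain ⟨n, hn0, hn⟩ := glue2_pos (a := a) h2 (fun e => ha (by rw [e]; exact h0))
    obtain ⟨K, -, hon, hoff⟩ := glue2_first' (f := P.nxt X2) (a := a)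
      (p := fun a => P.SC c a) ⟨n, hn0, by rw [hn]; exact h0⟩
    have e : (P.nxt X)^[K] a = (P.nxt X2)^[K] a := by
      refine glue2_follow hs st2 (st2 a ha he) ?_ hoff
      rw [← he]
      exact glue2_side hs X2 ha
    exact Reach.trans ⟨K, e⟩ (onc _ _ hon rfl)

end Pl

end Pool.Agent.P.MP_9ed2cf_gt.Nz
end

-- part Pool.Agent.P.MP_9ed2cf_gt.NzStep
section

set_option autoImplicit false

namespace Pool.Agent.P.MP_9ed2cf_gt.Nz

open Equiv Finset
open scoped Classical

namespace Pl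

variable {A V : Type} {P : Pl A V}

variable [Fintype A] [Fintype V] {b : A} {d : A → ℕ} {sd : A → A → Bool}

/-- the two trees for a base node on the root circle -/
theorem NzStep_base (hP : P.Planar) (hd : P.Dist b d) (hs : P.Side sd) {c : A}
    (hr : P.Root sd b true c) {G : Finset V} (hG : P.Act G) (hGc : ∀ x ∈ G, P.PS sd c x)
    (hGr : ∀ t x, P.SC c (P.inn t x) → P.s x = true → x ∈ G)
    {D : Finset V} (hD : D ⊆ G) (hN : P.NDC G D ∅) {i j : ℕ}
    (hij : (j = 0 ∧ i + P.beta d G true + P.beta d G false ≤ G.card) ∨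
      (i + P.beta d G true + P.beta d G false = G.card + j ∧ i ≤ D.card))
    {a0 : A} (h0 : P.SC c a0) :
    ∃ X Y : V → Bool, P.Tree X a0 ∧ P.rev.Tree Y a0 ∧ cn G X Y = i ∧ cn G Y X = j ∧
      (∀ x, x ∉ G → P.PS sd c x → X x = P.Z d x ∧ Y x = P.Z d x) ∧
      (∀ t x, P.SC c (P.inn t x) → P.s x = false → X x = t ∧ Y x = t) ∧
      (∀ x, P.SC c (P.inn true x) → X x = true) ∧
      (∀ x, P.SC c (P.inn false x) → Y x = false) := by
  obtain ⟨d', hd'⟩ := exists_dist (z_tree hd) a0
  have hz : ∀ x, P.PS sd c x → P.Z d' x = P.Z d x := fun x hx => z_shift hd hs hd' h0 hr hx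
  have hb : ∀ t, P.beta d' G t = P.beta d G t := by
    intro t
    unfold beta
    have : (G.filter fun x => P.Z d' x ≠ t) = G.filter fun x => P.Z d x ≠ t := by
      apply Finset.filter_congr
      intro x hx
      rw [hz x (hGc x hx)]
    rw [this]
  obtain ⟨X, Y, hX, hY, fX, fY, hi, hj, hl⟩ := lt_path (i := i) (j := j) hP hd' hs hG hD hN
    (by rw [hb, hb]; exact hij)
  have hneg : ∀ t x, P.SC c (P.inn t x) → P.s x = false → X x = t ∧ Y x = t := by
    intro t x hx hsx
    have hxG : x ∉ G := by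
      intro h
      have := hG.1 x h
      rw [hsx] at this
      exact Bool.false_ne_true this
    have hzz : P.Z d' x = t := z_root hd' hs hx (Or.inl h0)
    exact ⟨(fX x hxG).trans hzz, (fY x hxG).trans hzz⟩
  refine ⟨X, Y, hX, hY, hi, hj, ?_, hneg, ?_, ?_⟩
  · intro x hx hps
    exact ⟨(fX x hx).trans (hz x hps), (fY x hx).trans (hz x hps)⟩
  · intro x hx
    cases hsx : P.s x with
    | false => exact (hneg true x hx hsx).1
    | true => exact (hl x (hGr true x hx hsx)).1 (Or.inl (hx.symm.trans h0))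
  · intro x hx
    cases hsx : P.s x with
    | false => exact (hneg false x hx hsx).2
    | true => exact (hl x (hGr false x hx hsx)).2 (Or.inl (hx.symm.trans h0))

theorem NzStep_rev_sc {c : A} {t : Bool} {x : V} :
    P.rev.SC c (P.rev.inn t x) ↔ P.SC c (P.inn t x) := by
  rw [rev_sc, rev_inn]
  exact sc_σ_right

/-- one positive component `G` with root circle `c` is changed -/
theorem posstep (hP : P.Planar) (hd : P.Dist b d) (hs : P.Side sd) {c : A}
    (hr : P.Root sd b true c) {G : Finset V} (hG : P.Act G) (hGc : ∀ x ∈ G, P.PS sd c x)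
    (hGr : ∀ t x, P.SC c (P.inn t x) → P.s x = true → x ∈ G)
    {X1 Y1 : V → Bool} (hX : P.Tree X1 b) (hY : P.rev.Tree Y1 b)
    (hZ : ∀ x, P.PS sd c x → X1 x = P.Z d x ∧ Y1 x = P.Z d x)
    {D : Finset V} (hD : D ⊆ G) (hN : P.NDC G D ∅) {i j : ℕ}
    (hij : (j = 0 ∧ i + P.beta d G true + P.beta d G false ≤ G.card) ∨
      (i + P.beta d G true + P.beta d G false = G.card + j ∧ i ≤ D.card)) :
    ∃ X Y : V → Bool, P.Tree X b ∧ P.rev.Tree Y b ∧
      (∀ x, x ∉ G → X x = X1 x ∧ Y x = Y1 x) ∧ cn G X Y = i ∧ cn G Y X = j := by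
  have hzc : ∀ t x, P.SC c (P.inn t x) → P.s x = true → X1 x = t ∧ Y1 x = t := by
    intro t x hx hsx
    have hps := hGc x (hGr t x hx hsx)
    have hzz : P.Z d x = t := z_root hd hs hx (by rw [hsx]; exact hr)
    exact ⟨(hZ x hps).1.trans hzz, (hZ x hps).2.trans hzz⟩
  obtain ⟨aX, haX, gX⟩ := glue hP hs hX hr fun t x hx hsx => (hzc t x hx hsx).1
  obtain ⟨aY, haY, gY⟩ := glue hP.rev hs.rev hY (rev_root.2 hr)
    fun t x hx hsx => (hzc t x (NzStep_rev_sc.1 hx) hsx).2
  have haY' : P.SC c aY := rev_sc.1 haY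
  have hty : ∀ t x, P.SC c (P.inn t x) → P.ty c = t := by
    intro t x hx
    rw [hx.ty_eq, P.ty_inn]
  have key : ∃ X Y : V → Bool, P.Tree X aX ∧ P.rev.Tree Y aY ∧ cn G X Y = i ∧ cn G Y X = j ∧
      (∀ x, x ∉ G → P.PS sd c x → X x = P.Z d x ∧ Y x = P.Z d x) ∧
      (∀ t x, P.SC c (P.inn t x) → P.s x = false → X x = t ∧ Y x = t) := by
    cases hc : P.ty c with
    | false =>
      obtain ⟨X, Y, h1, h2, h3, h4, h5, h6, -, h8⟩ :=
        NzStep_base hP hd hs hr hG hGc hGr hD hN hij haX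
      refine ⟨X, Y, h1, ?_, h3, h4, h5, h6⟩
      refine h2.rebase (rev_sc.2 (haX.symm.trans haY')) ?_
      intro t x hx
      have hx' : P.SC c (P.inn t x) := haX.trans (NzStep_rev_sc.1 hx)
      have ht : t = false := by rw [← hty t x hx', hc]
      subst ht
      exact h8 x hx'
    | true =>
      obtain ⟨X, Y, h1, h2, h3, h4, h5, h6, h7, -⟩ :=
        NzStep_base hP hd hs hr hG hGc hGr hD hN hij haY'
      refine ⟨X, Y, ?_, h2, h3, h4, h5, h6⟩
      refine h1.rebase (haY'.symm.trans haX) ?_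
      intro t x hx
      have hx' : P.SC c (P.inn t x) := haY'.trans hx
      have ht : t = true := by rw [← hty t x hx', hc]
      subst ht
      exact h7 x hx'
  obtain ⟨X, Y, h1, h2, h3, h4, h5, h6⟩ := key
  have tX := gX X h1 fun t x hx hsx => (h6 t x hx hsx).1
  have tY := gY Y h2 fun t x hx hsx => (h6 t x (NzStep_rev_sc.1 hx) hsx).2
  refine ⟨_, _, tX, tY, ?_, ?_, ?_⟩
  · intro x hx
    by_cases hps : P.PS sd c x
    · have hps' : P.rev.PS sd c x := (rev_ps hs).2 hps
      simp only [hps, hps', if_true]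
      exact ⟨(h5 x hx hps).1.trans (hZ x hps).1.symm, (h5 x hx hps).2.trans (hZ x hps).2.symm⟩
    · have hps' : ¬ P.rev.PS sd c x := fun h => hps ((rev_ps hs).1 h)
      simp only [hps, hps', if_false]
      exact ⟨trivial, trivial⟩
  · rw [← h3]
    unfold cn
    congr 1
    apply Finset.filter_congr
    intro x hx
    have hps := hGc x hx
    have hps' : P.rev.PS sd c x := (rev_ps hs).2 hps
    simp only [hps, hps', if_true]
  · rw [← h4]
    unfold cn
    congr 1
    apply Finset.filter_congr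
    intro x hx
    have hps := hGc x hx
    have hps' : P.rev.PS sd c x := (rev_ps hs).2 hps
    simp only [hps, hps', if_true]

end Pl

end Pool.Agent.P.MP_9ed2cf_gt.Nz
end

-- part Pool.Agent.P.MP_9ed2cf_gt.NzGrp
section

set_option autoImplicit false

namespace Pool.Agent.P.MP_9ed2cf_gt.Nz

open Equiv Finset
open scoped Classical

namespace Pl

variable {A V : Type} {P : Pl A V}

variable [Fintype A] [Fintype V] {b : A} {d : A → ℕ} {sd : A → A → Bool}

/-- the set of nodes on a circle or on its positive side is closed under positive components -/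
theorem grp_inv (hs : P.Side sd) {K : A → A → Prop}
    (hK : ∀ (c : A) (p : A → Prop), p c → (∀ a, K c a → p a → p (P.σ a)) →
      (∀ t, ∀ x ∈ P.sg true, K c (P.inn t x) → p (P.inn t x) → p (P.inn (!t) x)) →
      ∀ a, K c a → p a)
    (c : A) {a0 a : A} (h0 : P.SC c a0 ∨ sd c a0 = true) (h : K a0 a) :
    P.SC c a ∨ sd c a = true := by
  refine hK a0 (fun a => P.SC c a ∨ sd c a = true) h0 ?_ ?_ a h
  · intro a _ ha
    by_cases hca : P.SC c a
    · exact Or.inl (sc_σ_right.2 hca)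
    · rcases ha with ha | ha
      · exact absurd ha hca
      · right
        rw [hs.sd_σ c a hca]
        exact ha
  · intro t x hx _ ha
    have hsx : P.s x = true := by
      simpa [sg] using hx
    by_cases hca : P.SC c (P.inn t x)
    · right
      rw [hs.sd_s c t x hca]
      exact hsx
    · rcases ha with ha | ha
      · exact absurd ha hca
      · by_cases hcb : P.SC c (P.inn (!t) x)
        · exact Or.inl hcb
        · right
          cases t
          · exact (hs.sd_x c x hca hcb).symm.trans ha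
          · exact (hs.sd_x c x hcb hca).trans ha

/-- a node on the positive side of a root is farther from the base -/
theorem grp_far (hd : P.Dist b d) (hs : P.Side sd) {c a : A} (hr : P.Root sd b true c)
    (hn : ¬ P.SC c a) (ha : sd c a = true) : d c < d a := by
  refine sep hd hs hn ?_
  rcases hr with hr | hr
  · exact Or.inl hr
  · right
    rw [ha]
    exact fun h => hr h.symm

/-- The groups: `gr x` is the circle that owns the crossing `x` (the farther circle of a negative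
crossing, the root of the component of a positive crossing). -/
theorem exists_groups (hd : P.Dist b d) (hs : P.Side sd) : ∃ gr : V → A,
    (∀ x, P.s x = false → gr x = P.inn (!P.Z d x) x) ∧
    (∀ x, P.Root sd b true (gr x)) ∧
    (∀ x, P.s x = true → P.PS sd (gr x) x) ∧
    (∀ x y t, P.s x = true → P.s y = true → P.SC (P.inn t x) (P.inn t y) →
      P.SC (gr x) (gr y)) ∧
    (∀ c t x, P.Root sd b true c → P.SC c (P.inn t x) → P.s x = true → P.SC c (gr x)) ∧
    (∀ c x, P.Root sd b true c → P.PS sd c x →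
      (P.s x = true ∧ P.SC c (gr x)) ∨ d c < d (gr x)) := by
  obtain ⟨K, hE, hσ, hx, hK⟩ := exists_comp P (P.sg true)
  have hmem : ∀ x, P.s x = true → x ∈ P.sg true := fun x h => by simp [sg, h]
  have hSK : ∀ a a', P.SC a a' → K a a' := by
    intro a a' h
    exact SC.ind (p := fun z => K a z) (fun z hz => hE.trans hz (hσ z)) h (hE.refl a)
  have harm : ∀ x, P.s x = true → ∀ t, K (P.inn false x) (P.inn t x) := by
    intro x h t
    cases t
    · exact hE.refl _
    · exact hx x (hmem x h)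
  have hmin : ∀ a0 : A, ∃ c, K a0 c ∧ ∀ a, K a0 a → d c ≤ d a := by
    intro a0
    obtain ⟨c, hc, hc'⟩ := (univ.filter fun a => K a0 a).exists_min_image d
      ⟨a0, by simp [hE.refl]⟩
    refine ⟨c, by simpa using hc, fun a ha => hc' a (by simpa using ha)⟩
  choose mn hmn1 hmn2 using hmin
  have hroot : ∀ a0, P.Root sd b true (mn a0) := by
    intro a0
    by_contra hn
    have hn1 : ¬ P.SC (mn a0) b := fun h => hn (Or.inl h)
    have hn2 : sd (mn a0) b = true := by
      by_contra h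
      exact hn (Or.inr h)
    have hpos : 0 < d (mn a0) := Nat.pos_of_ne_zero fun h => hn1 ((hd.d_zero _).1 h)
    obtain ⟨t, y, hy1, hy2⟩ := hd.d_par _ hpos
    have hdy : d (mn a0) = d (P.inn t y) := SC.inv hd.d_σ hy1
    have hz : P.Z d y ≠ t := by
      cases t
      · simp only [Bool.not_false] at hy2
        simp only [Z, ne_eq, decide_eq_false_iff_not, not_not]
        omega
      · simp only [Bool.not_true] at hy2
        simp only [Z, ne_eq, decide_eq_true_eq, not_lt]
        omega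
    have hsy : P.s y = true := by
      rw [(sign_near hd hs hy1 hz).2]
      exact hn2
    have hk : K a0 (P.inn (!t) y) :=
      hE.trans (hmn1 a0) (hE.trans (hSK _ _ hy1)
        (hE.trans (hE.symm (harm y hsy t)) (harm y hsy (!t))))
    have := hmn2 a0 _ hk
    omega
  have hone : ∀ c c', P.Root sd b true c → P.Root sd b true c' → K c c' → P.SC c c' := by
    intro c c' hc hc' hk
    by_contra hn
    have hn' : ¬ P.SC c' c := fun h => hn h.symm
    have h1 := (grp_inv hs hK c (Or.inl (SC.refl c)) hk).resolve_left hn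
    have h2 := (grp_inv hs hK c' (Or.inl (SC.refl c')) (hE.symm hk)).resolve_left hn'
    have h3 := grp_far hd hs hc hn h1
    have h4 := grp_far hd hs hc' hn' h2
    omega
  refine ⟨fun x => if P.s x = true then mn (P.inn false x) else P.inn (!P.Z d x) x,
    ?_, ?_, ?_, ?_, ?_, ?_⟩
  · intro x h
    simp [h]
  · intro x
    by_cases h : P.s x = true
    · simp only [h, if_true]
      exact hroot _
    · simp only [if_neg h]
      have hz : P.Z d x ≠ !P.Z d x := by cases P.Z d x <;> simp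
      have := (sign_near hd hs (SC.refl (P.inn (!P.Z d x) x)) hz).2
      right
      rw [← this]
      exact h
  · intro x h t ht
    simp only [h, if_true] at ht ⊢
    exact (grp_inv hs hK _ (Or.inl (SC.refl _))
      (hE.trans (hE.symm (hmn1 _)) (harm x h t))).resolve_left ht
  · intro x y t h h' hsc
    simp only [h, h', if_true]
    refine hone _ _ (hroot _) (hroot _) ?_
    exact hE.trans (hE.symm (hmn1 _)) (hE.trans (harm x h t) (hE.trans (hSK _ _ hsc)
      (hE.trans (hE.symm (harm y h' t)) (hmn1 _))))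
  · intro c t x hc hsc h
    simp only [h, if_true]
    refine hone _ _ hc (hroot _) ?_
    exact hE.trans (hSK _ _ hsc) (hE.trans (hE.symm (harm x h t)) (hmn1 _))
  · intro c x hc hps
    by_cases h : P.s x = true
    · simp only [h, if_true, true_and]
      by_cases hsc : P.SC c (mn (P.inn false x))
      · exact Or.inl hsc
      · right
        have h0 : P.SC c (P.inn false x) ∨ sd c (P.inn false x) = true := by
          by_cases h1 : P.SC c (P.inn false x)
          · exact Or.inl h1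
          · exact Or.inr (hps false h1)
        exact grp_far hd hs hc hsc ((grp_inv hs hK c h0 (hmn1 _)).resolve_left hsc)
    · right
      simp only [if_neg h]
      by_cases hsc : P.SC c (P.inn (!P.Z d x) x)
      · exfalso
        have h1 := hps _ (not_sc_inn hsc)
        rw [hs.sd_s c _ x hsc] at h1
        exact h h1
      · exact grp_far hd hs hc hsc (hps _ hsc)

/-- `beta` is additive over sets of crossings with different farther circles -/
theorem beta_union (P : Pl A V) (d : A → ℕ) {Q G : Finset V} (t : Bool)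
    (h : ∀ x ∈ Q, ∀ y ∈ G, P.Z d x ≠ t → P.Z d y ≠ t → ¬ P.SC (P.inn t x) (P.inn t y)) :
    P.beta d (Q ∪ G) t = P.beta d Q t + P.beta d G t := by
  unfold beta
  rw [filter_union, image_union, card_union_of_disjoint]
  rw [Finset.disjoint_left]
  intro S h1 h2
  obtain ⟨x, hx, rfl⟩ := mem_image.1 h1
  obtain ⟨y, hy, hxy⟩ := mem_image.1 h2
  obtain ⟨hx1, hx2⟩ := mem_filter.1 hx
  obtain ⟨hy1, hy2⟩ := mem_filter.1 hy
  apply h x hx1 y hy1 hx2 hy2
  have : P.inn t y ∈ P.cl (P.inn t y) := SC.refl _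
  rw [hxy] at this
  exact this

theorem beta_le_card (P : Pl A V) (d : A → ℕ) (Q : Finset V) :
    P.beta d Q true + P.beta d Q false ≤ Q.card := by
  unfold beta
  have h1 := card_image_le (s := Q.filter fun x => P.Z d x ≠ true)
    (f := fun x => P.cl (P.inn true x))
  have h2 := card_image_le (s := Q.filter fun x => P.Z d x ≠ false)
    (f := fun x => P.cl (P.inn false x))
  have h3 := card_filter_add_card_filter_not (s := Q) (fun x => P.Z d x ≠ true)
  have h4 : (Q.filter fun x => ¬ P.Z d x ≠ true) = Q.filter fun x => P.Z d x ≠ false := by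
    apply filter_congr
    intro x _
    cases P.Z d x <;> simp
  rw [h4] at h3
  omega

end Pl

end Pool.Agent.P.MP_9ed2cf_gt.Nz
end

-- part Pool.Agent.P.MP_9ed2cf_gt.NzTD
section

set_option autoImplicit false

namespace Pool.Agent.P.MP_9ed2cf_gt.Nz

open Equiv Finset
open scoped Classical

namespace Pl

variable {A V : Type} {P : Pl A V}

theorem NzTD_cn_union {Q G : Finset V} (h : Disjoint Q G) (X Y : V → Bool) :
    cn (Q ∪ G) X Y = cn Q X Y + cn G X Y := by
  unfold cn
  rw [filter_union, card_union_of_disjoint (disjoint_filter_filter h)]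

theorem NzTD_cn_congr {Q : Finset V} {X Y X' Y' : V → Bool}
    (h : ∀ x ∈ Q, X x = X' x ∧ Y x = Y' x) : cn Q X Y = cn Q X' Y' ∧ cn Q Y X = cn Q Y' X' := by
  unfold cn
  constructor
  · congr 1
    exact filter_congr fun x hx => by rw [(h x hx).1, (h x hx).2]
  · congr 1
    exact filter_congr fun x hx => by rw [(h x hx).1, (h x hx).2]

variable [Fintype A] [Fintype V] {b : A} {d : A → ℕ} {sd : A → A → Bool}

theorem NzTD_d_eq (hd : P.Dist b d) {a a' : A} (h : P.SC a a') : d a = d a' :=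
  SC.inv hd.d_σ h

theorem NzTD_near (hd : P.Dist b d) {t : Bool} {x : V} (h : P.Z d x = t) :
    d (P.inn (!t) x) = d (P.inn t x) + 1 := by
  have h1 := hd.d_adj x
  unfold Z at h
  cases t
  · have : ¬ d (P.inn true x) < d (P.inn false x) := by simpa using h
    simp only [Bool.not_false]
    omega
  · have : d (P.inn true x) < d (P.inn false x) := by simpa using h
    simp only [Bool.not_true]
    omega

/-- one negative group is changed -/
theorem NzTD_neg {X1 Y1 : V → Bool} (hX : P.Tree X1 b) (hY : P.rev.Tree Y1 b) {c : A} {t : Bool}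
    {G : Finset V} (hG : ∀ x, x ∈ G ↔ P.SC c (P.inn t x) ∧ P.Z d x ≠ t)
    (hZ : ∀ x, P.SC c (P.inn t x) → X1 x = P.Z d x ∧ Y1 x = P.Z d x) {m : ℕ}
    (hm : m + 1 ≤ G.card) :
    ∃ X Y : V → Bool, P.Tree X b ∧ P.rev.Tree Y b ∧
      (∀ x, x ∉ G → X x = X1 x ∧ Y x = Y1 x) ∧ cn G X Y = 0 ∧ cn G Y X = m := by
  cases t
  · have h1 : ∀ x, x ∈ G ↔ P.SC c (P.inn false x) ∧ X1 x ≠ false := by
      intro x
      rw [hG]
      exact and_congr_right fun h => by rw [(hZ x h).1]
    have h2 : ∀ x ∈ G, Y1 x = true := by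
      intro x hx
      obtain ⟨h3, h4⟩ := (hG x).1 hx
      rw [(hZ x h3).2]
      simpa using h4
    obtain ⟨X, hX', hoff, hc⟩ := negstep hX h1 hm
    refine ⟨X, Y1, hX', hY, fun x hx => ⟨hoff x hx, rfl⟩, ?_, ?_⟩
    · unfold cn
      rw [card_eq_zero, filter_eq_empty_iff]
      intro x hx h
      rw [h2 x hx] at h
      exact absurd h.2 (by decide)
    · unfold cn
      rw [← hc]
      congr 1
      exact filter_congr fun x hx => by simp [h2 x hx]
  · have h1 : ∀ x, x ∈ G ↔ P.rev.SC c (P.rev.inn true x) ∧ Y1 x ≠ true := by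
      intro x
      rw [hG, rev_sc, rev_inn, out, sc_σ_right]
      exact and_congr_right fun h => by rw [(hZ x h).2]
    have h2 : ∀ x ∈ G, X1 x = false := by
      intro x hx
      obtain ⟨h3, h4⟩ := (hG x).1 hx
      rw [(hZ x h3).1]
      simpa using h4
    obtain ⟨Y, hY', hoff, hc⟩ := negstep hY h1 hm
    refine ⟨X1, Y, hX, hY', fun x hx => ⟨rfl, hoff x hx⟩, ?_, ?_⟩
    · unfold cn
      rw [card_eq_zero, filter_eq_empty_iff]
      intro x hx h
      rw [h2 x hx] at h
      exact absurd h.1 (by decide)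
    · unfold cn
      rw [← hc]
      congr 1
      exact filter_congr fun x hx => by simp [h2 x hx]

theorem NzTD_beta_one {c : A} {t : Bool} {G : Finset V}
    (hG : ∀ x ∈ G, P.SC c (P.inn t x) ∧ P.Z d x ≠ t) (hne : G.Nonempty) :
    P.beta d G true + P.beta d G false = 1 := by
  have h1 : P.beta d G t = 1 := by
    unfold beta
    rw [card_eq_one]
    refine ⟨P.cl c, ?_⟩
    have e : ∀ x ∈ G, P.cl (P.inn t x) = P.cl c := by
      intro x hx
      ext a
      exact ⟨fun h => (hG x hx).1.trans h, fun h => (hG x hx).1.symm.trans h⟩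
    ext S
    simp only [mem_image, mem_filter, mem_singleton]
    constructor
    · rintro ⟨x, ⟨hx, -⟩, rfl⟩
      exact e x hx
    · rintro rfl
      obtain ⟨x, hx⟩ := hne
      exact ⟨x, ⟨hx, (hG x hx).2⟩, e x hx⟩
  have h2 : P.beta d G (!t) = 0 := by
    unfold beta
    rw [card_eq_zero, image_eq_empty, filter_eq_empty_iff]
    intro x hx h
    have := (hG x hx).2
    revert h this
    cases t <;> cases P.Z d x <;> simp
  cases t
  · simp only [Bool.not_false] at h2
    omega
  · simp only [Bool.not_true] at h2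
    omega

theorem NzTD_ind (hP : P.Planar) (hd : P.Dist b d) (hs : P.Side sd) {D : Finset V}
    (hN : P.NDC (P.sg true) D ∅) {gr : V → A}
    (g1 : ∀ x, P.s x = false → gr x = P.inn (!P.Z d x) x)
    (g2 : ∀ x, P.Root sd b true (gr x))
    (g3 : ∀ x, P.s x = true → P.PS sd (gr x) x)
    (g4 : ∀ x y t, P.s x = true → P.s y = true → P.SC (P.inn t x) (P.inn t y) →
      P.SC (gr x) (gr y))
    (g5 : ∀ c t x, P.Root sd b true c → P.SC c (P.inn t x) → P.s x = true → P.SC c (gr x))
    (g6 : ∀ c x, P.Root sd b true c → P.PS sd c x →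
      (P.s x = true ∧ P.SC c (gr x)) ∨ d c < d (gr x))
    {lev : V → ℕ} (hl1 : ∀ x, P.s x = true → lev x = 2 * d (gr x) + 1)
    (hl0 : ∀ x, P.s x = false → lev x = 2 * d (gr x)) (n : ℕ) :
    ∀ Q : Finset V, Q.card = n →
      (∀ x ∈ Q, ∀ y, (lev y < lev x ∨ (P.s y = P.s x ∧ P.SC (gr y) (gr x))) → y ∈ Q) →
      ∀ Qp Qn : Finset V, (∀ x, x ∈ Qp ↔ x ∈ Q ∧ P.s x = true) →
      (∀ x, x ∈ Qn ↔ x ∈ Q ∧ P.s x = false) → ∀ i j m : ℕ,
      ((j = 0 ∧ i + P.beta d Qp true + P.beta d Qp false ≤ Qp.card) ∨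
        (i + P.beta d Qp true + P.beta d Qp false = Qp.card + j ∧ i ≤ (D ∩ Qp).card)) →
      m + P.beta d Qn true + P.beta d Qn false ≤ Qn.card →
      ∃ X Y : V → Bool, P.Tree X b ∧ P.rev.Tree Y b ∧
        (∀ x, x ∉ Q → X x = P.Z d x ∧ Y x = P.Z d x) ∧ cn Qp X Y = i ∧
        cn Qp Y X = j ∧ cn Qn X Y = 0 ∧ cn Qn Y X = m := by
  induction n using Nat.strong_induction_on with
  | _ n ih =>
  intro Q hn hc Qp Qn hp hq i j m hij hm
  rcases Q.eq_empty_or_nonempty with rfl | hne
  · have e1 : Qp = ∅ := by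
      ext x
      simp [hp]
    have e2 : Qn = ∅ := by
      ext x
      simp [hq]
    subst e1 e2
    have h0 : ∀ X Y : V → Bool, cn (∅ : Finset V) X Y = 0 := fun X Y => by simp [cn]
    simp only [card_empty, inter_empty] at hij hm
    refine ⟨P.Z d, P.Z d, z_tree hd, ?_, fun x _ => ⟨rfl, rfl⟩, ?_, ?_, h0 _ _, ?_⟩
    · have := z_tree hd.rev
      rwa [rev_Z hd.d_σ] at this
    · rw [h0]
      omega
    · rw [h0]
      omega
    · rw [h0]
      omega
  obtain ⟨x0, hx0, hmax⟩ := exists_max_image Q lev hne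
  obtain ⟨G, hG⟩ : ∃ G : Finset V, ∀ y, y ∈ G ↔ P.s y = P.s x0 ∧ P.SC (gr y) (gr x0) :=
    ⟨univ.filter fun y => P.s y = P.s x0 ∧ P.SC (gr y) (gr x0), fun y => by simp⟩
  have hGQ : ∀ y ∈ G, y ∈ Q := fun y hy => hc x0 hx0 y (Or.inr ((hG y).1 hy))
  have hx0G : x0 ∈ G := (hG x0).2 ⟨rfl, SC.refl _⟩
  have hlG : ∀ y ∈ G, lev y = lev x0 := by
    intro y hy
    obtain ⟨h1, h2⟩ := (hG y).1 hy
    have h3 := NzTD_d_eq hd h2
    cases h4 : P.s x0
    · rw [hl0 x0 h4, hl0 y (h1.trans h4), h3]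
    · rw [hl1 x0 h4, hl1 y (h1.trans h4), h3]
  have hlt : (Q \ G).card < n := by
    rw [← hn]
    exact card_lt_card (sdiff_ssubset (fun y hy => hGQ y hy) ⟨x0, hx0G⟩)
  have hc' : ∀ x ∈ Q \ G, ∀ y, (lev y < lev x ∨ (P.s y = P.s x ∧ P.SC (gr y) (gr x))) →
      y ∈ Q \ G := by
    intro x hx y hy
    rw [mem_sdiff] at hx ⊢
    refine ⟨hc x hx.1 y hy, fun hyG => ?_⟩
    rcases hy with hy | ⟨h1, h2⟩
    · have := hmax x hx.1
      have := hlG y hyG
      omega
    · obtain ⟨h3, h4⟩ := (hG y).1 hyG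
      exact hx.2 ((hG x).2 ⟨h1.symm.trans h3, h2.symm.trans h4⟩)
  have IH := ih _ hlt (Q \ G) rfl hc'
  have hlo : ∀ x, 2 * d (gr x) ≤ lev x := by
    intro x
    cases h : P.s x
    · rw [hl0 x h]
    · rw [hl1 x h]
      omega
  cases hs0 : P.s x0
  · -- a negative group
    rw [hs0] at hG
    obtain ⟨t, ht⟩ : ∃ t, t = !P.Z d x0 := ⟨_, rfl⟩
    have hc0 : gr x0 = P.inn t x0 := by rw [ht, g1 x0 hs0]
    have hG' : ∀ x, x ∈ G ↔ P.SC (gr x0) (P.inn t x) ∧ P.Z d x ≠ t := by
      intro x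
      rw [hG]
      constructor
      · rintro ⟨h1, h2⟩
        rw [g1 x h1] at h2
        have h3 := h2.ty_eq
        rw [hc0, P.ty_inn, P.ty_inn] at h3
        rw [h3] at h2
        refine ⟨h2.symm, ?_⟩
        rw [← h3]
        cases P.Z d x <;> simp
      · rintro ⟨h1, h2⟩
        obtain ⟨h3, h4⟩ := sign_near hd hs h1 h2
        have h5 : P.s x = false := by
          rcases g2 x0 with h | h
          · exact absurd h h3
          · rw [h4]
            simpa using h
        have h6 : (!P.Z d x) = t := by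
          revert h2
          cases t <;> cases P.Z d x <;> simp
        refine ⟨h5, ?_⟩
        rw [g1 x h5, h6]
        exact h1.symm
    have hoff : ∀ x, P.SC (gr x0) (P.inn t x) → x ∉ Q \ G := by
      intro x h1 hx
      rw [mem_sdiff] at hx
      have h2 : P.Z d x = t := by
        by_contra h
        exact hx.2 ((hG' x).2 ⟨h1, h⟩)
      have h3 := hmax x hx.1
      rw [hl0 x0 hs0] at h3
      cases h4 : P.s x
      · rw [hl0 x h4, g1 x h4, h2, NzTD_near hd h2, ← NzTD_d_eq hd h1] at h3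
        omega
      · rw [hl1 x h4, ← NzTD_d_eq hd (g5 _ _ _ (g2 x0) h1 h4)] at h3
        omega
    have hp' : ∀ x, x ∈ Qp ↔ x ∈ Q \ G ∧ P.s x = true := by
      intro x
      rw [hp, mem_sdiff, hG]
      cases P.s x <;> simp
    have hq' : ∀ x, x ∈ Qn \ G ↔ x ∈ Q \ G ∧ P.s x = false := by
      intro x
      rw [mem_sdiff, mem_sdiff, hq]
      tauto
    have hu : Qn \ G ∪ G = Qn :=
      sdiff_union_of_subset fun y hy => (hq y).2 ⟨hGQ y hy, ((hG y).1 hy).1⟩
    have hb : ∀ t', P.beta d Qn t' = P.beta d (Qn \ G) t' + P.beta d G t' := by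
      intro t'
      rw [← beta_union P d t', hu]
      intro x hx y hy _ h2 h3
      obtain ⟨h4, h5⟩ := (hG' y).1 hy
      have h6 : t' = t := by
        revert h2 h5
        cases t <;> cases t' <;> cases P.Z d y <;> simp
      rw [h6] at h3
      exact hoff x (h4.trans h3.symm) ((hq' x).1 hx).1
    have hcard : Qn.card = (Qn \ G).card + G.card := by
      rw [← card_union_of_disjoint sdiff_disjoint, hu]
    have h1 := NzTD_beta_one (fun x hx => (hG' x).1 hx) ⟨x0, hx0G⟩
    have h2 := beta_le_card P d (Qn \ G)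
    have h3 : 0 < G.card := card_pos.2 ⟨x0, hx0G⟩
    rw [hb, hb, hcard] at hm
    obtain ⟨X1, Y1, hX, hY, hZ, c1, c2, c3, c4⟩ := IH Qp (Qn \ G) hp' hq' i j
      (m - min m (G.card - 1)) hij (by omega)
    obtain ⟨X, Y, hX', hY', hXY, c5, c6⟩ := NzTD_neg (m := min m (G.card - 1)) hX hY hG'
      (fun x hx => hZ x (hoff x hx)) (by omega)
    have k1 := NzTD_cn_congr (Q := Qp) fun x hx => hXY x (mem_sdiff.1 ((hp' x).1 hx).1).2
    have k2 := NzTD_cn_congr (Q := Qn \ G) fun x hx => hXY x (mem_sdiff.1 hx).2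
    refine ⟨X, Y, hX', hY', fun x hx => ?_, k1.1.trans c1, k1.2.trans c2, ?_, ?_⟩
    · have h4 := hXY x fun h => hx (hGQ x h)
      have h5 := hZ x fun h => hx (mem_sdiff.1 h).1
      exact ⟨h4.1.trans h5.1, h4.2.trans h5.2⟩
    · rw [← hu, NzTD_cn_union sdiff_disjoint, k2.1, c3, c5]
    · rw [← hu, NzTD_cn_union sdiff_disjoint, k2.2, c4, c6]
      omega
  · -- a positive group
    rw [hs0] at hG
    have hA : P.Act G := by
      refine ⟨fun x hx => ((hG x).1 hx).1, fun x hx y t hy h => ?_⟩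
      obtain ⟨h1, h2⟩ := (hG x).1 hx
      exact (hG y).2 ⟨hy, (g4 x y t h1 hy h).symm.trans h2⟩
    have hGc : ∀ x ∈ G, P.PS sd (gr x0) x := by
      intro x hx t h
      obtain ⟨h1, h2⟩ := (hG x).1 hx
      rw [← hs.sd_c _ _ h2]
      exact g3 x h1 t fun h3 => h (h2.symm.trans h3)
    have hGr : ∀ t x, P.SC (gr x0) (P.inn t x) → P.s x = true → x ∈ G :=
      fun t x h1 h2 => (hG x).2 ⟨h2, (g5 _ _ _ (g2 x0) h1 h2).symm⟩
    have hoff : ∀ x, P.PS sd (gr x0) x → x ∉ Q \ G := by
      intro x h1 hx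
      rw [mem_sdiff] at hx
      rcases g6 _ x (g2 x0) h1 with ⟨h2, h3⟩ | h2
      · exact hx.2 ((hG x).2 ⟨h2, h3.symm⟩)
      · have h3 := hmax x hx.1
        have h4 := hlo x
        rw [hl1 x0 hs0] at h3
        omega
    have hq' : ∀ x, x ∈ Qn ↔ x ∈ Q \ G ∧ P.s x = false := by
      intro x
      rw [hq, mem_sdiff, hG]
      cases P.s x <;> simp
    have hp' : ∀ x, x ∈ Qp \ G ↔ x ∈ Q \ G ∧ P.s x = true := by
      intro x
      rw [mem_sdiff, mem_sdiff, hp]
      tauto
    have hsub : G ⊆ Qp := fun y hy => (hp y).2 ⟨hGQ y hy, ((hG y).1 hy).1⟩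
    have hu : Qp \ G ∪ G = Qp := sdiff_union_of_subset hsub
    have hb : ∀ t', P.beta d Qp t' = P.beta d (Qp \ G) t' + P.beta d G t' := by
      intro t'
      rw [← beta_union P d t', hu]
      intro x hx y hy _ _ h3
      exact (mem_sdiff.1 hx).2 (hA.2 y hy x t' ((hp' x).1 hx).2 h3.symm)
    have hcard : Qp.card = (Qp \ G).card + G.card := by
      rw [← card_union_of_disjoint sdiff_disjoint, hu]
    have hcD : (D ∩ Qp).card = (D ∩ (Qp \ G)).card + (D ∩ G).card := by
      rw [← card_union_of_disjoint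
        (Disjoint.mono inter_subset_right inter_subset_right sdiff_disjoint),
        ← inter_union_distrib_left, hu]
    have hNG : P.NDC G (D ∩ G) ∅ := NDC.restrict (act_sg P) hA
      (fun y hy => by simpa [sg] using ((hG y).1 hy).1) hN
    have h1 := beta_le_card P d G
    have h2 := beta_le_card P d (Qp \ G)
    rw [hb, hb, hcard, hcD] at hij
    obtain ⟨i1, j1, i2, j2, e1, e2, h3, h4⟩ : ∃ i1 j1 i2 j2 : ℕ, i1 + i2 = i ∧ j1 + j2 = j ∧
        ((j1 = 0 ∧ i1 + P.beta d (Qp \ G) true + P.beta d (Qp \ G) false ≤ (Qp \ G).card) ∨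
          (i1 + P.beta d (Qp \ G) true + P.beta d (Qp \ G) false = (Qp \ G).card + j1 ∧
            i1 ≤ (D ∩ (Qp \ G)).card)) ∧
        ((j2 = 0 ∧ i2 + P.beta d G true + P.beta d G false ≤ G.card) ∨
          (i2 + P.beta d G true + P.beta d G false = G.card + j2 ∧ i2 ≤ (D ∩ G).card)) := by
      generalize P.beta d (Qp \ G) true = a1 at *
      generalize P.beta d (Qp \ G) false = a2 at *
      generalize P.beta d G true = a3 at *
      generalize P.beta d G false = a4 at *
      generalize (D ∩ (Qp \ G)).card = f1 at *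
      generalize (D ∩ G).card = f2 at *
      generalize (Qp \ G).card = n1 at *
      generalize G.card = n2 at *
      rcases hij with ⟨h5, h6⟩ | ⟨h5, h6⟩
      · exact ⟨i - min i (n2 - (a3 + a4)), 0, min i (n2 - (a3 + a4)), 0, by omega, by omega,
          by omega, by omega⟩
      · exact ⟨i - min (i - (n1 - (a1 + a2))) (max (n2 - (a3 + a4)) f2),
          i - min (i - (n1 - (a1 + a2))) (max (n2 - (a3 + a4)) f2) + (a1 + a2) - n1,
          min (i - (n1 - (a1 + a2))) (max (n2 - (a3 + a4)) f2),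
          min (i - (n1 - (a1 + a2))) (max (n2 - (a3 + a4)) f2) + (a3 + a4) - n2,
          by omega, by omega, by omega, by omega⟩
    obtain ⟨X1, Y1, hX, hY, hZ, c1, c2, c3, c4⟩ := IH (Qp \ G) Qn hp' hq' i1 j1 m h3 hm
    obtain ⟨X, Y, hX', hY', hXY, c5, c6⟩ := posstep hP hd hs (g2 x0) hA hGc hGr hX hY
      (fun x hx => hZ x (hoff x hx)) inter_subset_right hNG h4
    have k1 := NzTD_cn_congr (Q := Qn) fun x hx => hXY x (mem_sdiff.1 ((hq' x).1 hx).1).2
    have k2 := NzTD_cn_congr (Q := Qp \ G) fun x hx => hXY x (mem_sdiff.1 hx).2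
    refine ⟨X, Y, hX', hY', fun x hx => ?_, ?_, ?_, k1.1.trans c3, k1.2.trans c4⟩
    · have h4 := hXY x fun h => hx (hGQ x h)
      have h5 := hZ x fun h => hx (mem_sdiff.1 h).1
      exact ⟨h4.1.trans h5.1, h4.2.trans h5.2⟩
    · rw [← hu, NzTD_cn_union sdiff_disjoint, k2.1, c1, c5, e1]
    · rw [← hu, NzTD_cn_union sdiff_disjoint, k2.2, c2, c6, e2]

theorem td (hP : P.Planar) (hd : P.Dist b d) (hs : P.Side sd) {D : Finset V}
    (hD : D ⊆ P.sg true) (hN : P.NDC (P.sg true) D ∅) {i j m : ℕ}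
    (hij : (j = 0 ∧ i + P.beta d (P.sg true) true + P.beta d (P.sg true) false ≤
        (P.sg true).card) ∨
      (i + P.beta d (P.sg true) true + P.beta d (P.sg true) false = (P.sg true).card + j ∧
        i ≤ D.card))
    (hm : m + P.beta d (P.sg false) true + P.beta d (P.sg false) false ≤ (P.sg false).card) :
    ∃ X Y : V → Bool, P.Tree X b ∧ P.rev.Tree Y b ∧ cn (P.sg true) X Y = i ∧
      cn (P.sg true) Y X = j ∧ cn (P.sg false) X Y = 0 ∧ cn (P.sg false) Y X = m := by
  obtain ⟨gr, g1, g2, g3, g4, g5, g6⟩ := exists_groups hd hs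
  rw [← inter_eq_left.2 hD] at hij
  obtain ⟨X, Y, hX, hY, -, h⟩ := NzTD_ind hP hd hs hN g1 g2 g3 g4 g5 g6
    (lev := fun x => 2 * d (gr x) + if P.s x = true then 1 else 0)
    (fun x h => by simp [h]) (fun x h => by simp [h]) _ univ rfl (fun _ _ y _ => mem_univ y)
    (P.sg true) (P.sg false) (fun x => by simp [sg]) (fun x => by simp [sg]) i j m hij hm
  exact ⟨X, Y, hX, hY, h⟩

end Pl

end Pool.Agent.P.MP_9ed2cf_gt.Nz
end

-- part Pool.Agent.P.MP_9ed2cf_gt.NzAbs
section

set_option autoImplicit false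

namespace Pool.Agent.P.MP_9ed2cf_gt.Nz

open Equiv Finset
open scoped Classical

namespace Pl

variable {A V : Type} {P : Pl A V}

variable [Fintype A] [Fintype V]

/-- the four counts of a pair of trees -/
def absFour (P : Pl A V) (b : A) (p q p' q' : ℕ) : Prop :=
  ∃ X Y : V → Bool, P.Tree X b ∧ P.rev.Tree Y b ∧ cn (P.sg true) X Y = p ∧
    cn (P.sg true) Y X = q ∧ cn (P.sg false) X Y = p' ∧ cn (P.sg false) Y X = q'

/-- the width of the crossings of sign `e` -/
def absW (P : Pl A V) (d : A → ℕ) (e : Bool) (w : ℕ) : Prop :=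
  w + P.beta d (P.sg e) true + P.beta d (P.sg e) false = (P.sg e).card

/-- the two other parameters of the positive crossings -/
def absPar (P : Pl A V) (a n : ℕ) : Prop :=
  (∃ D, D ⊆ P.sg true ∧ P.NDC (P.sg true) D ∅ ∧ D.card = a) ∧
    (∀ D, D ⊆ P.sg true → P.NDC (P.sg true) D ∅ → D.card ≤ a) ∧
    ∃ φ, P.IsPhi (P.sg true) φ ∧ (P.nl (P.sg true) φ).card = n

omit [Fintype A] in
theorem abs_neg_sg (P : Pl A V) (e : Bool) : P.neg.sg e = P.sg (!e) := by
  refine filter_congr fun x _ => ?_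
  show (!P.s x) = e ↔ P.s x = !e
  cases e <;> cases P.s x <;> simp

omit [Fintype A] in
theorem abs_rev_sg (P : Pl A V) (e : Bool) : P.rev.sg e = P.sg e := rfl

omit [Fintype A] in
theorem abs_four_rev {b : A} {p q p' q' : ℕ} (h : P.rev.absFour b p q p' q') :
    P.absFour b q p q' p' := by
  obtain ⟨X, Y, hX, hY, h1, h2, h3, h4⟩ := h
  rw [rev_rev] at hY
  exact ⟨Y, X, hY, hX, h2, h1, h4, h3⟩

omit [Fintype A] in
theorem abs_four_neg {b : A} {p q p' q' : ℕ} (h : P.neg.absFour b p q p' q') :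
    P.absFour b p' q' p q := by
  obtain ⟨X, Y, hX, hY, h1, h2, h3, h4⟩ := h
  rw [abs_neg_sg] at h1 h2 h3 h4
  exact ⟨X, Y, hX, hY, h3, h4, h1, h2⟩

omit [Fintype A] in
theorem abs_ins {b : A} {p q p' q' : ℕ} (h : P.absFour b p q p' q') {i j : ℤ}
    (hi : i = p - p') (hj : j = q - q') : P.InS b i j := by
  obtain ⟨X, Y, hX, hY, h1, h2, h3, h4⟩ := h
  exact ⟨X, Y, hX, hY, by rw [sc, h1, h3, hi], by rw [sc, h2, h4, hj]⟩

omit [Fintype A] in
theorem abs_ins_rev {b : A} {i j : ℤ} (h : P.rev.InS b i j) : P.InS b j i := by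
  obtain ⟨X, Y, hX, hY, h1, h2⟩ := h
  rw [rev_rev] at hY
  exact ⟨Y, X, hY, hX, h2, h1⟩

omit [Fintype A] in
theorem abs_w_rev {d : A → ℕ} (hd : ∀ a, d (P.σ a) = d a) {e : Bool} {w : ℕ}
    (h : P.absW d e w) : P.rev.absW d e w := by
  unfold absW at h ⊢
  rw [rev_beta hd, rev_beta hd, abs_rev_sg]
  exact h

omit [Fintype A] in
theorem abs_w_neg {d : A → ℕ} {e : Bool} {w : ℕ} (h : P.absW d (!e) w) : P.neg.absW d e w := by
  unfold absW at h ⊢
  rw [abs_neg_sg]
  exact h

omit [Fintype A] in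
theorem abs_par_rev {a n : ℕ} (h : P.absPar a n) : P.rev.absPar a n := by
  obtain ⟨⟨D, h1, h2, h3⟩, h4, φ, h5, h6⟩ := h
  refine ⟨⟨D, h1, rev_ndc.2 h2, h3⟩, fun D' k1 k2 => h4 D' k1 (rev_ndc.1 k2), φ⁻¹, h5.rev, ?_⟩
  rw [abs_rev_sg, h5.rev_nl, h6]

theorem abs_exists_w (P : Pl A V) (d : A → ℕ) (e : Bool) : ∃ w, P.absW d e w := by
  have := beta_le_card P d (P.sg e)
  exact ⟨(P.sg e).card - (P.beta d (P.sg e) true + P.beta d (P.sg e) false), by
    unfold absW; omega⟩

theorem abs_exists_par {b : A} {d : A → ℕ} {sd : A → A → Bool} (hd : P.Dist b d)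
    (hs : P.Side sd) : ∃ a n, P.absPar a n := by
  have h0 : P.NDC (P.sg true) ∅ ∅ :=
    (ndc_of_pair hd hs (act_sg P) (z_tree hd) (z_tree hd.rev)).mono (empty_subset _)
      (empty_subset _)
  obtain ⟨D, hD, hmax⟩ := exists_max_image
    ((P.sg true).powerset.filter fun D => P.NDC (P.sg true) D ∅) card
    ⟨∅, mem_filter.2 ⟨mem_powerset.2 (empty_subset _), h0⟩⟩
  obtain ⟨φ, hφ⟩ := exists_phi P (P.sg true)
  rw [mem_filter, mem_powerset] at hD
  exact ⟨D.card, _, ⟨D, hD.1, hD.2, rfl⟩,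
    fun D' k1 k2 => hmax D' (mem_filter.2 ⟨mem_powerset.2 k1, k2⟩), φ, hφ, rfl⟩

omit [Fintype A] [Fintype V] in
theorem abs_nf (Q : Finset V) (χ : V → Bool) : nf Q χ true + nf Q χ false = Q.card := by
  unfold nf
  rw [← card_filter_add_card_filter_not (s := Q) (fun x => χ x ≠ true)]
  congr 2
  refine filter_congr fun x _ => ?_
  cases χ x <;> simp

omit [Fintype A] [Fintype V] in
theorem abs_cn (Q : Finset V) (X Y : V → Bool) :
    cn Q X Y + nf Q X true = cn Q Y X + nf Q Y true := by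
  unfold cn nf
  simp only [card_filter]
  rw [← sum_add_distrib, ← sum_add_distrib]
  refine sum_congr rfl fun x _ => ?_
  cases X x <;> cases Y x <;> simp

variable {b : A} {d : A → ℕ} {sd : A → A → Bool}

theorem abs_ub (hP : P.Planar) (hd : P.Dist b d) (hs : P.Side sd) {w a n : ℕ}
    (hw : P.absW d true w) (hp : P.absPar a n) {X Y : V → Bool} (hX : P.Tree X b)
    (hY : P.rev.Tree Y b) :
    cn (P.sg true) X Y ≤ a ∧ cn (P.sg true) Y X ≤ a ∧
      cn (P.sg true) X Y + cn (P.sg true) Y X ≤ n ∧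
      cn (P.sg true) X Y ≤ cn (P.sg true) Y X + w ∧
      cn (P.sg true) Y X ≤ cn (P.sg true) X Y + w := by
  obtain ⟨-, h4, φ, h5, h6⟩ := hp
  have hN := ndc_of_pair hd hs (act_sg P) hX hY
  have k1 := h4 _ (filter_subset _ _) (hN.mono Subset.rfl (empty_subset _))
  have k2 := h4 _ (filter_subset _ _) (hN.swap.mono Subset.rfl (empty_subset _))
  have k3 := (pair_le_nl hP hd hs (act_sg P) h5 hX hY).2
  have b1 := beta_le hd hs (act_sg P) hX true
  have b2 := beta_le hd hs (act_sg P) hX false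
  have b3 := beta_le hd.rev hs.rev (act_sg P).rev hY true
  have b4 := beta_le hd.rev hs.rev (act_sg P).rev hY false
  rw [rev_beta hd.d_σ] at b3 b4
  have c1 := abs_nf (P.sg true) X
  have c2 := abs_nf (P.sg true) Y
  have c3 := abs_cn (P.sg true) X Y
  unfold absW at hw
  exact ⟨k1, k2, by omega, by omega, by omega⟩

theorem abs_r1 (hP : P.Planar) (hd : P.Dist b d) (hs : P.Side sd) {w a n : ℕ}
    (hw : P.absW d true w) (hp : P.absPar a n) {i j : ℕ} (hji : j ≤ i) (hi : i ≤ a)
    (hv : i ≤ j + w) (hn : i + j ≤ n) : P.absFour b i j 0 0 := by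
  obtain ⟨⟨D, h1, h2, h3⟩, -, φ, h5, h6⟩ := hp
  unfold absW at hw
  obtain ⟨X, Y, hX, hY, f1, f2, c1, c2⟩ := r1 hP hd hs (act_sg P) h5 h1 h2 hji (by omega)
    (by omega) (by omega)
  have he : ∀ x ∈ P.sg false, X x = Y x := by
    intro x hx
    have hx' : x ∉ P.sg true := by
      simp only [sg, mem_filter, mem_univ, true_and] at hx ⊢
      simp [hx]
    rw [f1 x hx', f2 x hx']
  refine ⟨X, Y, hX, hY, c1, c2, ?_, ?_⟩
  · unfold cn
    rw [card_eq_zero, filter_eq_empty_iff]
    intro x hx hh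
    have := he x hx
    rw [hh.1, hh.2] at this
    exact Bool.noConfusion this
  · unfold cn
    rw [card_eq_zero, filter_eq_empty_iff]
    intro x hx hh
    have := he x hx
    rw [hh.1, hh.2] at this
    exact Bool.noConfusion this

theorem abs_td (hP : P.Planar) (hd : P.Dist b d) (hs : P.Side sd) {w w' a n : ℕ}
    (hw : P.absW d true w) (hw' : P.absW d false w') (hp : P.absPar a n) {i j m : ℕ}
    (hij : (j = 0 ∧ i ≤ w) ∨ (i = j + w ∧ i ≤ a)) (hm : m ≤ w') : P.absFour b i j 0 m := by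
  obtain ⟨⟨D, h1, h2, h3⟩, -, -⟩ := hp
  unfold absW at hw hw'
  exact td hP hd hs h1 h2 (by omega) (by omega)

theorem abs_half (hP : P.Planar) (hd : P.Dist b d) (hs : P.Side sd) {w1 w2 a1 a2 n1 n2 : ℕ}
    (hw1 : P.absW d true w1) (hw2 : P.absW d false w2) (hp1 : P.absPar a1 n1)
    (hp2 : P.neg.absPar a2 n2) {i j : ℤ} (hji : j ≤ i) (h1 : i ≤ a1) (h2 : -(a2 : ℤ) ≤ j)
    (h3 : i - j ≤ w1 + w2) (h4 : -(n2 : ℤ) ≤ i + j) (h5 : i + j ≤ n1) : P.InS b i j := by
  have hP' : P.neg.rev.Planar := hP.neg.rev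
  have hd' : P.neg.rev.Dist b d := hd.neg.rev
  have hs' := hs.neg.rev
  have hw1' : P.neg.rev.absW d false w1 := abs_w_rev hd.neg.d_σ (abs_w_neg hw1)
  have hw2' : P.neg.rev.absW d true w2 := abs_w_rev hd.neg.d_σ (abs_w_neg hw2)
  have hp2' := abs_par_rev hp2
  have cA : 0 ≤ j → i - j ≤ w1 → P.InS b i j := fun k1 k2 =>
    abs_ins (abs_r1 hP hd hs hw1 hp1 (i := i.toNat) (j := j.toNat) (by omega) (by omega)
      (by omega) (by omega)) (by omega) (by omega)
  have cB : i ≤ 0 → i - j ≤ w2 → P.InS b i j := fun k1 k2 =>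
    abs_ins (abs_four_neg (abs_four_rev (abs_r1 hP' hd' hs' hw2' hp2' (i := (-j).toNat)
      (j := (-i).toNat) (by omega) (by omega) (by omega) (by omega)))) (by omega) (by omega)
  have cC : (w1 : ℤ) ≤ i → (w1 : ℤ) ≤ i - j → P.InS b i j := fun k1 k2 =>
    abs_ins (abs_td hP hd hs hw1 hw2 hp1 (i := i.toNat) (j := (i - w1).toNat)
      (m := (i - j - w1).toNat) (Or.inr (by omega)) (by omega)) (by omega) (by omega)
  have cD : (w2 : ℤ) ≤ -j → (w2 : ℤ) ≤ i - j → P.InS b i j := fun k1 k2 =>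
    abs_ins (abs_four_neg (abs_four_rev (abs_td hP' hd' hs' hw2' hw1' hp2' (i := (-j).toNat)
      (j := (-j - w2).toNat) (m := (i - j - w2).toNat) (Or.inr (by omega)) (by omega))))
      (by omega) (by omega)
  have cE : 0 ≤ i → i ≤ w1 → j ≤ 0 → -j ≤ w2 → P.InS b i j := fun k1 k2 k3 k4 =>
    abs_ins (abs_td hP hd hs hw1 hw2 hp1 (i := i.toNat) (j := 0) (m := (-j).toNat)
      (Or.inl (by omega)) (by omega)) (by omega) (by omega)
  by_cases e1 : 0 ≤ j
  · by_cases e2 : i - j ≤ w1
    · exact cA e1 e2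
    · exact cC (by omega) (by omega)
  · by_cases e2 : i ≤ 0
    · by_cases e3 : i - j ≤ w2
      · exact cB e2 e3
      · exact cD (by omega) (by omega)
    · by_cases e3 : (w1 : ℤ) ≤ i
      · exact cC e3 (by omega)
      · by_cases e4 : (w2 : ℤ) ≤ -j
        · exact cD e4 (by omega)
        · exact cE (by omega) (by omega) (by omega) (by omega)

theorem oct (hP : P.Planar) (b : A) (hne : ∃ i j, P.InS b i j) :
    ∃ w a1 a2 n1 n2 : ℤ, ∀ i j : ℤ, P.InS b i j ↔
      (-a2 ≤ i ∧ i ≤ a1 ∧ -a2 ≤ j ∧ j ≤ a1 ∧ i - j ≤ w ∧ j - i ≤ w ∧ -n2 ≤ i + j ∧ i + j ≤ n1) :=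
  by
  obtain ⟨_, _, X0, -, hX0, -⟩ := hne
  obtain ⟨d, hd⟩ := exists_dist hX0 b
  obtain ⟨sd, hs⟩ := exists_side hP
  obtain ⟨w1, hw1⟩ := abs_exists_w P d true
  obtain ⟨w2, hw2⟩ := abs_exists_w P d false
  obtain ⟨a1, n1, hp1⟩ := abs_exists_par hd hs
  obtain ⟨a2, n2, hp2⟩ := abs_exists_par hd.neg hs.neg
  refine ⟨w1 + w2, a1, a2, n1, n2, fun i j => ⟨?_, ?_⟩⟩
  · rintro ⟨X, Y, hX, hY, rfl, rfl⟩
    have u1 := abs_ub hP hd hs hw1 hp1 hX hY
    have u2 := abs_ub hP.neg hd.neg hs.neg (abs_w_neg (e := true) hw2) hp2 (X := X) (Y := Y) hX hY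
    rw [abs_neg_sg] at u2
    simp only [Bool.not_true] at u2
    unfold sc
    omega
  · rintro ⟨h1, h2, h3, h4, h5, h6, h7, h8⟩
    rcases le_total j i with h | h
    · exact abs_half hP hd hs hw1 hw2 hp1 hp2 h h2 h3 h5 h7 h8
    · exact abs_ins_rev (abs_half hP.rev hd.rev hs.rev (abs_w_rev hd.d_σ hw1)
        (abs_w_rev hd.d_σ hw2) (abs_par_rev hp1) (abs_par_rev (P := P.neg) hp2) h h4 h1 h6
        (by omega) (by omega))

end Pl

end Pool.Agent.P.MP_9ed2cf_gt.Nz
end

-- part Pool.Agent.P.MP_9ed2cf_gt.NzGDefs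
section

set_option autoImplicit false

namespace Pool.Agent.P.MP_9ed2cf_gt.Nz

open Finset Pool.Agent.P.MP_9ed2cf_gt.H14

/-- position of a slice -/
def ps : Slice → ℕ
  | .cross i _ => i
  | .cup i _ => i
  | .cap i _ => i

/-- number of strands used below the slice -/
def kb : Slice → ℕ
  | .cross _ _ => 2
  | .cup _ _ => 0
  | .cap _ _ => 2

/-- number of strands used above the slice -/
def ka : Slice → ℕ
  | .cross _ _ => 2
  | .cup _ _ => 2
  | .cap _ _ => 0

def IsX (s : Slice) : Prop := ∃ i e, s = .cross i e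

/-- rows `0, ..., N` of widths `wid r`, slices `sl r` between row `r` and row `r + 1` -/
structure Shape (N : ℕ) (sl : ℕ → Slice) (wid : ℕ → ℕ) : Prop where
  w0 : wid 0 = 1
  wN : wid N = 1
  fit : ∀ r < N, ps (sl r) + kb (sl r) ≤ wid r
  step : ∀ r < N, wid (r + 1) + kb (sl r) = wid r + ka (sl r)

/-- the labels (points up?, next passage is over?) of an alternating diagram -/
structure Rows (N : ℕ) (sl : ℕ → Slice) (wid : ℕ → ℕ) (lab : ℕ → ℕ → Bool × Bool) : Prop
    extends Shape N sl wid where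
  lN : lab N 0 = lab 0 0
  left : ∀ r < N, ∀ p < ps (sl r), lab (r + 1) p = lab r p
  right : ∀ r < N, ∀ p, ps (sl r) ≤ p → lab (r + 1) (p + ka (sl r)) = lab r (p + kb (sl r))
  cross : ∀ r < N, ∀ i e, sl r = .cross i e → lab r i = (true, e) ∧ lab r (i + 1) = (true, !e) ∧
    lab (r + 1) i = (true, e) ∧ lab (r + 1) (i + 1) = (true, !e)
  cup : ∀ r < N, ∀ i d, sl r = .cup i d →
    ∃ β, lab (r + 1) i = (d, β) ∧ lab (r + 1) (i + 1) = (!d, β)
  cap : ∀ r < N, ∀ i d, sl r = .cap i d → ∃ β, lab r i = (d, β) ∧ lab r (i + 1) = (!d, β)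

/-- local rule for the flags `f` (row below, of width `w`) and `f'` (row above), marker `m` -/
def FLoc (s : Slice) (w : ℕ) (m : Fin 4) (f f' : ℕ → Bool) : Prop :=
  (∀ g < ps s, f' g = f g) ∧
  (∀ g, ps s < g → g + kb s ≤ w → f' (g + ka s) = f (g + kb s)) ∧
  match s with
  | .cross i _ => okM m (f i) (f (i + 1)) (f (i + 2)) = true ∧ f' i = outL m (f i) ∧
      f' (i + 1) = outT m ∧ f' (i + 2) = outR m (f (i + 2))
  | .cup i _ => f' (i + 1) = false ∧
      ∃ z : Bool, (f i && z) = false ∧ f' i = (f i || !z) ∧ f' (i + 2) = (f i || z)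
  | .cap i _ => f (i + 1) = true ∧ (f i && f (i + 2)) = false ∧ f' i = (f i || f (i + 2))

/-- `m` is a Kauffman state -/
def St (N : ℕ) (sl : ℕ → Slice) (wid : ℕ → ℕ) (k : Bool) (m : ℕ → Fin 4) : Prop :=
  ∃ f : ℕ → ℕ → Bool, f 0 0 = true ∧ f 0 1 = k ∧ f N 0 = true ∧ f N 1 = k ∧
    ∀ r < N, FLoc (sl r) (wid r) (m r) (f r) (f (r + 1))

def wt (κ : Bool → Bool → Bool → ℤ × ℤ) : Slice → Fin 4 → Fin 4 → ℤ × ℤ
  | .cross _ e, mx, my => κ e (io e mx) (iu e my)
  | _, _, _ => 0

/-- an arm `ν = (above?, right?)` of the crossing in slice `r` -/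
def arm (sl : ℕ → Slice) (r : ℕ) (ν : Bool × Bool) : ℕ × ℕ :=
  (if ν.1 then r + 1 else r, if ν.2 then ps (sl r) + 1 else ps (sl r))

/-- the marker `m` sits in a corner next to the arm `ν` -/
def adj (ν : Bool × Bool) (m : Fin 4) : Bool :=
  match ν with
  | (false, false) => adjL m
  | (false, true) => adjR m
  | (true, true) => !adjL m
  | (true, false) => !adjR m

def Adj (N : ℕ) (sl : ℕ → Slice) (μ : ℕ → Bool × Bool) (m : ℕ → Fin 4) : Prop :=
  ∀ r < N, IsX (sl r) → adj (μ r) (m r) = true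

def Val (N : ℕ) (wid : ℕ → ℕ) (a : ℕ × ℕ) : Prop := a.1 ≤ N ∧ a.2 < wid a.1

/-- a function on the strands that is constant along the strands not used by the slices -/
def Vert (N : ℕ) (sl : ℕ → Slice) (wid : ℕ → ℕ) (g : ℕ × ℕ → ℤ) : Prop :=
  ∀ r < N, (∀ p < ps (sl r), g (r + 1, p) = g (r, p)) ∧
    ∀ p, ps (sl r) ≤ p → p + kb (sl r) < wid r → g (r + 1, p + ka (sl r)) = g (r, p + kb (sl r))

/-- upward flow on the strands -/
def SFlow (N : ℕ) (sl : ℕ → Slice) (wid : ℕ → ℕ) (g : ℕ × ℕ → ℤ) : Prop :=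
  Vert N sl wid g ∧ ∀ r < N, ∑ j ∈ range (kb (sl r)), g (r, ps (sl r) + j) =
    ∑ j ∈ range (ka (sl r)), g (r + 1, ps (sl r) + j)

def MZero (N : ℕ) (sl : ℕ → Slice) (μ : ℕ → Bool × Bool) (g : ℕ × ℕ → ℤ) : Prop :=
  ∀ r < N, IsX (sl r) → g (arm sl r (μ r)) = 0

/-- potential on the strands, constant over the diagram cut at the marked arms -/
def SPot (N : ℕ) (sl : ℕ → Slice) (wid : ℕ → ℕ) (μ : ℕ → Bool × Bool) (u : ℕ × ℕ → ℤ) : Prop :=
  Vert N sl wid u ∧ ∀ r < N,
    (∀ i d, sl r = .cup i d → u (r + 1, i) = u (r + 1, i + 1)) ∧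
    (∀ i d, sl r = .cap i d → u (r, i) = u (r, i + 1)) ∧
    (IsX (sl r) → ∀ ν ν' : Bool × Bool, ν ≠ μ r → ν' ≠ μ r → u (arm sl r ν) = u (arm sl r ν'))

def T1 (N : ℕ) (sl : ℕ → Slice) (wid : ℕ → ℕ) (μ : ℕ → Bool × Bool) : Prop :=
  ∀ g, SFlow N sl wid g → MZero N sl μ g → g (0, 0) = 0 → ∀ a, Val N wid a → g a = 0

def T2 (N : ℕ) (sl : ℕ → Slice) (wid : ℕ → ℕ) (μ : ℕ → Bool × Bool) : Prop :=
  ∀ u, SPot N sl wid μ u → ∀ a, Val N wid a → u a = u (N, 0)

def T3 (N : ℕ) (sl : ℕ → Slice) (wid : ℕ → ℕ) (μ : ℕ → Bool × Bool) : Prop :=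
  ∀ u, SPot N sl wid μ u → u (0, 0) = 0 → u (N, 0) = 0 → (∃ a, Val N wid a ∧ u a ≠ 0) →
    ∃ g, SFlow N sl wid g ∧ MZero N sl μ g ∧ (∃ a, Val N wid a ∧ g a ≠ 0) ∧
      ∀ a, Val N wid a → g a ≠ 0 → u a ≠ 0

/-- the node joined to the upper end of a node (Seifert smoothing at crossings) -/
def top (N : ℕ) (sl : ℕ → Slice) (a : ℕ × ℕ) : ℕ × ℕ :=
  if a.1 = N then (0, 0)
  else if a.2 < ps (sl a.1) then (a.1 + 1, a.2)
  else if ps (sl a.1) + kb (sl a.1) ≤ a.2 then (a.1 + 1, a.2 - kb (sl a.1) + ka (sl a.1))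
  else if ka (sl a.1) = 2 then (a.1 + 1, a.2)
  else (a.1, if a.2 = ps (sl a.1) then a.2 + 1 else a.2 - 1)

/-- the node joined to the lower end of a node -/
def bot (N : ℕ) (sl : ℕ → Slice) (a : ℕ × ℕ) : ℕ × ℕ :=
  if a.1 = 0 then (N, 0)
  else if a.2 < ps (sl (a.1 - 1)) then (a.1 - 1, a.2)
  else if ps (sl (a.1 - 1)) + ka (sl (a.1 - 1)) ≤ a.2 then
    (a.1 - 1, a.2 - ka (sl (a.1 - 1)) + kb (sl (a.1 - 1)))
  else if kb (sl (a.1 - 1)) = 2 then (a.1 - 1, a.2)
  else (a.1, if a.2 = ps (sl (a.1 - 1)) then a.2 + 1 else a.2 - 1)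

/-- the node is directed upwards (`o = false`: from over to under, `o = true`: reversed) -/
def up (lab : ℕ → ℕ → Bool × Bool) (o : Bool) (a : ℕ × ℕ) : Bool :=
  xor (xor (lab a.1 a.2).1 (lab a.1 a.2).2) o

/-- the entering arm of type `t` at a crossing of sign `e` -/
def inA (o e t : Bool) : Bool × Bool := (xor t o, xor t e)

/-- the leaving arm of type `t` at a crossing of sign `e` -/
def outA (o e t : Bool) : Bool × Bool := (!xor t o, xor t e)

/-- `P` is the structure of the diagram with direction `o` -/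
structure Real (N : ℕ) (sl : ℕ → Slice) (wid : ℕ → ℕ) (lab : ℕ → ℕ → Bool × Bool) {A V : Type}
    (P : Pl A V) (o : Bool) (pos : A → ℕ × ℕ) (row : V → ℕ) : Prop where
  pos_inj : Function.Injective pos
  pos_val : ∀ a, Val N wid (pos a)
  pos_surj : ∀ q, Val N wid q → ∃ a, pos a = q
  row_inj : Function.Injective row
  row_lt : ∀ x, row x < N
  row_x : ∀ x, sl (row x) = .cross (ps (sl (row x))) (P.s x)
  row_surj : ∀ r < N, IsX (sl r) → ∃ x, row x = r
  σ_eq : ∀ a, pos (P.σ a) = if up lab o (pos a) then top N sl (pos a) else bot N sl (pos a)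
  inn_eq : ∀ t x, pos (P.inn t x) = arm sl (row x) (inA o (P.s x) t)
  out_eq : ∀ t x, pos (P.out t x) = arm sl (row x) (outA o (P.s x) t)

/-- the marked arms are the leaving arms that `χ` does not follow -/
def Mark {A V : Type} (P : Pl A V) (o : Bool) (row : V → ℕ) (χ : V → Bool)
    (μ : ℕ → Bool × Bool) : Prop :=
  ∀ x, μ (row x) = outA o (P.s x) (!χ x)

/-- junction (in the dual graph, the two corners at the marked arm `ν` being identified) at the
upper end of the gap `g` of the row below the slice -/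
def jb (s : Slice) (ν : Bool × Bool) (g : ℕ) : ℕ :=
  match s with
  | .cross i _ => if ν.1 = false ∧ g = i + 1 then (if ν.2 then i + 2 else i) else g
  | .cup i _ => if g ≤ i then g else g + 2
  | .cap i _ => if g = i + 2 then i else g

/-- junction at the lower end of the gap `g` of the row above the slice -/
def ja (s : Slice) (ν : Bool × Bool) (g : ℕ) : ℕ :=
  match s with
  | .cross i _ => if ν.1 = true ∧ g = i + 1 then (if ν.2 then i + 2 else i) else g
  | .cup i _ => if g = i + 2 then i else g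
  | .cap i _ => if g ≤ i then g else g + 2

/-- a function on the gaps that is constant at the junctions -/
def JC (N : ℕ) (sl : ℕ → Slice) (wid : ℕ → ℕ) (μ : ℕ → Bool × Bool) (w : ℕ × ℕ → ℤ) : Prop :=
  ∀ r < N,
    (∀ g ≤ wid r, ∀ g' ≤ wid r, jb (sl r) (μ r) g = jb (sl r) (μ r) g' → w (r, g) = w (r, g')) ∧
    (∀ g ≤ wid (r + 1), ∀ g' ≤ wid (r + 1), ja (sl r) (μ r) g = ja (sl r) (μ r) g' →
      w (r + 1, g) = w (r + 1, g')) ∧
    (∀ g ≤ wid r, ∀ g' ≤ wid (r + 1), jb (sl r) (μ r) g = ja (sl r) (μ r) g' →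
      w (r, g) = w (r + 1, g'))

/-- the junction `j` has a leaving gap (`true` = the gap points down) -/
def HasOut (s : Slice) (ν : Bool × Bool) (w w' : ℕ) (f f' : ℕ → Bool) (j : ℕ) : Prop :=
  (∃ g ≤ w, jb s ν g = j ∧ f g = true) ∨ ∃ g ≤ w', ja s ν g = j ∧ f' g = false

def OEx (s : Slice) (ν : Bool × Bool) (w w' : ℕ) (f f' : ℕ → Bool) : Prop :=
  (∀ g ≤ w, HasOut s ν w w' f f' (jb s ν g)) ∧ ∀ g ≤ w', HasOut s ν w w' f f' (ja s ν g)

def OUn (s : Slice) (ν : Bool × Bool) (w w' : ℕ) (f f' : ℕ → Bool) : Prop :=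
  (∀ g ≤ w, ∀ g' ≤ w, jb s ν g = jb s ν g' → f g = true → f g' = true → g = g') ∧
  (∀ g ≤ w', ∀ g' ≤ w', ja s ν g = ja s ν g' → f' g = false → f' g' = false → g = g') ∧
  (∀ g ≤ w, ∀ g' ≤ w', jb s ν g = ja s ν g' → f g = true → f' g' = false → False)

/-- upward flow on the gaps (weak form of the conservation at the junctions) -/
def DFlow (N : ℕ) (sl : ℕ → Slice) (wid : ℕ → ℕ) (μ : ℕ → Bool × Bool) (η : ℕ × ℕ → ℤ) : Prop :=
  ∀ r < N, ∀ W : ℕ → ℤ, ∑ g ∈ range (wid r + 1), η (r, g) * W (jb (sl r) (μ r) g) =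
    ∑ g ∈ range (wid (r + 1) + 1), η (r + 1, g) * W (ja (sl r) (μ r) g)

end Pool.Agent.P.MP_9ed2cf_gt.Nz
end

-- part Pool.Agent.P.MP_9ed2cf_gt.NzJun
section

set_option autoImplicit false

namespace Pool.Agent.P.MP_9ed2cf_gt.Nz

open Finset Pool.Agent.P.MP_9ed2cf_gt.H14

variable {N : ℕ} {sl : ℕ → Slice} {wid : ℕ → ℕ} {μ : ℕ → Bool × Bool}

/-- the relation between the values on the gaps below and above a slice -/
def JunLoc (s : Slice) (w : ℕ) (S S' : ℕ → ℤ) : Prop :=
  (∀ k ≤ ps s, S' k = S k) ∧ ∀ k, ps s ≤ k → k + kb s ≤ w → S' (k + ka s) = S (k + kb s)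

theorem jun_loc {g : ℕ × ℕ → ℤ} (hg : SFlow N sl wid g) {r : ℕ} (hr : r < N) :
    JunLoc (sl r) (wid r) (fun k => ∑ p ∈ range k, g (r, p))
      fun k => ∑ p ∈ range k, g (r + 1, p) := by
  have hL : ∀ k ≤ ps (sl r), ∑ p ∈ range k, g (r + 1, p) = ∑ p ∈ range k, g (r, p) := by
    intro k hk
    exact sum_congr rfl fun p hp => (hg.1 r hr).1 p (lt_of_lt_of_le (mem_range.1 hp) hk)
  refine ⟨hL, fun k hk => ?_⟩
  induction k, hk using Nat.le_induction with
  | base =>
    intro _
    simp only [sum_range_add]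
    rw [hL _ le_rfl, hg.2 r hr]
  | succ k hk ih =>
    intro h
    have e1 : k + 1 + ka (sl r) = k + ka (sl r) + 1 := by omega
    have e2 : k + 1 + kb (sl r) = k + kb (sl r) + 1 := by omega
    have := ih (by omega)
    simp only [e1, e2, sum_range_succ] at this ⊢
    rw [this, (hg.1 r hr).2 k hk (by omega)]

theorem flux (hS : Shape N sl wid) {g : ℕ × ℕ → ℤ} (hg : SFlow N sl wid g) :
    ∀ r ≤ N, ∑ p ∈ range (wid r), g (r, p) = g (0, 0) := by
  intro r
  induction r with
  | zero => intro _; simp [hS.w0]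
  | succ r ih =>
    intro hr
    have h1 := hS.fit r (by omega)
    have h2 := hS.step r (by omega)
    have h3 := (jun_loc hg (r := r) (by omega)).2 (wid r - kb (sl r)) (by omega) (by omega)
    have e1 : wid r - kb (sl r) + ka (sl r) = wid (r + 1) := by omega
    have e2 : wid r - kb (sl r) + kb (sl r) = wid r := by omega
    simp only [e1, e2] at h3
    rw [h3, ih (by omega)]

theorem jun_val {s : Slice} {ν : Bool × Bool} {w w' : ℕ} {S S' : ℕ → ℤ}
    (h1 : ps s + kb s ≤ w) (h2 : w' + kb s = w + ka s) (h : JunLoc s w S S')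
    (hx : IsX s → (if ν.1 then S' else S) ((if ν.2 then ps s + 1 else ps s) + 1) =
      (if ν.1 then S' else S) (if ν.2 then ps s + 1 else ps s)) :
    ∃ V : ℕ → ℤ, (∀ g ≤ w, S g = V (jb s ν g)) ∧ ∀ g ≤ w', S' g = V (ja s ν g) := by
  obtain ⟨hL, hR⟩ := h
  obtain ⟨n1, n2⟩ := ν
  cases s with
  | cross i e =>
    have hx := hx ⟨i, e, rfl⟩
    simp only [ps, kb, ka] at h1 h2 hL hR hx
    have hG : ∀ k ≤ w, k ≠ i + 1 → S' k = S k := by
      intro k hk hk'
      by_cases hc : k ≤ i
      · exact hL k hc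
      · obtain ⟨k, rfl⟩ : ∃ k', k = k' + 2 := ⟨k - 2, by omega⟩
        exact hR k (by omega) hk
    have a0 := hG i (by omega) (by omega)
    have a2 := hG (i + 2) (by omega) (by omega)
    cases n1
    · refine ⟨S', fun g hg => ?_, fun g _ => by simp [ja]⟩
      by_cases hc : g = i + 1
      · subst hc
        cases n2 <;> simp only [jb] <;> simp at hx ⊢
        · rw [hx, a0]
        · rw [a2, hx]
      · simp [jb, hc, hG g hg hc]
    · refine ⟨S, fun g _ => by simp [jb], fun g hg => ?_⟩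
      by_cases hc : g = i + 1
      · subst hc
        cases n2 <;> simp only [ja] <;> simp at hx ⊢
        · rw [hx, a0]
        · rw [← a2, hx]
      · simp [ja, hc, hG g (by omega) hc]
  | cup i d =>
    simp only [ps, kb, ka] at h1 h2 hL hR
    refine ⟨S', fun g hg => ?_, fun g _ => ?_⟩
    · simp only [jb]
      split_ifs with hc
      · exact (hL g hc).symm
      · exact (hR g (by omega) hg).symm
    · simp only [ja]
      split_ifs with hc
      · subst hc
        rw [hR i le_rfl h1, hL i le_rfl]; rfl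
      · rfl
  | cap i d =>
    simp only [ps, kb, ka] at h1 h2 hL hR
    refine ⟨S, fun g _ => ?_, fun g hg => ?_⟩
    · simp only [jb]
      split_ifs with hc
      · subst hc
        rw [← hR i le_rfl h1, ← hL i le_rfl]; rfl
      · rfl
    · simp only [ja]
      split_ifs with hc
      · exact hL g hc
      · exact hR g (by omega) (by omega)

theorem jc_of_flow (hS : Shape N sl wid) {g : ℕ × ℕ → ℤ} (hg : SFlow N sl wid g)
    (h0 : MZero N sl μ g) : JC N sl wid μ fun a => ∑ p ∈ range a.2, g (a.1, p) := by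
  intro r hr
  obtain ⟨V, hb, ha⟩ := jun_val (ν := μ r) (hS.fit r hr) (hS.step r hr) (jun_loc hg hr) (by
    intro hx
    have := h0 r hr hx
    simp only [arm] at this
    cases h : (μ r).1 <;> simp only [h] at this <;> simp at this <;>
      simp [sum_range_succ, this])
  refine ⟨fun a h1 b h2 e => ?_, fun a h1 b h2 e => ?_, fun a h1 b h2 e => ?_⟩
  · exact (hb a h1).trans (e ▸ (hb b h2).symm)
  · exact (ha a h1).trans (e ▸ (ha b h2).symm)
  · exact (hb a h1).trans (e ▸ (ha b h2).symm)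

theorem jun_left (s : Slice) (ν : Bool × Bool) {k : ℕ} (hk : k ≤ ps s) : jb s ν k = ja s ν k := by
  cases s <;> simp only [ps, jb, ja] at hk ⊢ <;> split_ifs <;> omega

theorem jun_right (s : Slice) (ν : Bool × Bool) {k : ℕ} (hk : ps s ≤ k) :
    jb s ν (k + kb s) = ja s ν (k + ka s) := by
  generalize ha : k + kb s = a
  generalize hb : k + ka s = b
  cases s <;> simp only [ps, jb, ja, kb, ka] at hk ha hb ⊢ <;> split_ifs <;> omega

theorem flow_of_jc (hS : Shape N sl wid) {w : ℕ × ℕ → ℤ} (hw : JC N sl wid μ w) :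
    SFlow N sl wid (fun a => w (a.1, a.2 + 1) - w a) ∧
      MZero N sl μ fun a => w (a.1, a.2 + 1) - w a := by
  have hL : ∀ r < N, ∀ k ≤ ps (sl r), w (r + 1, k) = w (r, k) := by
    intro r hr k hk
    have h1 := hS.fit r hr
    have h2 := hS.step r hr
    exact ((hw r hr).2.2 k (by omega) k (by omega) (jun_left _ _ hk)).symm
  have hR : ∀ r < N, ∀ k, ps (sl r) ≤ k → k + kb (sl r) ≤ wid r →
      w (r + 1, k + ka (sl r)) = w (r, k + kb (sl r)) := by
    intro r hr k hk hk'
    have h2 := hS.step r hr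
    exact ((hw r hr).2.2 _ hk' _ (by omega) (jun_right _ _ hk)).symm
  have tel : ∀ r p k, ∑ j ∈ range k, (w (r, p + j + 1) - w (r, p + j)) = w (r, p + k) - w (r, p) :=
    fun r p k => sum_range_sub (fun j => w (r, p + j)) k
  refine ⟨⟨fun r hr => ⟨fun p hp => ?_, fun p hp hp' => ?_⟩, fun r hr => ?_⟩, fun r hr hx => ?_⟩
  · simp only
    rw [hL r hr _ hp.le, hL r hr (p + 1) hp]
  · have := hR r hr (p + 1) (by omega) (by omega)
    have e1 : p + 1 + ka (sl r) = p + ka (sl r) + 1 := by omega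
    have e2 : p + 1 + kb (sl r) = p + kb (sl r) + 1 := by omega
    rw [e1, e2] at this
    simp only
    rw [this, hR r hr p hp hp'.le]
  · simp only [tel]
    rw [hR r hr _ le_rfl (hS.fit r hr), hL r hr _ le_rfl]
  · obtain ⟨i, e, hs⟩ := hx
    have h1 := hS.fit r hr
    have h2 := hS.step r hr
    obtain ⟨hb, ha, -⟩ := hw r hr
    rw [hs] at h1 h2 hb ha
    simp only [ps, kb, ka] at h1 h2
    simp only [arm, hs, ps]
    rcases hν : μ r with ⟨n1, n2⟩
    rw [hν] at hb ha
    cases n1 <;> cases n2 <;> simp only [Bool.false_eq_true, if_true, if_false, sub_eq_zero]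
    · exact hb _ (by omega) _ (by omega) (by simp [jb])
    · exact hb _ (by omega) _ (by omega) (by simp [jb])
    · exact ha _ (by omega) _ (by omega) (by simp [ja])
    · exact ha _ (by omega) _ (by omega) (by simp [ja])

theorem jun_sum (η : ℕ → ℤ) (j : ℕ → ℕ) {w k t : ℕ} (hk : k ≤ w + 1)
    (h : ∀ g ≤ w, j g < t ↔ g < k) :
    ∑ g ∈ range (w + 1), η g * (if j g < t then 1 else 0) = ∑ g ∈ range k, η g := by
  obtain ⟨d, hd⟩ := Nat.exists_eq_add_of_le hk
  rw [hd, sum_range_add]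
  have e1 : ∑ g ∈ range k, η g * (if j g < t then 1 else 0) = ∑ g ∈ range k, η g :=
    sum_congr rfl fun g hg => by
      have := mem_range.1 hg
      rw [if_pos ((h g (by omega)).2 this), mul_one]
  have e2 : ∑ g ∈ range d, η (k + g) * (if j (k + g) < t then 1 else 0) = 0 :=
    sum_eq_zero fun g hg => by
      have := mem_range.1 hg
      rw [if_neg (fun hc => by have := (h (k + g) (by omega)).1 hc; omega), mul_zero]
  rw [e1, e2, add_zero]

theorem jun_one (η : ℕ → ℤ) (j : ℕ → ℕ) {w k : ℕ} (hk : k ≤ w) (h : ∀ g, j g = k ↔ g = k) :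
    ∑ g ∈ range (w + 1), η g * (if j g = k then 1 else 0) = η k := by
  rw [sum_eq_single k]
  · rw [if_pos ((h k).2 rfl), mul_one]
  · intro g _ hg
    rw [if_neg (fun hc => hg ((h g).1 hc)), mul_zero]
  · intro hc
    exact absurd (mem_range.2 (by omega)) hc

theorem jun_none (η : ℕ → ℤ) (j : ℕ → ℕ) {w k : ℕ} (h : ∀ g, j g ≠ k) :
    ∑ g ∈ range (w + 1), η g * (if j g = k then 1 else 0) = 0 :=
  sum_eq_zero fun g _ => by rw [if_neg (h g), mul_zero]

theorem pot_of_dflow (hS : Shape N sl wid) {η : ℕ × ℕ → ℤ} (h : DFlow N sl wid μ η) :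
    SPot N sl wid μ (fun a => ∑ g ∈ range (a.2 + 1), η (a.1, g)) ∧
      ∀ r ≤ N, ∑ g ∈ range (wid r + 1), η (r, g) = η (0, 0) + η (0, 1) := by
  have cut : ∀ r < N, ∀ t k k', k ≤ wid r + 1 → k' ≤ wid (r + 1) + 1 →
      (∀ g, jb (sl r) (μ r) g < t ↔ g < k) → (∀ g, ja (sl r) (μ r) g < t ↔ g < k') →
      ∑ g ∈ range k', η (r + 1, g) = ∑ g ∈ range k, η (r, g) := by
    intro r hr t k k' hk hk' hb ha
    have := h r hr fun j => if j < t then 1 else 0
    rw [jun_sum (fun g => η (r, g)) _ hk fun g _ => hb g,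
      jun_sum (fun g => η (r + 1, g)) _ hk' fun g _ => ha g] at this
    exact this.symm
  refine ⟨⟨fun r hr => ⟨fun p hp => ?_, fun p hp hp' => ?_⟩, fun r hr => ⟨?_, ?_, ?_⟩⟩, ?_⟩
  · have h1 := hS.fit r hr
    have h2 := hS.step r hr
    refine cut r hr (p + 1) _ _ (by omega) (by omega) (fun g => ?_) fun g => ?_ <;>
      generalize sl r = s at hp <;>
      cases s <;> simp only [ps, jb, ja] at hp ⊢ <;> split_ifs <;> omega
  · have h1 := hS.fit r hr
    have h2 := hS.step r hr
    refine cut r hr (p + 3) _ _ (by omega) (by omega) (fun g => ?_) fun g => ?_ <;>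
      generalize sl r = s at hp <;>
      cases s <;> simp only [ps, jb, ja, kb, ka] at hp ⊢ <;> split_ifs <;> omega
  · intro i d hs
    have h1 := hS.fit r hr
    have h2 := hS.step r hr
    have := h r hr fun j => if j = i + 1 then 1 else 0
    rw [hs] at h1 h2 this
    simp only [ps, kb, ka] at h1 h2
    rw [jun_none (fun g => η (r, g)) _ (fun g => by simp only [jb]; split_ifs <;> omega),
      jun_one (fun g => η (r + 1, g)) _ (by omega)
        (fun g => by simp only [ja]; split_ifs <;> omega)] at this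
    simp only [sum_range_succ _ (i + 1), ← this, add_zero]
  · intro i d hs
    have h1 := hS.fit r hr
    have h2 := hS.step r hr
    have := h r hr fun j => if j = i + 1 then 1 else 0
    rw [hs] at h1 h2 this
    simp only [ps, kb, ka] at h1 h2
    rw [jun_none (fun g => η (r + 1, g)) _ (fun g => by simp only [ja]; split_ifs <;> omega),
      jun_one (fun g => η (r, g)) _ (by omega)
        (fun g => by simp only [jb]; split_ifs <;> omega)] at this
    simp only [sum_range_succ _ (i + 1), this, add_zero]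
  · rintro ⟨i, e, hs⟩
    have h1 := hS.fit r hr
    have h2 := hS.step r hr
    have c := cut r hr
    rw [hs] at h1 h2 c
    simp only [ps, kb, ka] at h1 h2
    have key : ∃ v : ℤ, ∀ ν : Bool × Bool, ν ≠ μ r →
        ∑ g ∈ range ((arm sl r ν).2 + 1), η ((arm sl r ν).1, g) = v := by
      simp only [arm, hs, ps]
      generalize μ r = ν0 at c
      obtain ⟨n1, n2⟩ := ν0
      cases n1 <;> cases n2
      · have c1 := c (i + 1) (i + 2) (i + 1) (by omega) (by omega)
          (fun g => by simp [jb]; split_ifs <;> omega) (fun g => by simp [ja])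
        have c2 := c (i + 2) (i + 2) (i + 2) (by omega) (by omega)
          (fun g => by simp [jb]; split_ifs <;> omega) (fun g => by simp [ja])
        refine ⟨∑ g ∈ range (i + 2), η (r, g), fun ⟨a, b⟩ hν => ?_⟩
        cases a <;> cases b <;> simp [c1, c2] at hν ⊢
      · have c1 := c (i + 1) (i + 1) (i + 1) (by omega) (by omega)
          (fun g => by simp [jb]; split_ifs <;> omega) (fun g => by simp [ja])
        have c2 := c (i + 2) (i + 1) (i + 2) (by omega) (by omega)
          (fun g => by simp [jb]; split_ifs <;> omega) (fun g => by simp [ja])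
        refine ⟨∑ g ∈ range (i + 1), η (r, g), fun ⟨a, b⟩ hν => ?_⟩
        cases a <;> cases b <;> simp [c1, c2] at hν ⊢
      · have c1 := c (i + 1) (i + 1) (i + 2) (by omega) (by omega)
          (fun g => by simp [jb]) (fun g => by simp [ja]; split_ifs <;> omega)
        have c2 := c (i + 2) (i + 2) (i + 2) (by omega) (by omega)
          (fun g => by simp [jb]) (fun g => by simp [ja]; split_ifs <;> omega)
        refine ⟨∑ g ∈ range (i + 2), η (r + 1, g), fun ⟨a, b⟩ hν => ?_⟩
        cases a <;> cases b <;> simp [← c1, ← c2] at hν ⊢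
      · have c1 := c (i + 1) (i + 1) (i + 1) (by omega) (by omega)
          (fun g => by simp [jb]) (fun g => by simp [ja]; split_ifs <;> omega)
        have c2 := c (i + 2) (i + 2) (i + 1) (by omega) (by omega)
          (fun g => by simp [jb]) (fun g => by simp [ja]; split_ifs <;> omega)
        refine ⟨∑ g ∈ range (i + 1), η (r + 1, g), fun ⟨a, b⟩ hν => ?_⟩
        cases a <;> cases b <;> simp [← c1, ← c2] at hν ⊢
    obtain ⟨v, hv⟩ := key
    intro ν ν' hν hν'
    exact (hv ν hν).trans (hv ν' hν').symm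
  · intro r
    induction r with
    | zero => intro _; simp [hS.w0, sum_range_succ]
    | succ r ih =>
      intro hr
      have := h r (by omega) fun _ => 1
      simp only [mul_one] at this
      rw [← this, ih (by omega)]

theorem jun_gen {s : Slice} {ν : Bool × Bool} {w w' : ℕ} {f f' : ℕ → Bool} {a b j : ℕ}
    (ha : a ≤ w) (hb : b ≤ w') (ea : jb s ν a = j) (eb : ja s ν b = j) (e : f' b = f a) :
    HasOut s ν w w' f f' j := by
  cases h : f a
  · exact Or.inr ⟨b, hb, eb, e.trans h⟩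
  · exact Or.inl ⟨a, ha, ea, h⟩

theorem oex_of_floc {s : Slice} {ν : Bool × Bool} {w w' : ℕ} {m : Fin 4} {f f' : ℕ → Bool}
    (h1 : ps s + kb s ≤ w) (h2 : w' + kb s = w + ka s) (h : FLoc s w m f f')
    (ha : IsX s → adj ν m = true) : OEx s ν w w' f f' := by
  obtain ⟨hL, hR, h⟩ := h
  cases s with
  | cross i e =>
    have ha := ha ⟨i, e, rfl⟩
    simp only [ps, kb, ka] at h1 h2 hL hR h
    obtain ⟨k0, k1, k2, k3⟩ := h
    have B : ∀ g j, g ≤ w → jb (.cross i e) ν g = j → f g = true →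
        HasOut (.cross i e) ν w w' f f' j := fun g j a b c => Or.inl ⟨g, a, b, c⟩
    have A : ∀ g j, g ≤ w → ja (.cross i e) ν g = j → f' g = false →
        HasOut (.cross i e) ν w w' f f' j := fun g j a b c => Or.inr ⟨g, by omega, b, c⟩
    have all : ∀ j ≤ w, HasOut (.cross i e) ν w w' f f' j := by
      intro j hj
      rcases lt_or_ge j i with c | c
      · exact jun_gen hj (by omega : j ≤ w') (by simp only [jb]; split_ifs <;> omega)
          (by simp only [ja]; split_ifs <;> omega) (hL j c)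
      rcases lt_or_ge (i + 2) j with c' | c'
      · obtain ⟨j, rfl⟩ : ∃ k, j = k + 2 := ⟨j - 2, by omega⟩
        exact jun_gen hj (by omega : j + 2 ≤ w') (by simp only [jb]; split_ifs <;> omega)
          (by simp only [ja]; split_ifs <;> omega) (hR j (by omega) hj)
      have B0 := B i i (by omega) (by simp [jb])
      have B2 := B (i + 2) (i + 2) (by omega) (by simp [jb])
      have A0 := A i i (by omega) (by simp [ja])
      have A2 := A (i + 2) (i + 2) (by omega) (by simp [ja])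
      have B1 := B (i + 1) _ (by omega) rfl
      have A1 := A (i + 1) _ (by omega) rfl
      clear A B hL hR
      obtain ⟨n1, n2⟩ := ν
      have hj : j = i ∨ j = i + 1 ∨ j = i + 2 := by omega
      rw [k1] at A0
      rw [k2] at A1
      rw [k3] at A2
      generalize f i = x0 at *
      generalize f (i + 1) = x1 at *
      generalize f (i + 2) = x2 at *
      cases n1 <;> cases n2 <;> simp only [jb, ja] at A1 B1 <;> simp at A1 B1 <;>
        fin_cases m <;> simp [adj, adjL, adjR, okM, outL, outT, outR] at ha k0 A0 A1 A2 <;>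
        rcases hj with rfl | rfl | rfl <;> cases x0 <;> cases x2 <;> simp_all
    exact ⟨fun g hg => all _ (by simp only [jb]; split_ifs <;> omega),
      fun g hg => all _ (by simp only [ja]; split_ifs <;> omega)⟩
  | cup i d =>
    simp only [ps, kb, ka] at h1 h2 hL hR h
    obtain ⟨k0, z, k1, k2, k3⟩ := h
    have all : ∀ j ≤ w', j ≠ i + 2 → HasOut (.cup i d) ν w w' f f' j := by
      intro j hj hj'
      rcases lt_or_ge j i with c | c
      · exact jun_gen (by omega : j ≤ w) hj (by simp only [jb]; split_ifs <;> omega)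
          (by simp only [ja]; split_ifs <;> omega) (hL j c)
      rcases lt_or_ge (i + 2) j with c' | c'
      · obtain ⟨j, rfl⟩ : ∃ k, j = k + 2 := ⟨j - 2, by omega⟩
        exact jun_gen (by omega : j ≤ w) hj (by simp only [jb]; split_ifs <;> omega)
          (by simp only [ja]; split_ifs <;> omega) (hR j (by omega) (by omega))
      rcases (by omega : j = i ∨ j = i + 1) with rfl | rfl
      · cases hf : f j
        · cases z
          · exact Or.inr ⟨j + 2, by omega, by simp [ja], by simp [k3, hf]⟩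
          · exact Or.inr ⟨j, by omega, by simp [ja], by simp [k2, hf]⟩
        · exact Or.inl ⟨j, by omega, by simp [jb], hf⟩
      · exact Or.inr ⟨i + 1, hj, by simp [ja], k0⟩
    exact ⟨fun g hg => all _ (by simp only [jb]; split_ifs <;> omega)
        (by simp only [jb]; split_ifs <;> omega),
      fun g hg => all _ (by simp only [ja]; split_ifs <;> omega)
        (by simp only [ja]; split_ifs <;> omega)⟩
  | cap i d =>
    simp only [ps, kb, ka] at h1 h2 hL hR h
    obtain ⟨k0, k1, k2⟩ := h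
    have all : ∀ j ≤ w, j ≠ i + 2 → HasOut (.cap i d) ν w w' f f' j := by
      intro j hj hj'
      rcases lt_or_ge j i with c | c
      · exact jun_gen hj (by omega : j ≤ w') (by simp only [jb]; split_ifs <;> omega)
          (by simp only [ja]; split_ifs <;> omega) (hL j c)
      rcases lt_or_ge (i + 2) j with c' | c'
      · obtain ⟨j, rfl⟩ : ∃ k, j = k + 2 := ⟨j - 2, by omega⟩
        exact jun_gen hj (by omega : j ≤ w') (by simp only [jb]; split_ifs <;> omega)
          (by simp only [ja]; split_ifs <;> omega) (hR j (by omega) (by omega))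
      rcases (by omega : j = i ∨ j = i + 1) with rfl | rfl
      · cases hf : f j
        · cases hf2 : f (j + 2)
          · exact Or.inr ⟨j, by omega, by simp [ja], by simp [k2, hf, hf2]⟩
          · exact Or.inl ⟨j + 2, by omega, by simp [jb], hf2⟩
        · exact Or.inl ⟨j, by omega, by simp [jb], hf⟩
      · exact Or.inl ⟨i + 1, hj, by simp [jb], k0⟩
    exact ⟨fun g hg => all _ (by simp only [jb]; split_ifs <;> omega)
        (by simp only [jb]; split_ifs <;> omega),
      fun g hg => all _ (by simp only [ja]; split_ifs <;> omega)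
        (by simp only [ja]; split_ifs <;> omega)⟩

theorem jun_eq {s : Slice} {ν : Bool × Bool} {w w' : ℕ} {f f' : ℕ → Bool} {a b : ℕ}
    (h : OEx s ν w w' f f') (h' : OUn s ν w w' f f') (ha : a ≤ w) (hb : b ≤ w')
    (e : jb s ν a = ja s ν b) (ua : ∀ g, jb s ν g = jb s ν a → g = a)
    (ub : ∀ g, ja s ν g = ja s ν b → g = b) : f' b = f a := by
  have h1 := h'.2.2 a ha b hb e
  have h2 : f a = true ∨ f' b = false := by
    rcases h.1 a ha with ⟨g, -, e1, e2⟩ | ⟨g, -, e1, e2⟩
    · exact Or.inl (ua g e1 ▸ e2)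
    · exact Or.inr (ub g (e1.trans e) ▸ e2)
  revert h1 h2
  cases f a <;> cases f' b <;> simp

set_option synthInstance.maxSize 4000 in
theorem jun_bool : ∀ n1 n2 x0 x1 x2 y0 y1 y2 : Bool,
    (x0 = true ∨ y0 = false ∨ (n1 = false ∧ n2 = false ∧ x1 = true) ∨
      (n1 = true ∧ n2 = false ∧ y1 = false)) →
    (x2 = true ∨ y2 = false ∨ (n1 = false ∧ n2 = true ∧ x1 = true) ∨
      (n1 = true ∧ n2 = true ∧ y1 = false)) →
    ((n1 = true ∧ x1 = true) ∨ (n1 = false ∧ y1 = false)) →
    (x0 = true → y0 = false → False) → (x2 = true → y2 = false → False) →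
    (n1 = false → n2 = false → x1 = true → x0 = true ∨ y0 = false → False) →
    (n1 = false → n2 = true → x1 = true → x2 = true ∨ y2 = false → False) →
    (n1 = true → n2 = false → y1 = false → x0 = true ∨ y0 = false → False) →
    (n1 = true → n2 = true → y1 = false → x2 = true ∨ y2 = false → False) →
    ∃ m : Fin 4, (okM m x0 x1 x2 = true ∧ y0 = outL m x0 ∧ y1 = outT m ∧ y2 = outR m x2) ∧
      adj (n1, n2) m = true := by
  decide

theorem jun_x0 {i w w' : ℕ} {e n1 n2 : Bool} {f f' : ℕ → Bool}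
    (h : HasOut (.cross i e) (n1, n2) w w' f f' i) :
    f i = true ∨ f' i = false ∨ (n1 = false ∧ n2 = false ∧ f (i + 1) = true) ∨
      (n1 = true ∧ n2 = false ∧ f' (i + 1) = false) := by
  rcases h with ⟨g, -, e1, e2⟩ | ⟨g, -, e1, e2⟩ <;>
    by_cases c : g = i + 1 <;> cases n1 <;> cases n2 <;> simp_all [jb, ja]

theorem jun_x2 {i w w' : ℕ} {e n1 n2 : Bool} {f f' : ℕ → Bool}
    (h : HasOut (.cross i e) (n1, n2) w w' f f' (i + 2)) :
    f (i + 2) = true ∨ f' (i + 2) = false ∨ (n1 = false ∧ n2 = true ∧ f (i + 1) = true) ∨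
      (n1 = true ∧ n2 = true ∧ f' (i + 1) = false) := by
  rcases h with ⟨g, -, e1, e2⟩ | ⟨g, -, e1, e2⟩ <;>
    by_cases c : g = i + 1 <;> cases n1 <;> cases n2 <;> simp_all [jb, ja]

theorem jun_x1 {i w w' : ℕ} {e n1 n2 : Bool} {f f' : ℕ → Bool}
    (h : HasOut (.cross i e) (n1, n2) w w' f f' (i + 1)) :
    (n1 = true ∧ f (i + 1) = true) ∨ (n1 = false ∧ f' (i + 1) = false) := by
  rcases h with ⟨g, -, e1, e2⟩ | ⟨g, -, e1, e2⟩ <;>
    by_cases c : g = i + 1 <;> cases n1 <;> cases n2 <;> simp_all [jb, ja]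

theorem floc_of_out {s : Slice} {ν : Bool × Bool} {w w' : ℕ} {f f' : ℕ → Bool}
    (h1 : ps s + kb s ≤ w) (h2 : w' + kb s = w + ka s) (h : OEx s ν w w' f f')
    (h' : OUn s ν w w' f f') : ∃ m, FLoc s w m f f' ∧ (IsX s → adj ν m = true) := by
  have hL : ∀ g < ps s, f' g = f g := by
    intro g hg
    refine jun_eq h h' (by omega) (by omega) (jun_left _ _ hg.le) (fun a => ?_) fun a => ?_ <;>
      cases s <;> simp only [ps, jb, ja] at hg ⊢ <;> split_ifs <;> omega
  have hR : ∀ g, ps s < g → g + kb s ≤ w → f' (g + ka s) = f (g + kb s) := by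
    intro g hg hg'
    refine jun_eq h h' hg' (by omega) (jun_right _ _ hg.le) (fun a => ?_) fun a => ?_
    · generalize hb : g + kb s = b
      cases s <;> simp only [ps, jb, kb] at hg hb ⊢ <;> split_ifs <;> omega
    · generalize hb : g + ka s = b
      cases s <;> simp only [ps, ja, ka] at hg hb ⊢ <;> split_ifs <;> omega
  obtain ⟨eb, ea⟩ := h
  obtain ⟨u1, u2, u3⟩ := h'
  cases s with
  | cross i e =>
    obtain ⟨n1, n2⟩ := ν
    simp only [ps, kb, ka] at h1 h2
    obtain ⟨m, hm, hm'⟩ := jun_bool n1 n2 (f i) (f (i + 1)) (f (i + 2)) (f' i) (f' (i + 1))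
      (f' (i + 2))
      (jun_x0 (by simpa [jb] using eb i (by omega)))
      (jun_x2 (by simpa [jb] using eb (i + 2) (by omega)))
      (jun_x1 (by
        cases n1
        · simpa [ja] using ea (i + 1) (by omega)
        · simpa [jb] using eb (i + 1) (by omega)))
      (u3 i (by omega) i (by omega) (by simp [jb, ja]))
      (u3 (i + 2) (by omega) (i + 2) (by omega) (by simp [jb, ja]))
      (by
        rintro rfl rfl a (b | b)
        · exact absurd (u1 i (by omega) (i + 1) (by omega) (by simp [jb]) b a) (by omega)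
        · exact u3 (i + 1) (by omega) i (by omega) (by simp [jb, ja]) a b)
      (by
        rintro rfl rfl a (b | b)
        · exact absurd (u1 (i + 2) (by omega) (i + 1) (by omega) (by simp [jb]) b a) (by omega)
        · exact u3 (i + 1) (by omega) (i + 2) (by omega) (by simp [jb, ja]) a b)
      (by
        rintro rfl rfl a (b | b)
        · exact u3 i (by omega) (i + 1) (by omega) (by simp [jb, ja]) b a
        · exact absurd (u2 i (by omega) (i + 1) (by omega) (by simp [ja]) b a) (by omega))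
      (by
        rintro rfl rfl a (b | b)
        · exact u3 (i + 2) (by omega) (i + 1) (by omega) (by simp [jb, ja]) b a
        · exact absurd (u2 (i + 2) (by omega) (i + 1) (by omega) (by simp [ja]) b a) (by omega))
    exact ⟨m, ⟨hL, hR, hm⟩, fun _ => hm'⟩
  | cup i d =>
    simp only [ps, kb, ka] at h1 h2
    refine ⟨0, ⟨hL, hR, ?_, ?_⟩, fun ⟨_, _, hx⟩ => by cases hx⟩
    · rcases ea (i + 1) (by omega) with ⟨g, -, e1, e2⟩ | ⟨g, -, e1, e2⟩ <;>
        simp only [jb, ja] at e1 <;> split_ifs at e1 <;> first | omega | exact e1 ▸ e2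
    · have k1 : f i = true ∨ f' i = false ∨ f' (i + 2) = false := by
        rcases eb i (by omega) with ⟨g, -, e1, e2⟩ | ⟨g, -, e1, e2⟩ <;>
          simp only [jb, ja, le_refl, if_true] at e1 <;> split_ifs at e1 with c
        · exact Or.inl (e1 ▸ e2)
        · omega
        · exact Or.inr (Or.inr (c ▸ e2))
        · exact Or.inr (Or.inl (e1 ▸ e2))
      have k2 := u3 i (by omega) i (by omega) (by simp [jb, ja])
      have k3 := u3 i (by omega) (i + 2) (by omega) (by simp [jb, ja])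
      have k4 : f' i = false → f' (i + 2) = false → False := fun a b =>
        absurd (u2 i (by omega) (i + 2) (by omega) (by simp [ja]) a b) (by omega)
      revert k1 k2 k3 k4
      cases f i <;> cases f' i <;> cases f' (i + 2) <;> simp
  | cap i d =>
    simp only [ps, kb, ka] at h1 h2
    refine ⟨0, ⟨hL, hR, ?_, ?_⟩, fun ⟨_, _, hx⟩ => by cases hx⟩
    · rcases eb (i + 1) (by omega) with ⟨g, -, e1, e2⟩ | ⟨g, -, e1, e2⟩ <;>
        simp only [jb, ja] at e1 <;> split_ifs at e1 <;> first | omega | exact e1 ▸ e2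
    · have k1 : f i = true ∨ f' i = false ∨ f (i + 2) = true := by
        rcases ea i (by omega) with ⟨g, -, e1, e2⟩ | ⟨g, -, e1, e2⟩ <;>
          simp only [jb, ja, le_refl, if_true] at e1 <;> split_ifs at e1 with c
        · exact Or.inr (Or.inr (c ▸ e2))
        · exact Or.inl (e1 ▸ e2)
        · exact Or.inr (Or.inl (e1 ▸ e2))
        · omega
      have k2 := u3 i (by omega) i (by omega) (by simp [jb, ja])
      have k3 := u3 (i + 2) (by omega) i (by omega) (by simp [jb, ja])
      have k4 : f i = true → f (i + 2) = true → False := fun a b =>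
        absurd (u1 i (by omega) (i + 2) (by omega) (by simp [jb]) a b) (by omega)
      revert k1 k2 k3 k4
      cases f i <;> cases f' i <;> cases f (i + 2) <;> simp

end Pool.Agent.P.MP_9ed2cf_gt.Nz
end

-- part Pool.Agent.P.MP_9ed2cf_gt.NzGraph
section

set_option autoImplicit false

namespace Pool.Agent.P.MP_9ed2cf_gt.Nz

open Equiv Finset
open scoped Classical

/-- vertices within distance `n` of a root -/
def NzGraph_Lev {E J : Type} (lo hi : E → J) (Rt : J → Prop) : ℕ → J → Prop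
  | 0, j => Rt j
  | n + 1, j => Rt j ∨ ∃ (e : E) (b : Bool), (if b then hi e else lo e) = j ∧
      NzGraph_Lev lo hi Rt n (if b then lo e else hi e)

theorem NzGraph_pick {E J : Type} (lo hi : E → J) (Rt : J → Prop) :
    ∃ (Cn : J → Prop) (d : J → ℕ), (∀ j, Rt j → Cn j) ∧ (∀ e, Cn (lo e) ↔ Cn (hi e)) ∧
      ∀ j, Cn j → ¬ Rt j → ∃ (e : E) (b : Bool), (if b then hi e else lo e) = j ∧
        Cn (if b then lo e else hi e) ∧ d (if b then lo e else hi e) < d j := by
  refine ⟨fun j => ∃ n, NzGraph_Lev lo hi Rt n j,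
    fun j => if h : ∃ n, NzGraph_Lev lo hi Rt n j then Nat.find h else 0,
    fun j h => ⟨0, h⟩, fun e => ⟨?_, ?_⟩, fun j hj hr => ?_⟩
  · rintro ⟨n, hn⟩
    exact ⟨n + 1, Or.inr ⟨e, true, rfl, hn⟩⟩
  · rintro ⟨n, hn⟩
    exact ⟨n + 1, Or.inr ⟨e, false, rfl, hn⟩⟩
  · have h1 := Nat.find_spec hj
    obtain ⟨n, hn⟩ : ∃ n, Nat.find hj = n + 1 := by
      rcases h2 : Nat.find hj with _ | n
      · rw [h2] at h1
        exact absurd h1 hr
      · exact ⟨n, rfl⟩
    rw [hn] at h1
    rcases h1 with h1 | ⟨e, b, h1, h2⟩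
    · exact absurd h1 hr
    · have h3 : ∃ n, NzGraph_Lev lo hi Rt n (if b then lo e else hi e) := ⟨n, h2⟩
      refine ⟨e, b, h1, h3, ?_⟩
      simp only [dif_pos h3, dif_pos hj, hn]
      exact Nat.lt_succ_of_le (Nat.find_min' h3 h2)

theorem NzGraph_single {E : Type} [Fintype E] (e0 : E) (f : E → ℤ) :
    ∑ e, (if e = e0 then (1 : ℤ) else 0) * f e = f e0 := by
  simp

theorem orient_exists {E J : Type} [Fintype E] (lo hi : E → J) (Rt : J → Prop)
    (conn : ∀ W : J → ℤ, (∀ e, W (lo e) = W (hi e)) → (∀ j, Rt j → W j = 0) → ∀ e, W (lo e) = 0)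
    (acyc : ∀ η : E → ℤ, (∀ W : J → ℤ, (∀ j, Rt j → W j = 0) →
      ∑ e, η e * (W (hi e) - W (lo e)) = 0) → ∀ e, η e = 0) :
    ∃ o : E → Bool, (∀ e, ¬ Rt (if o e then hi e else lo e)) ∧
      (∀ e e', (if o e then hi e else lo e) = (if o e' then hi e' else lo e') → e = e') ∧
      (∀ e, ¬ Rt (lo e) → ∃ e', (if o e' then hi e' else lo e') = lo e) ∧
      (∀ e, ¬ Rt (hi e) → ∃ e', (if o e' then hi e' else lo e') = hi e) := by
  obtain ⟨Cn, d, h0, h1, h2⟩ := NzGraph_pick lo hi Rt
  have hlo : ∀ e, Cn (lo e) := fun e => by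
    have := conn (fun j => if Cn j then 0 else 1) (fun e => by simp only [h1 e])
      (fun j hj => if_pos (h0 j hj)) e
    by_contra h
    simp [h] at this
  have hhi : ∀ e, Cn (hi e) := fun e => (h1 e).1 (hlo e)
  choose pk bb hp hc hd using fun j : {j // Cn j ∧ ¬ Rt j} => h2 j.1 j.2.1 j.2.2
  have inj : ∀ j j', pk j = pk j' → j = j' := by
    intro j j' h
    have a1 := hp j
    have a2 := hp j'
    have a3 := hd j
    have a4 := hd j'
    rw [h] at a1 a3
    refine Subtype.ext ?_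
    cases hb : bb j <;> cases hb' : bb j' <;>
      simp only [hb, hb', if_true, if_false, Bool.false_eq_true] at a1 a2 a3 a4
    · rw [← a1, ← a2]
    · rw [a1] at a4
      rw [a2] at a3
      omega
    · rw [a1] at a4
      rw [a2] at a3
      omega
    · rw [← a1, ← a2]
  have pot : ∀ n j, Cn j → d j = n → ∃ φ : E → ℤ, (∀ e, φ e ≠ 0 → ∃ j, pk j = e) ∧
      ∀ W : J → ℤ, (∀ j, Rt j → W j = 0) → ∑ e, φ e * (W (hi e) - W (lo e)) = - W j := by
    intro n
    induction n using Nat.strong_induction_on with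
    | _ n ih =>
      intro j hj hn
      by_cases hr : Rt j
      · exact ⟨0, fun e he => absurd rfl he, fun W hW => by simp [hW j hr]⟩
      obtain ⟨φ, a1, a2⟩ := ih _ (hn ▸ hd ⟨j, hj, hr⟩) _ (hc ⟨j, hj, hr⟩) rfl
      have a3 : _ = j := hp ⟨j, hj, hr⟩
      refine ⟨fun e => φ e + (if bb ⟨j, hj, hr⟩ then -1 else 1) *
        (if e = pk ⟨j, hj, hr⟩ then 1 else 0), fun e he => ?_, fun W hW => ?_⟩
      · by_cases h : e = pk ⟨j, hj, hr⟩
        · exact ⟨_, h.symm⟩
        · exact a1 e (by simpa [h] using he)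
      · simp only [add_mul, mul_assoc, Finset.sum_add_distrib, ← Finset.mul_sum, NzGraph_single,
          a2 W hW]
        cases hb : bb ⟨j, hj, hr⟩ <;>
          simp only [hb, if_true, if_false, Bool.false_eq_true] at a3 ⊢ <;> rw [a3] <;> ring
  have surj : ∀ e, ∃ j, pk j = e := by
    intro e0
    by_contra h
    obtain ⟨φ, a1, a2⟩ := pot _ _ (hhi e0) rfl
    obtain ⟨ψ, b1, b2⟩ := pot _ _ (hlo e0) rfl
    have c1 : φ e0 = 0 := by_contra fun h3 => h (a1 e0 h3)
    have c2 : ψ e0 = 0 := by_contra fun h3 => h (b1 e0 h3)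
    have := acyc (fun e => (if e = e0 then 1 else 0) + φ e - ψ e) (fun W hW => by
      simp only [add_mul, sub_mul _ (ψ _), Finset.sum_add_distrib, Finset.sum_sub_distrib,
        NzGraph_single, a2 W hW, b2 W hW]
      ring) e0
    simp [c1, c2] at this
  choose r hr using surj
  have head : ∀ e, (if bb (r e) then hi e else lo e) = (r e).1 := fun e => by
    have := hp (r e)
    rwa [hr] at this
  have fin : ∀ j, Cn j → ¬ Rt j → ∃ e', (if bb (r e') then hi e' else lo e') = j :=
    fun j hj hn => ⟨pk ⟨j, hj, hn⟩, by rw [head, inj _ _ (hr _)]⟩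
  refine ⟨fun e => bb (r e), fun e => ?_, fun e e' h => ?_, fun e => fin _ (hlo e),
    fun e => fin _ (hhi e)⟩
  · rw [head]
    exact (r e).2.2
  · rw [head, head] at h
    rw [← hr e, ← hr e', Subtype.ext h]

theorem flow_exists {E J : Type} [Fintype E] (lo hi : E → J) (o : E → Bool) (Ω : E → Prop)
    (hne : ∃ e, Ω e)
    (cl : ∀ e, Ω e → ∃ e', Ω e' ∧ (if o e' then hi e' else lo e') = (if o e then lo e else hi e)) :
    ∃ η : E → ℤ, (∃ e, η e ≠ 0) ∧ (∀ e, η e ≠ 0 → Ω e) ∧
      ∀ W : J → ℤ, ∑ e, η e * (W (hi e) - W (lo e)) = 0 := by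
  choose ν h1 h2 using fun e : {e // Ω e} => cl e.1 e.2
  obtain ⟨e0, he0⟩ := hne
  let f : {e // Ω e} → {e // Ω e} := fun e => ⟨ν e, h1 e⟩
  obtain ⟨x, n, hn, hx⟩ : ∃ (x : {e // Ω e}) (n : ℕ), 0 < n ∧ f^[n] x = x := by
    have key : ∀ a b : ℕ, a < b → f^[a] ⟨e0, he0⟩ = f^[b] ⟨e0, he0⟩ →
        ∃ (x : {e // Ω e}) (n : ℕ), 0 < n ∧ f^[n] x = x := fun a b hab h =>
      ⟨f^[a] ⟨e0, he0⟩, b - a, by omega, by
        rw [← Function.iterate_add_apply, Nat.sub_add_cancel hab.le, h]⟩
    obtain ⟨a, b, hab, h⟩ := Finite.exists_ne_map_eq_of_infinite fun k : ℕ => f^[k] ⟨e0, he0⟩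
    rcases lt_or_gt_of_ne hab with h3 | h3
    · exact key a b h3 h
    · exact key b a h3 h.symm
  refine ⟨fun e => (if o e then 1 else -1) *
    ∑ k ∈ range n, (if e = (f^[k] x).1 then 1 else 0), ⟨x.1, ?_⟩, fun e he => ?_, fun W => ?_⟩
  · refine mul_ne_zero (by split_ifs <;> norm_num) (ne_of_gt ?_)
    refine Finset.sum_pos' (fun k _ => by split_ifs <;> norm_num) ⟨0, mem_range.2 hn, by simp⟩
  · obtain ⟨k, -, hk⟩ := Finset.exists_ne_zero_of_sum_ne_zero (right_ne_zero_of_mul he)
    have : e = (f^[k] x).1 := by_contra fun h => hk (if_neg h)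
    rw [this]
    exact (f^[k] x).2
  · have e1 : ∀ e, ((if o e then 1 else -1) * ∑ k ∈ range n, (if e = (f^[k] x).1 then 1 else 0)) *
        (W (hi e) - W (lo e)) = ∑ k ∈ range n, (if e = (f^[k] x).1 then (1 : ℤ) else 0) *
          (W (if o e then hi e else lo e) - W (if o e then lo e else hi e)) := fun e => by
      rw [← Finset.sum_mul]
      cases o e <;> simp only [if_true, if_false, Bool.false_eq_true] <;> ring
    simp only [e1]
    rw [Finset.sum_comm]
    simp only [NzGraph_single]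
    have e2 : ∀ k, W (if o (f^[k] x).1 then lo (f^[k] x).1 else hi (f^[k] x).1) =
        W (if o (f^[k + 1] x).1 then hi (f^[k + 1] x).1 else lo (f^[k + 1] x).1) := fun k => by
      rw [Function.iterate_succ_apply', ← h2]
    simp only [e2]
    rw [Finset.sum_range_sub' fun k =>
      W (if o (f^[k] x).1 then hi (f^[k] x).1 else lo (f^[k] x).1), hx]
    simp

end Pool.Agent.P.MP_9ed2cf_gt.Nz
end

-- part Pool.Agent.P.MP_9ed2cf_gt.NzB45
section

set_option autoImplicit false

namespace Pool.Agent.P.MP_9ed2cf_gt.Nz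

open Finset Pool.Agent.P.MP_9ed2cf_gt.H14

variable {N : ℕ} {sl : ℕ → Slice} {wid : ℕ → ℕ} {μ : ℕ → Bool × Bool}

/-- the gaps -/
abbrev b45E (N : ℕ) (wid : ℕ → ℕ) : Type := Σ r : Fin (N + 1), Fin (wid r + 1)

def b45pr (e : b45E N wid) : ℕ × ℕ := (e.1.1, e.2.1)

def b45mk {r g : ℕ} (hr : r ≤ N) (hg : g ≤ wid r) : b45E N wid :=
  ⟨⟨r, Nat.lt_succ_of_le hr⟩, ⟨g, Nat.lt_succ_of_le hg⟩⟩

/-- extension by a default value -/
def b45ex {α : Type} (d : α) (η : b45E N wid → α) (a : ℕ × ℕ) : α :=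
  if h : a.1 ≤ N ∧ a.2 ≤ wid a.1 then η (b45mk h.1 h.2) else d

def b45lo (sl : ℕ → Slice) (μ : ℕ → Bool × Bool) (a : ℕ × ℕ) : ℕ × ℕ :=
  (a.1, if a.1 = 0 then a.2 else ja (sl (a.1 - 1)) (μ (a.1 - 1)) a.2)

def b45hi (N : ℕ) (sl : ℕ → Slice) (μ : ℕ → Bool × Bool) (a : ℕ × ℕ) : ℕ × ℕ :=
  (a.1 + 1, if a.1 = N then a.2 else jb (sl a.1) (μ a.1) a.2)

theorem b45_le (e : b45E N wid) : (b45pr e).1 ≤ N ∧ (b45pr e).2 ≤ wid (b45pr e).1 :=
  ⟨Nat.le_of_lt_succ e.1.2, Nat.le_of_lt_succ e.2.2⟩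

theorem b45_ex_pr {α : Type} (d : α) (η : b45E N wid → α) (e : b45E N wid) :
    b45ex d η (b45pr e) = η e := by
  unfold b45ex
  rw [dif_pos (b45_le e)]
  rfl

theorem b45_ex_mk {α : Type} (d : α) (η : b45E N wid → α) {r g : ℕ} (hr : r ≤ N)
    (hg : g ≤ wid r) : b45ex d η (r, g) = η (b45mk hr hg) := b45_ex_pr d η (b45mk hr hg)

theorem b45_sum (F : ℕ × ℕ → ℤ) :
    ∑ e : b45E N wid, F (b45pr e) = ∑ r ∈ range (N + 1), ∑ g ∈ range (wid r + 1), F (r, g) := by
  rw [Fintype.sum_sigma, ← Fin.sum_univ_eq_sum_range (fun r => ∑ g ∈ range (wid r + 1), F (r, g))]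
  refine Finset.sum_congr rfl fun r _ => ?_
  exact Fin.sum_univ_eq_sum_range (fun g => F (r, g)) (wid r + 1)

theorem b45_lo_succ (r g : ℕ) : b45lo sl μ (r + 1, g) = (r + 1, ja (sl r) (μ r) g) := by
  simp [b45lo]

theorem b45_hi_lt {r : ℕ} (hr : r < N) (g : ℕ) :
    b45hi N sl μ (r, g) = (r + 1, jb (sl r) (μ r) g) := by
  simp [b45hi, hr.ne]

theorem b45_j0 (s : Slice) (ν : Bool × Bool) : jb s ν 0 = ja s ν 0 := by
  cases s <;> simp [jb, ja]

/-- the test function supported on one level -/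
def b45W (l : ℕ) (W : ℕ → ℤ) (j : ℕ × ℕ) : ℤ := if j.1 = l then W j.2 else 0

theorem b45_level (η : b45E N wid → ℤ) (l : ℕ) (W : ℕ → ℤ) :
    ∑ e, η e * (b45W l W (b45hi N sl μ (b45pr e)) - b45W l W (b45lo sl μ (b45pr e))) =
      (∑ r ∈ range (N + 1), if r + 1 = l then
        ∑ g ∈ range (wid r + 1), b45ex 0 η (r, g) * W (b45hi N sl μ (r, g)).2 else 0) -
      ∑ r ∈ range (N + 1), if r = l then
        ∑ g ∈ range (wid r + 1), b45ex 0 η (r, g) * W (b45lo sl μ (r, g)).2 else 0 := by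
  have h := b45_sum (N := N) (wid := wid) fun a =>
    b45ex 0 η a * (b45W l W (b45hi N sl μ a) - b45W l W (b45lo sl μ a))
  simp only [b45_ex_pr] at h
  rw [h, ← Finset.sum_sub_distrib]
  refine Finset.sum_congr rfl fun r _ => ?_
  have e1 : ∀ g, b45W l W (b45hi N sl μ (r, g)) =
      if r + 1 = l then W (b45hi N sl μ (r, g)).2 else 0 := fun _ => rfl
  have e2 : ∀ g, b45W l W (b45lo sl μ (r, g)) =
      if r = l then W (b45lo sl μ (r, g)).2 else 0 := fun _ => rfl
  simp only [e1, e2, mul_sub, Finset.sum_sub_distrib]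
  congr 1 <;> split_ifs <;> simp

theorem b45_dflow {η : b45E N wid → ℤ}
    (h : ∀ r < N, ∀ W : ℕ → ℤ, ∑ e, η e * (b45W (r + 1) W (b45hi N sl μ (b45pr e)) -
      b45W (r + 1) W (b45lo sl μ (b45pr e))) = 0) : DFlow N sl wid μ (b45ex 0 η) := by
  intro r hr W
  have h1 := h r hr W
  rw [b45_level] at h1
  simp only [Nat.add_right_cancel_iff, Finset.sum_ite_eq', Finset.mem_range] at h1
  rw [if_pos (by omega), if_pos (by omega)] at h1
  simp only [b45_lo_succ, b45_hi_lt hr] at h1
  exact sub_eq_zero.mp h1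

theorem b45_top (hS : Shape N sl wid) {η : b45E N wid → ℤ} {c : ℕ} (hc : c ≤ 1)
    (h : ∑ e, η e * (b45W (N + 1) (fun j => if j = c then 1 else 0) (b45hi N sl μ (b45pr e)) -
      b45W (N + 1) (fun j => if j = c then 1 else 0) (b45lo sl μ (b45pr e))) = 0) :
    b45ex 0 η (N, c) = 0 := by
  rw [b45_level] at h
  simp only [Nat.add_right_cancel_iff, Finset.sum_ite_eq', Finset.mem_range] at h
  rw [if_pos (by omega), if_neg (by omega), hS.wN] at h
  interval_cases c <;> simpa [b45hi, Finset.sum_range_succ] using h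

theorem b45_bot (hS : Shape N sl wid) {η : b45E N wid → ℤ}
    (h : ∑ e, η e * (b45W 0 (fun j => if j = 1 then 1 else 0) (b45hi N sl μ (b45pr e)) -
      b45W 0 (fun j => if j = 1 then 1 else 0) (b45lo sl μ (b45pr e))) = 0) :
    b45ex 0 η (0, 1) = 0 := by
  rw [b45_level] at h
  simp only [Nat.add_one_ne_zero, if_false, Finset.sum_const_zero, Finset.sum_ite_eq',
    Finset.mem_range] at h
  rw [if_pos (by omega), hS.w0] at h
  simpa [b45lo, Finset.sum_range_succ] using h

theorem b45_part {η : ℕ × ℕ → ℤ}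
    (h : ∀ a, Val N wid a → ∑ g ∈ range (a.2 + 1), η (a.1, g) = 0) {r g : ℕ} (hr : r ≤ N)
    (hg : g < wid r) : η (r, g) = 0 := by
  have h1 := h (r, g) ⟨hr, hg⟩
  rcases g with _ | g
  · simpa using h1
  · have h2 := h (r, g) ⟨hr, by dsimp only; omega⟩
    dsimp only at h1 h2
    rw [Finset.sum_range_succ, h2, zero_add] at h1
    exact h1

/-- an edge whose tail is an inner junction -/
theorem b45_tail {o : b45E N wid → Bool} {r j : ℕ} (hr : r < N) :
    (∃ e, (if o e then b45hi N sl μ (b45pr e) else b45lo sl μ (b45pr e)) = (r + 1, j)) →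
      HasOut (sl r) (μ r) (wid r) (wid (r + 1)) (fun g => b45ex false o (r, g))
        (fun g => b45ex false o (r + 1, g)) j := by
  rintro ⟨e, he⟩
  have h1 := b45_le e
  have h2 := b45_ex_pr false o e
  generalize b45pr e = a at he h1 h2
  obtain ⟨r', g⟩ := a
  cases ho : o e
  · rw [ho] at he h2
    simp only [Bool.false_eq_true, if_false] at he
    obtain rfl : r' = r + 1 := congrArg Prod.fst he
    rw [b45_lo_succ] at he
    exact Or.inr ⟨g, h1.2, congrArg Prod.snd he, h2⟩
  · rw [ho] at he h2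
    simp only [if_true] at he
    obtain rfl : r' = r := Nat.add_right_cancel (congrArg Prod.fst he)
    rw [b45_hi_lt hr] at he
    exact Or.inl ⟨g, h1.2, congrArg Prod.snd he, h2⟩

theorem b45_conn (hS : Shape N sl wid) (h1 : T1 N sl wid μ) (k : Bool) (W : ℕ × ℕ → ℤ)
    (hW : ∀ e : b45E N wid, W (b45lo sl μ (b45pr e)) = W (b45hi N sl μ (b45pr e)))
    (h0 : W (0, 0) = 0) (hk : W (if k then (0, 1) else (N + 1, 1)) = 0) (e : b45E N wid) :
    W (b45lo sl μ (b45pr e)) = 0 := by
  have hup : ∀ r < N, ∀ g ≤ wid r, W (b45lo sl μ (r, g)) = W (r + 1, jb (sl r) (μ r) g) := by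
    intro r hr g hg
    rw [← b45_hi_lt hr]
    exact hW (b45mk hr.le hg)
  have hj : JC N sl wid μ fun a => W (b45lo sl μ a) := by
    intro r hr
    refine ⟨fun g hg g' hg' h => ?_, fun g _ g' _ h => ?_, fun g hg g' _ h => ?_⟩
    · dsimp only
      rw [hup r hr g hg, hup r hr g' hg', h]
    · dsimp only
      rw [b45_lo_succ, b45_lo_succ, h]
    · dsimp only
      rw [hup r hr g hg, b45_lo_succ, h]
  have hz : ∀ r ≤ N, W (b45lo sl μ (r, 0)) = 0 := by
    intro r hr
    induction r with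
    | zero => exact h0
    | succ r ih =>
      rw [← ih (by omega)]
      exact ((hj r (by omega)).2.2 0 (Nat.zero_le _) 0 (Nat.zero_le _) (b45_j0 _ _)).symm
  obtain ⟨hf, hm⟩ := flow_of_jc hS hj
  have h00 : W (b45lo sl μ (0, 0 + 1)) - W (b45lo sl μ (0, 0)) = 0 := by
    cases k
    · have h2 := flux hS hf N le_rfl
      rw [hS.wN, Finset.sum_range_one] at h2
      dsimp only at h2
      have h3 : W (b45lo sl μ (N, 1)) = W (b45hi N sl μ (N, 1)) :=
        hW (b45mk le_rfl hS.wN.ge)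
      have h4 : b45hi N sl μ (N, 1) = (N + 1, 1) := by simp [b45hi]
      rw [← h2, hz N le_rfl, h3, h4]
      simpa using hk
    · rw [hz 0 (Nat.zero_le _)]
      simpa [b45lo] using hk
  have hall := h1 _ hf hm h00
  have hfin : ∀ r ≤ N, ∀ g ≤ wid r, W (b45lo sl μ (r, g)) = 0 := by
    intro r hr g hg
    induction g with
    | zero => exact hz r hr
    | succ g ih =>
      have h5 := hall (r, g) ⟨hr, by dsimp only; omega⟩
      dsimp only at h5
      rw [ih (by omega), sub_zero] at h5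
      exact h5
  exact hfin _ (b45_le e).1 _ (b45_le e).2

theorem b45_acyc (hS : Shape N sl wid) (h2 : T2 N sl wid μ) (k : Bool) (η : b45E N wid → ℤ)
    (h : ∀ W : ℕ × ℕ → ℤ, (∀ j, (j = (0, 0) ∨ j = if k then (0, 1) else (N + 1, 1)) → W j = 0) →
      ∑ e, η e * (W (b45hi N sl μ (b45pr e)) - W (b45lo sl μ (b45pr e))) = 0) (e : b45E N wid) :
    η e = 0 := by
  have hd : DFlow N sl wid μ (b45ex 0 η) := by
    refine b45_dflow fun r hr W => h _ ?_
    rintro j (rfl | rfl)
    · simp [b45W]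
    · cases k
      · simp [b45W, hr.ne']
      · simp [b45W]
  obtain ⟨hp, ht⟩ := pot_of_dflow hS hd
  have hN0 : b45ex 0 η (N, 0) = 0 := by
    refine b45_top (μ := μ) hS (Nat.zero_le _) (h _ ?_)
    rintro j (rfl | rfl)
    · simp [b45W]
    · cases k <;> simp [b45W]
  have hu : ∀ a, Val N wid a → ∑ g ∈ range (a.2 + 1), b45ex 0 η (a.1, g) = 0 := by
    intro a ha
    have h3 := h2 _ hp a ha
    dsimp only at h3
    rw [h3, Finset.sum_range_one, hN0]
  have h00 : b45ex 0 η (0, 0) = 0 := b45_part hu (Nat.zero_le _) (by rw [hS.w0]; omega)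
  have h01 : b45ex 0 η (0, 1) = 0 := by
    cases k
    · refine b45_bot (μ := μ) hS (h _ ?_)
      rintro j (rfl | rfl) <;> simp [b45W]
    · have h3 : b45ex 0 η (N, 1) = 0 := by
        refine b45_top (μ := μ) hS le_rfl (h _ ?_)
        rintro j (rfl | rfl) <;> simp [b45W]
      have h4 := ht N le_rfl
      rw [hS.wN, Finset.sum_range_succ, Finset.sum_range_one, hN0, h3, h00] at h4
      omega
  rw [← b45_ex_pr 0 η e]
  obtain ⟨hr, hg⟩ := b45_le e
  generalize b45pr e = a at hr hg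
  obtain ⟨r, g⟩ := a
  rcases Nat.lt_or_eq_of_le hg with hg | hg
  · exact b45_part hu hr hg
  · dsimp only at hr hg
    have h4 := ht r hr
    rw [Finset.sum_range_succ, h00, h01,
      Finset.sum_eq_zero fun g hg => b45_part hu hr (Finset.mem_range.mp hg)] at h4
    rw [hg]
    omega

theorem st_of_tree (hS : Shape N sl wid) (h1 : T1 N sl wid μ) (h2 : T2 N sl wid μ) (k : Bool) :
    ∃ m, St N sl wid k m ∧ Adj N sl μ m := by
  obtain ⟨o, hr, hinj, hlo, hhi⟩ := orient_exists (E := b45E N wid)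
    (fun e => b45lo sl μ (b45pr e)) (fun e => b45hi N sl μ (b45pr e))
    (fun j => j = (0, 0) ∨ j = if k then (0, 1) else (N + 1, 1))
    (fun W hW h0 => b45_conn hS h1 k W hW (h0 _ (Or.inl rfl)) (h0 _ (Or.inr rfl)))
    (b45_acyc hS h2 k)
  have hin : ∀ r < N, ∀ j, ¬ (((r + 1, j) : ℕ × ℕ) = (0, 0) ∨
      ((r + 1, j) : ℕ × ℕ) = if k then (0, 1) else (N + 1, 1)) := by
    intro r hrN j
    cases k <;> simp [hrN.ne]
  have hloc : ∀ r, r < N → ∃ m, FLoc (sl r) (wid r) m (fun g => b45ex false o (r, g))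
      (fun g => b45ex false o (r + 1, g)) ∧ (IsX (sl r) → adj (μ r) m = true) := by
    intro r hrN
    refine floc_of_out (hS.fit r hrN) (hS.step r hrN) ⟨fun g hg => ?_, fun g hg => ?_⟩
      ⟨fun g hg g' hg' h a b => ?_, fun g hg g' hg' h a b => ?_, fun g hg g' hg' h a b => ?_⟩
    · have e : b45hi N sl μ (b45pr (b45mk hrN.le hg)) = _ := b45_hi_lt hrN g
      have := hhi (b45mk hrN.le hg)
      rw [e] at this
      exact b45_tail hrN (this (hin r hrN _))
    · have e : b45lo sl μ (b45pr (b45mk (N := N) hrN hg)) = _ := b45_lo_succ r g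
      have := hlo (b45mk (N := N) hrN hg)
      rw [e] at this
      exact b45_tail hrN (this (hin r hrN _))
    · replace a := (b45_ex_mk false o hrN.le hg).symm.trans a
      replace b := (b45_ex_mk false o hrN.le hg').symm.trans b
      have := hinj (b45mk hrN.le hg) (b45mk hrN.le hg') (by
        rw [a, b, if_pos rfl, if_pos rfl]
        exact (b45_hi_lt hrN g).trans (h ▸ (b45_hi_lt hrN g').symm))
      exact congrArg (fun e => (b45pr e).2) this
    · replace a := (b45_ex_mk (N := N) false o hrN hg).symm.trans a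
      replace b := (b45_ex_mk (N := N) false o hrN hg').symm.trans b
      have := hinj (b45mk (N := N) hrN hg) (b45mk (N := N) hrN hg') (by
        rw [a, b, if_neg Bool.false_ne_true, if_neg Bool.false_ne_true]
        exact (b45_lo_succ r g).trans (h ▸ (b45_lo_succ r g').symm))
      exact congrArg (fun e => (b45pr e).2) this
    · replace a := (b45_ex_mk false o hrN.le hg).symm.trans a
      replace b := (b45_ex_mk (N := N) false o hrN hg').symm.trans b
      have := hinj (b45mk hrN.le hg) (b45mk (N := N) hrN hg') (by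
        rw [a, b, if_pos rfl, if_neg Bool.false_ne_true]
        exact (b45_hi_lt hrN g).trans (h ▸ (b45_lo_succ r g').symm))
      have h3 : r = r + 1 := congrArg (fun e => (b45pr e).1) this
      omega
  choose! m hm using hloc
  have hb : ∀ c, c ≤ 1 → ((0, c) : ℕ × ℕ) = (0, 0) ∨
      ((0, c) : ℕ × ℕ) = (if k then (0, 1) else (N + 1, 1)) → b45ex false o (0, c) = true := by
    intro c hc hrt
    have hg : c ≤ wid 0 := by rw [hS.w0]; exact hc
    rw [b45_ex_mk _ _ (Nat.zero_le N) hg]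
    by_contra hn
    have := hr (b45mk (Nat.zero_le N) hg)
    rw [if_neg hn] at this
    exact this hrt
  have ht : ∀ c, c ≤ 1 → ¬ (((N + 1, c) : ℕ × ℕ) = (0, 0) ∨
      ((N + 1, c) : ℕ × ℕ) = (if k then (0, 1) else (N + 1, 1))) →
      b45ex false o (N, c) = true := by
    intro c hc hrt
    have hg : c ≤ wid N := by rw [hS.wN]; exact hc
    have e : b45hi N sl μ (b45pr (b45mk le_rfl hg)) = (N + 1, c) := by
      simp [b45hi, b45pr, b45mk]
    have := hhi (b45mk le_rfl hg)
    rw [e] at this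
    obtain ⟨e', he⟩ := this hrt
    have h3 := b45_le e'
    have h4 := b45_ex_pr false o e'
    generalize b45pr e' = a at he h3 h4
    obtain ⟨r', g⟩ := a
    cases ho : o e'
    · rw [ho, if_neg Bool.false_ne_true] at he
      have h5 : r' = N + 1 := congrArg Prod.fst he
      have := h3.1
      omega
    · rw [ho, if_pos rfl] at he
      obtain rfl : r' = N := Nat.add_right_cancel (congrArg Prod.fst he)
      obtain rfl : g = c := by simpa [b45hi] using he
      rw [h4, ho]
  refine ⟨m, ⟨fun r g => b45ex false o (r, g), hb 0 (by omega) (Or.inl rfl), ?_,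
    ht 0 (by omega) (by cases k <;> simp), ?_, fun r hrN => (hm r hrN).1⟩,
    fun r hrN => (hm r hrN).2⟩
  · cases k
    · have hg : 1 ≤ wid 0 := hS.w0.ge
      have e : b45lo sl μ (b45pr (b45mk (Nat.zero_le N) hg)) = (0, 1) := rfl
      have := hlo (b45mk (Nat.zero_le N) hg)
      rw [e] at this
      obtain ⟨e', he⟩ := this (by simp)
      have h4 := b45_ex_pr false o e'
      generalize b45pr e' = a at he h4
      obtain ⟨r', g⟩ := a
      cases ho : o e'
      · rw [ho, if_neg Bool.false_ne_true] at he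
        obtain rfl : r' = 0 := congrArg Prod.fst he
        obtain rfl : g = 1 := by simpa [b45lo] using he
        exact h4.trans ho
      · rw [ho, if_pos rfl] at he
        have h5 : r' + 1 = 0 := congrArg Prod.fst he
        omega
    · exact hb 1 le_rfl (Or.inr rfl)
  · cases k
    · have hg : 1 ≤ wid N := hS.wN.ge
      show b45ex false o (N, 1) = false
      rw [b45_ex_mk _ _ le_rfl hg]
      by_contra hn
      have := hr (b45mk le_rfl hg)
      rw [if_pos (by simpa using hn)] at this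
      exact this (Or.inr (by simp [b45hi, b45pr, b45mk]))
    · exact ht 1 le_rfl (by simp)

theorem b45_step (hS : Shape N sl wid) {k : Bool} {m : ℕ → Fin 4} (h : St N sl wid k m)
    (ha : Adj N sl μ m) (h3 : T3 N sl wid μ) {n : ℕ} {g : ℕ × ℕ → ℤ} (hf : SFlow N sl wid g)
    (hm : MZero N sl μ g) (h0 : g (0, 0) = 0) (hne : ∃ a, Val N wid a ∧ g a ≠ 0)
    (hn : ∀ a, Val N wid a → a.2 < n → g a = 0) :
    ∃ g', SFlow N sl wid g' ∧ MZero N sl μ g' ∧ g' (0, 0) = 0 ∧ (∃ a, Val N wid a ∧ g' a ≠ 0) ∧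
      ∀ a, Val N wid a → a.2 < n + 1 → g' a = 0 := by
  obtain ⟨f, -, -, -, -, hloc⟩ := h
  obtain ⟨w, hw⟩ : ∃ w : ℕ × ℕ → ℤ, w = fun a => ∑ p ∈ range a.2, g (a.1, p) := ⟨_, rfl⟩
  have hj : JC N sl wid μ w := hw ▸ jc_of_flow hS hf hm
  have hw0 : ∀ r, w (r, 0) = 0 := fun r => by simp [hw]
  have hwe : ∀ r ≤ N, w (r, wid r) = 0 := fun r hr => by
    rw [hw]
    exact (flux hS hf r hr).trans h0
  have hmid : ∀ r ≤ N, ∀ c ≤ wid r, w (r, c) ≠ 0 → 0 < r ∧ r < N := by
    intro r hr c hc hne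
    have hc0 : c ≠ 0 := fun h => hne (h ▸ hw0 r)
    have hc1 : c ≠ wid r := fun h => hne (h ▸ hwe r hr)
    have h1 := hS.w0
    have h2 := hS.wN
    constructor
    · rcases Nat.eq_zero_or_pos r with rfl | h
      · omega
      · exact h
    · rcases Nat.lt_or_eq_of_le hr with h | rfl
      · exact h
      · omega
  have hout : ∀ r < N, ∀ j, ∀ v : ℤ, v ≠ 0 →
      (∀ c ≤ wid r, jb (sl r) (μ r) c = j → w (r, c) = v) →
      (∀ c ≤ wid (r + 1), ja (sl r) (μ r) c = j → w (r + 1, c) = v) →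
      HasOut (sl r) (μ r) (wid r) (wid (r + 1)) (f r) (f (r + 1)) j →
      ∃ e' : b45E N wid, w (b45pr e') ≠ 0 ∧ (if f (b45pr e').1 (b45pr e').2 then
        b45hi N sl μ (b45pr e') else b45lo sl μ (b45pr e')) = (r + 1, j) := by
    rintro r hr j v hv hb ha' (⟨c, hc, hcj, hfc⟩ | ⟨c, hc, hcj, hfc⟩)
    · refine ⟨b45mk hr.le hc, (hb c hc hcj).trans_ne hv, ?_⟩
      show (if f r c then b45hi N sl μ (r, c) else b45lo sl μ (r, c)) = _
      rw [hfc, if_pos rfl, b45_hi_lt hr, hcj]
    · refine ⟨b45mk (N := N) hr hc, (ha' c hc hcj).trans_ne hv, ?_⟩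
      show (if f (r + 1) c then b45hi N sl μ (r + 1, c) else b45lo sl μ (r + 1, c)) = _
      rw [hfc, if_neg Bool.false_ne_true, b45_lo_succ, hcj]
  have hex : ∀ r < N, OEx (sl r) (μ r) (wid r) (wid (r + 1)) (f r) (f (r + 1)) := fun r hr =>
    oex_of_floc (hS.fit r hr) (hS.step r hr) (hloc r hr) (ha r hr)
  obtain ⟨η, hη, hs, hW⟩ := flow_exists (E := b45E N wid) (fun e => b45lo sl μ (b45pr e))
    (fun e => b45hi N sl μ (b45pr e)) (fun e => f (b45pr e).1 (b45pr e).2)
    (fun e => w (b45pr e) ≠ 0) (by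
      obtain ⟨⟨r, c⟩, ⟨hr, hc⟩, hg⟩ := hne
      dsimp only at hr hc
      have e : w (r, c + 1) = w (r, c) + g (r, c) := by simp [hw, Finset.sum_range_succ]
      by_cases h : w (r, c) = 0
      · refine ⟨b45mk hr (Nat.succ_le_of_lt hc), ?_⟩
        show w (r, c + 1) ≠ 0
        rw [e, h, zero_add]
        exact hg
      · exact ⟨b45mk hr hc.le, h⟩) (by
      intro e he
      obtain ⟨hr, hc⟩ := b45_le e
      generalize b45pr e = a at he hr hc
      obtain ⟨r, c⟩ := a
      dsimp only at hr hc ⊢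
      obtain ⟨h1, h2⟩ := hmid r hr c hc he
      cases hfc : f r c
      · rw [if_neg Bool.false_ne_true, b45_hi_lt h2]
        exact hout r h2 _ _ he (fun c' hc' h => (hj r h2).1 c' hc' c hc h)
          (fun c' hc' h => ((hj r h2).2.2 c hc c' hc' h.symm).symm) ((hex r h2).1 c hc)
      · obtain ⟨r, rfl⟩ : ∃ r', r = r' + 1 := ⟨r - 1, by omega⟩
        rw [if_pos rfl, b45_lo_succ]
        exact hout r hr _ _ he (fun c' hc' h => (hj r hr).2.2 c' hc' c hc h)
          (fun c' hc' h => (hj r hr).2.1 c' hc' c hc h) ((hex r hr).2 c hc))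
  have hd : DFlow N sl wid μ (b45ex 0 η) := b45_dflow fun r _ W => hW _
  have hz : ∀ r ≤ N, ∀ c ≤ wid r, w (r, c) = 0 → b45ex 0 η (r, c) = 0 := by
    intro r hr c hc h
    rw [b45_ex_mk _ _ hr hc]
    by_contra hn
    exact hs _ hn h
  obtain ⟨hp, -⟩ := pot_of_dflow hS hd
  have hu0 : ∀ r ≤ N, ∑ c ∈ range (0 + 1), b45ex 0 η (r, c) = 0 := fun r hr => by
    rw [Finset.sum_range_one]
    exact hz r hr 0 (Nat.zero_le _) (hw0 r)
  obtain ⟨g', hf', hm', hne', hs'⟩ := h3 _ hp (hu0 0 (Nat.zero_le _)) (hu0 N le_rfl) (by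
    by_contra hn
    push Not at hn
    obtain ⟨e, he⟩ := hη
    apply he
    rw [← b45_ex_pr 0 η e]
    obtain ⟨hr, hc⟩ := b45_le e
    generalize b45pr e = a at hr hc
    obtain ⟨r, c⟩ := a
    rcases Nat.lt_or_eq_of_le hc with hc' | hc'
    · exact b45_part hn hr hc'
    · dsimp only at hr hc hc'
      exact hz r hr c hc (hc' ▸ hwe r hr))
  refine ⟨g', hf', hm', ?_, hne', fun a hv hlt => ?_⟩
  · by_contra hn'
    exact hs' (0, 0) ⟨Nat.zero_le _, by rw [hS.w0]; omega⟩ hn' (hu0 0 (Nat.zero_le _))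
  · by_contra hn'
    refine hs' a hv hn' (Finset.sum_eq_zero fun c hc => ?_)
    have hc' := Finset.mem_range.mp hc
    have h1 := hv.2
    refine hz _ hv.1 c (by omega) ?_
    rw [hw]
    refine Finset.sum_eq_zero fun p hp => ?_
    have hp' : p < c := Finset.mem_range.mp hp
    exact hn (a.1, p) ⟨hv.1, by dsimp only; omega⟩ (by dsimp only; omega)

theorem t1_of_st (hS : Shape N sl wid) {k : Bool} {m : ℕ → Fin 4} (h : St N sl wid k m)
    (ha : Adj N sl μ m) (h3 : T3 N sl wid μ) : T1 N sl wid μ := by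
  intro g hf hm h0
  by_contra hne
  push Not at hne
  have hP : ∀ n, ∃ g', SFlow N sl wid g' ∧ MZero N sl μ g' ∧ g' (0, 0) = 0 ∧
      (∃ a, Val N wid a ∧ g' a ≠ 0) ∧ ∀ a, Val N wid a → a.2 < n → g' a = 0 := by
    intro n
    induction n with
    | zero => exact ⟨g, hf, hm, h0, hne, fun a _ h => absurd h (Nat.not_lt_zero _)⟩
    | succ n ih =>
      obtain ⟨g', a, b, c, d, e⟩ := ih
      exact b45_step hS h ha h3 a b c d e
  obtain ⟨g', -, -, -, ⟨a, hv, hg⟩, hz⟩ := hP (∑ r ∈ range (N + 1), wid r)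
  exact hg (hz a hv (hv.2.trans_le (Finset.single_le_sum (f := wid) (fun _ _ => Nat.zero_le _)
    (Finset.mem_range.mpr (Nat.lt_succ_of_le hv.1)))))

end Pool.Agent.P.MP_9ed2cf_gt.Nz
end

-- part Pool.Agent.P.MP_9ed2cf_gt.NzSupp
section

set_option autoImplicit false

namespace Pool.Agent.P.MP_9ed2cf_gt.Nz

open Finset Pool.Agent.P.MP_9ed2cf_gt.H14

theorem supp_rows {l l' : List (Bool × Bool)} {D : List Slice} (h : AltRun l D l') :
    ∃ R : ℕ → List (Bool × Bool), R 0 = l ∧ R D.length = l' ∧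
      ∀ r < D.length, (D.getD r (.cap 0 false)).Alt (R r) (R (r + 1)) := by
  induction h with
  | nil l => exact ⟨fun _ => l, rfl, rfl, fun r hr => absurd hr (by simp)⟩
  | @cons l l1 l2 s D hs _ ih =>
    obtain ⟨R, h0, hN, hR⟩ := ih
    refine ⟨fun r => Nat.casesOn r l R, rfl, hN, fun r hr => ?_⟩
    cases r with
    | zero => simpa [h0] using hs
    | succ r => simpa using hR r (by simpa using hr)

theorem supp_gl {α : Type} (p q : List α) (d : α) {g : ℕ} (h : g < p.length) :
    (p ++ q).getD g d = p.getD g d := by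
  simp [List.getD_eq_getElem?_getD, List.getElem?_append_left h]

theorem supp_gr {α : Type} (p q : List α) (d : α) (j : ℕ) :
    (p ++ q).getD (p.length + j) d = q.getD j d := by
  simp [List.getD_eq_getElem?_getD, List.getElem?_append_right]

theorem supp_gr0 {α : Type} (p q : List α) (d : α) :
    (p ++ q).getD p.length d = q.getD 0 d := supp_gr p q d 0

theorem rows_exists {D : List Slice} (h : IsAlternating D) :
    ∃ wid lab, Rows D.length (fun r => D.getD r (.cap 0 false)) wid lab := by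
  obtain ⟨b, h⟩ := h
  obtain ⟨R, h0, hN, hR⟩ := supp_rows h
  refine ⟨fun r => (R r).length, fun r p => (R r).getD p (false, false), ⟨by simp [h0],
    by simp [hN], ?_, ?_⟩, by simp [h0, hN], ?_, ?_, ?_, ?_, ?_⟩
  · intro r hr
    have := hR r hr
    revert this
    cases D.getD r (.cap 0 false) <;> simp only [Slice.Alt, ps, kb]
    · rintro ⟨p, q, rfl, h1, -⟩; simp [h1]
    · rintro ⟨p, q, c, rfl, h1, -⟩; simp [h1]
    · rintro ⟨p, q, c, rfl, h1, -⟩; simp [h1]
  · intro r hr
    have := hR r hr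
    revert this
    cases D.getD r (.cap 0 false) <;> simp only [Slice.Alt, ka, kb]
    · rintro ⟨p, q, rfl, h1, h2⟩; simp [h1, h2]
    · rintro ⟨p, q, c, rfl, h1, h2⟩; simp [h1, h2]; omega
    · rintro ⟨p, q, c, rfl, h1, h2⟩; simp [h1, h2]; omega
  · intro r hr
    have := hR r hr
    revert this
    cases D.getD r (.cap 0 false) <;> simp only [Slice.Alt, ps]
    · rintro ⟨p, q, rfl, h1, h2⟩ g hg; rw [h1, h2]
    · rintro ⟨p, q, c, rfl, h1, h2⟩ g hg; rw [h1, h2, supp_gl _ _ _ hg, supp_gl _ _ _ hg]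
    · rintro ⟨p, q, c, rfl, h1, h2⟩ g hg; rw [h1, h2, supp_gl _ _ _ hg, supp_gl _ _ _ hg]
  · intro r hr
    have := hR r hr
    revert this
    cases D.getD r (.cap 0 false) <;> simp only [Slice.Alt, ps, ka, kb]
    · rintro ⟨p, q, rfl, h1, h2⟩ g hg; rw [h1, h2]
    · rintro ⟨p, q, c, rfl, h1, h2⟩ g hg
      obtain ⟨j, rfl⟩ := Nat.exists_eq_add_of_le hg
      rw [h1, h2, add_assoc, add_assoc, supp_gr, supp_gr]
      simp
    · rintro ⟨p, q, c, rfl, h1, h2⟩ g hg
      obtain ⟨j, rfl⟩ := Nat.exists_eq_add_of_le hg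
      rw [h1, h2, add_assoc, add_assoc, supp_gr, supp_gr]
      simp
  · intro r hr i e hs
    have := hR r hr
    rw [show D.getD r (.cap 0 false) = _ from hs] at this
    obtain ⟨p, q, rfl, h1, h2⟩ := this
    simp only [h1, h2, supp_gr, supp_gr0]
    simp
  · intro r hr i e hs
    have := hR r hr
    rw [show D.getD r (.cap 0 false) = _ from hs] at this
    obtain ⟨p, q, c, rfl, h1, h2⟩ := this
    refine ⟨c, ?_⟩
    simp only [h2, supp_gr, supp_gr0]
    simp
  · intro r hr i e hs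
    have := hR r hr
    rw [show D.getD r (.cap 0 false) = _ from hs] at this
    obtain ⟨p, q, c, rfl, h1, h2⟩ := this
    refine ⟨c, ?_⟩
    simp only [h1, supp_gr, supp_gr0]
    simp

theorem supp_A (t y : List Face) {i a b w : ℕ} (hl : t.length = w + 1) (hf : i + b ≤ w)
    (hy : y.length = a + 1) :
    (t.take i ++ (y ++ t.drop (i + b + 1))).length + b = w + 1 + a ∧
    (∀ g < i, (t.take i ++ (y ++ t.drop (i + b + 1))).getD g ff = t.getD g ff) ∧
    (∀ g, i < g → (t.take i ++ (y ++ t.drop (i + b + 1))).getD (g + a) ff = t.getD (g + b) ff) ∧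
    ∀ j ≤ a, (t.take i ++ (y ++ t.drop (i + b + 1))).getD (i + j) ff = y.getD j ff := by
  have hi : (t.take i).length = i := by simp; omega
  refine ⟨by simp; omega, fun g hg => ?_, fun g hg => ?_, fun j hj => ?_⟩
  · rw [supp_gl _ _ _ (by omega)]
    simp [List.getD_eq_getElem?_getD, hg]
  · obtain ⟨j, rfl⟩ := Nat.exists_eq_add_of_lt hg
    have e1 : i + j + 1 + a = (t.take i).length + (y.length + j) := by omega
    rw [e1, supp_gr, supp_gr]
    simp only [List.getD_eq_getElem?_getD, List.getElem?_drop]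
    congr 2
    omega
  · have e1 : i + j = (t.take i).length + j := by omega
    rw [e1, supp_gr, supp_gl _ _ _ (by omega)]

theorem supp_ext {t t' : List Face} (hl : t.length = t'.length)
    (h : ∀ g < t.length, t.getD g ff = t'.getD g ff) : t = t' := by
  refine List.ext_getElem hl fun g h1 h2 => ?_
  have := h g h1
  rwa [List.getD_eq_getElem _ _ h1, List.getD_eq_getElem _ _ h2] at this

theorem supp_B (t y t' : List Face) {i a b w : ℕ} (hl : t.length = w + 1) (hf : i + b ≤ w)
    (hy : y.length = a + 1) (h0 : t'.length + b = w + 1 + a)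
    (h1 : ∀ g < i, t'.getD g ff = t.getD g ff)
    (h2 : ∀ g, i < g → g + b ≤ w → t'.getD (g + a) ff = t.getD (g + b) ff)
    (h3 : ∀ j ≤ a, t'.getD (i + j) ff = y.getD j ff) :
    t' = t.take i ++ (y ++ t.drop (i + b + 1)) := by
  obtain ⟨k0, k1, k2, k3⟩ := supp_A t y hl hf hy
  refine supp_ext (by omega) fun g hg => ?_
  by_cases c1 : g < i
  · rw [h1 g c1, k1 g c1]
  by_cases c2 : g ≤ i + a
  · obtain ⟨j, rfl⟩ := Nat.exists_eq_add_of_le (not_lt.1 c1)
    rw [h3 j (by omega), k3 j (by omega)]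
  · obtain ⟨j, rfl⟩ : ∃ j, g = j + a := ⟨g - a, by omega⟩
    rw [h2 j (by omega) (by omega), k2 j (by omega)]

theorem supp_sum {ι : Type} [Fintype ι] (F : ι → AddMonoidAlgebra ℕ (ℤ × ℤ)) (e : ℤ × ℤ) :
    (∑ i, F i).coeff e ≠ 0 ↔ ∃ i, (F i).coeff e ≠ 0 := by
  rw [AddMonoidAlgebra.coeff_sum, Finsupp.finsetSum_apply, Ne, Finset.sum_eq_zero_iff]
  simp

theorem supp_single (c : Bool) (a : ℤ × ℤ) (F : AddMonoidAlgebra ℕ (ℤ × ℤ)) (e : ℤ × ℤ) :
    ((if c = true then AddMonoidAlgebra.single a 1 else 0) * F).coeff e ≠ 0 ↔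
      c = true ∧ F.coeff (e - a) ≠ 0 := by
  cases c
  · simp
  · simp [sub_eq_neg_add]

theorem supp_one (c : Bool) (F : AddMonoidAlgebra ℕ (ℤ × ℤ)) (e : ℤ × ℤ) :
    ((if c = true then 1 else 0) * F).coeff e ≠ 0 ↔ c = true ∧ F.coeff e ≠ 0 := by
  cases c <;> simp

theorem supp_one' (c : Bool) (F : AddMonoidAlgebra ℕ (ℤ × ℤ)) (e : ℤ × ℤ) :
    ((if c = true then 0 else 1) * F).coeff e ≠ 0 ↔ c = false ∧ F.coeff e ≠ 0 := by
  cases c <;> simp

theorem supp_step (κ : Bool → Bool → Bool → ℤ × ℤ) (s : Slice)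
    (G : List Face → AddMonoidAlgebra ℕ (ℤ × ℤ)) {w : ℕ} {t : List Face} (hl : t.length = w + 1)
    (hf : ps s + kb s ≤ w) (e : ℤ × ℤ) :
    (fstep (fun a b c => (AddMonoidAlgebra.single (κ a b c) 1 : AddMonoidAlgebra ℕ (ℤ × ℤ)))
        s G t).coeff e ≠ 0 ↔
      ∃ (mx my : Fin 4) (t' : List Face), t'.length + kb s = w + 1 + ka s ∧
        FLoc s w mx (fun g => (t.getD g ff).1) (fun g => (t'.getD g ff).1) ∧
        FLoc s w my (fun g => (t.getD g ff).2) (fun g => (t'.getD g ff).2) ∧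
        (G t').coeff (e - wt κ s mx my) ≠ 0 := by
  cases s with
  | cross i pos =>
    simp only [fstep, fcross, supp_sum, supp_single, FLoc, ps, kb, ka, wt] at hf ⊢
    constructor
    · rintro ⟨mx, my, hc, hG⟩
      rw [Bool.and_eq_true] at hc
      obtain ⟨k0, k1, k2, k3⟩ := supp_A t [(outL mx (t.getD i ff).1, outL my (t.getD i ff).2),
        (outT mx, outT my), (outR mx (t.getD (i + 2) ff).1, outR my (t.getD (i + 2) ff).2)]
        (a := 2) hl hf rfl
      have a0 := k3 0 (by omega)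
      have a1 := k3 1 (by omega)
      have a2 := k3 2 (by omega)
      rw [add_zero] at a0
      exact ⟨mx, my, _, k0, ⟨fun g hg => by rw [k1 g hg], fun g hg _ => by rw [k2 g hg], hc.1,
        by rw [a0]; rfl, by rw [a1]; rfl, by rw [a2]; rfl⟩, ⟨fun g hg => by rw [k1 g hg],
        fun g hg _ => by rw [k2 g hg], hc.2, by rw [a0]; rfl, by rw [a1]; rfl, by rw [a2]; rfl⟩,
        hG⟩
    · rintro ⟨mx, my, t', h0, ⟨x1, x2, x3, x4, x5, x6⟩, ⟨y1, y2, y3, y4, y5, y6⟩, hG⟩
      refine ⟨mx, my, by rw [x3, y3]; rfl, ?_⟩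
      have := supp_B t [(outL mx (t.getD i ff).1, outL my (t.getD i ff).2),
        (outT mx, outT my), (outR mx (t.getD (i + 2) ff).1, outR my (t.getD (i + 2) ff).2)] t'
        (a := 2) hl hf rfl h0 (fun g hg => Prod.ext (x1 g hg) (y1 g hg))
        (fun g hg hg' => Prod.ext (x2 g hg hg') (y2 g hg hg')) (fun j hj => by
          interval_cases j
          · exact Prod.ext x4 y4
          · exact Prod.ext x5 y5
          · exact Prod.ext x6 y6)
      rw [this] at hG
      exact hG
  | cup i d =>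
    simp only [fstep, fcup, supp_sum, supp_one', FLoc, ps, kb, ka, wt, sub_zero] at hf ⊢
    constructor
    · rintro ⟨z, hc, hG⟩
      rw [clash, Bool.or_eq_false_iff] at hc
      obtain ⟨k0, k1, k2, k3⟩ := supp_A t [orF (t.getD i ff) (!z.1, !z.2), ff,
        orF (t.getD i ff) z] (a := 2) hl hf rfl
      have a0 := k3 0 (by omega)
      have a1 := k3 1 (by omega)
      have a2 := k3 2 (by omega)
      rw [add_zero] at a0
      exact ⟨0, 0, _, k0, ⟨fun g hg => by rw [k1 g hg], fun g hg _ => by rw [k2 g hg],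
        by rw [a1]; rfl, z.1, hc.1, by rw [a0]; rfl, by rw [a2]; rfl⟩,
        ⟨fun g hg => by rw [k1 g hg], fun g hg _ => by rw [k2 g hg],
        by rw [a1]; rfl, z.2, hc.2, by rw [a0]; rfl, by rw [a2]; rfl⟩, hG⟩
    · rintro ⟨mx, my, t', h0, ⟨x1, x2, x3, z1, x4, x5, x6⟩, ⟨y1, y2, y3, z2, y4, y5, y6⟩, hG⟩
      refine ⟨(z1, z2), by rw [clash, x4, y4]; rfl, ?_⟩
      have := supp_B t [orF (t.getD i ff) (!z1, !z2), ff, orF (t.getD i ff) (z1, z2)] t'
        (a := 2) hl hf rfl h0 (fun g hg => Prod.ext (x1 g hg) (y1 g hg))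
        (fun g hg hg' => Prod.ext (x2 g hg hg') (y2 g hg hg')) (fun j hj => by
          interval_cases j
          · exact Prod.ext x5 y5
          · exact Prod.ext x3 y3
          · exact Prod.ext x6 y6)
      rw [this] at hG
      exact hG
  | cap i d =>
    simp only [fstep, fcap, supp_one, FLoc, ps, kb, ka, wt, sub_zero] at hf ⊢
    constructor
    · rintro ⟨hc, hG⟩
      simp only [clash, Bool.and_eq_true, decide_eq_true_eq, Bool.not_eq_true',
        Bool.or_eq_false_iff] at hc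
      obtain ⟨k0, k1, k2, k3⟩ := supp_A t [orF (t.getD i ff) (t.getD (i + 2) ff)] (a := 0)
        hl hf rfl
      have a0 := k3 0 (by omega)
      rw [add_zero] at a0
      exact ⟨0, 0, _, k0, ⟨fun g hg => by rw [k1 g hg], fun g hg _ => by rw [k2 g hg],
        by rw [hc.1]; rfl, hc.2.1, by rw [a0]; rfl⟩,
        ⟨fun g hg => by rw [k1 g hg], fun g hg _ => by rw [k2 g hg],
        by rw [hc.1]; rfl, hc.2.2, by rw [a0]; rfl⟩, hG⟩
    · rintro ⟨mx, my, t', h0, ⟨x1, x2, x3, x4, x5⟩, ⟨y1, y2, y3, y4, y5⟩, hG⟩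
      have hB : t.getD (i + 1) ff = tt := Prod.ext x3 y3
      refine ⟨by rw [clash, x4, y4, hB]; rfl, ?_⟩
      have := supp_B t [orF (t.getD i ff) (t.getD (i + 2) ff)] t'
        (a := 0) hl hf rfl h0 (fun g hg => Prod.ext (x1 g hg) (y1 g hg))
        (fun g hg hg' => Prod.ext (x2 g hg hg') (y2 g hg hg')) (fun j hj => by
          interval_cases j
          exact Prod.ext x5 y5)
      rw [this] at hG
      exact hG

theorem supp_congr {s : Slice} {w w' : ℕ} {m : Fin 4} {f f' h h' : ℕ → Bool}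
    (hf : ps s + kb s ≤ w) (hs : w' + kb s = w + ka s) (e : ∀ g ≤ w, f g = h g)
    (e' : ∀ g ≤ w', f' g = h' g) (H : FLoc s w m f f') : FLoc s w m h h' := by
  obtain ⟨h1, h2, h3⟩ := H
  refine ⟨fun g hg => ?_, fun g hg hg' => ?_, ?_⟩
  · rw [← e g (by omega), ← e' g (by omega), h1 g hg]
  · rw [← e _ hg', ← e' _ (by omega), h2 g hg hg']
  · cases s with
    | cross i pos =>
      simp only [ps, kb, ka] at hf hs h3 ⊢
      rw [← e i (by omega), ← e (i + 1) (by omega), ← e (i + 2) (by omega), ← e' i (by omega),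
        ← e' (i + 1) (by omega), ← e' (i + 2) (by omega)]
      exact h3
    | cup i d =>
      simp only [ps, kb, ka] at hf hs h3 ⊢
      rw [← e i (by omega), ← e' i (by omega), ← e' (i + 1) (by omega), ← e' (i + 2) (by omega)]
      exact h3
    | cap i d =>
      simp only [ps, kb, ka] at hf hs h3 ⊢
      rw [← e i (by omega), ← e (i + 1) (by omega), ← e (i + 2) (by omega), ← e' i (by omega)]
      exact h3

theorem supp_gen (κ : Bool → Bool → Bool → ℤ × ℤ) (u : List Face) (D : List Slice) :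
    ∀ (wid : ℕ → ℕ) (t : List Face) (e : ℤ × ℤ), t.length = wid 0 + 1 →
    u.length = wid D.length + 1 →
    (∀ r < D.length, ps (D.getD r (.cap 0 false)) + kb (D.getD r (.cap 0 false)) ≤ wid r) →
    (∀ r < D.length, wid (r + 1) + kb (D.getD r (.cap 0 false)) =
      wid r + ka (D.getD r (.cap 0 false))) →
    ((frun (fun a b c => (AddMonoidAlgebra.single (κ a b c) 1 : AddMonoidAlgebra ℕ (ℤ × ℤ)))
        (fun t => if t = u then 1 else 0) D t).coeff e ≠ 0 ↔
      ∃ (mx my : ℕ → Fin 4) (f h : ℕ → ℕ → Bool),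
        (∀ g ≤ wid 0, f 0 g = (t.getD g ff).1 ∧ h 0 g = (t.getD g ff).2) ∧
        (∀ g ≤ wid D.length, f D.length g = (u.getD g ff).1 ∧ h D.length g = (u.getD g ff).2) ∧
        (∀ r < D.length, FLoc (D.getD r (.cap 0 false)) (wid r) (mx r) (f r) (f (r + 1)) ∧
          FLoc (D.getD r (.cap 0 false)) (wid r) (my r) (h r) (h (r + 1))) ∧
        e = ∑ r ∈ range D.length, wt κ (D.getD r (.cap 0 false)) (mx r) (my r)) := by
  induction D with
  | nil =>
    intro wid t e ht hu _ _
    simp only [frun, List.length_nil, range_zero, sum_empty] at hu ⊢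
    constructor
    · intro h
      by_cases c : t = u
      · subst c
        refine ⟨fun _ => 0, fun _ => 0, fun _ g => (t.getD g ff).1, fun _ g => (t.getD g ff).2,
          fun _ _ => ⟨rfl, rfl⟩, fun _ _ => ⟨rfl, rfl⟩, fun r hr => absurd hr (by simp), ?_⟩
        by_contra he
        apply h
        simp [AddMonoidAlgebra.one_def, Ne.symm he]
      · simp [c] at h
    · rintro ⟨_, _, f, h, h1, h2, -, rfl⟩
      have : t = u := supp_ext (by omega) fun g hg => Prod.ext
        ((h1 g (by omega)).1.symm.trans (h2 g (by omega)).1)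
        ((h1 g (by omega)).2.symm.trans (h2 g (by omega)).2)
      simp [this]
  | cons s D ih =>
    intro wid t e ht hu hf hs
    have hf0 : ps s + kb s ≤ wid 0 := hf 0 (by simp)
    have hs0 : wid 1 + kb s = wid 0 + ka s := hs 0 (by simp)
    have ih' := fun (t' : List Face) (e' : ℤ × ℤ) (h : t'.length = wid 1 + 1) =>
      ih (fun r => wid (r + 1)) t' e' h hu (fun r hr => hf (r + 1) (by simpa using hr))
        (fun r hr => hs (r + 1) (by simpa using hr))
    rw [frun, supp_step κ s _ ht hf0]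
    simp only [List.length_cons, sum_range_succ', List.getD_cons_succ, List.getD_cons_zero]
    constructor
    · rintro ⟨m1, m2, t', h0, x, y, hG⟩
      obtain ⟨mx, my, f, h, h1, h2, h3, h4⟩ := (ih' t' _ (by omega)).1 hG
      refine ⟨fun r => Nat.casesOn r m1 mx, fun r => Nat.casesOn r m2 my,
        fun r => Nat.casesOn r (fun g => (t.getD g ff).1) f,
        fun r => Nat.casesOn r (fun g => (t.getD g ff).2) h, fun _ _ => ⟨rfl, rfl⟩, h2,
        fun r hr => ?_, sub_eq_iff_eq_add.1 h4⟩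
      cases r with
      | zero =>
        exact ⟨supp_congr hf0 hs0 (fun _ _ => rfl) (fun g hg => (h1 g hg).1.symm) x,
          supp_congr hf0 hs0 (fun _ _ => rfl) (fun g hg => (h1 g hg).2.symm) y⟩
      | succ r => exact h3 r (by omega)
    · rintro ⟨mx, my, f, h, h1, h2, h3, h4⟩
      let t' : List Face := List.ofFn fun g : Fin (wid 1 + 1) => (f 1 g, h 1 g)
      have hl : t'.length = wid 1 + 1 := List.length_ofFn
      have hg : ∀ g ≤ wid 1, t'.getD g ff = (f 1 g, h 1 g) := fun g hg => by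
        rw [List.getD_eq_getElem _ _ (by omega)]
        exact List.getElem_ofFn _
      have h30 := h3 0 (by omega)
      refine ⟨mx 0, my 0, t', by omega,
        supp_congr hf0 hs0 (fun g c => (h1 g c).1) (fun g c => by rw [hg g c]) h30.1,
        supp_congr hf0 hs0 (fun g c => (h1 g c).2) (fun g c => by rw [hg g c]) h30.2,
        (ih' t' _ hl).2 ⟨fun r => mx (r + 1), fun r => my (r + 1), fun r => f (r + 1),
          fun r => h (r + 1), fun g c => by rw [hg g c]; exact ⟨rfl, rfl⟩, h2,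
          fun r hr => h3 (r + 1) (by omega), sub_eq_iff_eq_add.2 h4⟩⟩

theorem supp_iff {D : List Slice} {wid : ℕ → ℕ}
    (hS : Shape D.length (fun r => D.getD r (.cap 0 false)) wid)
    (κ : Bool → Bool → Bool → ℤ × ℤ) (k : Face) (e : ℤ × ℤ) :
    (frun (fun a b c => (AddMonoidAlgebra.single (κ a b c) 1 : AddMonoidAlgebra ℕ (ℤ × ℤ)))
        (fun t => if t = [tt, k] then 1 else 0) D [tt, k]).coeff e ≠ 0 ↔
      ∃ mx my, St D.length (fun r => D.getD r (.cap 0 false)) wid k.1 mx ∧
        St D.length (fun r => D.getD r (.cap 0 false)) wid k.2 my ∧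
        e = ∑ r ∈ range D.length, wt κ (D.getD r (.cap 0 false)) (mx r) (my r) := by
  rw [supp_gen κ [tt, k] D wid [tt, k] e (by rw [hS.w0]; rfl) (by rw [hS.wN]; rfl) hS.fit hS.step,
    hS.w0, hS.wN]
  constructor
  · rintro ⟨mx, my, f, h, h1, h2, h3, h4⟩
    exact ⟨mx, my, ⟨f, (h1 0 (by omega)).1, (h1 1 le_rfl).1, (h2 0 (by omega)).1, (h2 1 le_rfl).1,
      fun r hr => (h3 r hr).1⟩, ⟨h, (h1 0 (by omega)).2, (h1 1 le_rfl).2, (h2 0 (by omega)).2,
      (h2 1 le_rfl).2, fun r hr => (h3 r hr).2⟩, h4⟩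
  · rintro ⟨mx, my, ⟨f, a1, a2, a3, a4, a5⟩, ⟨h, b1, b2, b3, b4, b5⟩, h4⟩
    refine ⟨mx, my, f, h, fun g hg => ?_, fun g hg => ?_, fun r hr => ⟨a5 r hr, b5 r hr⟩, h4⟩
    · interval_cases g
      exacts [⟨a1, b1⟩, ⟨a2, b2⟩]
    · interval_cases g
      exacts [⟨a3, b3⟩, ⟨a4, b4⟩]

end Pool.Agent.P.MP_9ed2cf_gt.Nz
end

-- part Pool.Agent.P.MP_9ed2cf_gt.NzGeo0
section

set_option autoImplicit false

namespace Pool.Agent.P.MP_9ed2cf_gt.Nz

open Finset Pool.Agent.P.MP_9ed2cf_gt.H14

variable {N : ℕ} {sl : ℕ → Slice} {wid : ℕ → ℕ} {lab : ℕ → ℕ → Bool × Bool}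

theorem g0_top (h : Rows N sl wid lab) (r p : ℕ) (hv : Val N wid (r, p)) :
    ∃ r' p', top N sl (r, p) = (r', p') ∧ Val N wid (r', p') ∧ (lab r' p').2 = (lab r p).2 ∧
      (((lab r' p').1 = (lab r p).1 ∧ bot N sl (r', p') = (r, p)) ∨
        ((lab r' p').1 = !(lab r p).1 ∧ top N sl (r', p') = (r, p))) := by
  obtain ⟨h1, h2⟩ := hv
  simp only at h1 h2
  by_cases hN : r = N
  · subst hN
    have hp : p = 0 := by have := h.wN; omega
    subst hp
    refine ⟨0, 0, by simp [top], ⟨by simp, by simp [h.w0]⟩, by rw [h.lN], Or.inl ⟨by rw [h.lN], by simp [bot]⟩⟩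
  have hr : r < N := lt_of_le_of_ne h1 hN
  have hf := h.fit r hr
  have hs := h.step r hr
  by_cases c1 : p < ps (sl r)
  · have e := h.left r hr p c1
    refine ⟨r + 1, p, by simp [top, hN, c1], ⟨hr, by simp only; omega⟩, by rw [e],
      Or.inl ⟨by rw [e], by simp [bot, c1]⟩⟩
  by_cases c2 : ps (sl r) + kb (sl r) ≤ p
  · have e := h.right r hr (p - kb (sl r)) (by omega)
    rw [show p - kb (sl r) + kb (sl r) = p by omega] at e
    refine ⟨r + 1, p - kb (sl r) + ka (sl r), by simp [top, hN, c1, c2], ⟨hr, by simp only; omega⟩,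
      by rw [e], Or.inl ⟨by rw [e], ?_⟩⟩
    have d1 : ¬ p - kb (sl r) + ka (sl r) < ps (sl r) := by omega
    have d2 : ps (sl r) + ka (sl r) ≤ p - kb (sl r) + ka (sl r) := by omega
    simp only [bot, Nat.add_one_ne_zero, if_false, Nat.add_sub_cancel, d1, d2, if_true]
    congr 1
    omega
  cases hsl : sl r with
  | cross i e =>
    obtain ⟨e1, e2, e3, e4⟩ := h.cross r hr i e hsl
    rw [hsl] at hf hs c1 c2
    simp only [ps, kb, ka] at hf hs c1 c2
    have e : lab (r + 1) p = lab r p := by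
      rcases (by omega : p = i ∨ p = i + 1) with rfl | rfl
      · rw [e1, e3]
      · rw [e2, e4]
    refine ⟨r + 1, p, by simp [top, hN, hsl, ps, kb, ka, c1, c2], ⟨hr, by simp only; omega⟩,
      by rw [e], Or.inl ⟨by rw [e], by simp [bot, hsl, ps, kb, ka, c1, c2]⟩⟩
  | cup i d =>
    rw [hsl] at c1 c2
    simp only [ps, kb] at c1 c2
    omega
  | cap i d =>
    obtain ⟨β, e1, e2⟩ := h.cap r hr i d hsl
    rw [hsl] at hf hs c1 c2
    simp only [ps, kb, ka] at hf hs c1 c2
    rcases (by omega : p = i ∨ p = i + 1) with rfl | rfl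
    · refine ⟨r, p + 1, by simp [top, hN, hsl, ps, kb, ka], ⟨h1, by simp only; omega⟩,
        by rw [e1, e2], Or.inr ⟨by rw [e1, e2], by simp [top, hN, hsl, ps, kb, ka]⟩⟩
    · refine ⟨r, i, by simp [top, hN, hsl, ps, kb, ka], ⟨h1, by simp only; omega⟩,
        by rw [e1, e2], Or.inr ⟨by rw [e1, e2]; simp, by simp [top, hN, hsl, ps, kb, ka]⟩⟩

theorem g0_bot (h : Rows N sl wid lab) (r p : ℕ) (hv : Val N wid (r, p)) :
    ∃ r' p', bot N sl (r, p) = (r', p') ∧ Val N wid (r', p') ∧ (lab r' p').2 = (lab r p).2 ∧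
      (((lab r' p').1 = (lab r p).1 ∧ top N sl (r', p') = (r, p)) ∨
        ((lab r' p').1 = !(lab r p).1 ∧ bot N sl (r', p') = (r, p))) := by
  obtain ⟨h1, h2⟩ := hv
  simp only at h1 h2
  cases r with
  | zero =>
    have hp : p = 0 := by have := h.w0; omega
    subst hp
    refine ⟨N, 0, by simp [bot], ⟨by simp, by simp [h.wN]⟩, by rw [h.lN], Or.inl ⟨by rw [h.lN], by simp [top]⟩⟩
  | succ r =>
  have hr : r < N := h1
  have hN : r ≠ N := hr.ne
  have hf := h.fit r hr
  have hs := h.step r hr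
  by_cases c1 : p < ps (sl r)
  · have e := h.left r hr p c1
    refine ⟨r, p, by simp [bot, c1], ⟨hr.le, by simp only; omega⟩, by rw [e],
      Or.inl ⟨by rw [e], by simp [top, hN, c1]⟩⟩
  by_cases c2 : ps (sl r) + ka (sl r) ≤ p
  · have e := h.right r hr (p - ka (sl r)) (by omega)
    rw [show p - ka (sl r) + ka (sl r) = p by omega] at e
    refine ⟨r, p - ka (sl r) + kb (sl r), by simp [bot, c1, c2], ⟨hr.le, by simp only; omega⟩,
      by rw [e], Or.inl ⟨by rw [e], ?_⟩⟩
    have d1 : ¬ p - ka (sl r) + kb (sl r) < ps (sl r) := by omega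
    have d2 : ps (sl r) + kb (sl r) ≤ p - ka (sl r) + kb (sl r) := by omega
    simp only [top, hN, if_false, Nat.add_sub_cancel, d1, d2, if_true]
    congr 1
    omega
  cases hsl : sl r with
  | cross i e =>
    obtain ⟨e1, e2, e3, e4⟩ := h.cross r hr i e hsl
    rw [hsl] at hf hs c1 c2
    simp only [ps, kb, ka] at hf hs c1 c2
    have e : lab r p = lab (r + 1) p := by
      rcases (by omega : p = i ∨ p = i + 1) with rfl | rfl
      · rw [e1, e3]
      · rw [e2, e4]
    refine ⟨r, p, by simp [bot, hsl, ps, kb, ka, c1, c2], ⟨hr.le, by simp only; omega⟩,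
      by rw [e], Or.inl ⟨by rw [e], by simp [top, hN, hsl, ps, kb, ka, c1, c2]⟩⟩
  | cap i d =>
    rw [hsl] at c1 c2
    simp only [ps, ka] at c1 c2
    omega
  | cup i d =>
    obtain ⟨β, e1, e2⟩ := h.cup r hr i d hsl
    rw [hsl] at hf hs c1 c2
    simp only [ps, kb, ka] at hf hs c1 c2
    rcases (by omega : p = i ∨ p = i + 1) with rfl | rfl
    · refine ⟨r + 1, p + 1, by simp [bot, hsl, ps, kb, ka], ⟨h1, by simp only; omega⟩,
        by rw [e1, e2], Or.inr ⟨by rw [e1, e2], by simp [bot, hsl, ps, kb, ka]⟩⟩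
    · refine ⟨r + 1, i, by simp [bot, hsl, ps, kb, ka], ⟨h1, by simp only; omega⟩,
        by rw [e1, e2], Or.inr ⟨by rw [e1, e2]; simp, by simp [bot, hsl, ps, kb, ka]⟩⟩

/-- one step in the direction `o` -/
def g0_st (N : ℕ) (sl : ℕ → Slice) (lab : ℕ → ℕ → Bool × Bool) (o : Bool) (a : ℕ × ℕ) : ℕ × ℕ :=
  if up lab o a then top N sl a else bot N sl a

theorem g0_step (h : Rows N sl wid lab) (o : Bool) (a : ℕ × ℕ) (hv : Val N wid a) :
    Val N wid (g0_st N sl lab o a) ∧
      (lab (g0_st N sl lab o a).1 (g0_st N sl lab o a).2).2 = (lab a.1 a.2).2 ∧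
      g0_st N sl lab (!o) (g0_st N sl lab o a) = a := by
  obtain ⟨r, p⟩ := a
  by_cases hu : up lab o (r, p) = true
  · obtain ⟨r', p', e, v, l2, hh⟩ := g0_top h r p hv
    have e' : g0_st N sl lab o (r, p) = (r', p') := by simp only [g0_st, hu, if_true, e]
    rw [e']
    refine ⟨v, l2, ?_⟩
    simp only [up] at hu
    rcases hh with ⟨l1, b⟩ | ⟨l1, b⟩
    · have : up lab (!o) (r', p') = false := by
        simp only [up, l1, l2]
        revert hu
        cases (lab r p).1 <;> cases (lab r p).2 <;> cases o <;> simp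
      simp [g0_st, this, b]
    · have : up lab (!o) (r', p') = true := by
        simp only [up, l1, l2]
        revert hu
        cases (lab r p).1 <;> cases (lab r p).2 <;> cases o <;> simp
      simp [g0_st, this, b]
  · obtain ⟨r', p', e, v, l2, hh⟩ := g0_bot h r p hv
    have e' : g0_st N sl lab o (r, p) = (r', p') := by simp only [g0_st, hu, e]; simp
    rw [e']
    refine ⟨v, l2, ?_⟩
    simp only [up] at hu
    rcases hh with ⟨l1, b⟩ | ⟨l1, b⟩
    · have : up lab (!o) (r', p') = true := by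
        simp only [up, l1, l2]
        revert hu
        cases (lab r p).1 <;> cases (lab r p).2 <;> cases o <;> simp
      simp [g0_st, this, b]
    · have : up lab (!o) (r', p') = false := by
        simp only [up, l1, l2]
        revert hu
        cases (lab r p).1 <;> cases (lab r p).2 <;> cases o <;> simp
      simp [g0_st, this, b]

/-- sign of a slice -/
def g0_sg : Slice → Bool
  | .cross _ e => e
  | _ => false

theorem g0_x {s : Slice} (hx : IsX s) : s = .cross (ps s) (g0_sg s) := by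
  obtain ⟨i, e, rfl⟩ := hx
  rfl

theorem g0_arm (h : Rows N sl wid lab) {r : ℕ} (hr : r < N) (hx : IsX (sl r)) (t : Bool) :
    Val N wid (arm sl r (inA false (g0_sg (sl r)) t)) ∧
      (lab (arm sl r (inA false (g0_sg (sl r)) t)).1 (arm sl r (inA false (g0_sg (sl r)) t)).2).2 = t ∧
      g0_st N sl lab false (arm sl r (inA false (g0_sg (sl r)) t)) =
        arm sl r (outA false (g0_sg (sl r)) t) := by
  obtain ⟨i, e, hsl⟩ := hx
  obtain ⟨e1, e2, e3, e4⟩ := h.cross r hr i e hsl
  have hf := h.fit r hr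
  have hs := h.step r hr
  have hN : r ≠ N := hr.ne
  rw [hsl] at hf hs
  simp only [ps, kb, ka] at hf hs
  cases t <;> cases e <;>
    simp [Val, arm, inA, outA, g0_st, up, top, bot, hsl, g0_sg, ps, kb, ka, e1, e2, e3, e4, hN] <;>
    omega

theorem real_exists (h : Rows N sl wid lab) :
    ∃ (A V : Type) (_ : Fintype A) (_ : Fintype V) (P : Pl A V) (pos : A → ℕ × ℕ) (row : V → ℕ),
      Real N sl wid lab P false pos row ∧ Real N sl wid lab P.rev true pos row := by
  classical
  have fA : Finite {a : ℕ × ℕ // Val N wid a} := by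
    apply Set.Finite.to_subtype (s := {a : ℕ × ℕ | Val N wid a})
    apply Set.Finite.subset ((range (N + 1) ×ˢ range ((range (N + 1)).sup wid)).finite_toSet)
    rintro ⟨r, p⟩ ⟨h1, h2⟩
    simp only [coe_product, coe_range, Set.mem_prod, Set.mem_Iio]
    exact ⟨Nat.lt_succ_of_le h1, h2.trans_le (le_sup (f := wid) (mem_range.2 (Nat.lt_succ_of_le h1)))⟩
  have fV : Finite {r : ℕ // r < N ∧ IsX (sl r)} := by
    apply Set.Finite.to_subtype (s := {r : ℕ | r < N ∧ IsX (sl r)})
    exact (Set.finite_lt_nat N).subset fun r hr => hr.1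
  let σ : Equiv.Perm {a : ℕ × ℕ // Val N wid a} :=
    { toFun := fun a => ⟨g0_st N sl lab false a.1, (g0_step h false a.1 a.2).1⟩
      invFun := fun a => ⟨g0_st N sl lab true a.1, (g0_step h true a.1 a.2).1⟩
      left_inv := fun a => Subtype.ext (g0_step h false a.1 a.2).2.2
      right_inv := fun a => Subtype.ext (g0_step h true a.1 a.2).2.2 }
  let P : Pl {a : ℕ × ℕ // Val N wid a} {r : ℕ // r < N ∧ IsX (sl r)} :=
    { σ := σ
      inn := fun t x => ⟨arm sl x.1 (inA false (g0_sg (sl x.1)) t), (g0_arm h x.2.1 x.2.2 t).1⟩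
      ty := fun a => (lab a.1.1 a.1.2).2
      s := fun x => g0_sg (sl x.1)
      inj := by
        intro t x t' x' e
        have e0 := congrArg Subtype.val e
        have e1 := (g0_arm h x.2.1 x.2.2 t).2.1
        have e2 := (g0_arm h x'.2.1 x'.2.2 t').2.1
        simp only at e0
        rw [e0, e2] at e1
        subst e1
        have e3 := congrArg Prod.fst e0
        apply Subtype.ext
        cases t' <;> simpa [arm, inA] using e3
      ty_σ := fun a => (g0_step h false a.1 a.2).2.1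
      ty_inn := fun t x => (g0_arm h x.2.1 x.2.2 t).2.1 }
  refine ⟨_, _, Fintype.ofFinite _, Fintype.ofFinite _, P, Subtype.val, Subtype.val,
    ⟨Subtype.val_injective, fun a => a.2, fun q hq => ⟨⟨q, hq⟩, rfl⟩, Subtype.val_injective,
      fun x => x.2.1, fun x => g0_x x.2.2, fun r hr hx => ⟨⟨r, hr, hx⟩, rfl⟩, fun a => rfl,
      fun t x => rfl, fun t x => (g0_arm h x.2.1 x.2.2 t).2.2⟩,
    ⟨Subtype.val_injective, fun a => a.2, fun q hq => ⟨⟨q, hq⟩, rfl⟩, Subtype.val_injective,
      fun x => x.2.1, fun x => g0_x x.2.2, fun r hr hx => ⟨⟨r, hr, hx⟩, rfl⟩, fun a => rfl,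
      fun t x => ?_, fun t x => ?_⟩⟩
  · refine ((g0_arm h x.2.1 x.2.2 t).2.2).trans ?_
    congr 1
    cases t <;> rfl
  · have : P.rev.out t x = P.inn t x := by simp [Pl.out, Pl.rev]
    rw [this]
    show arm sl x.1 (inA false (g0_sg (sl x.1)) t) = arm sl x.1 (outA true (g0_sg (sl x.1)) t)
    congr 1
    cases t <;> rfl

end Pool.Agent.P.MP_9ed2cf_gt.Nz
end

-- part Pool.Agent.P.MP_9ed2cf_gt.NzGeo1
section

set_option autoImplicit false

namespace Pool.Agent.P.MP_9ed2cf_gt.Nz

open Finset Pool.Agent.P.MP_9ed2cf_gt.H14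

variable {N : ℕ} {sl : ℕ → Slice} {wid : ℕ → ℕ} {lab : ℕ → ℕ → Bool × Bool}

variable {A V : Type} {P : Pl A V} {o : Bool} {pos : A → ℕ × ℕ} {row : V → ℕ}

theorem g1_lab (h : Rows N sl wid lab) (hR : Real N sl wid lab P o pos row) (x : V) :
    lab (row x) (ps (sl (row x))) = (true, P.s x) ∧
    lab (row x) (ps (sl (row x)) + 1) = (true, !P.s x) ∧
    lab (row x + 1) (ps (sl (row x))) = (true, P.s x) ∧
    lab (row x + 1) (ps (sl (row x)) + 1) = (true, !P.s x) :=
  h.cross _ (hR.row_lt x) _ _ (hR.row_x x)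

theorem g1_up_inn (h : Rows N sl wid lab) (hR : Real N sl wid lab P o pos row) (t : Bool) (x : V) :
    up lab o (pos (P.inn t x)) = !xor t o := by
  obtain ⟨h1, h2, h3, h4⟩ := g1_lab h hR x
  rw [hR.inn_eq]
  cases t <;> cases o <;> cases he : P.s x <;> simp [arm, inA, up, h1, h2, h3, h4, he]

theorem g1_up_out (h : Rows N sl wid lab) (hR : Real N sl wid lab P o pos row) (t : Bool) (x : V) :
    up lab o (pos (P.out t x)) = !xor t o := by
  obtain ⟨h1, h2, h3, h4⟩ := g1_lab h hR x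
  rw [hR.out_eq]
  cases t <;> cases o <;> cases he : P.s x <;> simp [arm, outA, up, h1, h2, h3, h4, he]

theorem g1_below (hR : Real N sl wid lab P o pos row) (g : ℕ × ℕ → ℤ) (x : V) :
    ∑ j ∈ range (kb (sl (row x))), g (row x, ps (sl (row x)) + j) =
      g (pos (P.inn o x)) + g (pos (P.out (!o) x)) := by
  have hk : kb (sl (row x)) = 2 := by rw [hR.row_x x]; rfl
  rw [hk, hR.inn_eq, hR.out_eq, sum_range_succ, sum_range_one]
  cases o <;> cases P.s x <;> simp [arm, inA, outA, add_comm]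

theorem g1_above (hR : Real N sl wid lab P o pos row) (g : ℕ × ℕ → ℤ) (x : V) :
    ∑ j ∈ range (ka (sl (row x))), g (row x + 1, ps (sl (row x)) + j) =
      g (pos (P.out o x)) + g (pos (P.inn (!o) x)) := by
  have hk : ka (sl (row x)) = 2 := by rw [hR.row_x x]; rfl
  rw [hk, hR.inn_eq, hR.out_eq, sum_range_succ, sum_range_one]
  cases o <;> cases P.s x <;> simp [arm, inA, outA, add_comm]

/-- a node is an entering arm exactly if it is directed into a crossing -/
theorem Real.pass_iff (h : Rows N sl wid lab) (hR : Real N sl wid lab P o pos row) (a : A) :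
    ¬ P.Pass a ↔
      (up lab o (pos a) = true ∧ (pos a).1 < N ∧ IsX (sl (pos a).1) ∧
        ps (sl (pos a).1) ≤ (pos a).2 ∧ (pos a).2 < ps (sl (pos a).1) + 2) ∨
      (up lab o (pos a) = false ∧ 0 < (pos a).1 ∧ IsX (sl ((pos a).1 - 1)) ∧
        ps (sl ((pos a).1 - 1)) ≤ (pos a).2 ∧ (pos a).2 < ps (sl ((pos a).1 - 1)) + 2) := by
  constructor
  · intro hp
    obtain ⟨t, x, rfl⟩ : ∃ t x, a = P.inn t x := by
      by_contra hc
      exact hp fun t x e => hc ⟨t, x, e⟩
    have hu := g1_up_inn h hR t x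
    have hx : IsX (sl (row x)) := ⟨_, _, hR.row_x x⟩
    have hl := hR.row_lt x
    rw [hu, hR.inn_eq]
    cases t <;> cases o <;> cases P.s x <;> simp [arm, inA, hx, hl]
  · rintro (⟨h1, h2, h3, h4, h5⟩ | ⟨h1, h2, h3, h4, h5⟩) hp
    · obtain ⟨x, hx⟩ := hR.row_surj _ h2 h3
      obtain ⟨l1, l2, -, -⟩ := g1_lab h hR x
      apply hp o x
      apply hR.pos_inj
      rw [hR.inn_eq]
      rw [← hx] at h4 h5
      unfold up at h1
      rw [← hx] at h1
      have hc : (pos a).2 = ps (sl (row x)) ∨ (pos a).2 = ps (sl (row x)) + 1 := by omega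
      refine Prod.ext ?_ ?_
      · simp [arm, inA, hx]
      · rcases hc with hc | hc
        · rw [hc, l1] at h1
          rw [hc]
          revert h1
          cases o <;> cases P.s x <;> simp [arm, inA]
        · rw [hc, l2] at h1
          rw [hc]
          revert h1
          cases o <;> cases P.s x <;> simp [arm, inA]
    · have hv := (hR.pos_val a).1
      obtain ⟨x, hx⟩ := hR.row_surj _ (by omega) h3
      obtain ⟨-, -, l1, l2⟩ := g1_lab h hR x
      apply hp (!o) x
      apply hR.pos_inj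
      rw [hR.inn_eq]
      rw [← hx] at h4 h5
      have hx' : (pos a).1 = row x + 1 := by omega
      unfold up at h1
      rw [hx'] at h1
      have hc : (pos a).2 = ps (sl (row x)) ∨ (pos a).2 = ps (sl (row x)) + 1 := by omega
      refine Prod.ext ?_ ?_
      · rw [hx']
        cases o <;> simp [arm, inA]
      · rcases hc with hc | hc
        · rw [hc, l1] at h1
          rw [hc]
          revert h1
          cases o <;> cases P.s x <;> simp [arm, inA]
        · rw [hc, l2] at h1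
          rw [hc]
          revert h1
          cases o <;> cases P.s x <;> simp [arm, inA]

theorem g1_isX {s : Slice} (h : IsX s) : kb s = 2 ∧ ka s = 2 := by
  obtain ⟨i, e, rfl⟩ := h
  exact ⟨rfl, rfl⟩

theorem g1_pass_up (h : Rows N sl wid lab) (hR : Real N sl wid lab P o pos row) {a : A} {r p : ℕ}
    (ha : pos a = (r, p)) (hu : up lab o (r, p) = true)
    (hn : IsX (sl r) → p < ps (sl r) ∨ ps (sl r) + 2 ≤ p) : P.Pass a := by
  by_contra hp
  have := (hR.pass_iff h a).1 hp
  rw [ha, hu] at this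
  rcases this with ⟨-, -, h3, h4, h5⟩ | ⟨h1, -⟩
  · have := hn h3
    simp only at h4 h5
    omega
  · simp at h1

theorem g1_pass_down (h : Rows N sl wid lab) (hR : Real N sl wid lab P o pos row) {a : A}
    {r p : ℕ} (ha : pos a = (r + 1, p)) (hu : up lab o (r + 1, p) = false)
    (hn : IsX (sl r) → p < ps (sl r) ∨ ps (sl r) + 2 ≤ p) : P.Pass a := by
  by_contra hp
  have := (hR.pass_iff h a).1 hp
  rw [ha, hu] at this
  rcases this with ⟨h1, -⟩ | ⟨-, -, h3, h4, h5⟩
  · simp at h1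
  · simp only [Nat.add_sub_cancel] at h3 h4 h5
    have := hn h3
    omega

/-- a vertical step keeps the signed value of a conserved function -/
theorem g1_vert (h : Rows N sl wid lab) (hR : Real N sl wid lab P o pos row) {γ : A → ℤ}
    (hγ : P.Cons γ) {g : ℕ × ℕ → ℤ}
    (hg : ∀ a, g (pos a) = if up lab o (pos a) then γ a else -γ a) {r p p' : ℕ}
    (v1 : Val N wid (r, p)) (v2 : Val N wid (r + 1, p')) (hl : lab (r + 1) p' = lab r p)
    (ht : top N sl (r, p) = (r + 1, p')) (hb : bot N sl (r + 1, p') = (r, p))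
    (n1 : IsX (sl r) → p < ps (sl r) ∨ ps (sl r) + 2 ≤ p)
    (n2 : IsX (sl r) → p' < ps (sl r) ∨ ps (sl r) + 2 ≤ p') : g (r + 1, p') = g (r, p) := by
  obtain ⟨a, ha⟩ := hR.pos_surj _ v1
  obtain ⟨a', ha'⟩ := hR.pos_surj _ v2
  have hu : up lab o (r + 1, p') = up lab o (r, p) := by simp only [up, hl]
  have e1 := hg a
  have e2 := hg a'
  rw [ha] at e1
  rw [ha', hu] at e2
  rw [e1, e2]
  cases hc : up lab o (r, p)
  · have hs : P.σ a' = a := by
      apply hR.pos_inj
      rw [hR.σ_eq, ha', hu, hc, ha]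
      simpa using hb
    have := hγ.1 a' (g1_pass_down h hR ha' (hu.trans hc) n2)
    rw [hs] at this
    simp [this]
  · have hs : P.σ a = a' := by
      apply hR.pos_inj
      rw [hR.σ_eq, ha, hc, ha']
      simpa using ht
    have := hγ.1 a (g1_pass_up h hR ha hc n1)
    rw [hs] at this
    simp [this]

theorem g1_flip {q q' : ℕ × ℕ} {d β : Bool} (h1 : lab q.1 q.2 = (d, β))
    (h2 : lab q'.1 q'.2 = (!d, β)) : up lab o q' = !up lab o q := by
  simp only [up, h1, h2]
  cases d <;> cases β <;> cases o <;> rfl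

theorem Real.c2s (h : Rows N sl wid lab) (hR : Real N sl wid lab P o pos row) {γ : A → ℤ}
    (hγ : P.Cons γ) : ∃ g, SFlow N sl wid g ∧
      ∀ a, g (pos a) = if up lab o (pos a) then γ a else -γ a := by
  classical
  obtain ⟨g, hg⟩ : ∃ g : ℕ × ℕ → ℤ, ∀ a, g (pos a) = if up lab o (pos a) then γ a else -γ a :=
    ⟨Function.extend pos (fun a => if up lab o (pos a) then γ a else -γ a) 0,
      fun a => hR.pos_inj.extend_apply _ _ a⟩
  refine ⟨g, ⟨fun r hr => ⟨fun p hp => ?_, fun p hp hw => ?_⟩, fun r hr => ?_⟩, hg⟩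
  · have f1 := h.fit r hr
    have f2 := h.step r hr
    refine g1_vert h hR hγ hg ⟨by simp only; omega, by simp only; omega⟩
      ⟨by simp only; omega, by simp only; omega⟩ (h.left r hr p hp) ?_ ?_
      (fun _ => Or.inl hp) (fun _ => Or.inl hp)
    · simp [top, hr.ne, hp]
    · simp [bot, hp]
  · have f1 := h.fit r hr
    have f2 := h.step r hr
    refine g1_vert h hR hγ hg ⟨by simp only; omega, by simp only; omega⟩
      ⟨by simp only; omega, by simp only; omega⟩ (h.right r hr p hp) ?_ ?_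
      (fun hx => Or.inr (by have := g1_isX hx; omega))
      (fun hx => Or.inr (by have := g1_isX hx; omega))
    · have a1 : ¬ p + kb (sl r) < ps (sl r) := by omega
      simp [top, hr.ne, a1, hp]
    · have a1 : ¬ p + ka (sl r) < ps (sl r) := by omega
      simp [bot, a1, hp]
  · have f1 := h.fit r hr
    have f2 := h.step r hr
    rcases hs : sl r with ⟨i, e⟩ | ⟨i, d⟩ | ⟨i, d⟩
    · obtain ⟨x, rfl⟩ := hR.row_surj r hr ⟨_, _, hs⟩
      rw [← hs, g1_below hR, g1_above hR, hg, hg, hg, hg, g1_up_inn h hR, g1_up_out h hR,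
        g1_up_inn h hR, g1_up_out h hR]
      have := hγ.2 x
      cases o <;> simp <;> omega
    · obtain ⟨β, l1, l2⟩ := h.cup r hr i d hs
      rw [hs] at f1 f2
      simp only [ps, kb, ka] at f1 f2 ⊢
      rw [sum_range_zero, sum_range_succ, sum_range_one, add_zero]
      obtain ⟨a, ha⟩ := hR.pos_surj (r + 1, i) ⟨by simp only; omega, by simp only; omega⟩
      obtain ⟨a', ha'⟩ := hR.pos_surj (r + 1, i + 1) ⟨by simp only; omega, by simp only; omega⟩
      have hu : up lab o (r + 1, i + 1) = !up lab o (r + 1, i) := g1_flip l1 l2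
      have nx : ¬ IsX (sl r) := by rw [hs]; rintro ⟨_, _, hh⟩; cases hh
      have e1 := hg a
      have e2 := hg a'
      rw [ha] at e1
      rw [ha', hu] at e2
      rw [e1, e2]
      cases hc : up lab o (r + 1, i)
      · have hσ : P.σ a = a' := by
          apply hR.pos_inj
          rw [hR.σ_eq, ha, hc, ha']
          simp [bot, hs, ps, kb, ka]
        have := hγ.1 a (g1_pass_down h hR ha hc fun hx => absurd hx nx)
        rw [hσ] at this
        simp [this]
      · rw [hc] at hu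
        have hσ : P.σ a' = a := by
          apply hR.pos_inj
          rw [hR.σ_eq, ha', hu, ha]
          simp [bot, hs, ps, kb, ka]
        have := hγ.1 a' (g1_pass_down h hR ha' hu fun hx => absurd hx nx)
        rw [hσ] at this
        simp [this]
    · obtain ⟨β, l1, l2⟩ := h.cap r hr i d hs
      rw [hs] at f1 f2
      simp only [ps, kb, ka] at f1 f2 ⊢
      rw [sum_range_zero, sum_range_succ, sum_range_one, add_zero]
      obtain ⟨a, ha⟩ := hR.pos_surj (r, i) ⟨by simp only; omega, by simp only; omega⟩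
      obtain ⟨a', ha'⟩ := hR.pos_surj (r, i + 1) ⟨by simp only; omega, by simp only; omega⟩
      have hu : up lab o (r, i + 1) = !up lab o (r, i) := g1_flip l1 l2
      have nx : ¬ IsX (sl r) := by rw [hs]; rintro ⟨_, _, hh⟩; cases hh
      have e1 := hg a
      have e2 := hg a'
      rw [ha] at e1
      rw [ha', hu] at e2
      rw [e1, e2]
      cases hc : up lab o (r, i)
      · rw [hc] at hu
        have hσ : P.σ a' = a := by
          apply hR.pos_inj
          rw [hR.σ_eq, ha', hu, ha]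
          simp [top, hr.ne, hs, ps, kb, ka]
        have := hγ.1 a' (g1_pass_up h hR ha' hu fun hx => absurd hx nx)
        rw [hσ] at this
        simp [this]
      · have hσ : P.σ a = a' := by
          apply hR.pos_inj
          rw [hR.σ_eq, ha, hc, ha']
          simp [top, hr.ne, hs, ps, kb, ka]
        have := hγ.1 a (g1_pass_up h hR ha hc fun hx => absurd hx nx)
        rw [hσ] at this
        simp [this]

theorem Real.s2c (h : Rows N sl wid lab) (hR : Real N sl wid lab P o pos row) {g : ℕ × ℕ → ℤ}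
    (hg : SFlow N sl wid g) :
    P.Cons fun a => if up lab o (pos a) then g (pos a) else -g (pos a) := by
  have link : g (N, 0) = g (0, 0) := by
    have := flux h.toShape hg N le_rfl
    rwa [h.wN, sum_range_one] at this
  have ulink : up lab o (N, 0) = up lab o (0, 0) := by simp only [up, h.lN]
  refine ⟨fun a hp => ?_, fun x => ?_⟩
  · have hn := fun hh => (hR.pass_iff h a).2 hh hp
    have hv := hR.pos_val a
    simp only [hR.σ_eq]
    generalize pos a = q at hn hv
    obtain ⟨r, p⟩ := q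
    obtain ⟨v1, v2⟩ := hv
    simp only at v1 v2 hn
    cases hc : up lab o (r, p)
    · simp only [Bool.false_eq_true, if_false]
      rcases r with _ | r
      · have : p = 0 := by rw [h.w0] at v2; omega
        subst this
        simp [bot, ulink, hc, link]
      · have hr : r < N := by omega
        have f1 := h.fit r hr
        have f2 := h.step r hr
        by_cases c1 : p < ps (sl r)
        · have e : bot N sl (r + 1, p) = (r, p) := by simp [bot, c1]
          have u : up lab o (r, p) = false := by rw [← hc]; simp only [up, h.left r hr p c1]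
          rw [e, u, (hg.1 r hr).1 p c1]
          simp
        · by_cases c2 : ps (sl r) + ka (sl r) ≤ p
          · obtain ⟨p0, rfl⟩ : ∃ p0, p = p0 + ka (sl r) := ⟨p - ka (sl r), by omega⟩
            have e : bot N sl (r + 1, p0 + ka (sl r)) = (r, p0 + kb (sl r)) := by
              simp [bot, c1, c2]
            have u : up lab o (r, p0 + kb (sl r)) = false := by
              rw [← hc]; simp only [up, h.right r hr p0 (by omega)]
            rw [e, u, (hg.1 r hr).2 p0 (by omega) (by omega)]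
            simp
          · have hf := hg.2 r hr
            rcases hs : sl r with ⟨i, e⟩ | ⟨i, d⟩ | ⟨i, d⟩
            · exfalso
              apply hn
              refine Or.inr ⟨hc, by omega, ?_⟩
              simp only [Nat.add_sub_cancel]
              rw [hs] at c1 c2 ⊢
              simp only [ps, ka] at c1 c2 ⊢
              exact ⟨⟨_, _, rfl⟩, by omega, by omega⟩
            · obtain ⟨β, l1, l2⟩ := h.cup r hr i d hs
              have hu : up lab o (r + 1, i + 1) = !up lab o (r + 1, i) := g1_flip l1 l2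
              rw [hs] at c1 c2 hf
              simp only [ps, kb, ka] at c1 c2 hf
              rw [sum_range_zero, sum_range_succ, sum_range_one, add_zero] at hf
              rcases (by omega : p = i ∨ p = i + 1) with rfl | rfl
              · have e : bot N sl (r + 1, p) = (r + 1, p + 1) := by simp [bot, hs, ps, kb, ka]
                rw [e, hu, hc]
                simp only [Bool.not_false, if_true]
                omega
              · have e : bot N sl (r + 1, i + 1) = (r + 1, i) := by simp [bot, hs, ps, kb, ka]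
                have u : up lab o (r + 1, i) = true := by
                  rw [hc] at hu
                  simpa using hu
                rw [e, u]
                simp only [if_true]
                omega
            · rw [hs] at c1 c2
              simp only [ps, ka] at c1 c2
              omega
    · simp only [if_true]
      rcases v1.eq_or_lt with rfl | hr
      · have : p = 0 := by rw [h.wN] at v2; omega
        subst this
        simp [top, ← ulink, hc, link]
      · have f1 := h.fit r hr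
        have f2 := h.step r hr
        by_cases c1 : p < ps (sl r)
        · have e : top N sl (r, p) = (r + 1, p) := by simp [top, hr.ne, c1]
          have u : up lab o (r + 1, p) = true := by rw [← hc]; simp only [up, h.left r hr p c1]
          rw [e, u, (hg.1 r hr).1 p c1]
          simp
        · by_cases c2 : ps (sl r) + kb (sl r) ≤ p
          · obtain ⟨p0, rfl⟩ : ∃ p0, p = p0 + kb (sl r) := ⟨p - kb (sl r), by omega⟩
            have e : top N sl (r, p0 + kb (sl r)) = (r + 1, p0 + ka (sl r)) := by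
              simp [top, hr.ne, c1, c2]
            have u : up lab o (r + 1, p0 + ka (sl r)) = true := by
              rw [← hc]; simp only [up, h.right r hr p0 (by omega)]
            rw [e, u, (hg.1 r hr).2 p0 (by omega) v2]
            simp
          · have hf := hg.2 r hr
            rcases hs : sl r with ⟨i, e⟩ | ⟨i, d⟩ | ⟨i, d⟩
            · exfalso
              apply hn
              refine Or.inl ⟨hc, hr, ?_⟩
              rw [hs] at c1 c2 ⊢
              simp only [ps, kb] at c1 c2 ⊢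
              exact ⟨⟨_, _, rfl⟩, by omega, by omega⟩
            · rw [hs] at c1 c2
              simp only [ps, kb] at c1 c2
              omega
            · obtain ⟨β, l1, l2⟩ := h.cap r hr i d hs
              have hu : up lab o (r, i + 1) = !up lab o (r, i) := g1_flip l1 l2
              rw [hs] at c1 c2 hf
              simp only [ps, kb, ka] at c1 c2 hf
              rw [sum_range_zero, sum_range_succ, sum_range_one, add_zero] at hf
              rcases (by omega : p = i ∨ p = i + 1) with rfl | rfl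
              · have e : top N sl (r, p) = (r, p + 1) := by simp [top, hr.ne, hs, ps, kb, ka]
                rw [e, hu, hc]
                simp only [Bool.not_true, Bool.false_eq_true, if_false]
                omega
              · have e : top N sl (r, i + 1) = (r, i) := by simp [top, hr.ne, hs, ps, kb, ka]
                have u : up lab o (r, i) = false := by
                  rw [hc] at hu
                  simpa using hu
                rw [e, u]
                simp only [Bool.false_eq_true, if_false]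
                omega
  · have hf := hg.2 (row x) (hR.row_lt x)
    rw [g1_below hR, g1_above hR] at hf
    simp only [g1_up_inn h hR, g1_up_out h hR]
    cases o <;> simp at hf ⊢ <;> omega

end Pool.Agent.P.MP_9ed2cf_gt.Nz
end

-- part Pool.Agent.P.MP_9ed2cf_gt.NzGeo2
section

set_option autoImplicit false

namespace Pool.Agent.P.MP_9ed2cf_gt.Nz

open Finset Pool.Agent.P.MP_9ed2cf_gt.H14

variable {N : ℕ} {sl : ℕ → Slice} {wid : ℕ → ℕ} {lab : ℕ → ℕ → Bool × Bool}

variable {A V : Type} {P : Pl A V} {o : Bool} {pos : A → ℕ × ℕ} {row : V → ℕ}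

theorem geo2_left {G : ℕ × ℕ → ℤ} (hG : SFlow N sl wid G) {r : ℕ} (hr : r < N) {g : ℕ}
    (hg : g ≤ ps (sl r)) : ∑ p ∈ range g, G (r + 1, p) = ∑ p ∈ range g, G (r, p) := by
  refine sum_congr rfl fun p hp => (hG.1 r hr).1 p ?_
  have := mem_range.1 hp
  omega

theorem geo2_right {G : ℕ × ℕ → ℤ} (hG : SFlow N sl wid G) {r : ℕ} (hr : r < N) {g : ℕ}
    (hg : ps (sl r) ≤ g) (hw : g + kb (sl r) ≤ wid r) :
    ∑ p ∈ range (g + ka (sl r)), G (r + 1, p) = ∑ p ∈ range (g + kb (sl r)), G (r, p) := by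
  induction g, hg using Nat.le_induction with
  | base =>
    rw [sum_range_add, sum_range_add, geo2_left hG hr le_rfl, hG.2 r hr]
  | succ g hg ih =>
    have e1 : g + 1 + ka (sl r) = g + ka (sl r) + 1 := by omega
    have e2 : g + 1 + kb (sl r) = g + kb (sl r) + 1 := by omega
    rw [e1, e2, sum_range_succ, sum_range_succ, ih (by omega), (hG.1 r hr).2 g hg (by omega)]

/-- the value on the left (`c = true`) or on the right (`c = false`) of a directed node -/
def geo2F (lab : ℕ → ℕ → Bool × Bool) (S : ℕ → ℕ → ℤ) (c : Bool) (q : ℕ × ℕ) : ℤ :=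
  if up lab false q = c then S q.1 q.2 else S q.1 (q.2 + 1)

structure Geo2S (N : ℕ) (sl : ℕ → Slice) (wid : ℕ → ℕ) (S : ℕ → ℕ → ℤ) : Prop where
  l0 : S N 0 = S 0 0
  l1 : S N 1 = S 0 1
  left : ∀ r < N, ∀ g ≤ ps (sl r), S (r + 1) g = S r g
  right : ∀ r < N, ∀ g, ps (sl r) ≤ g → g + kb (sl r) ≤ wid r →
    S (r + 1) (g + ka (sl r)) = S r (g + kb (sl r))

theorem geo2_vl (h : Rows N sl wid lab) {S : ℕ → ℕ → ℤ} (hS : Geo2S N sl wid S) (c : Bool)
    {r p : ℕ} (hr : r < N) (hp : p < ps (sl r)) :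
    geo2F lab S c (r + 1, p) = geo2F lab S c (r, p) := by
  simp only [geo2F, up, h.left r hr p hp, hS.left r hr p hp.le, hS.left r hr (p + 1) hp]

theorem geo2_vr (h : Rows N sl wid lab) {S : ℕ → ℕ → ℤ} (hS : Geo2S N sl wid S) (c : Bool)
    {r p : ℕ} (hr : r < N) (hp : ps (sl r) ≤ p) (hw : p + kb (sl r) < wid r) :
    geo2F lab S c (r + 1, p + ka (sl r)) = geo2F lab S c (r, p + kb (sl r)) := by
  have e1 : p + ka (sl r) + 1 = p + 1 + ka (sl r) := by omega
  have e2 : p + kb (sl r) + 1 = p + 1 + kb (sl r) := by omega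
  simp only [geo2F, up, h.right r hr p hp, hS.right r hr p hp hw.le, e1, e2,
    hS.right r hr (p + 1) (by omega) (by omega)]

theorem geo2_link (h : Rows N sl wid lab) {S : ℕ → ℕ → ℤ} (hS : Geo2S N sl wid S) (c : Bool) :
    geo2F lab S c (0, 0) = geo2F lab S c (N, 0) := by
  simp only [geo2F, up, h.lN, zero_add, hS.l0, hS.l1]

theorem geo2_turn {S : ℕ → ℕ → ℤ} (c : Bool) {r i : ℕ} {d β : Bool} (h1 : lab r i = (d, β))
    (h2 : lab r (i + 1) = (!d, β)) (h3 : S r (i + 2) = S r i) :
    geo2F lab S c (r, i + 1) = geo2F lab S c (r, i) := by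
  simp only [geo2F, up, h1, h2]
  cases d <;> cases β <;> cases c <;> simp [h3]

theorem geo2_top (h : Rows N sl wid lab) {S : ℕ → ℕ → ℤ} (hS : Geo2S N sl wid S) (c : Bool)
    {q : ℕ × ℕ} (hq : Val N wid q)
    (hx : ¬ (q.1 < N ∧ IsX (sl q.1) ∧ ps (sl q.1) ≤ q.2 ∧ q.2 < ps (sl q.1) + 2)) :
    geo2F lab S c (top N sl q) = geo2F lab S c q := by
  obtain ⟨r, p⟩ := q
  obtain ⟨h1, h2⟩ := hq
  simp only at h1 h2 hx
  unfold top
  simp only
  by_cases e : r = N
  · subst e
    have : p = 0 := by have := h.wN; omega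
    subst this
    rw [if_pos rfl]
    exact geo2_link h hS c
  have hr : r < N := by omega
  rw [if_neg e]
  by_cases e1 : p < ps (sl r)
  · rw [if_pos e1]; exact geo2_vl h hS c hr e1
  rw [if_neg e1]
  by_cases e2 : ps (sl r) + kb (sl r) ≤ p
  · rw [if_pos e2]
    have := geo2_vr h hS c hr (p := p - kb (sl r)) (by omega) (by omega)
    rwa [Nat.sub_add_cancel (by omega)] at this
  rw [if_neg e2]
  have hfit := h.fit r hr
  have hL := hS.left r hr (ps (sl r)) le_rfl
  have hRt := hS.right r hr (ps (sl r)) le_rfl hfit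
  rcases hs : sl r with ⟨i, e'⟩ | ⟨i, d⟩ | ⟨i, d⟩
  · exfalso
    apply hx
    refine ⟨hr, ⟨i, e', hs⟩, by omega, ?_⟩
    rw [hs] at e2 ⊢
    simp only [ps, kb] at e2 ⊢
    omega
  · exfalso
    rw [hs] at e1 e2
    simp only [ps, kb] at e1 e2
    omega
  · obtain ⟨β, b1, b2⟩ := h.cap r hr i d hs
    rw [hs] at e1 e2 hL hRt
    simp only [ps, kb, ka, add_zero] at e1 e2 hL hRt ⊢
    have h3 : S r (i + 2) = S r i := by rw [← hRt, hL]
    rw [if_neg (by norm_num)]
    by_cases e3 : p = i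
    · subst e3
      rw [if_pos rfl]
      exact geo2_turn c b1 b2 h3
    · have : p = i + 1 := by omega
      subst this
      rw [if_neg e3, Nat.add_sub_cancel]
      exact (geo2_turn c b1 b2 h3).symm

theorem geo2_bot (h : Rows N sl wid lab) {S : ℕ → ℕ → ℤ} (hS : Geo2S N sl wid S) (c : Bool)
    {q : ℕ × ℕ} (hq : Val N wid q)
    (hx : ¬ (0 < q.1 ∧ IsX (sl (q.1 - 1)) ∧ ps (sl (q.1 - 1)) ≤ q.2 ∧
      q.2 < ps (sl (q.1 - 1)) + 2)) :
    geo2F lab S c (bot N sl q) = geo2F lab S c q := by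
  obtain ⟨r, p⟩ := q
  obtain ⟨h1, h2⟩ := hq
  simp only at h1 h2 hx
  unfold bot
  simp only
  rcases r with _ | r
  · have : p = 0 := by have := h.w0; omega
    subst this
    rw [if_pos rfl]
    exact (geo2_link h hS c).symm
  have hr : r < N := by omega
  rw [if_neg (by omega)]
  simp only [Nat.add_sub_cancel] at hx ⊢
  by_cases e1 : p < ps (sl r)
  · rw [if_pos e1]; exact (geo2_vl h hS c hr e1).symm
  rw [if_neg e1]
  have hstep := h.step r hr
  by_cases e2 : ps (sl r) + ka (sl r) ≤ p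
  · rw [if_pos e2]
    have := geo2_vr h hS c hr (p := p - ka (sl r)) (by omega) (by omega)
    rw [Nat.sub_add_cancel (by omega)] at this
    exact this.symm
  rw [if_neg e2]
  have hfit := h.fit r hr
  have hL := hS.left r hr (ps (sl r)) le_rfl
  have hRt := hS.right r hr (ps (sl r)) le_rfl hfit
  rcases hs : sl r with ⟨i, e'⟩ | ⟨i, d⟩ | ⟨i, d⟩
  · exfalso
    apply hx
    refine ⟨by omega, ⟨i, e', hs⟩, by omega, ?_⟩
    rw [hs] at e2 ⊢
    simp only [ps, ka] at e2 ⊢
    omega
  · obtain ⟨β, b1, b2⟩ := h.cup r hr i d hs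
    rw [hs] at e1 e2 hL hRt
    simp only [ps, kb, ka, add_zero] at e1 e2 hL hRt ⊢
    have h3 : S (r + 1) (i + 2) = S (r + 1) i := by rw [hRt, hL]
    rw [if_neg (by norm_num)]
    by_cases e3 : p = i
    · subst e3
      rw [if_pos rfl]
      exact geo2_turn c b1 b2 h3
    · have : p = i + 1 := by omega
      subst this
      rw [if_neg e3, Nat.add_sub_cancel]
      exact (geo2_turn c b1 b2 h3).symm
  · exfalso
    rw [hs] at e1 e2
    simp only [ps, ka] at e1 e2
    omega

theorem geo2_face (h : Rows N sl wid lab) (hR : Real N sl wid lab P false pos row)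
    {S : ℕ → ℕ → ℤ} (hS : Geo2S N sl wid S) (c : Bool) :
    P.FaceFn c fun a => geo2F lab S c (pos a) := by
  refine ⟨fun a ha => ?_, fun t x => ?_⟩
  · have hn := (hR.pass_iff h a).not.1 (not_not.2 ha)
    rw [not_or] at hn
    simp only
    rw [hR.σ_eq]
    by_cases hu : up lab false (pos a) = true
    · rw [if_pos hu]
      exact geo2_top h hS c (hR.pos_val a) fun hh => hn.1 ⟨hu, hh⟩
    · rw [if_neg hu]
      exact geo2_bot h hS c (hR.pos_val a) fun hh => hn.2 ⟨by simpa using hu, hh⟩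
  · simp only
    rw [hR.out_eq, hR.inn_eq]
    have hr := hR.row_lt x
    have hs := hR.row_x x
    obtain ⟨b1, b2, b3, b4⟩ := h.cross _ hr _ _ hs
    have hL := hS.left _ hr _ le_rfl
    have hRt := hS.right _ hr _ le_rfl (h.fit _ hr)
    have k1 : ka (sl (row x)) = 2 := by rw [hs]; rfl
    have k2 : kb (sl (row x)) = 2 := by rw [hs]; rfl
    rw [k1, k2] at hRt
    generalize P.s x = e at *
    cases e <;> cases t <;> cases c <;>
      simp [geo2F, up, arm, inA, outA, b1, b2, b3, b4, hL, hRt, add_assoc]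

theorem Real.planar (h : Rows N sl wid lab) (hR : Real N sl wid lab P false pos row) :
    P.Planar := by
  intro γ hγ
  obtain ⟨G, hG, hg⟩ := hR.c2s h hγ
  have hS : Geo2S N sl wid fun r g => -∑ p ∈ range g, G (r, p) := by
    refine ⟨by simp, ?_, fun r hr g hg => ?_, fun r hr g hg hw => ?_⟩
    · have := flux h.toShape hG N le_rfl
      rw [h.wN] at this
      rw [this]
      simp
    · rw [geo2_left hG hr hg]
    · rw [geo2_right hG hr hg hw]
  refine ⟨_, _, geo2_face h hR hS true, geo2_face h hR hS false, fun a => ?_⟩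
  have := hg a
  simp only [geo2F, sum_range_succ]
  by_cases hu : up lab false (pos a) = true
  · rw [if_pos hu] at this
    simp [hu, this]
  · rw [if_neg hu] at this
    have hu' : up lab false (pos a) = false := by simpa using hu
    simp [hu', this]

end Pool.Agent.P.MP_9ed2cf_gt.Nz
end

-- part Pool.Agent.P.MP_9ed2cf_gt.NzGeo3
section

set_option autoImplicit false

namespace Pool.Agent.P.MP_9ed2cf_gt.Nz

open Finset Pool.Agent.P.MP_9ed2cf_gt.H14

variable {N : ℕ} {sl : ℕ → Slice} {wid : ℕ → ℕ} {lab : ℕ → ℕ → Bool × Bool}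

variable {A V : Type} {P : Pl A V} {o : Bool} {pos : A → ℕ × ℕ} {row : V → ℕ}

variable [Fintype A] {χ : V → Bool} {μ : ℕ → Bool × Bool} {b : A}

theorem Real.pot (h : Rows N sl wid lab) (hR : Real N sl wid lab P o pos row)
    (hm : Mark P o row χ μ) {u : ℕ × ℕ → ℤ} (hu : SPot N sl wid μ u) (a : A)
    (ha : pos a ≠ if up lab o (0, 0) then (N, 0) else (0, 0)) :
    u (pos (P.nxt χ a)) = u (pos a) := by
  rcases Pl.pass_or (P := P) a with hp | ⟨t, x, rfl⟩
  · have hnp := (hR.pass_iff h a).not.1 (not_not.2 hp)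
    have hv := hR.pos_val a
    have hl : up lab o (N, 0) = up lab o (0, 0) := by simp only [up, h.lN]
    rw [Pl.nxt_pass χ hp, hR.σ_eq]
    generalize pos a = q at ha hnp hv
    obtain ⟨r, p⟩ := q
    obtain ⟨hr, hp'⟩ := hv
    simp only at hr hp' hnp
    cases hup : up lab o (r, p)
    · rw [if_neg (by simp)]
      rcases Nat.eq_zero_or_pos r with rfl | h0
      · have e : p = 0 := by have := h.w0; omega
        subst e
        rw [hup] at ha
        simp at ha
      obtain ⟨r, rfl⟩ : ∃ r', r = r' + 1 := ⟨r - 1, by omega⟩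
      have hr' : r < N := hr
      have hs := h.step r hr'
      have hV := hu.1 r hr'
      have hC := (hu.2 r hr').1
      simp only [bot, Nat.add_sub_cancel, Nat.succ_ne_zero, if_false]
      simp only [Nat.add_sub_cancel, hup] at hnp
      split_ifs with h1 h2 h3 h4
      · exact (hV.1 p h1).symm
      · have := hV.2 (p - ka (sl r)) (by omega) (by omega)
        rw [show p - ka (sl r) + ka (sl r) = p by omega] at this
        exact this.symm
      · exfalso
        apply hnp
        refine Or.inr ⟨trivial, by omega, ?_, by omega, ?_⟩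
        · cases hsl : sl r with
          | cross i e => exact ⟨i, e, rfl⟩
          | cup i d => rw [hsl] at h3; simp [kb] at h3
          | cap i d => rw [hsl] at h1 h2; simp only [ps, ka] at h1 h2; omega
        · cases hsl : sl r <;> rw [hsl] at h1 h2 <;> simp only [ps, ka] at h1 h2 ⊢ <;> omega
      · cases hsl : sl r with
        | cross i e => rw [hsl] at h3; simp [kb] at h3
        | cup i d =>
          rw [hsl] at h4
          simp only [ps] at h4
          subst h4
          exact (hC p d hsl).symm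
        | cap i d => rw [hsl] at h3; simp [kb] at h3
      · cases hsl : sl r with
        | cross i e => rw [hsl] at h3; simp [kb] at h3
        | cup i d =>
          rw [hsl] at h1 h2 h4
          simp only [ps, ka] at h1 h2 h4
          have e : p = i + 1 := by omega
          subst e
          exact hC i d hsl
        | cap i d => rw [hsl] at h3; simp [kb] at h3
    · rw [if_pos rfl]
      rcases Nat.eq_or_lt_of_le hr with rfl | hr'
      · have e : p = 0 := by have := h.wN; omega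
        subst e
        rw [← hl, hup] at ha
        simp at ha
      have hV := hu.1 r hr'
      have hC := (hu.2 r hr').2.1
      simp only [top, if_neg hr'.ne]
      simp only [hup] at hnp
      split_ifs with h1 h2 h3 h4
      · exact hV.1 p h1
      · have := hV.2 (p - kb (sl r)) (by omega) (by omega)
        rw [show p - kb (sl r) + kb (sl r) = p by omega] at this
        exact this
      · exfalso
        apply hnp
        refine Or.inl ⟨trivial, hr', ?_, by omega, ?_⟩
        · cases hsl : sl r with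
          | cross i e => exact ⟨i, e, rfl⟩
          | cup i d => rw [hsl] at h1 h2; simp only [ps, kb] at h1 h2; omega
          | cap i d => rw [hsl] at h3; simp [ka] at h3
        · cases hsl : sl r <;> rw [hsl] at h1 h2 <;> simp only [ps, kb] at h1 h2 ⊢ <;> omega
      · cases hsl : sl r with
        | cross i e => rw [hsl] at h3; simp [ka] at h3
        | cup i d => rw [hsl] at h3; simp [ka] at h3
        | cap i d =>
          rw [hsl] at h4
          simp only [ps] at h4
          subst h4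
          exact (hC p d hsl).symm
      · cases hsl : sl r with
        | cross i e => rw [hsl] at h3; simp [ka] at h3
        | cup i d => rw [hsl] at h3; simp [ka] at h3
        | cap i d =>
          rw [hsl] at h1 h2 h4
          simp only [ps, kb] at h1 h2 h4
          have e : p = i + 1 := by omega
          subst e
          exact hC i d hsl
  · rw [Pl.nxt_inn, hR.inn_eq, hR.out_eq]
    refine (hu.2 (row x) (hR.row_lt x)).2.2 ⟨_, _, hR.row_x x⟩ _ _ ?_ ?_
    · rw [hm x]
      exact (by decide : ∀ o e c : Bool, outA o e c ≠ outA o e (!c)) _ _ _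
    · rw [hm x]
      exact (by decide : ∀ o e t c : Bool, inA o e t ≠ outA o e (!c)) _ _ _ _

omit [Fintype A] in
theorem Real.mzero_Geo3 (hR : Real N sl wid lab P o pos row) (hm : Mark P o row χ μ)
    {γ : A → ℤ} {g : ℕ × ℕ → ℤ} (hg : ∀ a, g (pos a) = if up lab o (pos a) then γ a else -γ a)
    (h0 : ∀ x, γ (P.out (!χ x) x) = 0) : MZero N sl μ g := by
  intro r hr hx
  obtain ⟨x, rfl⟩ := hR.row_surj r hr hx
  rw [hm x, ← hR.out_eq, hg, h0]
  simp

theorem Real.t12 (h : Rows N sl wid lab) (hR : Real N sl wid lab P o pos row)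
    (hm : Mark P o row χ μ) (hb : pos b = (0, 0)) (hT : P.Tree χ b) :
    T1 N sl wid μ ∧ T2 N sl wid μ := by
  refine ⟨fun g hg hz h0 q hq => ?_, fun u hu q hq => ?_⟩
  · obtain ⟨a, rfl⟩ := hR.pos_surj q hq
    have e := hT.flow_zero (hR.s2c h hg) (by simp only [hb, h0]; simp) (fun x => by
      have := hz (row x) (hR.row_lt x) ⟨_, _, hR.row_x x⟩
      rw [hm x, ← hR.out_eq] at this
      simp only [this]
      simp) a
    split_ifs at e
    · exact e
    · exact neg_eq_zero.1 e
  · have hN : Val N wid (N, 0) := ⟨le_rfl, by have := h.wN; simp only; omega⟩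
    obtain ⟨a₀, ha₀⟩ := hR.pos_surj _ hN
    obtain ⟨a, rfl⟩ := hR.pos_surj q hq
    have hl : up lab o (N, 0) = up lab o (0, 0) := by simp only [up, h.lN]
    obtain ⟨c, hc, hcT⟩ : ∃ c, (pos c = if up lab o (0, 0) then (N, 0) else (0, 0)) ∧
        P.Tree χ c := by
      cases hup : up lab o (0, 0)
      · exact ⟨b, by simp [hb], hT⟩
      · refine ⟨a₀, by simp [ha₀], Pl.Tree.cut ?_ ?_⟩
        · have e : P.σ a₀ = b := by
            apply hR.pos_inj
            rw [hR.σ_eq, ha₀, hl, hup, hb]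
            simp [top]
          rw [e]
          exact hT
        · by_contra hp
          rcases (hR.pass_iff h a₀).1 hp with h1 | h1
          · rw [ha₀] at h1
            exact lt_irrefl _ h1.2.1
          · rw [ha₀, hl, hup] at h1
            exact absurd h1.1 (by simp)
    have key := fun a' => hcT.pot (u := fun a => u (pos a))
      (fun a ha => hR.pot h hm hu a fun e => ha (hR.pos_inj (e.trans hc.symm))) a'
    have e1 := key a
    have e2 := key a₀
    simp only [ha₀] at e1 e2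
    rw [e1, e2]

theorem Real.t3 (h : Rows N sl wid lab) (hR : Real N sl wid lab P o pos row)
    (hm : Mark P o row χ μ) : T3 N sl wid μ := by
  rintro u hu h0 hN ⟨q, hq, hne⟩
  obtain ⟨a₀, rfl⟩ := hR.pos_surj q hq
  obtain ⟨γ, hγ, ⟨a, ha⟩, hs, hz⟩ := P.exists_flow χ (U := fun a => u (pos a) ≠ 0) (by
    intro a ha
    rw [hR.pot h hm hu a]
    · exact ha
    · intro e
      apply ha
      rw [e]
      split_ifs
      · exact hN
      · exact h0) ⟨a₀, hne⟩
  obtain ⟨g, hg, he⟩ := hR.c2s h hγ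
  refine ⟨g, hg, hR.mzero_Geo3 hm he hz, ⟨pos a, hR.pos_val a, ?_⟩, fun q hq hg0 => ?_⟩
  · rw [he]
    split_ifs
    · exact ha
    · exact neg_ne_zero.2 ha
  · obtain ⟨a', rfl⟩ := hR.pos_surj q hq
    refine hs a' fun e => hg0 ?_
    rw [he, e]
    simp

theorem Real.tree (h : Rows N sl wid lab) (hR : Real N sl wid lab P o pos row)
    (hm : Mark P o row χ μ) (hb : pos b = (0, 0)) (h1 : T1 N sl wid μ) : P.Tree χ b := by
  intro a₀
  by_contra hn
  obtain ⟨γ, hγ, ⟨a, ha⟩, hs, hz⟩ := P.exists_flow χ (U := fun a => ¬ P.Reach χ a b)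
    (fun a ha e => ha e.head) ⟨a₀, hn⟩
  obtain ⟨g, hg, he⟩ := hR.c2s h hγ
  have hb0 : γ b = 0 := by
    by_contra e
    exact hs b e (Pl.Reach.refl χ b)
  have e := h1 g hg (hR.mzero_Geo3 hm he hz) (by rw [← hb, he, hb0]; simp) _ (hR.pos_val a)
  rw [he] at e
  split_ifs at e
  · exact ha e
  · exact ha (neg_eq_zero.1 e)

end Pool.Agent.P.MP_9ed2cf_gt.Nz
end

-- part Pool.Agent.P.MP_9ed2cf_gt.NzMain
section

set_option autoImplicit false

namespace Pool.Agent.P.MP_9ed2cf_gt.Nz

open Finset Pool.Agent.P.MP_9ed2cf_gt.H14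

variable {N : ℕ} {sl : ℕ → Slice} {wid : ℕ → ℕ} {lab : ℕ → ℕ → Bool × Bool}
variable {A V : Type} {P : Pl A V} {o : Bool} {pos : A → ℕ × ℕ} {row : V → ℕ}

/-- the class of a marker -/
def mk (o e : Bool) (m : Fin 4) : Bool := if o then iu e m else !io e m

theorem adj_outA (o e c : Bool) (m : Fin 4) : adj (outA o e (!c)) m = true ↔ mk o e m = c := by
  revert o e c m
  decide

theorem exists_mark (hR : Real N sl wid lab P o pos row) (χ : V → Bool) :
    ∃ μ, Mark P o row χ μ := by
  classical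
  refine ⟨fun r => if h : ∃ x, row x = r then outA o (P.s h.choose) (!χ h.choose)
    else (false, false), fun x => ?_⟩
  have h : ∃ y, row y = row x := ⟨x, rfl⟩
  have e : h.choose = x := hR.row_inj h.choose_spec
  simp only
  rw [dif_pos h, e]

theorem state_iff [Fintype A] (h : Rows N sl wid lab) (hR : Real N sl wid lab P o pos row) {b : A}
    (hb : pos b = (0, 0)) (k : Bool) (χ : V → Bool) :
    P.Tree χ b ↔ ∃ m, St N sl wid k m ∧ ∀ x, mk o (P.s x) (m (row x)) = χ x := by
  obtain ⟨μ, hm⟩ := exists_mark hR χ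
  constructor
  · intro hT
    obtain ⟨h1, h2⟩ := hR.t12 h hm hb hT
    obtain ⟨m, hs, ha⟩ := st_of_tree h.toShape h1 h2 k
    refine ⟨m, hs, fun x => (adj_outA _ _ _ _).1 ?_⟩
    rw [← hm x]
    exact ha _ (hR.row_lt x) ⟨_, _, hR.row_x x⟩
  · rintro ⟨m, hs, ha⟩
    refine hR.tree h hm hb (t1_of_st h.toShape hs (fun r hr hx => ?_) (hR.t3 h hm))
    obtain ⟨x, rfl⟩ := hR.row_surj r hr hx
    rw [hm x]
    exact (adj_outA _ _ _ _).2 (ha x)

theorem sc_eq [Fintype V] (P : Pl A V) (X Y : V → Bool) :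
    P.sc X Y = ∑ x, if X x = true ∧ Y x = false then (if P.s x then (1 : ℤ) else -1) else 0 := by
  classical
  simp only [Pl.sc, cn, Pl.sg, filter_filter, card_filter]
  push_cast
  rw [← sum_sub_distrib]
  refine sum_congr rfl fun x _ => ?_
  cases P.s x <;> cases X x <;> cases Y x <;> simp

theorem wt_sum [Fintype V] (hR : Real N sl wid lab P o pos row) (mx my : ℕ → Fin 4) :
    ∑ r ∈ range N, wt Kexp (sl r) (mx r) (my r) =
      (P.sc (fun x => mk true (P.s x) (my (row x))) (fun x => mk false (P.s x) (mx (row x))),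
        P.sc (fun x => mk false (P.s x) (mx (row x))) fun x => mk true (P.s x) (my (row x))) := by
  classical
  have h1 : ∑ r ∈ univ.image row, wt Kexp (sl r) (mx r) (my r) =
      ∑ r ∈ range N, wt Kexp (sl r) (mx r) (my r) := by
    refine sum_subset (fun r hr => ?_) fun r hr hn => ?_
    · obtain ⟨x, -, rfl⟩ := mem_image.1 hr
      exact mem_range.2 (hR.row_lt x)
    · cases e : sl r with
      | cross i s =>
        obtain ⟨x, hx⟩ := hR.row_surj r (mem_range.1 hr) ⟨i, s, e⟩
        exact absurd (mem_image.2 ⟨x, mem_univ _, hx⟩) hn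
      | cup i d => rfl
      | cap i d => rfl
  rw [← h1, sum_image fun x _ y _ e => hR.row_inj e, sc_eq, sc_eq]
  have h2 : ∀ (e : Bool) (a c : Fin 4), Kexp e (io e a) (iu e c) =
      ((if mk true e c = true ∧ mk false e a = false then (if e then (1 : ℤ) else -1) else 0),
        if mk false e a = true ∧ mk true e c = false then (if e then (1 : ℤ) else -1) else 0) := by
    intro e a c
    simp only [mk, Kexp]
    cases io e a <;> cases iu e c <;> simp
  refine Prod.ext ?_ ?_
  · rw [Prod.fst_sum]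
    refine sum_congr rfl fun x _ => ?_
    rw [hR.row_x x, wt, h2]
  · rw [Prod.snd_sum]
    refine sum_congr rfl fun x _ => ?_
    rw [hR.row_x x, wt, h2]

/-- the support of the pair count is empty or the set of lattice points of an octagon -/
theorem supp_oct (D : List Slice) (hD : IsAlternating D) (k : Fin 4) :
    (∀ e, (pairCount D k).coeff e = 0) ∨ ∃ w a1 a2 n1 n2 : ℤ, ∀ e : ℤ × ℤ,
      (pairCount D k).coeff e ≠ 0 ↔ (-a2 ≤ e.2 ∧ e.2 ≤ a1 ∧ -a2 ≤ e.1 ∧ e.1 ≤ a1 ∧
        e.2 - e.1 ≤ w ∧ e.1 - e.2 ≤ w ∧ -n2 ≤ e.2 + e.1 ∧ e.2 + e.1 ≤ n1) := by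
  obtain ⟨wid, lab, h⟩ := rows_exists hD
  obtain ⟨A, V, _, _, P, pos, row, hR, hR'⟩ := real_exists h
  obtain ⟨b, hb⟩ := hR.pos_surj (0, 0) ⟨Nat.zero_le _, by rw [h.w0]; exact Nat.one_pos⟩
  have key : ∀ e : ℤ × ℤ, (pairCount D k).coeff e ≠ 0 ↔ P.InS b e.2 e.1 := by
    intro e
    refine (supp_iff h.toShape Kexp (nUp k) e).trans ?_
    constructor
    · rintro ⟨mx, my, hx, hy, rfl⟩
      rw [wt_sum hR]
      exact ⟨_, _, (state_iff h hR hb _ _).2 ⟨mx, hx, fun _ => rfl⟩,
        (state_iff h hR' hb _ _).2 ⟨my, hy, fun _ => rfl⟩, rfl, rfl⟩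
    · rintro ⟨X, Y, hX, hY, e1, e2⟩
      obtain ⟨mx, hx, ex⟩ := (state_iff h hR hb (nUp k).1 X).1 hX
      obtain ⟨my, hy, ey⟩ := (state_iff h hR' hb (nUp k).2 Y).1 hY
      refine ⟨mx, my, hx, hy, ?_⟩
      have ey' : ∀ x, mk true (P.s x) (my (row x)) = Y x := ey
      rw [wt_sum hR, funext ex, funext ey']
      exact Prod.ext e2 e1
  by_cases hne : ∃ i j, P.InS b i j
  · obtain ⟨w, a1, a2, n1, n2, ho⟩ := Pl.oct (hR.planar h) b hne
    exact Or.inr ⟨w, a1, a2, n1, n2, fun e => (key e).trans (ho _ _)⟩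
  · refine Or.inl fun e => ?_
    by_contra h0
    exact hne ⟨_, _, (key e).1 h0⟩

theorem hull_supp (D : List Slice) (hD : IsAlternating D) (k : Fin 4) (p : ℤ × ℤ)
    (hp : ((p.1 : ℝ), (p.2 : ℝ)) ∈ convexHull ℝ
      ((fun q : ℤ × ℤ => ((q.1 : ℝ), (q.2 : ℝ))) '' {q | (pairCount D k).coeff q ≠ 0})) :
    (pairCount D k).coeff p ≠ 0 := by
  rcases supp_oct D hD k with h0 | ⟨w, a1, a2, n1, n2, ho⟩
  · have : {q | (pairCount D k).coeff q ≠ 0} = ∅ := by
      ext q
      simp [h0 q]
    rw [this] at hp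
    simp at hp
  · let C : Set (ℝ × ℝ) := {z | -(a2 : ℝ) ≤ z.2 ∧ z.2 ≤ a1 ∧ -(a2 : ℝ) ≤ z.1 ∧ z.1 ≤ a1 ∧
      z.2 - z.1 ≤ w ∧ z.1 - z.2 ≤ w ∧ -(n2 : ℝ) ≤ z.2 + z.1 ∧ z.2 + z.1 ≤ n1}
    have hC : Convex ℝ C := by
      rintro x ⟨x1, x2, x3, x4, x5, x6, x7, x8⟩ y ⟨y1, y2, y3, y4, y5, y6, y7, y8⟩ s t hs ht hst
      obtain rfl : t = 1 - s := by linarith
      simp only [C, Set.mem_setOf_eq, Prod.fst_add, Prod.snd_add, Prod.smul_fst, Prod.smul_snd,
        smul_eq_mul]
      refine ⟨?_, ?_, ?_, ?_, ?_, ?_, ?_, ?_⟩ <;> nlinarith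
    have hsub : (fun q : ℤ × ℤ => ((q.1 : ℝ), (q.2 : ℝ))) '' {q | (pairCount D k).coeff q ≠ 0} ⊆
        C := by
      rintro _ ⟨q, hq, rfl⟩
      have := (ho q).1 hq
      simp only [C, Set.mem_setOf_eq]
      exact_mod_cast this
    have := convexHull_min hsub hC hp
    simp only [C, Set.mem_setOf_eq] at this
    exact (ho p).2 (by exact_mod_cast this)

theorem main (D : List Slice) (hD : IsAlternating D) (k : Fin 4) :
    ∃ a : ℤ × ℤ →₀ ℤ,
      (∀ (A : Type) [CommRing A] (s0 s1 Y : Aˣ),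
        (Y : A) ^ 2 = ((s0 : A) ^ 2 - 1) * (1 - (s1 : A) ^ 2) →
        LG s0 s1 Y D k = a.sum fun ij n =>
          (n : A) * (((s0 ^ 2) ^ ij.1 * (s1 ^ 2) ^ ij.2 : Aˣ) : A)) ∧
      ∀ p : ℤ × ℤ, ((p.1 : ℝ), (p.2 : ℝ)) ∈ convexHull ℝ
        ((fun q : ℤ × ℤ => ((q.1 : ℝ), (q.2 : ℝ))) '' {q | a q ≠ 0}) → a p ≠ 0 := by
  let ε : ℤˣ := (D.map Slice.sgn).prod
  let b : ℤ × ℤ →₀ ℕ := (pairCount D k).coeff
  let a : ℤ × ℤ →₀ ℤ := Finsupp.onFinset b.support
    (fun ij => ((ε * (-1) ^ (ij.1 + ij.2) : ℤˣ) : ℤ) * (b ij : ℤ))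
    (fun ij h => Finsupp.mem_support_iff.2 fun e => h (by rw [e]; simp))
  have ha : ∀ q, a q ≠ 0 ↔ b q ≠ 0 := fun q => by
    simp only [a, Finsupp.onFinset_apply, ne_eq, mul_eq_zero, Units.ne_zero, false_or,
      Nat.cast_eq_zero]
  refine ⟨a, fun A _ s0 s1 Y hY => ?_, fun p hp => ?_⟩
  · rw [LG_eq D hD k s0 s1 Y hY, AddMonoidAlgebra.lift_apply, Finsupp.mul_sum,
      Finsupp.onFinset_sum _ (fun _ => by simp)]
    refine sum_congr rfl fun ij _ => ?_
    have h1 : ∀ (x : Aˣ) (m : ℤ), (((-x) ^ m : Aˣ) : A) =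
        ((((-1 : ℤˣ) ^ m : ℤˣ) : ℤ) : A) * ((x ^ m : Aˣ) : A) := by
      intro x m
      rw [neg_eq_neg_one_mul x, mul_zpow, neg_one_zpow_eq_ite, neg_one_zpow_eq_ite]
      split_ifs <;> simp
    simp only [chi, MonoidHom.coe_mk, OneHom.coe_mk, toAdd_ofAdd, Units.val_mul, h1, zpow_add,
      nsmul_eq_mul, ε, b]
    push_cast
    ring
  · simp only [ha] at hp ⊢
    exact hull_supp D hD k p hp

end Pool.Agent.P.MP_9ed2cf_gt.Nz
end
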