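import Mathlib

-- part Pool.Agent.P.MP_9ed2cf_gt.Ar
section

/-! Executable polynomial arithmetic with a soundness proof. -/

set_option autoImplicit false

namespace Pool.Agent.P.MP_9ed2cf_gt

/-- executable ring operations -/
structure Ar (α : Type) where
  ofInt : ℤ → α
  zero : α
  add : α → α → α
  mul : α → α → α
  sc : ℤ → α → α
  isZ : α → Bool
  nn : α → Bool

/-- the operations are sound for the evaluation `ev` -/
structure Good {α K : Type} [CommRing K] (A : Ar α) (ev : α → K) : Prop where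
  ofInt : ∀ n, ev (A.ofInt n) = n
  zero : ev A.zero = 0
  add : ∀ x y, ev (A.add x y) = ev x + ev y
  mul : ∀ x y, ev (A.mul x y) = ev x * ev y
  sc : ∀ n x, ev (A.sc n x) = n * ev x
  isZ : ∀ x, A.isZ x = true → ev x = 0

def intAr : Ar ℤ where
  ofInt := fun n => n
  zero := 0
  add := Int.add
  mul := Int.mul
  sc := Int.mul
  isZ := fun n => match n with
    | Int.ofNat k => Nat.beq k 0
    | Int.negSucc _ => false
  nn := fun n => match n with
    | Int.ofNat _ => true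
    | Int.negSucc _ => false

theorem good_int (K : Type) [CommRing K] : Good intAr (fun n : ℤ => (n : K)) where
  ofInt _ := rfl
  zero := Int.cast_zero
  add := Int.cast_add
  mul := Int.cast_mul
  sc := Int.cast_mul
  isZ x h := by
    cases x with
    | ofNat k =>
      have : k = 0 := Nat.eq_of_beq_eq_true h
      simp [this]
    | negSucc k => exact absurd h (by simp [intAr])

theorem nn_int (x : ℤ) (h : intAr.nn x = true) : 0 ≤ ((x : ℤ) : ℤ) := by
  cases x with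
  | ofNat k => simp
  | negSucc k => exact absurd h (by simp [intAr])

variable {α K : Type} [CommRing K]

def ladd (A : Ar α) : List α → List α → List α
  | [], g => g
  | a :: f, [] => a :: f
  | a :: f, b :: g => A.add a b :: ladd A f g

def lmap (h : α → α) : List α → List α
  | [] => []
  | a :: f => h a :: lmap h f

def lmul (A : Ar α) : List α → List α → List α
  | [], _ => []
  | a :: f, g => cond (A.isZ a) (A.zero :: lmul A f g)
      (ladd A (lmap (A.mul a) g) (A.zero :: lmul A f g))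

def lall (h : α → Bool) : List α → Bool
  | [] => true
  | a :: f => cond (h a) (lall h f) false

def lift (A : Ar α) : Ar (List α) where
  ofInt := fun n => [A.ofInt n]
  zero := []
  add := ladd A
  mul := lmul A
  sc := fun n => lmap (A.sc n)
  isZ := lall A.isZ
  nn := lall A.nn

/-- Horner evaluation -/
def lev (ev : α → K) (x : K) : List α → K
  | [] => 0
  | a :: f => ev a + x * lev ev x f

theorem lev_add {A : Ar α} {ev : α → K} (h : Good A ev) (x : K) :
    ∀ f g, lev ev x (ladd A f g) = lev ev x f + lev ev x g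
  | [], g => by simp [ladd, lev]
  | a :: f, [] => by simp [ladd, lev]
  | a :: f, b :: g => by
    simp only [ladd, lev, h.add, lev_add h x f g]; ring

theorem lev_map {ev : α → K} {h : α → α} {c : K} (hh : ∀ a, ev (h a) = c * ev a) (x : K) :
    ∀ f, lev ev x (lmap h f) = c * lev ev x f
  | [] => by simp [lmap, lev]
  | a :: f => by simp only [lmap, lev, hh, lev_map hh x f]; ring

theorem lev_mul {A : Ar α} {ev : α → K} (h : Good A ev) (x : K) (g : List α) :
    ∀ f, lev ev x (lmul A f g) = lev ev x f * lev ev x g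
  | [] => by simp [lmul, lev]
  | a :: f => by
    cases hz : A.isZ a
    · simp only [lmul, hz, cond_false, lev_add h, lev, lev_map (h.mul a), h.zero, lev_mul h x g f]
      ring
    · simp only [lmul, hz, cond_true, lev, h.zero, lev_mul h x g f, h.isZ a hz]
      ring

theorem lall_cons {h : α → Bool} {a : α} {f : List α} (H : lall h (a :: f) = true) :
    h a = true ∧ lall h f = true := by
  cases ha : h a <;> simp_all [lall]

theorem good_lift {A : Ar α} {ev : α → K} (h : Good A ev) (x : K) : Good (lift A) (lev ev x) where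
  ofInt n := by simp [lift, lev, h.ofInt]
  zero := rfl
  add := lev_add h x
  mul f g := lev_mul h x g f
  sc n := lev_map (h.sc n) x
  isZ f := by
    induction f with
    | nil => intro _; rfl
    | cons a f ih =>
      intro H
      obtain ⟨h1, h2⟩ := lall_cons H
      simp [lev, h.isZ a h1, ih h2]

theorem nn_lift {A : Ar α} {ev : α → ℤ} (h : ∀ a, A.nn a = true → 0 ≤ ev a) {x : ℤ} (hx : 0 ≤ x)
    (f : List α) : (lift A).nn f = true → 0 ≤ lev ev x f := by
  induction f with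
  | nil => intro _; exact le_rfl
  | cons a f ih =>
    intro H
    obtain ⟨h1, h2⟩ := lall_cons H
    exact add_nonneg (h a h1) (mul_nonneg hx (ih h2))

/-- adjoining a square root of `w` -/
def quad (A : Ar α) (w : α) : Ar (α × α) where
  ofInt := fun n => (A.ofInt n, A.zero)
  zero := (A.zero, A.zero)
  add := fun x y => (A.add x.1 y.1, A.add x.2 y.2)
  mul := fun x y => (A.add (A.mul x.1 y.1) (A.mul (A.mul x.2 y.2) w),
    A.add (A.mul x.1 y.2) (A.mul x.2 y.1))
  sc := fun n x => (A.sc n x.1, A.sc n x.2)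
  isZ := fun x => A.isZ x.1 && A.isZ x.2
  nn := fun _ => false

theorem good_quad {A : Ar α} {ev : α → K} (h : Good A ev) {w : α} {Y : K} (hY : Y ^ 2 = ev w) :
    Good (quad A w) (fun x => ev x.1 + Y * ev x.2) where
  ofInt n := by simp [quad, h.ofInt, h.zero]
  zero := by simp [quad, h.zero]
  add x y := by simp only [quad, h.add]; ring
  mul x y := by simp only [quad, h.add, h.mul, ← hY]; ring
  sc n x := by simp only [quad, h.sc]; ring
  isZ x H := by
    simp only [quad, Bool.and_eq_true] at H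
    simp [h.isZ _ H.1, h.isZ _ H.2]

end Pool.Agent.P.MP_9ed2cf_gt
end

-- part Pool.Agent.P.MP_9ed2cf_gt.Kron
section

/-! Kronecker substitution: tests on polynomials through one big integer. -/

set_option autoImplicit false

namespace Pool.Agent.P.MP_9ed2cf_gt

/-- a norm and a degree bound -/
structure Nr (α : Type) where
  n1 : α → ℕ
  len : ℕ → α → Prop

structure NrOk {α : Type} (A : Ar α) (N : Nr α) : Prop where
  n_zero : N.n1 A.zero = 0
  n_int : ∀ n, N.n1 (A.ofInt n) ≤ n.natAbs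
  n_add : ∀ x y, N.n1 (A.add x y) ≤ N.n1 x + N.n1 y
  n_mul : ∀ x y, N.n1 (A.mul x y) ≤ N.n1 x * N.n1 y
  n_sc : ∀ n x, N.n1 (A.sc n x) ≤ n.natAbs * N.n1 x
  l_zero : ∀ d, N.len d A.zero
  l_int : ∀ d n, N.len d (A.ofInt n)
  l_mono : ∀ d e x, d ≤ e → N.len d x → N.len e x
  l_add : ∀ d x y, N.len d x → N.len d y → N.len d (A.add x y)
  l_mul : ∀ d e x y, N.len d x → N.len e y → N.len (d + e) (A.mul x y)
  l_sc : ∀ d n x, N.len d x → N.len d (A.sc n x)
  z_of : ∀ x, A.nn x = true → A.nn (A.sc (-1) x) = true → A.isZ x = true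
  z_n : ∀ x, N.n1 x = 0 → A.isZ x = true

def intNr : Nr ℤ := ⟨Int.natAbs, fun _ _ => True⟩

theorem isZ_zero : intAr.isZ 0 = true := rfl

theorem nrOk_int : NrOk intAr intNr where
  n_zero := rfl
  n_int _ := le_rfl
  n_add := Int.natAbs_add_le
  n_mul x y := (Int.natAbs_mul x y).le
  n_sc x y := (Int.natAbs_mul x y).le
  l_zero _ := trivial
  l_int _ _ := trivial
  l_mono _ _ _ _ _ := trivial
  l_add _ _ _ _ _ := trivial
  l_mul _ _ _ _ _ _ := trivial
  l_sc _ _ _ _ := trivial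
  z_of x h1 h2 := by
    have a1 := nn_int _ h1
    have a2 : 0 ≤ -1 * x := nn_int _ h2
    rw [show x = 0 by omega]
    rfl
  z_n x h := by
    rw [Int.natAbs_eq_zero.1 h]
    rfl

variable {α : Type}

def liftNr (N : Nr α) : Nr (List α) :=
  ⟨fun f => (f.map N.n1).sum, fun d f => f.length ≤ d + 1 ∧ ∀ a ∈ f, N.len d a⟩

theorem lmap_eq (h : α → α) : ∀ f, lmap h f = f.map h
  | [] => rfl
  | a :: f => by rw [lmap, lmap_eq h f, List.map_cons]

theorem lall_iff {h : α → Bool} : ∀ {f : List α}, lall h f = true ↔ ∀ a ∈ f, h a = true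
  | [] => by simp [lall]
  | a :: f => by cases ha : h a <;> simp [lall, ha, lall_iff (f := f)]

variable {A : Ar α} {N : Nr α}

theorem n_ladd (h : NrOk A N) : ∀ f g, ((ladd A f g).map N.n1).sum ≤
    (f.map N.n1).sum + (g.map N.n1).sum
  | [], g => by simp [ladd]
  | a :: f, [] => by simp [ladd]
  | a :: f, b :: g => by
    have := n_ladd h f g
    have := h.n_add a b
    simp only [ladd, List.map_cons, List.sum_cons]
    omega

theorem n_map {h : α → α} {c : ℕ} (hh : ∀ a, N.n1 (h a) ≤ c * N.n1 a) :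
    ∀ f : List α, ((lmap h f).map N.n1).sum ≤ c * (f.map N.n1).sum
  | [] => by simp [lmap]
  | a :: f => by
    have := n_map hh f
    have := hh a
    simp only [lmap, List.map_cons, List.sum_cons, mul_add]
    omega

theorem n_lmul (h : NrOk A N) (g : List α) : ∀ f, ((lmul A f g).map N.n1).sum ≤
    (f.map N.n1).sum * (g.map N.n1).sum
  | [] => by simp [lmul]
  | a :: f => by
    have h1 := n_lmul h g f
    have h2 := n_map (h.n_mul a) g
    have h3 := n_ladd h (lmap (A.mul a) g) (A.zero :: lmul A f g)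
    cases hz : A.isZ a <;>
      simp only [lmul, hz, cond_true, cond_false, List.map_cons, List.sum_cons, h.n_zero,
        add_mul] at h3 ⊢ <;> omega

theorem len_ladd (h : NrOk A N) (d : ℕ) : ∀ (f g : List α) (m : ℕ), f.length ≤ m → g.length ≤ m →
    (∀ a ∈ f, N.len d a) → (∀ a ∈ g, N.len d a) →
    (ladd A f g).length ≤ m ∧ ∀ a ∈ ladd A f g, N.len d a
  | [], g, _, _, h2, _, h4 => ⟨h2, h4⟩
  | a :: f, [], _, h1, _, h3, _ => ⟨h1, h3⟩
  | a :: f, b :: g, m, h1, h2, h3, h4 => by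
    simp only [List.length_cons, List.forall_mem_cons] at h1 h2 h3 h4
    have := len_ladd h d f g (m - 1) (by omega) (by omega) h3.2 h4.2
    simp only [ladd, List.length_cons, List.forall_mem_cons]
    exact ⟨by omega, h.l_add d a b h3.1 h4.1, this.2⟩

theorem len_lmul (h : NrOk A N) (d e : ℕ) (g : List α) (hg : g.length ≤ e + 1)
    (hg' : ∀ a ∈ g, N.len e a) : ∀ (f : List α), (∀ a ∈ f, N.len d a) →
    (f ≠ [] → (lmul A f g).length ≤ f.length + e) ∧ ∀ a ∈ lmul A f g, N.len (d + e) a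
  | [], _ => by simp [lmul]
  | a :: f, hf => by
    simp only [List.forall_mem_cons] at hf
    obtain ⟨h1, h2⟩ := len_lmul h d e g hg hg' f hf.2
    have h3 : (A.zero :: lmul A f g).length ≤ (a :: f).length + e := by
      cases f with
      | nil => simp [lmul]
      | cons b f =>
        have := h1 (by simp)
        simp only [List.length_cons] at this ⊢
        omega
    have h4 : ∀ x ∈ A.zero :: lmul A f g, N.len (d + e) x :=
      List.forall_mem_cons.2 ⟨h.l_zero _, h2⟩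
    cases hz : A.isZ a
    · simp only [lmul, hz, cond_false]
      have := len_ladd h (d + e) (lmap (A.mul a) g) _ ((a :: f).length + e)
        (by rw [lmap_eq]; simp only [List.length_map, List.length_cons]; omega) h3
        (by rw [lmap_eq]; simp only [List.forall_mem_map]; exact fun b hb =>
          h.l_mul d e a b hf.1 (hg' b hb)) h4
      exact ⟨fun _ => this.1, this.2⟩
    · simp only [lmul, hz, cond_true]
      exact ⟨fun _ => h3, h4⟩

theorem nrOk_lift (h : NrOk A N) : NrOk (lift A) (liftNr N) where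
  n_zero := rfl
  n_int n := by simpa [lift, liftNr] using h.n_int n
  n_add := n_ladd h
  n_mul f g := n_lmul h g f
  n_sc n := n_map (h.n_sc n)
  l_zero d := by simp [lift, liftNr]
  l_int d n := by simpa [lift, liftNr] using h.l_int d n
  l_mono d e f hde hf := ⟨hf.1.trans (by omega), fun a ha => h.l_mono d e a hde (hf.2 a ha)⟩
  l_add d f g hf hg := len_ladd h d f g _ hf.1 hg.1 hf.2 hg.2
  l_mul d e f g hf hg := by
    have := len_lmul h d e g hg.1 hg.2 f hf.2
    refine ⟨?_, this.2⟩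
    by_cases h0 : f = []
    · simp [h0, lift, lmul]
    · have h1 := this.1 h0
      have h2 := hf.1
      change (lmul A f g).length ≤ _
      omega
  l_sc d n f hf := by
    change (liftNr N).len d (lmap (A.sc n) f)
    rw [lmap_eq]
    exact ⟨by simpa using hf.1, List.forall_mem_map.2 fun a ha => h.l_sc d n a (hf.2 a ha)⟩
  z_of f h1 h2 := by
    change lall A.nn (lmap (A.sc (-1)) f) = true at h2
    rw [lmap_eq, lall_iff, List.forall_mem_map] at h2
    exact lall_iff.2 fun a ha => h.z_of a (lall_iff.1 h1 a ha) (h2 a ha)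
  z_n f h1 := by
    refine lall_iff.2 fun a ha => h.z_n a ?_
    exact List.sum_eq_zero_iff.1 h1 _ (List.mem_map_of_mem ha)

/-- all digits in base `2 ^ (w + 1)` are small -/
def Dig (w : ℕ) (v : ℤ) : Prop := 0 ≤ v ∧ ∀ i, v.toNat.testBit ((w + 1) * i + w) = false

theorem Dig.split {w t : ℕ} {u r : ℤ} (h : Dig w (u + 2 ^ ((w + 1) * (t + 1)) * r))
    (hu : 2 * |u| < 2 ^ ((w + 1) * (t + 1))) : Dig w u ∧ Dig w r := by
  obtain ⟨h1, h2⟩ := h
  set s := (w + 1) * t + w with hs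
  have e : (w + 1) * (t + 1) = s + 1 := by rw [hs]; ring
  rw [e] at h1 h2 hu
  obtain ⟨V, hV⟩ := Int.eq_ofNat_of_zero_le h1
  rw [hV, Int.toNat_natCast] at h2
  have hp : (0 : ℤ) < 2 ^ (s + 1) := by positivity
  have hm : V % 2 ^ (s + 1) < 2 ^ s := by
    have := h2 t
    rw [Nat.testBit_eq_decide_div_mod_eq, decide_eq_false_iff_not] at this
    rw [Nat.mod_pow_succ]
    have h3 := Nat.mod_lt V (show 0 < 2 ^ s by positivity)
    have h4 : V / 2 ^ s % 2 = 0 := (Nat.mod_two_eq_zero_or_one _).resolve_right this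
    rw [h4]
    simpa using h3
  have hm' : ((V % 2 ^ (s + 1) : ℕ) : ℤ) < 2 ^ s := by exact_mod_cast hm
  have hd : (V : ℤ) = ((V % 2 ^ (s + 1) : ℕ) : ℤ) + 2 ^ (s + 1) * ((V / 2 ^ (s + 1) : ℕ) : ℤ) := by
    exact_mod_cast (Nat.mod_add_div V _).symm
  have h0 : (0 : ℤ) ≤ ((V % 2 ^ (s + 1) : ℕ) : ℤ) := Int.natCast_nonneg _
  have hr : r = ((V / 2 ^ (s + 1) : ℕ) : ℤ) := by
    have a1 := abs_lt.1 (show |u| < 2 ^ s by rw [pow_succ] at hu; linarith)
    have a2 : (2 : ℤ) ^ (s + 1) = 2 * 2 ^ s := by ring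
    generalize ((V / 2 ^ (s + 1) : ℕ) : ℤ) = k at *
    generalize ((V % 2 ^ (s + 1) : ℕ) : ℤ) = m at *
    rw [a2] at hV hd
    have b1 : r - k < 1 := by
      by_contra hc
      nlinarith [a1.1, a1.2]
    have b2 : -1 < r - k := by
      by_contra hc
      nlinarith [a1.1, a1.2]
    omega
  have hu' : u = ((V % 2 ^ (s + 1) : ℕ) : ℤ) := by
    rw [hr, hd] at hV
    linarith
  refine ⟨⟨hu' ▸ h0, fun i => ?_⟩, ⟨hr ▸ Int.natCast_nonneg _, fun i => ?_⟩⟩
  · rw [hu', Int.toNat_natCast, Nat.testBit_mod_two_pow, h2, Bool.and_false]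
  · rw [hr, Int.toNat_natCast, Nat.testBit_div_two_pow,
      show (w + 1) * i + w + (s + 1) = (w + 1) * (i + t + 1) + w by rw [hs]; ring, h2]

/-- decoding property of the evaluation `ev` with blocks of `t + 1` digits -/
structure Dec (A : Ar α) (N : Nr α) (ev : α → ℤ) (D w t : ℕ) : Prop where
  bd : ∀ a, N.len D a → |ev a| ≤ N.n1 a * 2 ^ ((w + 1) * t)
  dec : ∀ a, N.len D a → N.n1 a < 2 ^ w → Dig w (ev a) → A.nn a = true

theorem dec_int (D w : ℕ) : Dec intAr intNr (fun n : ℤ => ((n : ℤ) : ℤ)) D w 0 where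
  bd a _ := by simp [intNr]
  dec a _ _ h := by
    obtain ⟨k, rfl⟩ := Int.eq_ofNat_of_zero_le (show 0 ≤ a from h.1)
    rfl

theorem dec_lift {ev : α → ℤ} {D w t : ℕ} (h : Dec A N ev D w t) :
    Dec (lift A) (liftNr N) (lev ev (2 ^ ((w + 1) * (t + 1)))) D w (t + (t + 1) * D) where
  bd f hf := by
    have key : ∀ (f : List α) (m : ℕ), f.length ≤ m + 1 → (∀ a ∈ f, N.len D a) →
        |lev ev (2 ^ ((w + 1) * (t + 1))) f| ≤
          ((f.map N.n1).sum : ℕ) * 2 ^ ((w + 1) * (t + (t + 1) * m)) := by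
      intro f
      induction f with
      | nil => intro m _ _; simp [lev]
      | cons a f ih =>
        intro m h1 h2
        simp only [List.forall_mem_cons, List.length_cons] at h1 h2
        have a1 := h.bd a h2.1
        have a2 : (2 : ℤ) ^ ((w + 1) * t) ≤ 2 ^ ((w + 1) * (t + (t + 1) * m)) :=
          pow_le_pow_right₀ (by norm_num) (Nat.mul_le_mul_left _ (by omega))
        have a3 := mul_le_mul_of_nonneg_left a2 (Int.natCast_nonneg (N.n1 a))
        rw [lev, List.map_cons, List.sum_cons, Nat.cast_add, add_mul (N.n1 a : ℤ)]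
        refine (abs_add_le _ _).trans (add_le_add (a1.trans a3) ?_)
        cases m with
        | zero =>
          rw [List.length_eq_zero_iff.1 (show f.length = 0 by omega)]
          simp [lev]
        | succ m =>
          rw [abs_mul, abs_of_nonneg (by positivity)]
          refine (mul_le_mul_of_nonneg_left (ih m (by omega) h2.2) (by positivity)).trans_eq ?_
          rw [mul_left_comm, ← pow_add]
          congr 2
          ring
    exact key f D hf.1 hf.2
  dec f hf := by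
    have h2 := hf.2
    clear hf
    induction f with
    | nil => intro _ _; rfl
    | cons a f ih =>
      intro h3 h4
      simp only [List.forall_mem_cons, liftNr, List.map_cons, List.sum_cons] at h2 h3
      have a1 := h.bd a h2.1
      have a2 : ((N.n1 a : ℕ) : ℤ) < 2 ^ w := by exact_mod_cast (show N.n1 a < 2 ^ w by omega)
      have a3 : 2 * |ev a| < 2 ^ ((w + 1) * (t + 1)) := by
        rw [mul_add, mul_one, pow_add, pow_succ]
        have : (0 : ℤ) < 2 ^ ((w + 1) * t) := by positivity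
        nlinarith
      obtain ⟨b1, b2⟩ := Dig.split h4 a3
      refine lall_iff.2 (List.forall_mem_cons.2 ⟨h.dec a h2.1 (by omega) b1, lall_iff.1 ?_⟩)
      exact ih h2.2 (show (f.map N.n1).sum < _ by omega) b2

def mask (w : ℕ) : ℕ → ℕ
  | 0 => 0
  | n + 1 => 2 ^ (w + 1) * mask w n + 2 ^ w

theorem testBit_mask (w : ℕ) : ∀ n i, i < n → (mask w n).testBit ((w + 1) * i + w) = true
  | 0, _, h => absurd h (by omega)
  | n + 1, i, h => by
    rw [mask, Nat.testBit_two_pow_mul_add _ (Nat.pow_lt_pow_right (by norm_num) (by omega))]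
    cases i with
    | zero => simp
    | succ i =>
      rw [if_neg (by rw [mul_add]; omega),
        show (w + 1) * (i + 1) + w - (w + 1) = (w + 1) * i + w by rw [mul_add]; omega]
      exact testBit_mask w n i (by omega)

def maskC (w n : ℕ) : ℕ := 2 ^ w * (2 ^ ((w + 1) * n) - 1) / (2 ^ (w + 1) - 1)

theorem maskC_eq (w n : ℕ) : maskC w n = mask w n := by
  have hp : 1 < 2 ^ (w + 1) := Nat.one_lt_two_pow (by omega)
  refine Nat.div_eq_of_eq_mul_left (by omega) ?_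
  zify [hp.le, Nat.one_le_two_pow]
  induction n with
  | zero => simp [mask]
  | succ n ih =>
    rw [mask, mul_add (w + 1), mul_one, pow_add]
    push_cast
    linear_combination (2 : ℤ) ^ (w + 1) * ih

def digT (w n : ℕ) : ℤ → Bool
  | Int.ofNat v => Nat.beq (Nat.land v (maskC w n)) 0 && Nat.beq (Nat.shiftRight v ((w + 1) * n)) 0
  | Int.negSucc _ => false

theorem digT_sound {w n : ℕ} {v : ℤ} (h : digT w n v = true) : Dig w v := by
  cases v with
  | negSucc _ => exact absurd h (by simp [digT])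
  | ofNat v =>
    simp only [digT, Bool.and_eq_true, Nat.beq_eq] at h
    refine ⟨Int.natCast_nonneg v, fun i => ?_⟩
    change v.testBit _ = false
    rcases lt_or_ge i n with hi | hi
    · have h1 : (v &&& mask w n).testBit ((w + 1) * i + w) = false := by
        rw [← maskC_eq, show v &&& maskC w n = 0 from h.1, Nat.zero_testBit]
      rwa [Nat.testBit_and, testBit_mask w n i hi, Bool.and_true] at h1
    · have h1 : v / 2 ^ ((w + 1) * n) = 0 := by
        rw [← Nat.shiftRight_eq_div_pow]; exact h.2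
      refine Nat.testBit_lt_two_pow ((Nat.lt_of_div_eq_zero (by positivity) h1).trans_le ?_)
      exact Nat.pow_le_pow_right (by norm_num) ((Nat.mul_le_mul_left _ hi).trans (by omega))

/-- all data for a Kronecker arithmetic -/
structure Kd (α : Type) where
  A : Ar α
  N : Nr α
  ev : α → ℤ
  D : ℕ
  w : ℕ
  t : ℕ
  good : Good A ev
  ok : NrOk A N
  dec : Dec A N ev D w t

/-- a polynomial (never evaluated) with its value at the Kronecker point and bounds -/
structure KP (S : Kd α) where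
  p : α
  v : ℤ
  nb : ℕ
  dg : ℕ
  hv : S.ev p = v
  hn : S.N.n1 p ≤ nb
  hd : S.N.len dg p

namespace KP

variable {S : Kd α}

def zero (S : Kd α) : KP S := ⟨S.A.zero, 0, 0, 0, S.good.zero, S.ok.n_zero.le, S.ok.l_zero 0⟩

def mul (x y : KP S) : KP S :=
  ⟨S.A.mul x.p y.p, Int.mul x.v y.v, Nat.mul x.nb y.nb, Nat.add x.dg y.dg,
    by rw [S.good.mul, x.hv, y.hv]; rfl,
    (S.ok.n_mul _ _).trans (Nat.mul_le_mul x.hn y.hn), S.ok.l_mul _ _ _ _ x.hd y.hd⟩

def mx (a b : ℕ) : ℕ := Nat.add a (Nat.sub b a)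

theorem le_mx (a b : ℕ) : a ≤ mx a b ∧ b ≤ mx a b := by
  change a ≤ a + (b - a) ∧ b ≤ a + (b - a)
  omega

def add (x y : KP S) : KP S :=
  ⟨S.A.add x.p y.p, Int.add x.v y.v, Nat.add x.nb y.nb, mx x.dg y.dg,
    by rw [S.good.add, x.hv, y.hv]; rfl,
    (S.ok.n_add _ _).trans (Nat.add_le_add x.hn y.hn),
    S.ok.l_add _ _ _ (S.ok.l_mono _ _ _ (le_mx _ _).1 x.hd) (S.ok.l_mono _ _ _ (le_mx _ _).2 y.hd)⟩

def sc (n : ℤ) (x : KP S) : KP S :=
  ⟨S.A.sc n x.p, Int.mul n x.v, Nat.mul n.natAbs x.nb, x.dg, by rw [S.good.sc, x.hv]; rfl,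
    (S.ok.n_sc _ _).trans (Nat.mul_le_mul_left _ x.hn), S.ok.l_sc _ _ _ x.hd⟩

def small (x : KP S) : Bool := Nat.ble x.dg S.D && Nat.ble (Nat.succ x.nb) (Nat.pow 2 S.w)

theorem nn_of (x : KP S) (h : x.small = true) (h' : Dig S.w x.v) : S.A.nn x.p = true := by
  simp only [small, Bool.and_eq_true, Nat.ble_eq] at h
  exact S.dec.dec _ (S.ok.l_mono _ _ _ h.1 x.hd) (x.hn.trans_lt h.2) (x.hv ▸ h')

theorem isZ_of (x : KP S) (h : x.small = true) (h' : x.v = 0) : S.A.isZ x.p = true := by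
  have h0 : Dig S.w 0 := ⟨le_rfl, fun i => by simp⟩
  refine S.ok.z_of _ (x.nn_of h (h' ▸ h0)) ((sc (-1) x).nn_of ?_ ?_)
  · simpa [small, sc] using h
  · change Dig S.w (-1 * x.v)
    rw [h', mul_zero]
    exact h0

end KP

/-- the fast arithmetic -/
def kAr (S : Kd α) : Ar (KP S) where
  ofInt := fun n => ⟨S.A.ofInt n, n, n.natAbs, 0, S.good.ofInt n, S.ok.n_int n, S.ok.l_int 0 n⟩
  zero := KP.zero S
  add := KP.add
  mul := fun x y => cond (Nat.beq x.nb 0) (KP.zero S) (cond (Nat.beq y.nb 0) (KP.zero S) (x.mul y))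
  sc := KP.sc
  isZ := fun x => intAr.isZ x.v && x.small
  nn := fun x => x.small && digT S.w (S.t + 1) x.v

theorem good_k {K : Type} [CommRing K] (S : Kd α) {ev : α → K} (h : Good S.A ev) :
    Good (kAr S) (fun x => ev x.p) where
  ofInt := h.ofInt
  zero := h.zero
  add x y := h.add _ _
  mul x y := by
    have z : ∀ x : KP S, Nat.beq x.nb 0 = true → ev x.p = 0 := fun x hx =>
      h.isZ _ (S.ok.z_n _ (Nat.le_zero.1 (Nat.eq_of_beq_eq_true hx ▸ x.hn)))
    cases hx : Nat.beq x.nb 0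
    · cases hy : Nat.beq y.nb 0
      · simp only [kAr, hx, hy, cond_false]
        exact h.mul _ _
      · simp only [kAr, hx, hy, cond_false, cond_true, z y hy, mul_zero]
        exact h.zero
    · simp only [kAr, hx, cond_true, z x hx, zero_mul]
      exact h.zero
  sc n x := h.sc _ _
  isZ x H := by
    simp only [kAr, Bool.and_eq_true] at H
    exact h.isZ _ (x.isZ_of H.2 ((good_int ℤ).isZ _ H.1))

theorem nn_k (S : Kd α) (x : KP S) (H : (kAr S).nn x = true) : S.A.nn x.p = true := by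
  simp only [kAr, Bool.and_eq_true] at H
  exact x.nn_of H.1 (digT_sound H.2)

end Pool.Agent.P.MP_9ed2cf_gt
end

-- part Pool.Agent.P.MP_9ed2cf_gt.Eng
section

/-! A verified checker for piecewise polynomial inequalities. -/

set_option autoImplicit false
set_option exponentiation.threshold 30000
set_option maxRecDepth 10000

namespace Pool.Agent.P.MP_9ed2cf_gt

/-- six times the coefficient of `X ^ y` in `1 / (1 - X) ^ 4` -/
def T6 (y : ℤ) : ℤ := if 0 ≤ y then (y + 1) * (y + 2) * (y + 3) else 0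

def ser : List ℤ → ℤ → ℤ
  | [], _ => 0
  | c :: l, y => c * T6 y + ser l (y - 1)

/-- numerators of the decomposition into fractions -/
structure Nm where
  r0 : List ℤ
  r1 : List ℤ
  r2 : List ℤ
  s : List ℤ
  t0 : List ℤ
  t1 : List ℤ
  w : List ℤ

def al (N : Nm) (a b c n : ℤ) : ℤ :=
  ser N.r0 n + (a + b + c) * ser N.r1 n + (a * b + a * c + b * c) * ser N.r2 n
    + ser N.s (n - a) + ser N.s (n - b) + ser N.s (n - c)
    + (ser N.t0 (n - b - c) + a * ser N.t1 (n - b - c))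
    + (ser N.t0 (n - a - c) + b * ser N.t1 (n - a - c))
    + (ser N.t0 (n - a - b) + c * ser N.t1 (n - a - b))
    + ser N.w (n - a - b - c)

def NC : Nm := ⟨[1, -8, -16, 16, 7], [2, 0, -24, 16, 6], [4, 8, -24, 8, 4], [0, 2, 10, 10, 2],
  [0, 0, -8, -22, -16, -2], [0, 2, 8, 0, -8, -2], [0, 0, 8, 28, 28, 8]⟩

def NB : Nm := ⟨[1, -13, -1, 13], [4, -12, -4, 12], [8, -8, -8, 8], [0, 4, 8, 4],
  [0, -1, -11, -15, -5], [0, 4, 4, -4, -4], [0, 1, 12, 22, 12, 1]⟩

def NA : Nm := ⟨[1, -8, 7], [2, -8, 6], [4, -8, 4], [0, 2, 2],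
  [0, -1, -4, -3], [0, 2, 0, -2], [0, 1, 5, 5, 1]⟩

/-- affine forms in four variables -/
structure Fm where
  c0 : ℤ
  c1 : ℤ
  c2 : ℤ
  c3 : ℤ
  k : ℤ

/-- points -/
structure Pt where
  x0 : ℤ
  x1 : ℤ
  x2 : ℤ
  x3 : ℤ

def Pt.NN (x : Pt) : Prop := 0 ≤ x.x0 ∧ 0 ≤ x.x1 ∧ 0 ≤ x.x2 ∧ 0 ≤ x.x3

namespace Fm

def ev (f : Fm) (x : Pt) : ℤ := f.c0 * x.x0 + f.c1 * x.x1 + f.c2 * x.x2 + f.c3 * x.x3 + f.k

def sub (f g : Fm) : Fm := ⟨f.c0 - g.c0, f.c1 - g.c1, f.c2 - g.c2, f.c3 - g.c3, f.k - g.k⟩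

def add (f g : Fm) : Fm := ⟨f.c0 + g.c0, f.c1 + g.c1, f.c2 + g.c2, f.c3 + g.c3, f.k + g.k⟩

def up (f : Fm) : Bool :=
  intAr.nn f.c0 && intAr.nn f.c1 && intAr.nn f.c2 && intAr.nn f.c3

def dn (f : Fm) : Bool :=
  intAr.nn (-f.c0) && intAr.nn (-f.c1) && intAr.nn (-f.c2) && intAr.nn (-f.c3)

theorem ev_sub (f g : Fm) (x : Pt) : (f.sub g).ev x = f.ev x - g.ev x := by
  simp only [sub, ev]; ring

theorem ev_add (f g : Fm) (x : Pt) : (f.add g).ev x = f.ev x + g.ev x := by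
  simp only [add, ev]; ring

theorem le_ev {f : Fm} {x : Pt} (hx : x.NN) (h : f.up = true) : f.k ≤ f.ev x := by
  simp only [up, Bool.and_eq_true] at h
  obtain ⟨⟨⟨h0, h1⟩, h2⟩, h3⟩ := h
  have := mul_nonneg (nn_int _ h0) hx.1
  have := mul_nonneg (nn_int _ h1) hx.2.1
  have := mul_nonneg (nn_int _ h2) hx.2.2.1
  have := mul_nonneg (nn_int _ h3) hx.2.2.2
  simp only [ev]; linarith

theorem ev_le {f : Fm} {x : Pt} (hx : x.NN) (h : f.dn = true) : f.ev x ≤ f.k := by
  simp only [dn, Bool.and_eq_true] at h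
  obtain ⟨⟨⟨h0, h1⟩, h2⟩, h3⟩ := h
  have := mul_nonneg (nn_int _ h0) hx.1
  have := mul_nonneg (nn_int _ h1) hx.2.1
  have := mul_nonneg (nn_int _ h2) hx.2.2.1
  have := mul_nonneg (nn_int _ h3) hx.2.2.2
  simp only [ev]; linarith

/-- set a variable to zero -/
def z0 (f : Fm) : ℕ → Fm
  | 0 => ⟨0, f.c1, f.c2, f.c3, f.k⟩
  | 1 => ⟨f.c0, 0, f.c2, f.c3, f.k⟩
  | 2 => ⟨f.c0, f.c1, 0, f.c3, f.k⟩
  | _ => ⟨f.c0, f.c1, f.c2, 0, f.k⟩

def co (f : Fm) : ℕ → ℤ
  | 0 => f.c0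
  | 1 => f.c1
  | 2 => f.c2
  | _ => f.c3

/-- add `v` to a coefficient -/
def inc (f : Fm) (v : ℤ) : ℕ → Fm
  | 0 => ⟨f.c0 + v, f.c1, f.c2, f.c3, f.k⟩
  | 1 => ⟨f.c0, f.c1 + v, f.c2, f.c3, f.k⟩
  | 2 => ⟨f.c0, f.c1, f.c2 + v, f.c3, f.k⟩
  | _ => ⟨f.c0, f.c1, f.c2, f.c3 + v, f.k⟩

def sh (f : Fm) (v : ℤ) : Fm := ⟨f.c0, f.c1, f.c2, f.c3, f.k + v⟩

/-- `x i := x i + 1` -/
def z1 (f : Fm) (i : ℕ) : Fm := f.sh (f.co i)

/-- `x i := x i + x j` -/
def ge (f : Fm) (i j : ℕ) : Fm := f.inc (f.co i) j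

/-- `x j := x j + x i + 1` -/
def lt (f : Fm) (i j : ℕ) : Fm := (f.inc (f.co j) i).sh (f.co j)

end Fm

namespace Pt

def co (x : Pt) : ℕ → ℤ
  | 0 => x.x0
  | 1 => x.x1
  | 2 => x.x2
  | _ => x.x3

/-- subtract `v` from a coordinate -/
def dec (x : Pt) (v : ℤ) : ℕ → Pt
  | 0 => ⟨x.x0 - v, x.x1, x.x2, x.x3⟩
  | 1 => ⟨x.x0, x.x1 - v, x.x2, x.x3⟩
  | 2 => ⟨x.x0, x.x1, x.x2 - v, x.x3⟩
  | _ => ⟨x.x0, x.x1, x.x2, x.x3 - v⟩

theorem co_nn {x : Pt} (hx : x.NN) (i : ℕ) : 0 ≤ x.co i := by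
  obtain ⟨h0, h1, h2, h3⟩ := hx
  rcases i with _ | _ | _ | i <;> simpa [co]

theorem dec_nn {x : Pt} (hx : x.NN) {v : ℤ} {i : ℕ} (h : v ≤ x.co i) : (x.dec v i).NN := by
  obtain ⟨h0, h1, h2, h3⟩ := hx
  rcases i with _ | _ | _ | i <;> simp only [co] at h <;> refine ⟨?_, ?_, ?_, ?_⟩ <;>
    simp only [dec] <;> omega

end Pt

theorem ev_z0 (f : Fm) {x : Pt} {i : ℕ} (h : x.co i = 0) : (f.z0 i).ev x = f.ev x := by
  rcases i with _ | _ | _ | i <;> simp only [Pt.co] at h <;> simp [Fm.z0, Fm.ev, h]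

theorem ev_z1 (f : Fm) (x : Pt) (i : ℕ) : (f.z1 i).ev (x.dec 1 i) = f.ev x := by
  rcases i with _ | _ | _ | i <;> simp only [Fm.z1, Fm.sh, Fm.co, Fm.ev, Pt.dec] <;> ring

theorem ev_ge (f : Fm) (x : Pt) {i j : ℕ} (h : i ≠ j) (hi : i < 4) (hj : j < 4) :
    (f.ge i j).ev (x.dec (x.co j) i) = f.ev x ∧ (f.lt i j).ev (x.dec (x.co i + 1) j) = f.ev x := by
  interval_cases i <;> interval_cases j <;> first
    | exact absurd rfl h
    | (constructor <;> simp only [Fm.ge, Fm.lt, Fm.inc, Fm.sh, Fm.co, Fm.ev, Pt.dec, Pt.co] <;> ring)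

/-- the four quantities `a, b, c, n` -/
structure St where
  a : Fm
  b : Fm
  c : Fm
  n : Fm

def St.map (s : St) (h : Fm → Fm) : St := ⟨h s.a, h s.b, h s.c, h s.n⟩

/-- case distinctions -/
inductive Tr : Type
  | L : Tr
  | z : ℕ → Tr → Tr → Tr
  | c : ℕ → ℕ → Tr → Tr → Tr

def chk (lf : St → Bool) : Tr → St → Bool
  | .L, s => lf s
  | .z i l r, s => chk lf l (s.map fun f => f.z0 i) && chk lf r (s.map fun f => f.z1 i)
  | .c i j l r, s => !(Nat.beq i j) && Nat.blt i 4 && Nat.blt j 4 && chk lf l (s.map fun f => f.ge i j) &&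
      chk lf r (s.map fun f => f.lt i j)

def St.Holds (s : St) (P : ℤ → ℤ → ℤ → ℤ → Prop) : Prop :=
  ∀ x : Pt, x.NN → P (s.a.ev x) (s.b.ev x) (s.c.ev x) (s.n.ev x)

theorem chk_sound {lf : St → Bool} {P : ℤ → ℤ → ℤ → ℤ → Prop}
    (h : ∀ s, lf s = true → s.Holds P) : ∀ (t : Tr) (s : St), chk lf t s = true → s.Holds P
  | .L, s, H => h s H
  | .z i l r, s, H => by
    simp only [chk, Bool.and_eq_true] at H
    intro x hx
    rcases (Pt.co_nn hx i).eq_or_lt with h0 | h0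
    · have := chk_sound h l _ H.1 x hx
      simpa only [St.map, ev_z0 _ h0.symm] using this
    · have := chk_sound h r _ H.2 _ (Pt.dec_nn hx (v := 1) (i := i) (by omega))
      simpa only [St.map, ev_z1] using this
  | .c i j l r, s, H => by
    simp only [chk, Bool.and_eq_true, Nat.blt_eq] at H
    obtain ⟨⟨⟨⟨h1, h2⟩, h2'⟩, h3⟩, h4⟩ := H
    replace h1 : i ≠ j := fun e => by simp [e] at h1
    intro x hx
    rcases le_or_gt (x.co j) (x.co i) with h0 | h0
    · have := chk_sound h l _ h3 _ (Pt.dec_nn hx h0)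
      simpa only [St.map, (ev_ge _ x h1 h2 h2').1] using this
    · have := chk_sound h r _ h4 _ (Pt.dec_nn hx (v := x.co i + 1) (i := j) (by omega))
      simpa only [St.map, (ev_ge _ x h1 h2 h2').2] using this

/-! polynomials in four variables -/

abbrev R4 : Type := List (List (List (List ℤ)))

def evR (x : Pt) : R4 → ℤ := lev (lev (lev (lev (fun n : ℤ => (n : ℤ)) x.x3) x.x2) x.x1) x.x0

def S4 : Kd R4 where
  A := lift (lift (lift (lift intAr)))
  N := liftNr (liftNr (liftNr (liftNr intNr)))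
  ev := lev (lev (lev (lev (fun n : ℤ => ((n : ℤ) : ℤ)) (2 ^ ((79 + 1) * (0 + 1))))
    (2 ^ ((79 + 1) * (6 + 1)))) (2 ^ ((79 + 1) * (48 + 1)))) (2 ^ ((79 + 1) * (342 + 1)))
  D := 6
  w := 79
  t := 2400
  good := good_lift (good_lift (good_lift (good_lift (good_int ℤ) _) _) _) _
  ok := nrOk_lift (nrOk_lift (nrOk_lift (nrOk_lift nrOk_int)))
  dec := dec_lift (t := 342) (dec_lift (t := 48) (dec_lift (t := 6) (dec_lift (dec_int 6 79))))

abbrev P4 : Type := KP S4

def A4 : Ar P4 := kAr S4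

def ev4 (x : Pt) (p : P4) : ℤ := evR x p.p

theorem good4 (x : Pt) : Good A4 (ev4 x) :=
  good_k S4 (good_lift (good_lift (good_lift (good_lift (good_int ℤ) _) _) _) _)

theorem nn4 {x : Pt} (hx : x.NN) (p : P4) (h : A4.nn p = true) : 0 ≤ ev4 x p :=
  nn_lift (nn_lift (nn_lift (nn_lift nn_int hx.2.2.2) hx.2.2.1) hx.2.1) hx.1 p.p (nn_k S4 p h)

theorem pow2 (n : ℕ) : (2 : ℤ) ^ n = Int.ofNat (Nat.pow 2 n) := (Int.natCast_pow 2 n).symm

def X0 : P4 := ⟨[[], [[[1]]]], Int.ofNat (Nat.pow 2 ((79 + 1) * (342 + 1))), 1, 1,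
  by rw [← pow2]; simp only [S4, lev, mul_zero, add_zero, zero_add, mul_one],
  by simp [S4, liftNr, intNr], by simp [S4, liftNr, intNr]⟩

def X1 : P4 := ⟨[[[], [[1]]]], Int.ofNat (Nat.pow 2 ((79 + 1) * (48 + 1))), 1, 1,
  by rw [← pow2]; simp only [S4, lev, mul_zero, add_zero, zero_add, mul_one],
  by simp [S4, liftNr, intNr], by simp [S4, liftNr, intNr]⟩

def X2 : P4 := ⟨[[[[], [1]]]], Int.ofNat (Nat.pow 2 ((79 + 1) * (6 + 1))), 1, 1,
  by rw [← pow2]; simp only [S4, lev, mul_zero, add_zero, zero_add, mul_one],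
  by simp [S4, liftNr, intNr], by simp [S4, liftNr, intNr]⟩

def X3 : P4 := ⟨[[[[0, 1]]]], Int.ofNat (Nat.pow 2 ((79 + 1) * (0 + 1))), 1, 1,
  by rw [← pow2]; simp only [S4, lev, mul_zero, add_zero, zero_add, mul_one],
  by simp [S4, liftNr, intNr], by simp [S4, liftNr, intNr]⟩

def sca (c : ℤ) (p q : P4) : P4 := cond (intAr.isZ c) q (A4.add (A4.sc c p) q)

theorem ev_sca (x : Pt) (c : ℤ) (p q : P4) : ev4 x (sca c p q) = c * ev4 x p + ev4 x q := by
  cases hz : intAr.isZ c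
  · simp [sca, hz, (good4 x).add, (good4 x).sc]
  · have : c = 0 := (good_int ℤ).isZ c hz
    simp only [sca, hz, cond_true]
    simp [this]

def Fm.poly (f : Fm) : P4 :=
  sca f.c0 X0 (sca f.c1 X1 (sca f.c2 X2 (sca f.c3 X3 (A4.ofInt f.k))))

theorem ev_poly (f : Fm) (x : Pt) : ev4 x f.poly = f.ev x := by
  simp only [Fm.poly, ev_sca, (good4 x).ofInt, Fm.ev]
  have e0 : ev4 x X0 = x.x0 := by change evR x [[], [[[1]]]] = _; simp [evR, lev]
  have e1 : ev4 x X1 = x.x1 := by change evR x [[[], [[1]]]] = _; simp [evR, lev]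
  have e2 : ev4 x X2 = x.x2 := by change evR x [[[[], [1]]]] = _; simp [evR, lev]
  have e3 : ev4 x X3 = x.x3 := by change evR x [[[[0, 1]]]] = _; simp [evR, lev]
  simp only [e0, e1, e2, e3, Int.cast_id, add_assoc]

/-- a form with its powers -/
structure Pw where
  up : Bool
  dn : Bool
  k : ℤ
  p1 : P4
  p2 : P4
  p3 : P4

def Fm.pw (f : Fm) : Pw :=
  let p := f.poly
  let p2 := A4.mul p p
  ⟨f.up, f.dn, f.k, p, p2, A4.mul p p2⟩

structure Pw.Ok (w : Pw) (x : Pt) (y : ℤ) : Prop where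
  up : w.up = true → w.k ≤ y
  dn : w.dn = true → y ≤ w.k
  p1 : ev4 x w.p1 = y
  p2 : ev4 x w.p2 = y ^ 2
  p3 : ev4 x w.p3 = y ^ 3

theorem pw_ok (f : Fm) {x : Pt} (hx : x.NN) : f.pw.Ok x (f.ev x) where
  up := Fm.le_ev hx
  dn := Fm.ev_le hx
  p1 := ev_poly f x
  p2 := by simp only [Fm.pw, (good4 x).mul, ev_poly]; ring
  p3 := by simp only [Fm.pw, (good4 x).mul, ev_poly]; ring

/-- cubic coefficients with a validity flag -/
structure Cu where
  ok : Bool
  c0 : ℤ
  c1 : ℤ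
  c2 : ℤ
  c3 : ℤ

def serC (w : Pw) : List ℤ → ℤ → Cu
  | [], _ => ⟨true, 0, 0, 0, 0⟩
  | c :: l, s =>
    let r := serC w l (s - 1)
    cond (intAr.isZ c || (w.dn && intAr.nn (-1 - (w.k + s)))) r
      ⟨r.ok && w.up && intAr.nn (w.k + s + 3), r.c0 + c * ((s + 1) * (s + 2) * (s + 3)),
        r.c1 + c * (3 * s * s + 12 * s + 11), r.c2 + c * (3 * s + 6), r.c3 + c⟩

theorem T6_neg {y : ℤ} (h : y ≤ -1) : T6 y = 0 := if_neg (by omega)

theorem T6_pos {y : ℤ} (h : -3 ≤ y) : T6 y = (y + 1) * (y + 2) * (y + 3) := by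
  unfold T6
  split_ifs with h0
  · rfl
  · have : y = -1 ∨ y = -2 ∨ y = -3 := by omega
    rcases this with rfl | rfl | rfl <;> rfl

theorem serC_ok {w : Pw} {x : Pt} {y : ℤ} (h : w.Ok x y) : ∀ (l : List ℤ) (s : ℤ),
    (serC w l s).ok = true → ser l (y + s) =
      (serC w l s).c0 + (serC w l s).c1 * y + (serC w l s).c2 * y ^ 2 + (serC w l s).c3 * y ^ 3
  | [], s, _ => by simp [ser, serC]
  | c :: l, s, H => by
    have ih := serC_ok h l (s - 1)
    rw [← add_sub_assoc] at ih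
    cases hz : (intAr.isZ c || (w.dn && intAr.nn (-1 - (w.k + s))))
    · simp only [serC, hz, cond_false, Bool.and_eq_true] at H ⊢
      have h1 := h.up H.1.2
      have h2 := nn_int _ H.2
      rw [ser, ih H.1.1, T6_pos (by omega)]
      ring
    · simp only [serC, hz, cond_true] at H ⊢
      rw [ser, ih H]
      simp only [Bool.or_eq_true, Bool.and_eq_true] at hz
      rcases hz with hz | hz
      · have : c = 0 := (good_int ℤ).isZ c hz
        simp [this]
      · have h1 := h.dn hz.1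
        have h2 := nn_int _ hz.2
        rw [T6_neg (by omega)]
        simp

def Cu.poly (r : Cu) (w : Pw) : P4 :=
  sca r.c3 w.p3 (sca r.c2 w.p2 (sca r.c1 w.p1 (A4.ofInt r.c0)))

theorem ev_cu {w : Pw} {x : Pt} {y : ℤ} (h : w.Ok x y) (l : List ℤ) (s : ℤ)
    (H : (serC w l s).ok = true) : ev4 x ((serC w l s).poly w) = ser l (y + s) := by
  rw [serC_ok h l s H]
  simp only [Cu.poly, ev_sca, h.p1, h.p2, h.p3, (good4 x).ofInt, Int.cast_id]
  ring

/-- the data shared by all evaluations at a leaf -/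
structure Dat where
  a : P4
  b : P4
  c : P4
  e1 : P4
  e2 : P4
  w0 : Pw
  wa : Pw
  wb : Pw
  wc : Pw
  wbc : Pw
  wac : Pw
  wab : Pw
  wabc : Pw

def St.dat (s : St) : Dat :=
  let a := s.a.poly
  let b := s.b.poly
  let c := s.c.poly
  let na := s.n.sub s.a
  let nb := s.n.sub s.b
  ⟨a, b, c, ((s.a.add s.b).add s.c).poly, A4.add (A4.mul a (s.b.add s.c).poly) (A4.mul b c),
    s.n.pw, na.pw, nb.pw, (s.n.sub s.c).pw, (nb.sub s.c).pw, (na.sub s.c).pw, (na.sub s.b).pw,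
    ((na.sub s.b).sub s.c).pw⟩

def alOk (D : Dat) (N : Nm) (s : ℤ) : Bool :=
  (serC D.w0 N.r0 s).ok && (serC D.w0 N.r1 s).ok && (serC D.w0 N.r2 s).ok &&
  (serC D.wa N.s s).ok && (serC D.wb N.s s).ok && (serC D.wc N.s s).ok &&
  (serC D.wbc N.t0 s).ok && (serC D.wbc N.t1 s).ok &&
  (serC D.wac N.t0 s).ok && (serC D.wac N.t1 s).ok &&
  (serC D.wab N.t0 s).ok && (serC D.wab N.t1 s).ok && (serC D.wabc N.w s).ok

def alP (D : Dat) (N : Nm) (s : ℤ) : P4 :=
  A4.add ((serC D.w0 N.r0 s).poly D.w0) <|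
  A4.add (A4.mul ((serC D.w0 N.r1 s).poly D.w0) D.e1) <|
  A4.add (A4.mul ((serC D.w0 N.r2 s).poly D.w0) D.e2) <|
  A4.add ((serC D.wa N.s s).poly D.wa) <|
  A4.add ((serC D.wb N.s s).poly D.wb) <|
  A4.add ((serC D.wc N.s s).poly D.wc) <|
  A4.add ((serC D.wbc N.t0 s).poly D.wbc) <|
  A4.add (A4.mul ((serC D.wbc N.t1 s).poly D.wbc) D.a) <|
  A4.add ((serC D.wac N.t0 s).poly D.wac) <|
  A4.add (A4.mul ((serC D.wac N.t1 s).poly D.wac) D.b) <|
  A4.add ((serC D.wab N.t0 s).poly D.wab) <|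
  A4.add (A4.mul ((serC D.wab N.t1 s).poly D.wab) D.c) ((serC D.wabc N.w s).poly D.wabc)

theorem ev_alP (s : St) {x : Pt} (hx : x.NN) (N : Nm) (k : ℤ) (H : alOk s.dat N k = true) :
    ev4 x (alP s.dat N k) = al N (s.a.ev x) (s.b.ev x) (s.c.ev x) (s.n.ev x + k) := by
  simp only [alOk, Bool.and_eq_true, St.dat] at H
  obtain ⟨⟨⟨⟨⟨⟨⟨⟨⟨⟨⟨⟨h1, h2⟩, h3⟩, h4⟩, h5⟩, h6⟩, h7⟩, h8⟩, h9⟩, h10⟩, h11⟩, h12⟩, h13⟩ := H
  simp only [alP, St.dat, (good4 x).add, (good4 x).mul, ev_poly, ev_cu (pw_ok _ hx) _ _ h1,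
    ev_cu (pw_ok _ hx) _ _ h2, ev_cu (pw_ok _ hx) _ _ h3, ev_cu (pw_ok _ hx) _ _ h4,
    ev_cu (pw_ok _ hx) _ _ h5, ev_cu (pw_ok _ hx) _ _ h6, ev_cu (pw_ok _ hx) _ _ h7,
    ev_cu (pw_ok _ hx) _ _ h8, ev_cu (pw_ok _ hx) _ _ h9, ev_cu (pw_ok _ hx) _ _ h10,
    ev_cu (pw_ok _ hx) _ _ h11, ev_cu (pw_ok _ hx) _ _ h12, ev_cu (pw_ok _ hx) _ _ h13,
    Fm.ev_sub, Fm.ev_add, al, sub_add_eq_add_sub]
  ring

/-- leaf test for a quadratic inequality -/
def lfQ (N1 N2 N3 N4 : Nm) (k1 k2 k3 k4 : ℤ) (s : St) : Bool :=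
  let D := s.dat
  alOk D N1 k1 && alOk D N2 k2 && alOk D N3 k3 && alOk D N4 k4 &&
    A4.nn (A4.add (A4.mul (alP D N3 k3) (alP D N4 k4))
      (A4.mul (A4.sc (-1) (alP D N1 k1)) (alP D N2 k2)))

theorem lfQ_sound (N1 N2 N3 N4 : Nm) (k1 k2 k3 k4 : ℤ) (s : St)
    (H : lfQ N1 N2 N3 N4 k1 k2 k3 k4 s = true) : s.Holds fun a b c n =>
      al N1 a b c (n + k1) * al N2 a b c (n + k2) ≤ al N3 a b c (n + k3) * al N4 a b c (n + k4) := by
  simp only [lfQ, Bool.and_eq_true] at H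
  obtain ⟨⟨⟨⟨h1, h2⟩, h3⟩, h4⟩, h5⟩ := H
  intro x hx
  have := nn4 hx _ h5
  simp only [(good4 x).add, (good4 x).mul, (good4 x).sc, ev_alP s hx _ _ h1, ev_alP s hx _ _ h2,
    ev_alP s hx _ _ h3, ev_alP s hx _ _ h4] at this
  push_cast at this
  linarith

/-- leaf test: zero beyond `a + b * u + c + k`, positive up to there -/
def lfS (N : Nm) (u k : ℤ) (s : St) : Bool :=
  let D := s.dat
  let h : Fm := (((s.n.sub s.b).sub s.c).sub ⟨u * s.a.c0, u * s.a.c1, u * s.a.c2, u * s.a.c3,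
    u * s.a.k + k⟩)
  alOk D N 0 && cond (h.up && intAr.nn (h.k - 1)) (A4.isZ (alP D N 0))
    (h.dn && intAr.nn (-h.k) && A4.nn (A4.add (alP D N 0) (A4.ofInt (-1))))

theorem lfS_sound (N : Nm) (u k : ℤ) (s : St) (H : lfS N u k s = true) : s.Holds fun a b c n =>
    (u * a + b + c + k < n ∧ al N a b c n = 0) ∨ (n ≤ u * a + b + c + k ∧ 0 < al N a b c n) := by
  intro x hx
  simp only [lfS, Bool.and_eq_true] at H
  obtain ⟨h1, h2⟩ := H
  have e := ev_alP s hx _ _ h1
  rw [add_zero] at e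
  set h : Fm := (((s.n.sub s.b).sub s.c).sub ⟨u * s.a.c0, u * s.a.c1, u * s.a.c2, u * s.a.c3,
    u * s.a.k + k⟩) with hh
  have e2 : h.ev x = s.n.ev x - (u * s.a.ev x + s.b.ev x + s.c.ev x + k) := by
    simp only [hh, Fm.ev_sub]
    simp only [Fm.ev]
    ring
  cases hz : (h.up && intAr.nn (h.k - 1))
  · simp only [hz, cond_false, Bool.and_eq_true] at h2
    have h3 := Fm.ev_le hx h2.1.1
    have h4 := nn_int _ h2.1.2
    have h5 := nn4 hx _ h2.2
    rw [(good4 x).add, (good4 x).ofInt, e] at h5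
    push_cast at h5
    right
    constructor <;> omega
  · simp only [hz, cond_true] at h2
    simp only [Bool.and_eq_true] at hz
    have h3 := Fm.le_ev hx hz.1
    have h4 := nn_int _ hz.2
    have h5 := (good4 x).isZ _ h2
    left
    exact ⟨by omega, e ▸ h5⟩

def sP : St := ⟨⟨1, 0, 0, 0, 0⟩, ⟨1, 1, 0, 0, 0⟩, ⟨1, 1, 1, 0, 0⟩, ⟨0, 0, 0, 1, 0⟩⟩

def sD : St := ⟨⟨-1, 0, 0, 0, -2⟩, ⟨0, 1, 0, 0, 0⟩, ⟨0, 0, 0, 0, 0⟩, ⟨-1, 0, 0, 1, -1⟩⟩

end Pool.Agent.P.MP_9ed2cf_gt
end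

-- part Pool.Agent.P.MP_9ed2cf_gt.Coef
section

/-! The three diagonals as Laurent polynomials and their coefficients. -/

set_option autoImplicit false

open LaurentPolynomial

noncomputable section

namespace Pool.Agent.P.MP_9ed2cf_gt

def gC : Fin 3 → Fin 3 → Fin 3 → List ℤ :=
  ![![![[1, 2], [2, 8, 4], [0, 2, 6, 4]],
      ![[2, 8, 4], [4, 20, 20, 6], [0, 2, 12, 16, 6]],
      ![[0, 2, 6, 4], [0, 2, 12, 16, 6], [0, 0, 0, 6, 12, 6]]],
    ![![[2, 8, 4], [4, 20, 20, 6], [0, 2, 12, 16, 6]],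
      ![[4, 20, 20, 6], [0, 6, 28, 30, 8], [0, -4, -12, 8, 24, 8]],
      ![[0, 2, 12, 16, 6], [0, -4, -12, 8, 24, 8], [0, 2, 0, -20, -8, 18, 8]]],
    ![![[0, 2, 6, 4], [0, 2, 12, 16, 6], [0, 0, 0, 6, 12, 6]],
      ![[0, 2, 12, 16, 6], [0, -4, -12, 8, 24, 8], [0, 2, 0, -20, -8, 18, 8]],
      ![[0, 0, 0, 6, 12, 6], [0, 2, 0, -20, -8, 18, 8], [0, 0, 8, 12, -20, -20, 12, 8]]]]

def gB : Fin 3 → Fin 3 → Fin 3 → List ℤ :=
  ![![![[1, 1], [4, 5, 1], [0, 3, 4, 1]],
      ![[4, 5, 1], [8, 16, 9, 1], [0, 4, 11, 8, 1]],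
      ![[0, 3, 4, 1], [0, 4, 11, 8, 1], [0, 0, 1, 7, 7, 1]]],
    ![![[4, 5, 1], [8, 16, 9, 1], [0, 4, 11, 8, 1]],
      ![[8, 16, 9, 1], [0, 11, 23, 13, 1], [0, -7, -4, 14, 12, 1]],
      ![[0, 4, 11, 8, 1], [0, -7, -4, 14, 12, 1], [0, 3, -7, -14, 6, 11, 1]]],
    ![![[0, 3, 4, 1], [0, 4, 11, 8, 1], [0, 0, 1, 7, 7, 1]],
      ![[0, 4, 11, 8, 1], [0, -7, -4, 14, 12, 1], [0, 3, -7, -14, 6, 11, 1]],
      ![[0, 0, 1, 7, 7, 1], [0, 3, -7, -14, 6, 11, 1], [0, 1, 10, -1, -20, -1, 10, 1]]]]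

def gA : Fin 3 → Fin 3 → Fin 3 → List ℤ :=
  ![![![[1], [2, 1], [0, 1, 1]],
      ![[2, 1], [4, 4, 1], [0, 2, 3, 1]],
      ![[0, 1, 1], [0, 2, 3, 1], [0, 0, 1, 2, 1]]],
    ![![[2, 1], [4, 4, 1], [0, 2, 3, 1]],
      ![[4, 4, 1], [0, 5, 6, 1], [0, -3, 1, 5, 1]],
      ![[0, 2, 3, 1], [0, -3, 1, 5, 1], [0, 1, -4, -2, 4, 1]]],
    ![![[0, 1, 1], [0, 2, 3, 1], [0, 0, 1, 2, 1]],
      ![[0, 2, 3, 1], [0, -3, 1, 5, 1], [0, 1, -4, -2, 4, 1]],
      ![[0, 0, 1, 2, 1], [0, 1, -4, -2, 4, 1], [0, 1, 3, -4, -4, 3, 1]]]]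

section ring

variable {K K' : Type} [CommRing K] [CommRing K']

/-- evaluation of an integer polynomial -/
def hv (X : K) (l : List ℤ) : K := lev (fun n : ℤ => (n : K)) X l

theorem hv_nil (X : K) : hv X [] = 0 := rfl

theorem hv_cons (X : K) (c : ℤ) (l : List ℤ) : hv X (c :: l) = c + X * hv X l := rfl

theorem map_hv (φ : K →+* K') (X : K) : ∀ l, φ (hv X l) = hv (φ X) l
  | [] => by simp [hv_nil]
  | c :: l => by simp [hv_cons, map_hv φ X l]

def Up (X : K) : ℕ → K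
  | 0 => 0
  | n + 1 => n + X * Up X n

def Um (X' : K) : ℕ → K
  | 0 => 0
  | n + 1 => X' * (Um X' n + (n + 1))

def Uu (X X' : K) : ℤ → K
  | Int.ofNat n => Up X n
  | Int.negSucc n => Um X' (n + 1)

theorem Uu_zero (X X' : K) : Uu X X' 0 = 0 := rfl

theorem Uu_succ {X X' : K} (h : X * X' = 1) : ∀ a : ℤ, Uu X X' (a + 1) = a + X * Uu X X' a
  | Int.ofNat n => by
    change Up X (n + 1) = _
    simp [Up, Uu]
  | Int.negSucc 0 => by
    change Up X 0 = _
    simp only [Up, Uu, Um, Int.cast_negSucc]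
    push_cast
    linear_combination (-1 : K) * h
  | Int.negSucc (n + 1) => by
    change Um X' (n + 1) = _
    rw [Uu, Um.eq_2 X' (n + 1), Int.cast_negSucc]
    push_cast
    linear_combination (-(Um X' (n + 1) + (n + 1 + 1))) * h

theorem map_Uu (φ : K →+* K') (X X' : K) (a : ℤ) : φ (Uu X X' a) = Uu (φ X) (φ X') a := by
  have h1 : ∀ n, φ (Up X n) = Up (φ X) n := fun n => by
    induction n with
    | zero => simp [Up]
    | succ n ih => simp [Up, ih]
  have h2 : ∀ n, φ (Um X' n) = Um (φ X') n := fun n => by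
    induction n with
    | zero => simp [Um]
    | succ n ih => simp [Um, ih]
  cases a with
  | ofNat n => exact h1 n
  | negSucc n => exact h2 _

def PP (g : Fin 3 → Fin 3 → Fin 3 → List ℤ) (X a b c u v w : K) : K :=
  ∑ i, ∑ j, ∑ k, hv X (g i j k) * ![1, a, u] i * ![1, b, v] j * ![1, c, w] k

theorem map_PP (φ : K →+* K') (g : Fin 3 → Fin 3 → Fin 3 → List ℤ) (X a b c u v w : K) :
    φ (PP g X a b c u v w) = PP g (φ X) (φ a) (φ b) (φ c) (φ u) (φ v) (φ w) := by
  simp [PP, Fin.sum_univ_three, map_hv]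

def NN (N : Nm) (X a b c x y z : K) : K :=
  hv X N.r0 + (a + b + c) * hv X N.r1 + (a * b + a * c + b * c) * hv X N.r2
    + x * hv X N.s + y * hv X N.s + z * hv X N.s
    + (y * z * hv X N.t0 + a * (y * z * hv X N.t1))
    + (x * z * hv X N.t0 + b * (x * z * hv X N.t1))
    + (x * y * hv X N.t0 + c * (x * y * hv X N.t1))
    + x * y * z * hv X N.w

theorem map_NN (φ : K →+* K') (N : Nm) (X a b c x y z : K) :
    φ (NN N X a b c x y z) = NN N (φ X) (φ a) (φ b) (φ c) (φ x) (φ y) (φ z) := by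
  simp [NN, map_hv]

/-- the three diagonals -/
inductive Dg : (Fin 3 → Fin 3 → Fin 3 → List ℤ) → Nm → ℕ → Prop
  | C : Dg gC NC 0
  | B : Dg gB NB 1
  | A : Dg gA NA 2

variable {g : Fin 3 → Fin 3 → Fin 3 → List ℤ} {N : Nm} {d : ℕ}

theorem key (h : Dg g N d) (X a b c u v w : K) :
    (1 - X) ^ 4 * PP g X a b c u v w = NN N X a b c ((1 - X) ^ 2 * u + 1 - a * (1 - X))
      ((1 - X) ^ 2 * v + 1 - b * (1 - X)) ((1 - X) ^ 2 * w + 1 - c * (1 - X)) := by
  cases h <;>
  · simp only [PP, NN, Fin.sum_univ_three, gA, gB, gC, NA, NB, NC, hv_cons, hv_nil,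
      Matrix.cons_val_zero, Matrix.cons_val_one, Matrix.cons_val_two, Matrix.head_cons,
      Matrix.tail_cons]
    push_cast
    ring

end ring

section field

variable {K : Type} [Field K] {g : Fin 3 → Fin 3 → Fin 3 → List ℤ} {N : Nm} {d : ℕ}

theorem NN_mirror (h : Dg g N d) {X : K} (hX : X ≠ 0) (a b c x y z : K) :
    NN N X (-1 - a) (-1 - b) (-1 - c) (X⁻¹ * x) (X⁻¹ * y) (X⁻¹ * z) =
      X⁻¹ ^ d * X ^ 4 * NN N X⁻¹ a b c x y z := by
  cases h <;>
  · simp only [NN, NA, NB, NC, hv_cons, hv_nil]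
    push_cast
    field_simp
    ring

theorem NN_flype (h : Dg g N d) {X : K} (hX : X ≠ 0) (a b x y : K) :
    NN N X (a + 1) (b + 1) (-1) (x * X) (y * X) X⁻¹ = NN N X a b 0 x y 1 := by
  cases h <;>
  · simp only [NN, NA, NB, NC, hv_cons, hv_nil]
    push_cast
    field_simp
    ring

theorem NN_unknot (h : Dg g N d) {X : K} (hX : X ≠ 0) (b y : K) :
    NN N X (-1) b 0 X⁻¹ y 1 = (1 - X) ^ 4 * if d = 0 then 1 else 0 := by
  cases h <;>
  · simp only [NN, NA, NB, NC, hv_cons, hv_nil]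
    push_cast
    field_simp
    simp
    ring

end field

abbrev LL : Type := LaurentPolynomial ℤ

theorem T_mul_T : (T 1 : LL) * T (-1) = 1 := by rw [← T_add]; simp

def UL (a : ℤ) : LL := Uu (T 1) (T (-1)) a

theorem T_eq (a : ℤ) : (T a : LL) = (1 - T 1) ^ 2 * UL a + 1 - (a : LL) * (1 - T 1) := by
  induction a using Int.induction_on with
  | zero => simp [UL, Uu_zero]
  | succ n ih =>
    rw [T_add, ih, UL, UL, Uu_succ T_mul_T]
    push_cast
    ring
  | pred n ih =>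
    have h := Uu_succ T_mul_T (-(n : ℤ) - 1)
    rw [sub_add_cancel] at h
    rw [T_sub, ih, UL, UL, h]
    push_cast
    linear_combination ((1 - T 1) ^ 2 * Uu (T 1 : LL) (T (-1)) (-(n : ℤ) - 1) + 1 +
      ((n : LL) + 1) * (1 - T 1)) * T_mul_T

/-- a diagonal -/
def PL (g : Fin 3 → Fin 3 → Fin 3 → List ℤ) (a b c : ℤ) : LL :=
  PP g (T 1) a b c (UL a) (UL b) (UL c)

variable {g : Fin 3 → Fin 3 → Fin 3 → List ℤ} {N : Nm} {d : ℕ}

theorem PL_key (h : Dg g N d) (a b c : ℤ) :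
    (1 - T 1) ^ 4 * PL g a b c = NN N (T 1) a b c (T a) (T b) (T c) := by
  rw [PL, key h, ← T_eq, ← T_eq, ← T_eq]

def Phi (n : ℤ) : LL →ₗ[ℤ] ℤ :=
  (Finsupp.linearCombination ℤ fun k => T6 (n - k)) ∘ₗ
    (AddMonoidAlgebra.coeffLinearEquiv ℤ).toLinearMap

theorem Phi_T (n k : ℤ) : Phi n (T k) = T6 (n - k) := by
  simp only [Phi, T, LinearMap.comp_apply, LinearEquiv.coe_coe,
    AddMonoidAlgebra.coeffLinearEquiv_apply, AddMonoidAlgebra.coeff_single,
    Finsupp.linearCombination_single, one_smul]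

theorem Phi_int (n c : ℤ) (f : LL) : Phi n ((c : LL) * f) = c * Phi n f := by
  rw [← zsmul_eq_mul, map_zsmul, smul_eq_mul]

theorem Phi_hv (n : ℤ) : ∀ (l : List ℤ) (k : ℤ), Phi n (T k * hv (T 1) l) = ser l (n - k)
  | [], k => by simp [hv_nil, ser]
  | c :: l, k => by
    rw [hv_cons, mul_add, ← mul_assoc, ← T_add, map_add, Phi_hv n l, mul_comm, Phi_int, Phi_T, ser,
      sub_sub]

theorem T6_diff (y : ℤ) : T6 y - 4 * T6 (y - 1) + 6 * T6 (y - 2) - 4 * T6 (y - 3) + T6 (y - 4) =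
    if y = 0 then 6 else 0 := by
  rcases lt_trichotomy y 0 with h | rfl | h
  · rw [T6_neg (by omega), T6_neg (by omega), T6_neg (by omega), T6_neg (by omega),
      T6_neg (by omega), if_neg h.ne]
    rfl
  · decide
  · rw [T6_pos (by omega), T6_pos (by omega), T6_pos (by omega), T6_pos (by omega),
      T6_pos (by omega), if_neg h.ne']
    ring

theorem Phi_mul (n : ℤ) (f : LL) : Phi n ((1 - T 1) ^ 4 * f) = 6 * f.coeff n := by
  induction f using LaurentPolynomial.induction_on' with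
  | add p q hp hq => rw [mul_add, map_add, hp, hq]; simp [mul_add]
  | C_mul_T k a =>
    have h : (1 - T 1) ^ 4 * (C a * T k : LL) = (a : LL) * (T k * hv (T 1) [1, -4, 6, -4, 1]) := by
      simp only [hv_cons, hv_nil, eq_intCast]
      push_cast
      ring
    have h2 := T6_diff (n - k)
    rw [h, Phi_int, Phi_hv, ← single_eq_C_mul_T]
    simp only [ser, sub_sub, add_assoc, AddMonoidAlgebra.coeff_single, Finsupp.single_apply]
      at h2 ⊢
    norm_num at h2 ⊢
    by_cases hk : k = n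
    · rw [if_pos (by omega)] at h2
      rw [if_pos hk]
      linear_combination a * h2
    · rw [if_neg (by omega)] at h2
      rw [if_neg hk]
      linear_combination a * h2

theorem coeff_PL (h : Dg g N d) (a b c n : ℤ) : 6 * (PL g a b c).coeff n = al N a b c n := by
  have h0 : ∀ l, Phi n (hv (T 1) l) = ser l n := fun l => by simpa using Phi_hv n l 0
  have e1 : ((a : LL) + b + c) = ((a + b + c : ℤ) : LL) := by push_cast; rfl
  have e2 : ((a : LL) * b + a * c + b * c) = ((a * b + a * c + b * c : ℤ) : LL) := by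
    push_cast; rfl
  rw [← Phi_mul, PL_key h, NN, e1, e2]
  simp only [map_add, Phi_int, ← T_add, Phi_hv, h0, al, sub_sub]

theorem PL_eq (h : Dg g N d) {a b c : ℤ} {f : LL}
    (H : NN N (T 1) a b c (T a) (T b) (T c) = (1 - T 1) ^ 4 * f) : PL g a b c = f := by
  ext n
  have := Phi_mul n f
  rw [← H, ← PL_key h, Phi_mul] at this
  omega

theorem frac_T : algebraMap LL (FractionRing LL) (T 1) ≠ 0 ∧
    algebraMap LL (FractionRing LL) (T (-1)) = (algebraMap LL (FractionRing LL) (T 1))⁻¹ := by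
  have := congrArg (algebraMap LL (FractionRing LL)) T_mul_T
  rw [map_mul, map_one] at this
  exact ⟨left_ne_zero_of_mul_eq_one this, (inv_eq_of_mul_eq_one_right this).symm⟩

theorem PL_mirror (h : Dg g N d) (a b c n : ℤ) :
    (PL g (-1 - a) (-1 - b) (-1 - c)).coeff n = (PL g a b c).coeff (-n - d) := by
  have h1 : PL g (-1 - a) (-1 - b) (-1 - c) = invert (T d * PL g a b c) := by
    refine PL_eq h ?_
    have h2 := congrArg (invert (R := ℤ)).toRingEquiv.toRingHom (PL_key h a b c)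
    rw [map_NN] at h2
    simp only [RingEquiv.toRingHom_eq_coe, AlgEquiv.toRingEquiv_toRingHom, RingHom.coe_coe,
      map_mul, map_pow, map_sub, map_one, invert_T, map_intCast] at h2
    have h3 : ((1 : LL) - T 1) ^ 4 = T 1 ^ 4 * (1 - T (-1)) ^ 4 := by
      rw [← mul_pow, mul_sub, T_mul_T, mul_one, ← neg_sub, neg_pow]; norm_num
    have h4 : (T (-(d : ℤ)) : LL) = T (-1) ^ d := by rw [T_pow]; simp
    rw [map_mul, invert_T, h3, h4, mul_assoc, mul_left_comm ((1 - T (-1)) ^ 4), h2]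
    apply IsFractionRing.injective LL (FractionRing LL)
    simp only [T_sub, map_NN, map_mul, map_pow, map_intCast, frac_T.2]
    push_cast
    rw [NN_mirror h frac_T.1]
    ring
  rw [h1, invert_apply, T, AddMonoidAlgebra.coeff_single_mul_apply]
  simp only [one_mul]
  congr 1
  ring

theorem PL_flype (h : Dg g N d) (a b : ℤ) : PL g (a + 1) (b + 1) (-1) = PL g a b 0 := by
  refine PL_eq h ?_
  rw [PL_key h]
  apply IsFractionRing.injective LL (FractionRing LL)
  simp only [T_add, map_NN, map_mul, map_intCast, frac_T.2, T_zero, map_one]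
  push_cast
  exact NN_flype h frac_T.1 _ _ _ _

theorem PL_unknot (h : Dg g N d) (b : ℤ) : PL g (-1) b 0 = if d = 0 then 1 else 0 := by
  refine PL_eq h ?_
  apply IsFractionRing.injective LL (FractionRing LL)
  simp only [map_NN, map_mul, map_intCast, frac_T.2, T_zero, map_one, map_pow, map_sub]
  push_cast
  rw [NN_unknot h frac_T.1]
  split_ifs <;> simp

end Pool.Agent.P.MP_9ed2cf_gt
end
end
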