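import Pool.Agent.K.MP_9ed2cf_gt.C5
import Pool.Agent.P.MP_9ed2cf_gt.Defs
import Mathlib

-- part Pool.Agent.P.MP_9ed2cf_gt.Alg
section

/-! The matrix identities over the complex numbers. -/

set_option autoImplicit false

noncomputable section

namespace Pool.Agent.P.MP_9ed2cf_gt

abbrev Mx : Type := Matrix (Fin 4 × Fin 4) (Fin 4 × Fin 4) ℂ

def ev2 (s0 s1 : ℂ) : R2 → ℂ := lev (lev (fun n : ℤ => (n : ℂ)) s1) s0

def evE (s0 s1 Y : ℂ) (x : E) : ℂ := ev2 s0 s1 x.1.p + Y * ev2 s0 s1 x.2.p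

def evM (s0 s1 Y : ℂ) (M : M4) : Mx := fun o i => evE s0 s1 Y (M o.1 o.2 i.1 i.2)

def TR (s0 s1 : ℂ) (M : Mx) : Mx := fun o i =>
  (mu s0 s1 o.1)⁻¹ * M (o.2, i.2) (o.1, i.1) * mu s0 s1 i.2

def TL (M : Mx) : Mx := fun o i => M (i.1, o.1) (i.2, o.2)

def cl (s0 s1 : ℂ) (M1 M2 M3 : Mx) : ℂ :=
  ∑ e1, ∑ e2, ∑ c1, ∑ d1, ∑ d2, M1 (c1, d1) (0, e1) * (M2 (d1, d2) (e1, e2) *
    (M3 (d2, c1) (e2, 0) * ((mu s0 s1 0)⁻¹ * (mu s0 s1 e1)⁻¹ * (mu s0 s1 e2)⁻¹ * mu s0 s1 d1 *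
      mu s0 s1 d2)))

/-- admissible parameters -/
structure Par (s0 s1 Y : ℂ) : Prop where
  h0 : s0 ≠ 0
  h1 : s1 ≠ 0
  hY : Y ^ 2 = (s0 ^ 2 - 1) * (1 - s1 ^ 2)

variable {s0 s1 Y : ℂ}

theorem TL_smul (x : ℂ) (M : Mx) : TL (x • M) = x • TL M := rfl

theorem TR_smul (x : ℂ) (M : Mx) : TR s0 s1 (x • M) = x • TR s0 s1 M := by
  ext o i
  simp only [TR, Matrix.smul_apply, smul_eq_mul]
  ring

theorem cl_lin1 (u : Fin 3 → ℂ) (B : Fin 3 → Mx) (M N : Mx) :
    cl s0 s1 (∑ i, u i • B i) M N = ∑ i, u i * cl s0 s1 (B i) M N := by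
  simp only [cl, Fin.sum_univ_three, Matrix.add_apply, Matrix.smul_apply, smul_eq_mul,
    Finset.mul_sum, ← Finset.sum_add_distrib]
  iterate 5 refine Finset.sum_congr rfl fun _ _ => ?_
  ring

theorem cl_lin2 (u : Fin 3 → ℂ) (B : Fin 3 → Mx) (M N : Mx) :
    cl s0 s1 M (∑ i, u i • B i) N = ∑ i, u i * cl s0 s1 M (B i) N := by
  simp only [cl, Fin.sum_univ_three, Matrix.add_apply, Matrix.smul_apply, smul_eq_mul,
    Finset.mul_sum, ← Finset.sum_add_distrib]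
  iterate 5 refine Finset.sum_congr rfl fun _ _ => ?_
  ring

theorem cl_lin3 (u : Fin 3 → ℂ) (B : Fin 3 → Mx) (M N : Mx) :
    cl s0 s1 M N (∑ i, u i • B i) = ∑ i, u i * cl s0 s1 M N (B i) := by
  simp only [cl, Fin.sum_univ_three, Matrix.add_apply, Matrix.smul_apply, smul_eq_mul,
    Finset.mul_sum, ← Finset.sum_add_distrib]
  iterate 5 refine Finset.sum_congr rfl fun _ _ => ?_
  ring

theorem ev_mk (u v : R2) : evE s0 s1 Y (mkE u v) = ev2 s0 s1 u + Y * ev2 s0 s1 v := rfl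

theorem ev_zero : evE s0 s1 Y (mkE [] []) = 0 := by simp [ev_mk, ev2, lev]

theorem ev_qE : evE s0 s1 Y qE = s0 ^ 2 * s1 ^ 2 := by simp [ev_mk, ev2, lev, qE]; ring

theorem ev_tlP (M : M4) : evM s0 s1 Y (tlP M) = TL (evM s0 s1 Y M) := rfl

theorem ev_m1 : evM s0 s1 Y m1 = 1 := by
  ext o i
  simp only [evM, m1, Matrix.one_apply, Prod.mk.eta]
  split_ifs <;> simp [ev_mk, ev2, lev]

namespace Par

variable (h : Par s0 s1 Y)

include h

theorem good : Good AE (evE s0 s1 Y) :=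
  good_quad (good_k S2 (good_lift (good_lift (good_int ℂ) s1) s0)) (by
    rw [h.hY]
    change _ = ev2 s0 s1 y2
    simp [y2, ev2, lev]
    ring)

theorem q_ne : s0 ^ 2 * s1 ^ 2 ≠ 0 := mul_ne_zero (pow_ne_zero _ h.h0) (pow_ne_zero _ h.h1)

theorem ev_RP (k : ℕ) : evE s0 s1 Y (RP k) = Rent s0 s1 Y k := by
  have st : ∀ (p : Prop) [Decidable p] (x y : E) (u v : ℂ), evE s0 s1 Y x = u →
      evE s0 s1 Y y = v → evE s0 s1 Y (if p then x else y) = if p then u else v := by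
    intro p _ x y u v h1 h2
    split_ifs <;> assumption
  unfold RP Rent
  iterate 13 refine st _ _ _ _ _ (by simp [ev_mk, ev2, lev, y2, h.hY] <;> ring) ?_
  exact ev_zero

theorem ev_RM : evM s0 s1 Y RM = Rmat s0 s1 Y := by
  ext o i
  exact h.ev_RP _

theorem ev_mE (b : Fin 4) : evE s0 s1 Y (mE b) = s0 ^ 2 * mu s0 s1 b := by
  have := h.h0
  fin_cases b <;> simp [mE, mu, ev_mk, ev2, lev, qE] <;> field_simp

theorem ev_nE (b : Fin 4) : evE s0 s1 Y (nE b) = s1 ^ 2 * (mu s0 s1 b)⁻¹ := by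
  have := h.h1
  fin_cases b <;> simp [nE, mu, ev_mk, ev2, lev, qE] <;> field_simp

theorem ev_s4 (f : Fin 4 → E) : evE s0 s1 Y (s4 f) = ∑ i, evE s0 s1 Y (f i) := by
  simp only [s4, h.good.add, Fin.sum_univ_four]

theorem ev_mulz (x y : E) : evE s0 s1 Y (mulz x y) = evE s0 s1 Y x * evE s0 s1 Y y := by
  cases hz : AE.isZ x
  · simp only [mulz, hz, cond_false, h.good.mul]
  · simp only [mulz, hz, cond_true, h.good.isZ x hz, h.good.zero, zero_mul]

theorem ev_mm (M N : M4) : evM s0 s1 Y (mm M N) = evM s0 s1 Y M * evM s0 s1 Y N := by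
  ext o i
  simp only [evM, mm, h.ev_s4, h.ev_mulz, Matrix.mul_apply, Fintype.sum_prod_type]

theorem ev_ms (M : M4) : evM s0 s1 Y (ms qE M) = (s0 ^ 2 * s1 ^ 2) • evM s0 s1 Y M := by
  ext o i
  simp only [evM, ms, h.ev_mulz, ev_qE, Matrix.smul_apply, smul_eq_mul, mul_comm]

theorem ev_ma (M N : M4) : evM s0 s1 Y (ma M N) = evM s0 s1 Y M + evM s0 s1 Y N := by
  ext o i
  simp only [evM, ma, h.good.add, Matrix.add_apply]

theorem ev_trP (M : M4) :
    evM s0 s1 Y (trP M) = (s0 ^ 2 * s1 ^ 2) • TR s0 s1 (evM s0 s1 Y M) := by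
  ext o i
  simp only [evM, trP, TR, h.ev_mulz, h.good.mul, h.ev_mE, h.ev_nE, Matrix.smul_apply, smul_eq_mul]
  ring

theorem eqE_sound {x y : E} (H : eqE x y = true) : evE s0 s1 Y x = evE s0 s1 Y y := by
  have := h.good.isZ _ H
  rw [h.good.add, h.good.sc] at this
  push_cast at this
  linear_combination this

omit h in
theorem all4_sound {p : Fin 4 → Bool} (H : all4 p = true) (i : Fin 4) : p i = true := by
  simp only [all4, Bool.and_eq_true] at H
  fin_cases i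
  exacts [H.1.1.1, H.1.1.2, H.1.2, H.2]

theorem eqM_sound {M N : M4} (H : eqM M N = true) : evM s0 s1 Y M = evM s0 s1 Y N := by
  ext o i
  exact h.eqE_sound (all4_sound (all4_sound (all4_sound (all4_sound H o.1) o.2) i.1) i.2)

theorem ev_clP (M1 M2 M3 : M4) : s0 ^ 2 * evE s0 s1 Y (clP M1 M2 M3) =
    (s0 ^ 2 * s1 ^ 2) ^ 2 * cl s0 s1 (evM s0 s1 Y M1) (evM s0 s1 Y M2) (evM s0 s1 Y M3) := by
  simp only [clP, cl, h.ev_s4, h.ev_mulz, h.good.mul, h.ev_mE, h.ev_nE, Finset.mul_sum, evM]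
  iterate 5 refine Finset.sum_congr rfl fun _ _ => ?_
  have : (mu s0 s1 0)⁻¹ = s0 ^ 2 := by simp [mu]
  rw [this]
  ring

theorem ev_hE : ∀ l, evE s0 s1 Y (hE l) = hv (s0 ^ 2 * s1 ^ 2) l
  | [] => ev_zero
  | c :: l => by rw [hE, h.good.add, h.good.mul, h.good.ofInt, ev_qE, ev_hE l, hv_cons]

theorem inv_R : evM s0 s1 Y (tb tRi) = (s0 ^ 2 * s1 ^ 2) • (Rmat s0 s1 Y)⁻¹ := by
  have h1 := h.eqM_sound ck1
  rw [h.ev_mm, h.ev_ms, ev_m1, h.ev_RM] at h1
  have h2 : Rmat s0 s1 Y * ((s0 ^ 2 * s1 ^ 2)⁻¹ • evM s0 s1 Y (tb tRi)) = 1 := by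
    rw [Matrix.mul_smul, h1, smul_smul, inv_mul_cancel₀ h.q_ne, one_smul]
  rw [Matrix.inv_eq_right_inv h2, smul_smul, mul_inv_cancel₀ h.q_ne, one_smul]

omit h in
/-- the three basic tangles -/
def BB (s0 s1 Y : ℂ) (i : Fin 3) : Mx := (s0 ^ 2 * s1 ^ 2)⁻¹ • evM s0 s1 Y (bP i)

theorem ev_bP (i : Fin 3) : evM s0 s1 Y (bP i) = (s0 ^ 2 * s1 ^ 2) • BB s0 s1 Y i := by
  rw [BB, smul_smul, mul_inv_cancel₀ h.q_ne, one_smul]

theorem cancel {M N : Mx} (H : (s0 ^ 2 * s1 ^ 2) • M = (s0 ^ 2 * s1 ^ 2) • N) : M = N :=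
  smul_right_injective _ h.q_ne H

theorem BB0 : BB s0 s1 Y 0 = TR s0 s1 (Rmat s0 s1 Y) := by
  have h1 := h.eqM_sound ck2
  rw [h.ev_trP, h.ev_RM] at h1
  exact h.cancel ((h.ev_bP 0).symm.trans h1)

theorem ev_D : evM s0 s1 Y (tb tD) =
    (s0 ^ 2 * s1 ^ 2) • (TR s0 s1 (Rmat s0 s1 Y) * TL (Rmat s0 s1 Y)) := by
  have h1 := h.eqM_sound ck3
  have h0 : evM s0 s1 Y (tb tB0) = _ := h.ev_bP 0
  rw [h.ev_mm, ev_tlP, h.ev_RM, h0, h.BB0, Matrix.smul_mul] at h1
  exact h1.symm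

theorem D_BB (x y z : ℂ) : (TR s0 s1 (Rmat s0 s1 Y) * TL (Rmat s0 s1 Y)) *
    (∑ i, ![x, y, z] i • BB s0 s1 Y i) =
      ∑ i, ![x, x + y, y + (s0 ^ 2 * s1 ^ 2) * z] i • BB s0 s1 Y i := by
  have h0 : evM s0 s1 Y (tb tB0) = _ := h.ev_bP 0
  have h1 : evM s0 s1 Y (tb tB1) = _ := h.ev_bP 1
  have h2 : evM s0 s1 Y (tb tB2) = _ := h.ev_bP 2
  have e0 := h.eqM_sound ck4
  have e1 := h.eqM_sound ck5
  have e2 := h.eqM_sound ck6
  simp only [h.ev_mm, h.ev_ms, h.ev_ma, h.ev_D, h0, h1, h2, Matrix.smul_mul, Matrix.mul_smul,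
    ← smul_add] at e0 e1 e2
  replace e0 := h.cancel (h.cancel e0)
  replace e1 := h.cancel (h.cancel e1)
  replace e2 := h.cancel (h.cancel e2)
  simp only [Fin.sum_univ_three, Matrix.mul_add, Matrix.mul_smul, e0, e1, e2, Matrix.cons_val_zero,
    Matrix.cons_val_one, Matrix.cons_val_two, Matrix.head_cons, Matrix.tail_cons]
  module

theorem inv1 : TL (Rmat s0 s1 Y)⁻¹ * TR s0 s1 (Rmat s0 s1 Y) = 1 := by
  have h0 : evM s0 s1 Y (tb tB0) = _ := h.ev_bP 0
  have e := h.eqM_sound ck7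
  simp only [h.ev_mm, h.ev_ms, ev_tlP, h.inv_R, h0, h.BB0, TL_smul, Matrix.smul_mul,
    Matrix.mul_smul, ev_m1] at e
  exact h.cancel (h.cancel e)

theorem inv2 : TR s0 s1 (Rmat s0 s1 Y)⁻¹ * TL (Rmat s0 s1 Y) = 1 := by
  have e := h.eqM_sound ck8
  simp only [h.ev_mm, h.ev_ms, ev_tlP, h.ev_trP, h.inv_R, h.ev_RM, TR_smul, Matrix.smul_mul,
    ev_m1] at e
  exact h.cancel (h.cancel e)

theorem cl_BB (i j k : Fin 3) : cl s0 s1 (BB s0 s1 Y i) (BB s0 s1 Y j) (BB s0 s1 Y k) =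
    hv (s0 ^ 2 * s1 ^ 2) (gC i j k) - (s0 ^ 2 + s1 ^ 2) * hv (s0 ^ 2 * s1 ^ 2) (gB i j k) +
      (s0 ^ 4 + s1 ^ 4) * hv (s0 ^ 2 * s1 ^ 2) (gA i j k) := by
  have e := h.eqE_sound (ck9 i j k)
  have a1 : evE s0 s1 Y (mkE [[], [], [1]] []) = s0 ^ 2 := by simp [ev_mk, ev2, lev]; ring
  have a2 : evE s0 s1 Y (mkE [[0, 0, -1], [], [-1]] []) = -(s0 ^ 2 + s1 ^ 2) := by
    simp [ev_mk, ev2, lev]; ring
  have a3 : evE s0 s1 Y (mkE [[0, 0, 0, 0, 1], [], [], [], [1]] []) = s0 ^ 4 + s1 ^ 4 := by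
    simp [ev_mk, ev2, lev]; ring
  have a4 : hv (s0 ^ 2 * s1 ^ 2) [0, 0, 0, 0, 0, 1] = (s0 ^ 2 * s1 ^ 2) ^ 5 := by
    simp only [hv_cons, hv_nil]; push_cast; ring
  have a5 : ∀ M1 M2 M3 : Mx, cl s0 s1 ((s0 ^ 2 * s1 ^ 2) • M1) ((s0 ^ 2 * s1 ^ 2) • M2)
      ((s0 ^ 2 * s1 ^ 2) • M3) = (s0 ^ 2 * s1 ^ 2) ^ 3 * cl s0 s1 M1 M2 M3 := by
    intro M1 M2 M3
    simp only [cl, Matrix.smul_apply, smul_eq_mul, Finset.mul_sum]
    iterate 5 refine Finset.sum_congr rfl fun _ _ => ?_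
    ring
  simp only [GE, h.good.mul, h.good.add, a1, a2, a3, h.ev_hE, a4, h.ev_clP, h.ev_bP, a5] at e
  refine mul_left_cancel₀ (pow_ne_zero 5 h.q_ne) ?_
  linear_combination e

end Par

end Pool.Agent.P.MP_9ed2cf_gt
end
end

-- part Pool.Agent.P.MP_9ed2cf_gt.Col
section

/-! Evaluation of the invariant on pretzel diagrams. -/

set_option autoImplicit false

noncomputable section

namespace Pool.Agent.P.MP_9ed2cf_gt

variable {s0 s1 Y : ℂ}

section lists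

variable {α : Type} {pre : List α} {i : ℕ}

theorem take_pre (h : pre.length = i) (l : List α) : (pre ++ l).take i = pre := by
  subst h; simp

theorem drop_pre (h : pre.length = i) (l : List α) : (pre ++ l).drop i = l := by
  subst h; simp

theorem drop_pre2 (h : pre.length = i) (a b : α) (l : List α) :
    (pre ++ a :: b :: l).drop (i + 2) = l := by
  subst h; simp

theorem getD_pre (h : pre.length = i) (a z : α) (l : List α) : (pre ++ a :: l).getD i z = a := by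
  subst h; simp

theorem getD_pre1 (h : pre.length = i) (a b z : α) (l : List α) :
    (pre ++ a :: b :: l).getD (i + 1) z = b := by
  subst h; simp

end lists

/-- the word `W` acts by the matrix `M` on the strands `i`, `i + 1` -/
def Acts (s0 s1 Y : ℂ) (W : List Move) (i : ℕ) (M : Mx) : Prop :=
  ∀ (k : List (Fin 4) → ℂ) (pre : List (Fin 4)) (a b : Fin 4) (post : List (Fin 4)),
    pre.length = i → W.foldr (step s0 s1 Y) k (pre ++ a :: b :: post) =
      ∑ c, ∑ d, M (c, d) (a, b) * k (pre ++ c :: d :: post)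

theorem sum4_comm (f : Fin 4 → Fin 4 → Fin 4 → Fin 4 → ℂ) :
    ∑ a, ∑ b, ∑ c, ∑ d, f a b c d = ∑ c, ∑ d, ∑ a, ∑ b, f a b c d := by
  have := Finset.sum_comm (s := Finset.univ) (t := Finset.univ)
    (f := fun (x y : Fin 4 × Fin 4) => f x.1 x.2 y.1 y.2)
  simpa only [Fintype.sum_prod_type] using this

theorem Acts.append {W W' : List Move} {i : ℕ} {M M' : Mx} (h : Acts s0 s1 Y W i M)
    (h' : Acts s0 s1 Y W' i M') : Acts s0 s1 Y (W ++ W') i (M' * M) := by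
  intro k pre a b post hp
  rw [List.foldr_append, h _ pre a b post hp]
  simp only [h' k pre _ _ post hp, Matrix.mul_apply, Fintype.sum_prod_type, Finset.mul_sum,
    Finset.sum_mul]
  rw [sum4_comm]
  iterate 4 refine Finset.sum_congr rfl fun _ _ => ?_
  ring

theorem Acts.nil (i : ℕ) : Acts s0 s1 Y [] i 1 := by
  intro k pre a b post _
  simp [Matrix.one_apply, ite_and]

theorem Acts.rep {W : List Move} {i : ℕ} {M : Mx} (h : Acts s0 s1 Y W i M) (n : ℕ) :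
    Acts s0 s1 Y (List.replicate n W).flatten i (M ^ n) := by
  induction n with
  | zero => simpa using Acts.nil i
  | succ n ih =>
    rw [List.replicate_succ, List.flatten_cons, pow_succ]
    exact h.append ih

/-- the matrix of a crossing -/
def XX (s0 s1 Y : ℂ) (pos : Bool) : Mx := if pos then Rmat s0 s1 Y else (Rmat s0 s1 Y)⁻¹

theorem step_cross (pos : Bool) (k : List (Fin 4) → ℂ) {pre : List (Fin 4)} {i : ℕ}
    (h : pre.length = i) (a b : Fin 4) (post : List (Fin 4)) :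
    step s0 s1 Y (.cross pos i) k (pre ++ a :: b :: post) =
      ∑ c, ∑ d, XX s0 s1 Y pos (c, d) (a, b) * k (pre ++ c :: d :: post) := by
  simp only [step, take_pre h, drop_pre2 h, getD_pre h, getD_pre1 h, XX]

theorem step_cupR (k : List (Fin 4) → ℂ) {pre : List (Fin 4)} {i : ℕ}
    (h : pre.length = i) (post : List (Fin 4)) :
    step s0 s1 Y (.cupR i) k (pre ++ post) = ∑ e, (mu s0 s1 e)⁻¹ * k (pre ++ e :: e :: post) := by
  simp only [step, take_pre h, drop_pre h]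

theorem step_cupL (k : List (Fin 4) → ℂ) {pre : List (Fin 4)} {i : ℕ}
    (h : pre.length = i) (post : List (Fin 4)) :
    step s0 s1 Y (.cupL i) k (pre ++ post) = ∑ e, k (pre ++ e :: e :: post) := by
  simp only [step, take_pre h, drop_pre h]

theorem step_capR (k : List (Fin 4) → ℂ) {pre : List (Fin 4)} {i : ℕ}
    (h : pre.length = i) (a b : Fin 4) (post : List (Fin 4)) :
    step s0 s1 Y (.capR i) k (pre ++ a :: b :: post) =
      if a = b then mu s0 s1 a * k (pre ++ post) else 0 := by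
  simp only [step, take_pre h, drop_pre2 h, getD_pre h, getD_pre1 h]

theorem step_capL (k : List (Fin 4) → ℂ) {pre : List (Fin 4)} {i : ℕ}
    (h : pre.length = i) (a b : Fin 4) (post : List (Fin 4)) :
    step s0 s1 Y (.capL i) k (pre ++ a :: b :: post) = if a = b then k (pre ++ post) else 0 := by
  simp only [step, take_pre h, drop_pre2 h, getD_pre h, getD_pre1 h]

theorem acts_twR (pos : Bool) (i : ℕ) : Acts s0 s1 Y (twR pos i) i (TR s0 s1 (XX s0 s1 Y pos)) := by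
  intro k pre a b post hp
  simp only [twR, List.foldr_cons, List.foldr_nil]
  rw [step_cupR _ hp]
  refine Finset.sum_congr rfl fun e _ => ?_
  have h1 : (pre ++ [e]).length = i + 1 := by simp [hp]
  rw [show pre ++ e :: e :: a :: b :: post = (pre ++ [e]) ++ e :: a :: b :: post by simp,
    step_cross _ _ h1, Finset.mul_sum]
  refine Finset.sum_congr rfl fun c _ => ?_
  have h2 : (pre ++ [e, c]).length = i + 2 := by simp [hp]
  have h3 : ∀ d, (pre ++ [e]) ++ c :: d :: b :: post = (pre ++ [e, c]) ++ d :: b :: post := by simp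
  simp only [h3, step_capR _ h2, mul_ite, mul_zero, Finset.sum_ite_eq', Finset.mem_univ, if_true]
  simp only [TR, List.append_assoc, List.cons_append, List.nil_append]
  ring

theorem acts_twL (pos : Bool) (i : ℕ) : Acts s0 s1 Y (twL pos i) i (TL (XX s0 s1 Y pos)) := by
  intro k pre a b post hp
  simp only [twL, List.foldr_cons, List.foldr_nil]
  have h2 : (pre ++ [a, b]).length = i + 2 := by simp [hp]
  have h1 : (pre ++ [a]).length = i + 1 := by simp [hp]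
  rw [show pre ++ a :: b :: post = (pre ++ [a, b]) ++ post by simp, step_cupL _ h2,
    Finset.sum_comm]
  refine Finset.sum_congr rfl fun e _ => ?_
  rw [show (pre ++ [a, b]) ++ e :: e :: post = (pre ++ [a]) ++ b :: e :: e :: post by simp,
    step_cross _ _ h1, Finset.sum_comm]
  refine Finset.sum_congr rfl fun d _ => ?_
  have h3 : ∀ c, (pre ++ [a]) ++ c :: d :: e :: post = pre ++ a :: c :: d :: e :: post := by simp
  simp only [h3, step_capL _ hp, mul_ite, mul_zero, Finset.sum_ite_eq, Finset.mem_univ, if_true,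
    TL]

/-- the matrix of a column -/
def colM (s0 s1 Y : ℂ) (p : ℤ) : Mx :=
  (TR s0 s1 (XX s0 s1 Y (0 < p)) * TL (XX s0 s1 Y (0 < p))) ^ (p.natAbs / 2) *
    TR s0 s1 (XX s0 s1 Y (0 < p))

theorem acts_column (p : ℤ) (i : ℕ) : Acts s0 s1 Y (column p i) i (colM s0 s1 Y p) :=
  (acts_twR _ i).append (((acts_twL _ i).append (acts_twR _ i)).rep _)

theorem LG_cl (p q r : ℤ) : LG s0 s1 Y (pretzel p q r) =
    cl s0 s1 (colM s0 s1 Y p) (colM s0 s1 Y q) (colM s0 s1 Y r) := by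
  simp only [LG, pretzel, List.foldr_append]
  set k3 := List.foldr (step s0 s1 Y) (fun l => if l = [0] then 1 else 0)
    [Move.capR 1, Move.capR 1, Move.capL 0] with hk3
  have e3 : ∀ c1 d1 c2 d2 c3 d3 e : Fin 4, k3 [c1, d1, c2, d2, c3, d3, e] =
      if d1 = c2 then if d2 = c3 then if c1 = d3 then if e = 0 then mu s0 s1 d1 * mu s0 s1 d2
        else 0 else 0 else 0 else 0 := by
    intro c1 d1 c2 d2 c3 d3 e
    simp only [hk3, List.foldr_cons, List.foldr_nil, step]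
    simp
  set k2 := List.foldr (step s0 s1 Y) k3 (column r 4) with hk2
  have e2 : ∀ c1 d1 c2 d2 a b e : Fin 4, k2 [c1, d1, c2, d2, a, b, e] =
      if d1 = c2 then if e = 0 then colM s0 s1 Y r (d2, c1) (a, b) * (mu s0 s1 d1 * mu s0 s1 d2)
        else 0 else 0 := by
    intro c1 d1 c2 d2 a b e
    have := acts_column (s0 := s0) (s1 := s1) (Y := Y) r 4 k3 [c1, d1, c2, d2] a b [e] rfl
    simp only [List.cons_append, List.nil_append, e3] at this
    rw [hk2, this]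
    split_ifs <;> simp
  set k1 := List.foldr (step s0 s1 Y) k2 (column q 2) with hk1
  have e1 : ∀ c1 d1 a' b' a b e : Fin 4, k1 [c1, d1, a', b', a, b, e] =
      if e = 0 then ∑ d2, colM s0 s1 Y q (d1, d2) (a', b') *
        (colM s0 s1 Y r (d2, c1) (a, b) * (mu s0 s1 d1 * mu s0 s1 d2)) else 0 := by
    intro c1 d1 a' b' a b e
    have := acts_column (s0 := s0) (s1 := s1) (Y := Y) q 2 k2 [c1, d1] a' b' [a, b, e] rfl
    simp only [List.cons_append, List.nil_append, e2] at this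
    rw [hk1, this, Finset.sum_comm]
    split_ifs <;> simp
  set k0 := List.foldr (step s0 s1 Y) k1 (column p 0) with hk0
  have e0 : ∀ a'' b'' a' b' a b e : Fin 4, k0 [a'', b'', a', b', a, b, e] =
      if e = 0 then ∑ c1, ∑ d1, ∑ d2, colM s0 s1 Y p (c1, d1) (a'', b'') *
        (colM s0 s1 Y q (d1, d2) (a', b') *
        (colM s0 s1 Y r (d2, c1) (a, b) * (mu s0 s1 d1 * mu s0 s1 d2))) else 0 := by
    intro a'' b'' a' b' a b e
    have := acts_column (s0 := s0) (s1 := s1) (Y := Y) p 0 k1 [] a'' b'' [a', b', a, b, e] rfl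
    simp only [List.nil_append, e1] at this
    rw [hk0, this]
    split_ifs <;> simp [Finset.mul_sum]
  simp only [List.foldr_cons, List.foldr_nil, step]
  simp only [List.take_succ_cons, List.take_zero, List.drop_succ_cons, List.drop_zero,
    List.cons_append, List.nil_append, e0, mul_ite, mul_zero, Finset.sum_ite_eq', Finset.mem_univ,
    if_true, cl, Finset.mul_sum]
  iterate 5 refine Finset.sum_congr rfl fun _ _ => ?_
  ring

theorem Par.colM_eq (h : Par s0 s1 Y) (a : ℤ) : colM s0 s1 Y (2 * a + 1) =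
    ∑ i, ![1, (a : ℂ), Uu (s0 ^ 2 * s1 ^ 2) (s0 ^ 2 * s1 ^ 2)⁻¹ a] i • Par.BB s0 s1 Y i := by
  set D := TR s0 s1 (Rmat s0 s1 Y) * TL (Rmat s0 s1 Y) with hD
  set F : ℤ → Mx := fun a =>
    ∑ i, ![1, (a : ℂ), Uu (s0 ^ 2 * s1 ^ 2) (s0 ^ 2 * s1 ^ 2)⁻¹ a] i • Par.BB s0 s1 Y i with hF
  have hs : ∀ a, F (a + 1) = D * F a := fun a => by
    simp only [hF, hD, h.D_BB, Uu_succ (mul_inv_cancel₀ h.q_ne), Int.cast_add, Int.cast_one,
      add_comm (1 : ℂ)]
  have h0 : F 0 = TR s0 s1 (Rmat s0 s1 Y) := by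
    simp [hF, Fin.sum_univ_three, Uu_zero, h.BB0]
  have hi : TR s0 s1 (Rmat s0 s1 Y)⁻¹ * TL (Rmat s0 s1 Y)⁻¹ * D = 1 := by
    rw [hD, mul_assoc, ← mul_assoc (TL _), h.inv1, one_mul, h.inv2]
  have hp : ∀ n : ℕ, F n = D ^ n * TR s0 s1 (Rmat s0 s1 Y) := fun n => by
    induction n with
    | zero => simpa using h0
    | succ n ih => rw [Nat.cast_succ, hs, ih, pow_succ', mul_assoc D]
  have hb : ∀ a, F a = TR s0 s1 (Rmat s0 s1 Y)⁻¹ * TL (Rmat s0 s1 Y)⁻¹ * F (a + 1) := fun a => by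
    rw [hs, ← mul_assoc, hi, one_mul]
  have hn : ∀ n : ℕ, F (-1 - n) = (TR s0 s1 (Rmat s0 s1 Y)⁻¹ * TL (Rmat s0 s1 Y)⁻¹) ^ n *
      TR s0 s1 (Rmat s0 s1 Y)⁻¹ := fun n => by
    induction n with
    | zero =>
      rw [hb, show (-1 - ((0 : ℕ) : ℤ) + 1) = 0 by simp, h0, mul_assoc, h.inv1]
      simp
    | succ n ih =>
      rw [hb, show (-1 - ((n + 1 : ℕ) : ℤ) + 1) = -1 - n by push_cast; ring, ih, pow_succ',
        mul_assoc _ _ (TR _ _ _)]
  change _ = F a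
  rcases le_or_gt 0 a with ha | ha
  · obtain ⟨n, rfl⟩ := Int.eq_ofNat_of_zero_le ha
    rw [hp, colM, decide_eq_true (by omega), show (2 * (n : ℤ) + 1).natAbs / 2 = n by omega]
    rfl
  · obtain ⟨n, rfl⟩ : ∃ n : ℕ, a = -1 - n := ⟨(-1 - a).toNat, by omega⟩
    rw [hn, colM, decide_eq_false (by omega),
      show (2 * (-1 - (n : ℤ)) + 1).natAbs / 2 = n by omega]
    rfl

theorem Par.LG_eq (h : Par s0 s1 Y) (a b c : ℤ) :
    let q := s0 ^ 2 * s1 ^ 2
    LG s0 s1 Y (pretzel (2 * a + 1) (2 * b + 1) (2 * c + 1)) =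
      PP gC q a b c (Uu q q⁻¹ a) (Uu q q⁻¹ b) (Uu q q⁻¹ c) -
      (s0 ^ 2 + s1 ^ 2) * PP gB q a b c (Uu q q⁻¹ a) (Uu q q⁻¹ b) (Uu q q⁻¹ c) +
      (s0 ^ 4 + s1 ^ 4) * PP gA q a b c (Uu q q⁻¹ a) (Uu q q⁻¹ b) (Uu q q⁻¹ c) := by
  intro q
  rw [LG_cl, h.colM_eq, h.colM_eq, h.colM_eq]
  rw [cl_lin1]
  simp only [cl_lin2]
  simp only [cl_lin3, h.cl_BB, PP, Finset.mul_sum, ← Finset.sum_add_distrib,
    ← Finset.sum_sub_distrib]
  iterate 3 refine Finset.sum_congr rfl fun _ _ => ?_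
  ring

end Pool.Agent.P.MP_9ed2cf_gt
end
end

-- part Pool.Agent.P.MP_9ed2cf_gt.Nice
section

/-! From local inequalities between three diagonals to two-dimensional log-concavity. -/

set_option autoImplicit false

namespace Pool.Agent.P.MP_9ed2cf_gt

/-- two-dimensional log-concavity and absence of interior zeros -/
def Nice (f : ℤ × ℤ → ℤ) : Prop :=
  (∀ i j k l : ℤ, |f (i + k, j + l)| * |f (i - k, j - l)| ≤ |f (i, j)| ^ 2) ∧
  ∀ m : ℤ × ℤ, ((m.1 : ℝ), (m.2 : ℝ)) ∈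
    convexHull ℝ ((fun m : ℤ × ℤ => ((m.1 : ℝ), (m.2 : ℝ))) '' {m | f m ≠ 0}) → f m ≠ 0

theorem Nice.neg {f : ℤ × ℤ → ℤ} (h : Nice f) : Nice fun m => f (-m) := by
  refine ⟨fun i j k l => ?_, fun m hm => h.2 (-m) ?_⟩
  · have := h.1 (-i) (-j) (-k) (-l)
    simp only [Prod.neg_mk, neg_add_rev, neg_sub]
    convert this using 5 <;> ring
  · have h1 := Set.mem_image_of_mem (-LinearMap.id : ℝ × ℝ →ₗ[ℝ] ℝ × ℝ) hm
    rw [LinearMap.image_convexHull] at h1
    have h2 : (-LinearMap.id : ℝ × ℝ →ₗ[ℝ] ℝ × ℝ) ((m.1 : ℝ), (m.2 : ℝ)) =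
        (((-m).1 : ℝ), ((-m).2 : ℝ)) := by simp
    rw [h2] at h1
    refine convexHull_mono ?_ h1
    rintro _ ⟨_, ⟨x, hx, rfl⟩, rfl⟩
    exact ⟨-x, hx, by simp⟩

/-- comparison of ratios -/
def Dom (f g : ℤ → ℤ) (x y : ℤ) : Prop := f (x + 1) * g y ≤ f x * g (y + 1)

theorem Dom.trans {f g h : ℤ → ℤ} {x y z : ℤ} (h1 : Dom f g x y) (h2 : Dom g h y z)
    (hg : 0 < g y) (hf : 0 ≤ f x) (hh : 0 ≤ h z) : Dom f h x z := by
  unfold Dom at *
  refine le_of_mul_le_mul_right ?_ hg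
  have a1 := mul_le_mul_of_nonneg_right h1 hh
  have a2 := mul_le_mul_of_nonneg_left h2 hf
  nlinarith

theorem spread {f g : ℤ → ℤ} {x y : ℤ} (h : ∀ t : ℕ, Dom f g (x + t) (y - t - 1)) (k : ℕ) :
    f (x + k) * g (y - k) ≤ f x * g y := by
  induction k with
  | zero => simp
  | succ k ih =>
    have := h k
    unfold Dom at this
    rw [sub_add_cancel] at this
    push_cast
    rw [← add_assoc, ← sub_sub]
    exact this.trans ih

/-- the three diagonals -/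
structure Tri (A B C : ℤ → ℤ) (lo hA hC : ℤ) : Prop where
  hc : hC = hA + 1 ∨ hC = hA + 2
  lA : ∀ n, n < lo → A n = 0
  lB : ∀ n, n < lo → B n = 0
  lC : ∀ n, n < lo → C n = 0
  sA : ∀ n, lo ≤ n → (hA < n ∧ A n = 0) ∨ (n ≤ hA ∧ 0 < A n)
  sB : ∀ n, lo ≤ n → (hA + 1 < n ∧ B n = 0) ∨ (n ≤ hA + 1 ∧ 0 < B n)
  sC : ∀ n, lo ≤ n → (hC < n ∧ C n = 0) ∨ (n ≤ hC ∧ 0 < C n)
  ra : ∀ n, lo ≤ n → Dom A B n n
  rb : ∀ n, lo ≤ n → Dom B C n n
  rc : ∀ n, lo ≤ n → C (n + 1) * B (n - 1) ≤ C n * B n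
  rd : ∀ n, lo ≤ n → B (n + 1) * A (n - 1) ≤ B n * A n
  x1 : ∀ n, lo ≤ n → B n * B (n - 1) ≤ C n * C n
  x2 : ∀ n, lo ≤ n → A (n - 1) * A (n - 1) ≤ C n * C n
  x3 : ∀ n, lo ≤ n → A n * C n ≤ B n * B n
  x4 : ∀ n, lo ≤ n → A (n - 1) * C (n + 1) ≤ B n * B n

/-- the array with the given diagonals -/
def arr (A B C : ℤ → ℤ) (m : ℤ × ℤ) : ℤ :=
  if m.1 = m.2 then C m.1 else if m.1 = m.2 + 1 then B m.2 else if m.2 = m.1 + 1 then B m.1
  else if m.1 = m.2 + 2 then A m.2 else if m.2 = m.1 + 2 then A m.1 else 0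

namespace Tri

variable {A B C : ℤ → ℤ} {lo hA hC : ℤ} (T : Tri A B C lo hA hC)

include T

theorem tA (n : ℤ) : A n = 0 ∨ (lo ≤ n ∧ n ≤ hA ∧ 0 < A n) := by
  rcases lt_or_ge n lo with h | h
  · exact Or.inl (T.lA n h)
  · rcases T.sA n h with h1 | h1
    · exact Or.inl h1.2
    · exact Or.inr ⟨h, h1⟩

theorem tB (n : ℤ) : B n = 0 ∨ (lo ≤ n ∧ n ≤ hA + 1 ∧ 0 < B n) := by
  rcases lt_or_ge n lo with h | h
  · exact Or.inl (T.lB n h)
  · rcases T.sB n h with h1 | h1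
    · exact Or.inl h1.2
    · exact Or.inr ⟨h, h1⟩

theorem tC (n : ℤ) : C n = 0 ∨ (lo ≤ n ∧ n ≤ hC ∧ 0 < C n) := by
  rcases lt_or_ge n lo with h | h
  · exact Or.inl (T.lC n h)
  · rcases T.sC n h with h1 | h1
    · exact Or.inl h1.2
    · exact Or.inr ⟨h, h1⟩

theorem nA (n : ℤ) : 0 ≤ A n := by rcases T.tA n with h | h <;> omega

theorem nB (n : ℤ) : 0 ≤ B n := by rcases T.tB n with h | h <;> omega

theorem nC (n : ℤ) : 0 ≤ C n := by rcases T.tC n with h | h <;> omega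

theorem pA {n : ℤ} (h1 : lo ≤ n) (h2 : n ≤ hA) : 0 < A n := by
  rcases T.sA n h1 with h | h <;> omega

theorem pB {n : ℤ} (h1 : lo ≤ n) (h2 : n ≤ hA + 1) : 0 < B n := by
  rcases T.sB n h1 with h | h <;> omega

theorem pC {n : ℤ} (h1 : lo ≤ n) (h2 : n ≤ hC) : 0 < C n := by
  rcases T.sC n h1 with h | h <;> omega

theorem dCB {n : ℤ} (h : lo ≤ n + 1) : Dom C B (n + 1) n := by
  have := T.rc (n + 1) h
  rwa [add_sub_cancel_right] at this

theorem dBA {n : ℤ} (h : lo ≤ n + 1) : Dom B A (n + 1) n := by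
  have := T.rd (n + 1) h
  rwa [add_sub_cancel_right] at this

theorem dBB {x y : ℤ} (h : y ≤ x) : Dom B B x y := by
  rcases T.tB y with h0 | h0
  · unfold Dom; rw [h0, mul_zero]; exact mul_nonneg (T.nB _) (T.nB _)
  induction x, h using Int.le_induction with
  | base => exact (mul_comm _ _).le
  | succ x hx ih =>
    rcases T.tB (x + 1 + 1) with h1 | h1
    · unfold Dom; rw [h1, zero_mul]; exact mul_nonneg (T.nB _) (T.nB _)
    have hc := T.hc
    exact ((T.rb (x + 1) (by omega)).trans (T.dCB (by omega)) (T.pC (by omega) (by omega))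
      (T.nB _) (T.nB _)).trans ih (T.pB (by omega) (by omega)) (T.nB _) (T.nB _)

theorem dAB {x y : ℤ} (h : y ≤ x) : Dom A B x y := by
  rcases T.tB y with h0 | h0
  · unfold Dom; rw [h0, mul_zero]; exact mul_nonneg (T.nA _) (T.nB _)
  rcases T.tA (x + 1) with h1 | h1
  · unfold Dom; rw [h1, zero_mul]; exact mul_nonneg (T.nA _) (T.nB _)
  exact (T.ra x (by omega)).trans (T.dBB h) (T.pB (by omega) (by omega)) (T.nA _) (T.nB _)

theorem dCB' {x y : ℤ} (h : y < x) : Dom C B x y := by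
  rcases T.tB y with h0 | h0
  · unfold Dom; rw [h0, mul_zero]; exact mul_nonneg (T.nC _) (T.nB _)
  rcases T.tC (x + 1) with h1 | h1
  · unfold Dom; rw [h1, zero_mul]; exact mul_nonneg (T.nC _) (T.nB _)
  have hc := T.hc
  have := T.dCB (n := x - 1) (by omega)
  rw [sub_add_cancel] at this
  exact this.trans (T.dBB (by omega)) (T.pB (by omega) (by omega)) (T.nC _) (T.nB _)

theorem dAA {x y : ℤ} (h : y < x) : Dom A A x y := by
  rcases T.tA y with h0 | h0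
  · unfold Dom; rw [h0, mul_zero]; exact mul_nonneg (T.nA _) (T.nA _)
  exact (T.dAB (y := y + 1) (by omega)).trans (T.dBA (by omega)) (T.pB (by omega) (by omega))
    (T.nA _) (T.nA _)

theorem dCA {x y : ℤ} (h : y + 1 < x) : Dom C A x y := by
  rcases T.tA y with h0 | h0
  · unfold Dom; rw [h0, mul_zero]; exact mul_nonneg (T.nC _) (T.nA _)
  exact (T.dCB' h).trans (T.dBA (by omega)) (T.pB (by omega) (by omega)) (T.nC _) (T.nA _)

theorem dAC {x y : ℤ} (h : y ≤ x) : Dom A C x y := by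
  rcases T.tC y with h0 | h0
  · unfold Dom; rw [h0, mul_zero]; exact mul_nonneg (T.nA _) (T.nC _)
  rcases T.tA (x + 1) with h1 | h1
  · unfold Dom; rw [h1, zero_mul]; exact mul_nonneg (T.nA _) (T.nC _)
  exact (T.dAB h).trans (T.rb y (by omega)) (T.pB (by omega) (by omega)) (T.nA _) (T.nC _)

theorem dCC {x y : ℤ} (h : y < x) : Dom C C x y := by
  rcases T.tC y with h0 | h0
  · unfold Dom; rw [h0, mul_zero]; exact mul_nonneg (T.nC _) (T.nC _)
  rcases T.tC (x + 1) with h1 | h1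
  · unfold Dom; rw [h1, zero_mul]; exact mul_nonneg (T.nC _) (T.nC _)
  have hc := T.hc
  exact (T.dCB' h).trans (T.rb y (by omega)) (T.pB (by omega) (by omega)) (T.nC _) (T.nC _)

omit T in
theorem spread' {f g : ℤ → ℤ} {x y u v : ℤ} {e : ℤ} (h : ∀ s t, t + e ≤ s → Dom f g s t)
    (hx : y - 1 + e ≤ x) (h1 : x ≤ u) (h2 : u + v = x + y) : f u * g v ≤ f x * g y := by
  obtain ⟨k, hk⟩ := Int.eq_ofNat_of_zero_le (sub_nonneg.2 h1)
  have := spread (f := f) (g := g) (x := x) (y := y) (fun t => h _ _ (by omega)) k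
  rwa [show x + k = u by omega, show y - k = v by omega] at this

theorem cAA {u v m : ℤ} (h : u + v = 2 * m) : A u * A v ≤ A m * A m := by
  rcases le_total m u with h1 | h1
  · exact spread' (e := 1) (fun s t h => T.dAA (by omega)) (by omega) h1 (by omega)
  · rw [mul_comm]
    exact spread' (e := 1) (fun s t h => T.dAA (by omega)) (by omega) (by omega) (by omega)

theorem cBB {u v m : ℤ} (h : u + v = 2 * m) : B u * B v ≤ B m * B m := by
  rcases le_total m u with h1 | h1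
  · exact spread' (e := 1) (fun s t h => T.dBB (by omega)) (by omega) h1 (by omega)
  · rw [mul_comm]
    exact spread' (e := 1) (fun s t h => T.dBB (by omega)) (by omega) (by omega) (by omega)

theorem cCC {u v m : ℤ} (h : u + v = 2 * m) : C u * C v ≤ C m * C m := by
  rcases le_total m u with h1 | h1
  · exact spread' (e := 1) (fun s t h => T.dCC (by omega)) (by omega) h1 (by omega)
  · rw [mul_comm]
    exact spread' (e := 1) (fun s t h => T.dCC (by omega)) (by omega) (by omega) (by omega)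

theorem cBBC {u v m : ℤ} (h : u + v + 1 = 2 * m) : B u * B v ≤ C m * C m := by
  have h0 : B m * B (m - 1) ≤ C m * C m := by
    rcases lt_or_ge m lo with h1 | h1
    · rw [T.lB m h1, zero_mul]; exact mul_self_nonneg _
    · exact T.x1 m h1
  refine le_trans ?_ h0
  rcases le_or_gt m u with h1 | h1
  · exact spread' (e := 1) (fun s t h => T.dBB (by omega)) (by omega) h1 (by omega)
  · rw [mul_comm]
    exact spread' (e := 1) (fun s t h => T.dBB (by omega)) (by omega) (by omega) (by omega)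

theorem cAAC {u v m : ℤ} (h : u + v + 2 = 2 * m) : A u * A v ≤ C m * C m := by
  refine (T.cAA (m := m - 1) (by omega)).trans ?_
  rcases lt_or_ge m lo with h1 | h1
  · rw [T.lA (m - 1) (by omega), zero_mul]; exact mul_self_nonneg _
  · exact T.x2 m h1

theorem cACB {u v m : ℤ} (h : u + v = 2 * m) : A u * C v ≤ B m * B m := by
  rcases le_or_gt m u with h1 | h1
  · refine le_trans (spread' (e := 0) (x := m) (y := m) (fun s t h => T.dAC (by omega)) (by omega)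
      h1 (by omega)) ?_
    rcases lt_or_ge m lo with h1 | h1
    · rw [T.lA m h1, zero_mul]; exact mul_self_nonneg _
    · exact T.x3 m h1
  · rw [mul_comm]
    refine le_trans (spread' (e := 2) (x := m + 1) (y := m - 1) (fun s t h => T.dCA (by omega))
      (by omega) (by omega) (by omega)) ?_
    rw [mul_comm]
    rcases lt_or_ge m lo with h1 | h1
    · rw [T.lA (m - 1) (by omega), zero_mul]; exact mul_self_nonneg _
    · exact T.x4 m h1

theorem cCAB {u v m : ℤ} (h : u + v = 2 * m) : C u * A v ≤ B m * B m := by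
  rw [mul_comm]; exact T.cACB (by omega)

omit T in
theorem arr_cases (i j : ℤ) :
    (i = j ∧ arr A B C (i, j) = C i) ∨ (i = j + 1 ∧ arr A B C (i, j) = B j) ∨
    (j = i + 1 ∧ arr A B C (i, j) = B i) ∨ (i = j + 2 ∧ arr A B C (i, j) = A j) ∨
    (j = i + 2 ∧ arr A B C (i, j) = A i) ∨ ((j + 2 < i ∨ i + 2 < j) ∧ arr A B C (i, j) = 0) := by
  unfold arr
  dsimp only
  split_ifs <;> simp_all <;> omega

theorem arr_nn (m : ℤ × ℤ) : 0 ≤ arr A B C m := by
  unfold arr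
  split_ifs <;> first | exact T.nA _ | exact T.nB _ | exact T.nC _ | exact le_rfl

theorem lc (i j k l : ℤ) :
    arr A B C (i + k, j + l) * arr A B C (i - k, j - l) ≤ arr A B C (i, j) ^ 2 := by
  rw [sq]
  rcases arr_cases (A := A) (B := B) (C := C) (i + k) (j + l) with
    ⟨h1, e1⟩ | ⟨h1, e1⟩ | ⟨h1, e1⟩ | ⟨h1, e1⟩ | ⟨h1, e1⟩ | ⟨h1, e1⟩ <;> rw [e1]
  rotate_right
  · rw [zero_mul]; exact mul_self_nonneg _
  all_goals
    rcases arr_cases (A := A) (B := B) (C := C) (i - k) (j - l) with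
      ⟨h2, e2⟩ | ⟨h2, e2⟩ | ⟨h2, e2⟩ | ⟨h2, e2⟩ | ⟨h2, e2⟩ | ⟨h2, e2⟩ <;> rw [e2]
    rotate_right
    · rw [mul_zero]; exact mul_self_nonneg _
    all_goals
      rcases arr_cases (A := A) (B := B) (C := C) i j with
        ⟨h3, e3⟩ | ⟨h3, e3⟩ | ⟨h3, e3⟩ | ⟨h3, e3⟩ | ⟨h3, e3⟩ | ⟨h3, e3⟩ <;> rw [e3] <;>
      first
        | (exfalso; omega)
        | exact T.cAA (by omega)
        | exact T.cBB (by omega)
        | exact T.cCC (by omega)
        | exact T.cBBC (by omega)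
        | exact T.cAAC (by omega)
        | exact T.cACB (by omega)
        | exact T.cCAB (by omega)

theorem supp (i j : ℤ) : arr A B C (i, j) ≠ 0 ↔ lo ≤ i ∧ lo ≤ j ∧ i ≤ hA + 2 ∧ j ≤ hA + 2 ∧
    i + j ≤ hA + hC + 2 ∧ i ≤ j + 2 ∧ j ≤ i + 2 := by
  have hc := T.hc
  rcases arr_cases (A := A) (B := B) (C := C) i j with
    ⟨h1, e1⟩ | ⟨h1, e1⟩ | ⟨h1, e1⟩ | ⟨h1, e1⟩ | ⟨h1, e1⟩ | ⟨h1, e1⟩ <;> rw [e1]
  · exact ⟨fun h => by rcases T.tC i with h0 | h0 <;> omega,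
      fun h => (T.pC (by omega) (by omega)).ne'⟩
  · exact ⟨fun h => by rcases T.tB j with h0 | h0 <;> omega,
      fun h => (T.pB (by omega) (by omega)).ne'⟩
  · exact ⟨fun h => by rcases T.tB i with h0 | h0 <;> omega,
      fun h => (T.pB (by omega) (by omega)).ne'⟩
  · exact ⟨fun h => by rcases T.tA j with h0 | h0 <;> omega,
      fun h => (T.pA (by omega) (by omega)).ne'⟩
  · exact ⟨fun h => by rcases T.tA i with h0 | h0 <;> omega,
      fun h => (T.pA (by omega) (by omega)).ne'⟩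
  · exact ⟨fun h => absurd rfl h, fun h => by omega⟩

theorem nice {f : ℤ × ℤ → ℤ} {c : ℤ} (hc : 0 < c) (hf : ∀ m, c * |f m| = arr A B C m) : Nice f := by
  have h0 : ∀ m, f m ≠ 0 ↔ arr A B C m ≠ 0 := fun m => by
    rw [← hf]; simp [hc.ne']
  refine ⟨fun i j k l => ?_, fun m hm => ?_⟩
  · have := T.lc i j k l
    rw [← hf, ← hf, ← hf] at this
    refine le_of_mul_le_mul_left ?_ (mul_pos hc hc)
    nlinarith
  · let S : Set (ℝ × ℝ) := {p | (lo : ℝ) ≤ p.1 ∧ (lo : ℝ) ≤ p.2 ∧ p.1 ≤ hA + 2 ∧ p.2 ≤ hA + 2 ∧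
      p.1 + p.2 ≤ hA + hC + 2 ∧ p.1 ≤ p.2 + 2 ∧ p.2 ≤ p.1 + 2}
    have hS : Convex ℝ S := by
      rintro p ⟨p1, p2, p3, p4, p5, p6, p7⟩ q ⟨q1, q2, q3, q4, q5, q6, q7⟩ a b ha hb hab
      obtain rfl : b = 1 - a := by linarith
      simp only [S, Set.mem_setOf_eq, Prod.fst_add, Prod.snd_add, Prod.smul_fst, Prod.smul_snd,
        smul_eq_mul]
      refine ⟨?_, ?_, ?_, ?_, ?_, ?_, ?_⟩ <;> nlinarith
    have h1 : ((m.1 : ℝ), (m.2 : ℝ)) ∈ S := by
      refine convexHull_min ?_ hS hm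
      rintro _ ⟨⟨i, j⟩, hx, rfl⟩
      have := (T.supp i j).1 ((h0 _).1 hx)
      simp only [S, Set.mem_setOf_eq]
      exact_mod_cast this
    refine (h0 m).2 ((T.supp m.1 m.2).2 ?_)
    simp only [S, Set.mem_setOf_eq] at h1
    exact_mod_cast h1

end Tri

end Pool.Agent.P.MP_9ed2cf_gt
end
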