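import Pool.Agent.K.MP_9ed2cf_gt.C4

/-! Certificates. -/

set_option autoImplicit false
set_option maxRecDepth 100000

namespace Pool.Agent.P.MP_9ed2cf_gt

def tPRA : Tr :=
  (.c 3 0 (.c 3 1 (.c 3 2 (.c 3 0 (.c 3 1 (.c 3 0 (.z 0 (.z 3 (.z 1 (.z 2 .L .L) .L) (.z 3 .L .L))
  (.z 3 .L (.z 3 .L .L))) (.z 3 (.z 1 (.z 2 .L .L) .L) .L)) (.z 3 (.z 2 .L .L) .L)) (.c 2 0 (.z 2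
  .L (.z 2 .L .L)) .L)) (.c 3 0 (.z 3 .L .L) .L)) .L) .L)

theorem cPRA : chk (lfQ NA NB NA NB 1 0 0 1) tPRA sP = true := by
  decide +kernel

def tPRB : Tr :=
  (.c 3 0 (.c 3 1 (.c 3 2 (.c 3 0 (.c 3 1 (.c 3 0 (.z 3 (.z 0 (.z 1 (.z 2 .L (.z 2 .L .L)) (.z 1
  (.z 2 .L .L) .L)) (.z 0 (.z 1 (.z 2 .L .L) .L) .L)) (.z 0 (.z 3 (.z 1 (.z 2 .L .L) .L) .L) (.z 3
  .L .L))) (.z 3 (.z 1 (.z 2 .L (.z 2 .L .L)) (.z 1 (.z 2 .L .L) .L)) (.z 3 (.z 1 (.z 2 .L .L) .L)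
  .L))) (.z 0 (.z 2 (.z 3 .L (.z 3 .L .L)) (.z 3 (.z 2 .L .L) (.z 3 .L .L))) (.z 3 (.z 2 .L (.z 2
  .L .L)) (.z 3 (.z 2 .L .L) .L)))) (.c 2 0 (.z 2 (.z 0 (.z 1 (.z 3 .L .L) (.z 3 .L .L)) (.z 3 .L
  .L)) (.z 3 (.z 2 .L (.z 2 .L .L)) (.z 2 .L (.z 2 .L .L)))) (.z 1 (.z 2 (.z 3 .L .L) (.z 3 .L
  .L)) (.z 2 (.z 3 .L .L) (.z 3 .L .L))))) (.c 3 0 (.z 0 (.z 1 (.z 3 .L (.z 3 .L .L)) (.z 3 .L (.z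
  3 .L .L))) (.z 3 .L (.z 3 .L .L))) (.z 1 (.z 3 .L .L) (.z 3 .L .L)))) (.z 0 (.z 3 .L .L) (.z 3
  .L .L))) (.z 3 .L .L))

theorem cPRB : chk (lfQ NB NC NB NC 1 0 0 1) tPRB sP = true := by
  decide +kernel

def tPRC : Tr :=
  (.c 3 0 (.c 3 1 (.c 3 2 (.c 3 0 (.c 3 1 (.z 3 (.z 1 (.z 2 (.z 0 .L .L) (.z 0 (.z 2 .L .L) (.z 2
  .L .L))) (.z 1 (.z 2 .L .L) .L)) (.c 3 0 (.z 0 (.z 3 (.z 1 (.z 2 .L .L) .L) (.z 3 .L .L)) (.z 3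
  .L (.z 3 .L .L))) (.z 3 (.z 1 (.z 2 .L .L) .L) .L))) (.z 3 (.z 2 (.z 0 .L .L) (.z 0 (.z 2 .L .L)
  (.z 2 .L .L))) (.z 3 (.z 2 .L .L) .L))) (.c 2 0 (.z 2 (.z 0 (.z 1 (.z 3 .L .L) (.z 3 .L .L)) (.z
  3 .L .L)) (.z 2 (.z 3 .L .L) (.z 3 (.z 2 .L .L) (.z 2 .L .L)))) (.z 1 (.z 2 (.z 3 .L .L) (.z 3
  .L .L)) (.z 2 (.z 3 .L .L) (.z 3 .L .L))))) (.c 3 0 (.z 3 (.z 0 (.z 1 .L .L) .L) (.z 3 .L .L))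
  (.z 1 (.z 3 .L .L) (.z 3 .L .L)))) (.z 0 (.z 3 .L .L) (.z 3 .L .L))) (.z 3 .L .L))

theorem cPRC : chk (lfQ NC NB NC NB 1 (-1) 0 0) tPRC sP = true := by
  decide +kernel

def tPRD : Tr :=
  (.c 3 0 (.c 3 1 (.c 3 2 (.c 3 0 (.c 3 1 (.c 3 0 (.z 3 (.z 0 (.z 1 (.z 2 .L .L) .L) .L) (.z 3 .L
  .L)) (.z 3 (.z 1 (.z 2 .L .L) .L) .L)) (.z 3 (.z 2 .L .L) .L)) (.c 2 0 (.z 2 .L (.z 2 .L .L))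
  .L)) (.c 3 0 (.z 3 .L .L) .L)) .L) .L)

theorem cPRD : chk (lfQ NB NA NB NA 1 (-1) 0 0) tPRD sP = true := by
  decide +kernel

def tPX4 : Tr :=
  (.c 3 0 (.c 3 1 (.c 3 2 (.c 3 0 (.c 3 1 (.z 3 (.z 1 (.z 2 .L .L) .L) (.c 3 0 (.z 3 .L .L) .L))
  (.z 3 (.z 2 .L .L) .L)) (.c 2 0 (.z 2 .L (.z 2 .L .L)) .L)) (.c 3 0 (.z 3 .L .L) .L)) .L) .L)

theorem cPX4 : chk (lfQ NA NC NB NB (-1) 1 0 0) tPX4 sP = true := by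
  decide +kernel

def tPX1 : Tr :=
  (.c 3 0 (.c 3 1 (.c 3 2 (.c 3 0 (.c 3 1 (.z 3 (.z 1 (.z 2 (.z 0 .L .L) (.z 0 (.z 2 .L .L) (.z 2
  .L .L))) (.z 1 (.z 2 .L .L) .L)) (.c 3 0 (.z 3 (.z 0 (.z 1 (.z 2 .L .L) .L) .L) (.z 3 .L .L))
  (.z 3 (.z 1 (.z 2 .L .L) .L) .L))) (.z 3 (.z 2 (.z 0 .L .L) (.z 0 (.z 2 .L .L) (.z 2 .L .L)))
  (.z 3 (.z 2 .L .L) .L))) (.c 2 0 (.z 2 (.z 0 (.z 1 (.z 3 .L .L) (.z 3 .L .L)) (.z 3 .L .L)) (.z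
  2 (.z 3 .L .L) (.z 3 (.z 2 .L .L) (.z 2 .L .L)))) (.z 1 (.z 2 (.z 3 .L .L) (.z 3 .L .L)) (.z 2
  (.z 3 .L .L) (.z 3 .L .L))))) (.c 3 0 (.z 3 (.z 0 (.z 1 .L .L) .L) (.z 3 .L .L)) (.z 1 (.z 3 .L
  .L) (.z 3 .L .L)))) (.z 0 (.z 3 .L .L) (.z 3 .L .L))) (.z 3 .L .L))

theorem cPX1 : chk (lfQ NB NB NC NC 0 (-1) 0 0) tPX1 sP = true := by
  decide +kernel

def tPSA : Tr :=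
  (.c 3 0 (.c 3 1 (.c 3 2 (.c 3 0 (.c 3 1 (.c 3 0 (.z 3 .L .L) .L) .L) (.c 2 0 (.z 2 .L .L) .L))
  (.c 3 0 .L .L)) .L) .L)

theorem cPSA : chk (lfS NA 1 0) tPSA sP = true := by
  decide +kernel

def tPSB : Tr :=
  (.c 3 0 (.c 3 1 (.c 3 2 (.c 3 0 (.c 3 1 (.z 3 (.z 1 (.z 2 .L .L) .L) (.c 3 0 (.z 3 .L .L) .L))
  (.z 3 (.z 2 .L .L) .L)) (.c 2 0 (.z 2 .L (.z 2 .L .L)) .L)) (.c 3 0 (.z 3 .L .L) .L)) .L) .L)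

theorem cPSB : chk (lfS NB 1 1) tPSB sP = true := by
  decide +kernel

def tPSC : Tr :=
  (.z 3 .L (.c 3 0 (.c 3 1 (.c 3 2 (.c 3 0 (.c 3 1 (.z 3 (.z 1 (.z 2 .L .L) .L) (.c 3 0 .L .L))
  (.z 3 (.z 2 .L .L) .L)) (.c 2 0 (.z 2 .L (.z 2 .L .L)) .L)) (.c 3 0 (.z 3 .L .L) .L)) .L) .L))

theorem cPSC : chk (lfS NC 1 1) tPSC sP = true := by
  decide +kernel

end Pool.Agent.P.MP_9ed2cf_gt
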