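import Pool.Agent.K.MP_9ed2cf_gt.C7

/-! Certificates. -/

set_option autoImplicit false
set_option maxRecDepth 100000

namespace Pool.Agent.P.MP_9ed2cf_gt

def tPX2 : Tr :=
  (.c 3 0 (.c 3 1 (.c 3 2 (.c 3 0 (.c 3 1 (.z 3 (.z 1 (.z 2 (.z 0 .L .L) (.z 0 (.z 2 .L .L) (.z 2
  .L .L))) (.z 1 (.z 2 .L .L) .L)) (.c 3 0 (.z 3 (.z 0 (.z 1 (.z 2 .L .L) .L) .L) .L) (.z 3 (.z 1
  (.z 2 .L .L) .L) .L))) (.z 3 (.z 2 (.z 0 .L .L) (.z 0 (.z 2 .L .L) (.z 2 .L .L))) (.z 3 (.z 2 .L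
  .L) .L))) (.c 2 0 (.z 2 (.z 0 (.z 1 (.z 3 .L .L) (.z 3 .L .L)) (.z 3 .L .L)) (.z 2 (.z 3 .L .L)
  (.z 3 (.z 2 .L .L) (.z 2 .L .L)))) (.z 1 (.z 2 (.z 3 .L .L) (.z 3 .L .L)) (.z 2 (.z 3 .L .L) (.z
  3 .L .L))))) (.c 3 0 (.z 3 (.z 0 (.z 1 .L .L) .L) (.z 3 .L .L)) (.z 1 (.z 3 .L .L) (.z 3 .L
  .L)))) (.z 0 (.z 3 .L .L) (.z 3 .L .L))) (.z 3 .L .L))

theorem cPX2 : chk (lfQ NA NA NC NC (-1) (-1) 0 0) tPX2 sP = true := by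
  decide +kernel

def tDRA : Tr :=
  (.c 3 0 (.c 3 1 (.z 1 (.z 3 (.z 0 .L .L) (.z 3 .L .L)) (.z 3 (.z 0 .L .L) (.z 3 .L .L))) (.c 0 1
  (.z 3 (.z 0 .L (.z 0 .L .L)) (.z 0 .L (.z 0 .L .L))) (.z 3 .L .L))) (.c 3 1 (.z 3 .L .L) (.z 1
  .L .L)))

theorem cDRA : chk (lfQ NA NB NA NB 1 0 0 1) tDRA sD = true := by
  decide +kernel

def tDRB : Tr :=
  (.c 3 0 (.c 3 1 (.z 3 (.z 1 (.z 0 .L .L) (.z 1 (.z 0 .L .L) (.z 0 .L .L))) (.z 1 (.z 3 .L (.z 3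
  .L .L)) (.z 3 .L (.z 3 .L .L)))) (.c 0 1 (.z 0 (.z 3 (.z 1 .L .L) (.z 3 .L .L)) (.z 3 (.z 0 .L
  .L) (.z 3 (.z 0 .L .L) (.z 0 .L .L)))) (.z 3 (.z 0 .L .L) (.z 3 .L .L)))) (.c 3 1 (.z 1 (.z 3 .L
  .L) (.z 3 .L .L)) (.z 1 (.z 3 .L .L) (.z 3 .L .L))))

theorem cDRB : chk (lfQ NB NC NB NC 1 0 0 1) tDRB sD = true := by
  decide +kernel

def tDRC : Tr :=
  (.c 3 0 (.z 3 (.c 0 1 (.z 0 (.z 1 .L .L) (.z 0 .L .L)) (.z 1 (.z 0 .L .L) (.z 0 .L .L))) (.c 3 1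
  (.z 3 (.z 1 (.z 0 .L .L) (.z 0 .L .L)) (.z 3 .L .L)) (.c 0 1 (.z 3 (.z 0 .L (.z 0 .L .L)) (.z 0
  .L (.z 0 .L .L))) (.z 1 (.z 3 .L .L) (.z 3 .L .L))))) (.c 3 1 (.z 1 (.z 3 .L (.z 3 .L .L)) (.z 3
  .L (.z 3 .L .L))) (.z 1 (.z 3 .L .L) (.z 3 .L .L))))

theorem cDRC : chk (lfQ NC NB NC NB 1 (-1) 0 0) tDRC sD = true := by
  decide +kernel

def tPX3 : Tr :=
  (.c 3 0 (.c 3 1 (.c 3 2 (.c 3 0 (.c 3 1 (.c 3 0 (.z 3 (.z 0 (.z 1 (.z 2 .L (.z 2 .L .L)) (.z 1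
  (.z 2 .L .L) .L)) (.z 0 (.z 1 (.z 2 .L .L) .L) .L)) (.z 0 (.z 3 (.z 1 (.z 2 .L .L) .L) .L) (.z 3
  .L .L))) (.z 3 (.z 1 (.z 2 .L (.z 2 .L .L)) (.z 1 (.z 2 .L .L) .L)) (.z 3 (.z 1 (.z 2 .L .L) .L)
  .L))) (.z 0 (.z 2 (.z 3 .L (.z 3 .L .L)) (.z 3 (.z 2 .L .L) (.z 3 .L .L))) (.z 3 (.z 2 .L (.z 2
  .L .L)) (.z 3 (.z 2 .L .L) .L)))) (.c 2 0 (.z 2 (.z 0 (.z 1 (.z 3 .L .L) (.z 3 .L .L)) (.z 3 .L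
  .L)) (.z 3 (.z 2 .L (.z 2 .L .L)) (.z 2 .L (.z 2 .L .L)))) (.z 1 (.z 2 (.z 3 .L .L) (.z 3 .L
  .L)) (.z 2 (.z 3 .L .L) (.z 3 .L .L))))) (.c 3 0 (.z 0 (.z 1 (.z 3 .L (.z 3 .L .L)) (.z 3 .L (.z
  3 .L .L))) (.z 3 .L (.z 3 .L .L))) (.z 1 (.z 3 .L .L) (.z 3 .L .L)))) (.z 0 (.z 3 .L .L) (.z 3
  .L .L))) (.z 3 .L .L))

theorem cPX3 : chk (lfQ NA NC NB NB 0 0 0 0) tPX3 sP = true := by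
  decide +kernel

def tDSA : Tr :=
  (.c 3 0 (.c 3 1 (.z 3 .L .L) (.c 0 1 (.z 0 .L .L) .L)) (.c 3 1 .L .L))

theorem cDSA : chk (lfS NA 0 (-1)) tDSA sD = true := by
  decide +kernel

def tDSB : Tr :=
  (.c 3 0 (.z 3 (.c 0 1 (.z 0 .L .L) .L) (.c 3 1 (.z 3 .L .L) (.c 0 1 (.z 0 .L .L) .L))) (.c 3 1
  (.z 3 .L .L) .L))

theorem cDSB : chk (lfS NB 0 0) tDSB sD = true := by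
  decide +kernel

def tDSC : Tr :=
  (.c 3 0 (.z 3 (.z 0 (.z 1 .L .L) (.c 0 1 .L (.z 1 .L .L))) (.z 3 (.c 0 1 .L (.z 1 .L .L)) (.c 3
  1 (.z 3 .L .L) (.c 0 1 .L (.z 1 .L .L))))) (.z 3 (.z 1 .L .L) (.c 3 1 .L (.z 1 .L .L))))

theorem cDSC : chk (lfS NC 0 1) tDSC sD = true := by
  decide +kernel

def tDRD : Tr :=
  (.c 3 0 (.c 3 1 (.z 3 (.z 1 (.z 0 .L .L) (.z 0 .L .L)) (.z 3 .L .L)) (.c 0 1 (.z 0 (.z 3 .L .L)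
  (.z 3 (.z 0 .L .L) (.z 0 .L .L))) (.z 3 .L .L))) (.c 3 1 (.z 3 .L .L) (.z 1 .L .L)))

theorem cDRD : chk (lfQ NB NA NB NA 1 (-1) 0 0) tDRD sD = true := by
  decide +kernel

def tDX1 : Tr :=
  (.c 3 0 (.z 3 (.c 0 1 (.z 0 (.z 1 .L .L) (.z 0 .L .L)) (.z 0 .L .L)) (.c 3 1 (.z 3 (.z 1 (.z 0
  .L .L) (.z 0 .L .L)) (.z 3 .L .L)) (.c 0 1 (.z 0 (.z 3 .L .L) (.z 3 (.z 0 .L .L) (.z 0 .L .L)))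
  (.z 3 .L .L)))) (.c 3 1 (.z 3 (.z 1 .L .L) (.z 3 .L .L)) (.z 3 .L .L)))

theorem cDX1 : chk (lfQ NB NB NC NC 0 (-1) 0 0) tDX1 sD = true := by
  decide +kernel

def tDX2 : Tr :=
  (.c 3 0 (.z 3 (.c 0 1 (.z 0 (.z 1 .L .L) .L) (.z 0 .L .L)) (.c 3 1 (.z 3 (.z 1 .L .L) (.z 3 .L
  .L)) (.c 0 1 (.z 0 (.z 3 .L .L) (.z 3 .L .L)) (.z 3 .L .L)))) (.c 3 1 (.z 3 (.z 1 .L .L) .L) (.z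
  3 .L .L)))

theorem cDX2 : chk (lfQ NA NA NC NC (-1) (-1) 0 0) tDX2 sD = true := by
  decide +kernel

def tDX3 : Tr :=
  (.c 3 0 (.c 3 1 (.z 3 (.z 1 (.z 0 .L .L) (.z 1 (.z 0 .L .L) (.z 0 .L .L))) (.z 1 (.z 3 .L (.z 3
  .L .L)) (.z 3 .L (.z 3 .L .L)))) (.c 0 1 (.z 0 (.z 3 (.z 1 .L .L) (.z 3 .L .L)) (.z 3 (.z 0 .L
  .L) (.z 3 (.z 0 .L .L) (.z 0 .L .L)))) (.z 3 (.z 0 .L .L) (.z 3 .L .L)))) (.c 3 1 (.z 1 (.z 3 .L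
  .L) (.z 3 .L .L)) (.z 3 .L .L)))

theorem cDX3 : chk (lfQ NA NC NB NB 0 0 0 0) tDX3 sD = true := by
  decide +kernel

def tDX4 : Tr :=
  (.c 3 0 (.z 3 (.c 0 1 (.z 0 .L .L) (.z 1 .L .L)) (.c 3 1 (.z 3 .L .L) (.c 0 1 (.z 0 .L .L) (.z 1
  .L .L)))) (.c 3 1 (.z 3 .L .L) (.z 1 .L .L)))

theorem cDX4 : chk (lfQ NA NC NB NB (-1) 1 0 0) tDX4 sD = true := by
  decide +kernel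

end Pool.Agent.P.MP_9ed2cf_gt
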