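import Pool.Agent.K.MP_9ed2cf_gt.C6
import Pool.Agent.K.MP_9ed2cf_gt.C8

/-! The main theorem. -/

set_option autoImplicit false

open LaurentPolynomial

noncomputable section

namespace Pool.Agent.P.MP_9ed2cf_gt

theorem ser_neg : ∀ (l : List ℤ) {y : ℤ}, y < 0 → ser l y = 0
  | [], _, _ => rfl
  | c :: l, y, h => by rw [ser, T6_neg (by omega), ser_neg l (by omega)]; simp

theorem ser_zero (l : List ℤ) {y : ℤ} (h : y ≤ 0) : ser (0 :: l) y = 0 := by
  rw [ser, ser_neg l (by omega)]; simp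

theorem al_negP (N : Nm) {a b c n : ℤ} (ha : 0 ≤ a) (hb : 0 ≤ b) (hc : 0 ≤ c) (h : n < 0) :
    al N a b c n = 0 := by
  rw [al]
  repeat rw [ser_neg _ (by omega)]
  simp

theorem al_negD {g : Fin 3 → Fin 3 → Fin 3 → List ℤ} {N : Nm} {d : ℕ} (H : Dg g N d) {a b n : ℤ}
    (ha : a ≤ -2) (hb : 0 ≤ b) (h : n < a + 1) : al N a b 0 n = 0 := by
  have h1 : n < 0 := by omega
  have h2 : n - b < 0 := by omega
  have h3 : n - a ≤ 0 := by omega
  have h4 : n - a - b ≤ 0 := by omega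
  cases H <;> simp only [al, sub_zero, NA, NB, NC, ser_neg _ h1, ser_neg _ h2, ser_zero _ h3,
    ser_zero _ h4] <;> simp

theorem holdsP {P : ℤ → ℤ → ℤ → ℤ → Prop} (h : sP.Holds P) {a b c : ℤ} (h0 : 0 ≤ a) (h1 : a ≤ b)
    (h2 : b ≤ c) (n : ℤ) (h3 : 0 ≤ n) : P a b c n := by
  have := h ⟨a, b - a, c - b, n⟩ ⟨h0, sub_nonneg.2 h1, sub_nonneg.2 h2, h3⟩
  convert this using 1 <;> simp [sP, Fm.ev]

theorem holdsD {P : ℤ → ℤ → ℤ → ℤ → Prop} (h : sD.Holds P) {a b : ℤ} (h0 : a ≤ -2) (h1 : 0 ≤ b)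
    (n : ℤ) (h3 : a + 1 ≤ n) : P a b 0 n := by
  have := h ⟨-2 - a, b, 0, n - a - 1⟩ ⟨by dsimp only; omega, h1, le_rfl, by dsimp only; omega⟩
  convert this using 1 <;> simp [sD, Fm.ev] <;> ring

theorem triP {a b c : ℤ} (h0 : 0 ≤ a) (h1 : a ≤ b) (h2 : b ≤ c) :
    Tri (al NA a b c) (al NB a b c) (al NC a b c) 0 (a + b + c) (a + b + c + 1) where
  hc := Or.inl rfl
  lA _ := al_negP _ h0 (by omega) (by omega)
  lB _ := al_negP _ h0 (by omega) (by omega)
  lC _ := al_negP _ h0 (by omega) (by omega)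
  sA n h := by simpa using holdsP (chk_sound (lfS_sound _ _ _) _ _ cPSA) h0 h1 h2 n h
  sB n h := by
    simpa only [one_mul] using holdsP (chk_sound (lfS_sound _ _ _) _ _ cPSB) h0 h1 h2 n h
  sC n h := by
    simpa only [one_mul] using holdsP (chk_sound (lfS_sound _ _ _) _ _ cPSC) h0 h1 h2 n h
  ra n h := by
    simpa [Dom] using holdsP (chk_sound (lfQ_sound _ _ _ _ _ _ _ _) _ _ cPRA) h0 h1 h2 n h
  rb n h := by
    simpa [Dom] using holdsP (chk_sound (lfQ_sound _ _ _ _ _ _ _ _) _ _ cPRB) h0 h1 h2 n h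
  rc n h := by
    simpa [sub_eq_add_neg] using
      holdsP (chk_sound (lfQ_sound _ _ _ _ _ _ _ _) _ _ cPRC) h0 h1 h2 n h
  rd n h := by
    simpa [sub_eq_add_neg] using
      holdsP (chk_sound (lfQ_sound _ _ _ _ _ _ _ _) _ _ cPRD) h0 h1 h2 n h
  x1 n h := by
    simpa [sub_eq_add_neg] using
      holdsP (chk_sound (lfQ_sound _ _ _ _ _ _ _ _) _ _ cPX1) h0 h1 h2 n h
  x2 n h := by
    simpa [sub_eq_add_neg] using
      holdsP (chk_sound (lfQ_sound _ _ _ _ _ _ _ _) _ _ cPX2) h0 h1 h2 n h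
  x3 n h := by
    simpa using holdsP (chk_sound (lfQ_sound _ _ _ _ _ _ _ _) _ _ cPX3) h0 h1 h2 n h
  x4 n h := by
    simpa [sub_eq_add_neg] using
      holdsP (chk_sound (lfQ_sound _ _ _ _ _ _ _ _) _ _ cPX4) h0 h1 h2 n h

theorem triD {a b : ℤ} (h0 : a ≤ -2) (h1 : 0 ≤ b) :
    Tri (al NA a b 0) (al NB a b 0) (al NC a b 0) (a + 1) (b - 1) (b + 1) where
  hc := Or.inr (by ring)
  lA _ := al_negD Dg.A h0 h1
  lB _ := al_negD Dg.B h0 h1
  lC _ := al_negD Dg.C h0 h1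
  sA n h := by
    simpa only [zero_mul, zero_add, add_zero, sub_eq_add_neg] using
      holdsD (chk_sound (lfS_sound _ _ _) _ _ cDSA) h0 h1 n h
  sB n h := by simpa using holdsD (chk_sound (lfS_sound _ _ _) _ _ cDSB) h0 h1 n h
  sC n h := by
    simpa only [zero_mul, zero_add, add_zero] using
      holdsD (chk_sound (lfS_sound _ _ _) _ _ cDSC) h0 h1 n h
  ra n h := by
    simpa [Dom] using holdsD (chk_sound (lfQ_sound _ _ _ _ _ _ _ _) _ _ cDRA) h0 h1 n h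
  rb n h := by
    simpa [Dom] using holdsD (chk_sound (lfQ_sound _ _ _ _ _ _ _ _) _ _ cDRB) h0 h1 n h
  rc n h := by
    simpa [sub_eq_add_neg] using
      holdsD (chk_sound (lfQ_sound _ _ _ _ _ _ _ _) _ _ cDRC) h0 h1 n h
  rd n h := by
    simpa [sub_eq_add_neg] using
      holdsD (chk_sound (lfQ_sound _ _ _ _ _ _ _ _) _ _ cDRD) h0 h1 n h
  x1 n h := by
    simpa [sub_eq_add_neg] using
      holdsD (chk_sound (lfQ_sound _ _ _ _ _ _ _ _) _ _ cDX1) h0 h1 n h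
  x2 n h := by
    simpa [sub_eq_add_neg] using
      holdsD (chk_sound (lfQ_sound _ _ _ _ _ _ _ _) _ _ cDX2) h0 h1 n h
  x3 n h := by
    simpa using holdsD (chk_sound (lfQ_sound _ _ _ _ _ _ _ _) _ _ cDX3) h0 h1 n h
  x4 n h := by
    simpa [sub_eq_add_neg] using
      holdsD (chk_sound (lfQ_sound _ _ _ _ _ _ _ _) _ _ cDX4) h0 h1 n h

/-- place a sequence on a diagonal -/
def dg (u v : ℤ) (f : ℤ →₀ ℤ) : ℤ × ℤ →₀ ℤ := f.mapDomain fun m => (m + u, m + v)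

theorem dg_apply (u v : ℤ) (f : ℤ →₀ ℤ) (i j : ℤ) :
    dg u v f (i, j) = if i - u = j - v then f (i - u) else 0 := by
  split_ifs with h
  · rw [show (i, j) = (fun m => (m + u, m + v)) (i - u) from Prod.ext (by simp) (by simp [h])]
    rw [dg, Finsupp.mapDomain_apply (fun x y e => by simpa using congrArg Prod.fst e)]
  · refine Finsupp.mapDomain_notin_range _ _ ?_
    rintro ⟨m, e⟩
    simp only [Prod.mk.injEq] at e
    omega

/-- the coefficient array -/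
def FS (a b c : ℤ) : ℤ × ℤ →₀ ℤ :=
  dg 0 0 (PL gC a b c).coeff - dg 1 0 (PL gB a b c).coeff - dg 0 1 (PL gB a b c).coeff +
    dg 2 0 (PL gA a b c).coeff + dg 0 2 (PL gA a b c).coeff

theorem FS_apply (a b c i j : ℤ) : FS a b c (i, j) =
    if i = j then (PL gC a b c).coeff i else if i = j + 1 then -(PL gB a b c).coeff j
    else if j = i + 1 then -(PL gB a b c).coeff i else if i = j + 2 then (PL gA a b c).coeff j
    else if j = i + 2 then (PL gA a b c).coeff i else 0 := by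
  simp only [FS, Finsupp.add_apply, Finsupp.sub_apply, dg_apply, sub_zero]
  split_ifs <;> first | (exfalso; omega) | (subst_vars; simp)

theorem nice_of_tri {a b c lo hA hC : ℤ}
    (T : Tri (al NA a b c) (al NB a b c) (al NC a b c) lo hA hC) : Nice (FS a b c) := by
  refine T.nice (c := 6) (by norm_num) fun ⟨i, j⟩ => ?_
  have e : ∀ x : ℤ, 6 * |x| = |6 * x| := fun x => by rw [abs_mul]; rfl
  rw [FS_apply, arr]
  dsimp only
  split_ifs <;> simp only [abs_neg, e, coeff_PL Dg.A, coeff_PL Dg.B, coeff_PL Dg.C, abs_zero,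
    mul_zero, abs_of_nonneg (T.nA _), abs_of_nonneg (T.nB _), abs_of_nonneg (T.nC _)]

theorem PL_swap {g : Fin 3 → Fin 3 → Fin 3 → List ℤ} {N : Nm} {d : ℕ} (H : Dg g N d)
    (a b c : ℤ) : PL g b a c = PL g a b c ∧ PL g a c b = PL g a b c := by
  constructor <;>
  · refine PL_eq H ?_
    rw [PL_key H, NN, NN]
    ring

theorem FS_swap (a b c : ℤ) : FS b a c = FS a b c := by
  simp only [FS, (PL_swap Dg.A a b c).1, (PL_swap Dg.B a b c).1, (PL_swap Dg.C a b c).1]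

theorem FS_swap' (a b c : ℤ) : FS a c b = FS a b c := by
  simp only [FS, (PL_swap Dg.A a b c).2, (PL_swap Dg.B a b c).2, (PL_swap Dg.C a b c).2]

theorem FS_mirror {a b c : ℤ} (h : Nice (FS a b c)) : Nice (FS (-1 - a) (-1 - b) (-1 - c)) := by
  convert h.neg using 1
  funext ⟨i, j⟩
  simp only [Prod.neg_mk, FS_apply, PL_mirror Dg.A, PL_mirror Dg.B, PL_mirror Dg.C]
  split_ifs <;> first | (exfalso; omega) | rfl | (congr 1; push_cast; omega) |
    (congr 2; push_cast; omega)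

theorem nice_pos {a b c : ℤ} (ha : 0 ≤ a) (hb : 0 ≤ b) (hc : 0 ≤ c) : Nice (FS a b c) := by
  wlog h1 : a ≤ b generalizing a b c
  · rw [← FS_swap]; exact this hb ha hc (by omega)
  rcases le_total b c with h2 | h2
  · exact nice_of_tri (triP ha h1 h2)
  · rw [← FS_swap']
    rcases le_total a c with h3 | h3
    · exact nice_of_tri (triP ha h3 h2)
    · rw [← FS_swap]
      exact nice_of_tri (triP hc h3 h1)

theorem nice_neg {a b c : ℤ} (ha : a < 0) (hb : b < 0) (hc : c < 0) : Nice (FS a b c) := by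
  have := FS_mirror (nice_pos (a := -1 - a) (b := -1 - b) (c := -1 - c) (by omega) (by omega)
    (by omega))
  simpa using this

theorem nice_unknot (b : ℤ) : Nice (FS (-1) b 0) := by
  have h : ∀ m, FS (-1) b 0 m = if m = 0 then 1 else 0 := by
    rintro ⟨i, j⟩
    simp only [FS_apply, PL_unknot Dg.A, PL_unknot Dg.B, PL_unknot Dg.C, ← T_zero (R := ℤ),
      if_true, T_apply, Prod.mk_eq_zero]
    split_ifs <;> first | (exfalso; omega) | simp
  refine ⟨fun i j k l => ?_, fun m hm => ?_⟩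
  · simp only [h, Prod.mk_eq_zero]
    split_ifs <;> first | (exfalso; omega) | simp
  · have h1 : {m | FS (-1) b 0 m ≠ 0} = {0} := by
      ext m
      simp [h]
    rw [h1, Set.image_singleton, convexHull_singleton] at hm
    simp only [Set.mem_singleton_iff, Prod.mk.injEq, Int.cast_inj] at hm
    rw [h, if_pos (Prod.ext hm.1 hm.2)]
    exact one_ne_zero

theorem nice_zero (a b : ℤ) : Nice (FS a b 0) := by
  wlog h1 : a ≤ b generalizing a b
  · rw [← FS_swap]; exact this _ _ (by omega)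
  by_cases h2 : a = -1
  · rw [h2]; exact nice_unknot b
  by_cases h3 : b = -1
  · rw [h3, ← FS_swap]; exact nice_unknot a
  rcases le_or_gt 0 a with ha | ha
  · exact nice_pos ha (by omega) le_rfl
  rcases le_or_gt 0 b with hb | hb
  · exact nice_of_tri (triD (by omega) hb)
  · have : FS a b 0 = FS (a + 1) (b + 1) (-1) := by
      simp only [FS, PL_flype Dg.A, PL_flype Dg.B, PL_flype Dg.C]
    rw [this]
    exact nice_neg (by omega) (by omega) (by omega)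

theorem nice_unit (a b : ℤ) {c : ℤ} (h : |2 * c + 1| = 1) : Nice (FS a b c) := by
  obtain rfl | rfl : c = 0 ∨ c = -1 := by
    rcases (abs_eq zero_le_one).1 h with h | h <;> omega
  · exact nice_zero a b
  · simpa using FS_mirror (nice_zero (-1 - a) (-1 - b))

theorem eval_LL {q : ℂ} (hq : q ≠ 0) (f : LL) :
    eval₂ (Int.castRingHom ℂ) (Units.mk0 q hq) f =
      Finsupp.linearCombination ℤ (fun n : ℤ => q ^ n) f.coeff := by
  induction f using LaurentPolynomial.induction_on' with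
  | add p r hp hr => rw [map_add, hp, hr, AddMonoidAlgebra.coeff_add, map_add]
  | C_mul_T k a =>
    rw [eval₂_C_mul_T, ← single_eq_C_mul_T, AddMonoidAlgebra.coeff_single,
      Finsupp.linearCombination_single]
    simp

theorem lc_dg {x y : ℂ} (hx : x ≠ 0) (hy : y ≠ 0) (u v : ℤ) (f : ℤ →₀ ℤ) :
    Finsupp.linearCombination ℤ (fun m : ℤ × ℤ => x ^ m.1 * y ^ m.2) (dg u v f) =
      x ^ u * y ^ v * Finsupp.linearCombination ℤ (fun n : ℤ => (x * y) ^ n) f := by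
  rw [dg, Finsupp.linearCombination_mapDomain]
  simp only [Finsupp.linearCombination_apply, Finsupp.sum, Finset.mul_sum, Function.comp_apply,
    zpow_add₀ hx, zpow_add₀ hy, mul_zpow, zsmul_eq_mul]
  exact Finset.sum_congr rfl fun _ _ => by ring

theorem LG_FS {s0 s1 Y : ℂ} (h : Par s0 s1 Y) (a b c : ℤ) :
    LG s0 s1 Y (pretzel (2 * a + 1) (2 * b + 1) (2 * c + 1)) =
      (FS a b c).sum fun m x => (x : ℂ) * (s0 ^ 2) ^ m.1 * (s1 ^ 2) ^ m.2 := by
  have hx := pow_ne_zero 2 h.h0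
  have hy := pow_ne_zero 2 h.h1
  have e : ∀ g, Finsupp.linearCombination ℤ (fun n : ℤ => (s0 ^ 2 * s1 ^ 2) ^ n)
      (PL g a b c).coeff = PP g (s0 ^ 2 * s1 ^ 2) a b c (Uu (s0 ^ 2 * s1 ^ 2) (s0 ^ 2 * s1 ^ 2)⁻¹ a)
        (Uu (s0 ^ 2 * s1 ^ 2) (s0 ^ 2 * s1 ^ 2)⁻¹ b)
        (Uu (s0 ^ 2 * s1 ^ 2) (s0 ^ 2 * s1 ^ 2)⁻¹ c) := by
    intro g
    rw [← eval_LL h.q_ne, PL, map_PP]
    simp only [UL, map_Uu, map_intCast, eval₂_T, zpow_one, Units.val_mk0, zpow_neg,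
      Units.val_inv_eq_inv_val]
  have e2 : ((FS a b c).sum fun m x => (x : ℂ) * (s0 ^ 2) ^ m.1 * (s1 ^ 2) ^ m.2) =
      Finsupp.linearCombination ℤ (fun m : ℤ × ℤ => (s0 ^ 2) ^ m.1 * (s1 ^ 2) ^ m.2)
        (FS a b c) := by
    simp only [Finsupp.linearCombination_apply, zsmul_eq_mul, mul_assoc]
  rw [e2, h.LG_eq, FS]
  simp only [map_add, map_sub, lc_dg hx hy, e, zpow_zero, zpow_one, zpow_ofNat]
  ring

theorem main (p q r : ℤ) (hp : Odd p) (hq : Odd q) (hr : Odd r)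
    (h : (0 < p ∧ 0 < q ∧ 0 < r) ∨ (p < 0 ∧ q < 0 ∧ r < 0) ∨ |p| = 1 ∨ |q| = 1 ∨ |r| = 1) :
    ∃ a : ℤ × ℤ →₀ ℤ,
      (∀ s0 s1 Y : ℂ, s0 ≠ 0 → s1 ≠ 0 → Y ^ 2 = (s0 ^ 2 - 1) * (1 - s1 ^ 2) →
        LG s0 s1 Y (pretzel p q r) =
          a.sum fun m x => (x : ℂ) * (s0 ^ 2) ^ m.1 * (s1 ^ 2) ^ m.2) ∧
      (∀ i j k l : ℤ, |a (i + k, j + l)| * |a (i - k, j - l)| ≤ |a (i, j)| ^ 2) ∧
      ∀ m : ℤ × ℤ, ((m.1 : ℝ), (m.2 : ℝ)) ∈
        convexHull ℝ ((fun m : ℤ × ℤ => ((m.1 : ℝ), (m.2 : ℝ))) '' {m | a m ≠ 0}) → a m ≠ 0 := by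
  obtain ⟨a, rfl⟩ := hp
  obtain ⟨b, rfl⟩ := hq
  obtain ⟨c, rfl⟩ := hr
  refine ⟨FS a b c, fun s0 s1 Y h0 h1 hY => LG_FS ⟨h0, h1, hY⟩ a b c, ?_⟩
  change Nice (FS a b c)
  rcases h with h | h | h | h | h
  · exact nice_pos (by omega) (by omega) (by omega)
  · exact nice_neg (by omega) (by omega) (by omega)
  · rw [← FS_swap, ← FS_swap']; exact nice_unit _ _ h
  · rw [← FS_swap']; exact nice_unit _ _ h
  · exact nice_unit _ _ h

end Pool.Agent.P.MP_9ed2cf_gt
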